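import Pool.Agent.Helper45.SP.GoalsF

/-!
# MP_97d78d_ag / MP_5ff3c6_ag: packet SP LCMP (linear comparison of displacements)
-/

open Complex Metric Set Filter Topology
open scoped ContDiff ComplexConjugate

namespace Pool.Agent.Helper82.SP

open Pool.Agent.Helper95.Lin Pool.Agent.Helper10.SP Pool.Agent.Helper45.SP

theorem Near.mono {b : ℕ} {z₀ : Cn b} {ρ : ℝ} {f : Cn b → Cn b} {s s' : ℝ}
    (h : Near z₀ ρ f s) (hs : s ≤ s') : Near z₀ ρ f s' :=
  fun z hz => (h z hz).trans hs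

theorem LCMP (hLCONV : S_LCONV) (hPOW : S_POW) (hPEX : S_PEX) : S_LCMP' := by
  intro b z₀ r A G x ρ₀ hρ₀ hsub ρ hρ
  have hr := G.pos
  have hcl : closedBall x (ρ₀ / 2) ⊆ ball z₀ r :=
    (closedBall_subset_ball (by linarith)).trans hsub
  obtain ⟨r', hr', hsub'⟩ := exists_pos_lt_subset_ball hr isClosed_closedBall hcl
  set ρ₁ := max r' ρ with hρ₁def
  have hρ₁0 : 0 < ρ₁ := lt_of_lt_of_le hr'.1 (le_max_left _ _)
  have hρ₁r : ρ₁ < r := max_lt hr'.2 hρ
  have hb1 : ball x (ρ₀ / 2) ⊆ ball z₀ ρ₁ :=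
    ball_subset_closedBall.trans (hsub'.trans (ball_subset_ball (le_max_left _ _)))
  have hb2 : ball z₀ ρ ⊆ ball z₀ ρ₁ := ball_subset_ball (le_max_right _ _)
  obtain ⟨c₁, hc₁, hP⟩ := hPOW G ρ₁ hρ₁0 hρ₁r
  obtain ⟨c₂, hc₂, hE⟩ := hPEX G ρ₁ hρ₁0 hρ₁r
  set c := min c₁ c₂ with hcdef
  have hc : 0 < c := lt_min hc₁ hc₂
  have hcc1 : c ≤ c₁ := min_le_left _ _
  have hcc2 : c ≤ c₂ := min_le_right _ _
  have hball : ball x (ρ₀ / 2) ⊆ ball z₀ r := ball_subset_closedBall.trans hcl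
  obtain ⟨η₁, hη₁, hN1⟩ := hLCONV G x (ρ₀ / 2) (by linarith) hball ρ₁ hρ₁r (c / 2) (by linarith)
  obtain ⟨η₂, hη₂, hN2⟩ := hLCONV G x (ρ₀ / 2) (by linarith) hball ρ₁ hρ₁r (c / 4) (by linarith)
  refine ⟨4 * c / η₁, η₂, by positivity, hη₂, ?_⟩
  intro t ht s hs hnear
  have hs0 : 0 ≤ s := (norm_nonneg _).trans (hnear x (mem_ball_self hρ₀))
  have hnear' : Near x (ρ₀ / 2) t.g s := fun z hz => hnear z (ball_subset_ball (by linarith) hz)
  have ht4 : Near z₀ ρ₁ t.g (c / 4) := hN2 t ht (Near.mono hnear' hs)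
  obtain ⟨u, huA, hu0, humul⟩ := hE t ht (Near.mono ht4 (by linarith))
  have hpowers : ∀ J : ℕ, (∀ l < J, Near z₀ ρ₁ (u l).g (c / 2)) → Powers z₀ r A t J u := by
    intro J hJ
    exact ⟨huA, hu0, fun l hl => humul l (Near.mono (hJ l hl) (by linarith))⟩
  have hPJ : ∀ J : ℕ, (∀ l < J, Near z₀ ρ₁ (u l).g (c / 2)) → ∀ z ∈ ball z₀ ρ₁,
      J * ‖t.g z - z‖ ≤ 2 * ‖(u J).g z - z‖ ∧ ‖(u J).g z - z‖ ≤ 2 * (J * ‖t.g z - z‖) := by
    intro J hJ
    exact hP t ht (Near.mono ht4 (by linarith)) J u (hpowers J hJ)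
      (fun l hl => Near.mono (hJ l hl) (by linarith))
  have hCs : 0 ≤ 4 * c / η₁ * s := by positivity
  by_cases hall : ∀ l, Near z₀ ρ₁ (u l).g (c / 2)
  · intro z hz
    have hz1 := hb2 hz
    have h0 : ‖t.g z - z‖ ≤ 0 := by
      by_contra hne
      push Not at hne
      obtain ⟨J, hJ⟩ := exists_nat_gt (c / ‖t.g z - z‖)
      have h1 := (hPJ J (fun l _ => hall l) z hz1).1
      have h2 := hall J z hz1
      rw [div_lt_iff₀ hne] at hJ
      linarith
    exact h0.trans hCs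
  · push Not at hall
    classical
    have hex : ∃ l, ¬ Near z₀ ρ₁ (u l).g (c / 2) := hall
    set J := Nat.find hex with hJdef
    have hJ : ¬ Near z₀ ρ₁ (u J).g (c / 2) := Nat.find_spec hex
    have hlt : ∀ l < J, Near z₀ ρ₁ (u l).g (c / 2) := fun l hl => by
      have := Nat.find_min hex hl
      push Not at this
      exact this
    have hJ0 : J ≠ 0 := by
      intro h
      apply hJ
      rw [h]
      intro z hz
      have hz' : z ∈ ball z₀ r := ball_subset_ball hρ₁r.le hz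
      have := (hu0 z hz').1
      rw [this]
      simp only [Tri.one, id_eq, sub_self, norm_zero]
      linarith
    have hJ1 : J ≠ 1 := by
      intro h
      apply hJ
      rw [h]
      intro z hz
      have h1 := (hPJ 1 (fun l hl => hlt l (by omega)) z hz).2
      have h2 := ht4 z hz
      push_cast at h1
      linarith
    have hJ2 : 2 ≤ J := by omega
    have hnot : ¬ Near x (ρ₀ / 2) (u J).g η₁ := fun h => hJ (hN1 (u J) (huA J) h)
    unfold Near at hnot
    push Not at hnot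
    obtain ⟨y, hy, hy2⟩ := hnot
    have h1 := (hPJ J hlt y (hb1 hy)).2
    have h2 := hnear' y hy
    have hJpos : (0 : ℝ) ≤ J := Nat.cast_nonneg J
    have h3 : η₁ ≤ 2 * (J * s) := by
      have := mul_le_mul_of_nonneg_left h2 hJpos
      linarith
    intro z hz
    have hz1 := hb2 hz
    have h4 := (hPJ (J - 1) (fun l hl => hlt l (by omega)) z hz1).1
    have h5 := hlt (J - 1) (by omega) z hz1
    have hcast : ((J - 1 : ℕ) : ℝ) = (J : ℝ) - 1 := by
      rw [Nat.cast_sub (by omega)]; norm_num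
    rw [hcast] at h4
    have h6 : ((J : ℝ) - 1) * ‖t.g z - z‖ ≤ c := by linarith
    have hJ2' : (2 : ℝ) ≤ J := by exact_mod_cast hJ2
    have h7 : η₁ * ‖t.g z - z‖ ≤ 4 * c * s := by
      calc η₁ * ‖t.g z - z‖ ≤ 2 * (J * s) * ‖t.g z - z‖ :=
            mul_le_mul_of_nonneg_right h3 (norm_nonneg _)
        _ ≤ 2 * ((2 * (J - 1)) * s) * ‖t.g z - z‖ := by
            apply mul_le_mul_of_nonneg_right _ (norm_nonneg _)
            apply mul_le_mul_of_nonneg_left _ (by norm_num)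
            apply mul_le_mul_of_nonneg_right _ hs0
            linarith
        _ = 4 * s * (((J : ℝ) - 1) * ‖t.g z - z‖) := by ring
        _ ≤ 4 * s * c := mul_le_mul_of_nonneg_left h6 (by positivity)
        _ = 4 * c * s := by ring
    rw [div_mul_eq_mul_div, le_div_iff₀ hη₁]
    linarith

end Pool.Agent.Helper82.SP
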