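import Pool.Agent.Helper45.SP.GoalsF

/-!
# MP_97d78d_ag / MP_5ff3c6_ag: packet SP LEXT (no generator: the local group is discrete)
-/

open Complex Metric Set Filter Topology
open scoped ContDiff ComplexConjugate

namespace Pool.Agent.Helper82.SP

open Pool.Agent.Helper95.Lin Pool.Agent.Helper10.SP Pool.Agent.Helper45.SP

theorem LEXT (hLCONV : S_LCONV) (hLSUB : S_LSUB) : S_LEXT := by
  intro b z₀ r A G hV0
  have hr := G.pos
  by_contra hcon
  push Not at hcon
  have hex : ∀ k : ℕ, ∃ t ∈ A, Near z₀ (r / 2) t.g (1 / ((k : ℝ) + 1)) ∧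
      ∃ z ∈ ball z₀ r, t.g z ≠ z := fun k => hcon _ (by positivity)
  choose t htA htn y hy hyn using hex
  set S : ℕ → Set ℝ := fun k => (fun z => ‖(t k).g z - z‖) '' ball z₀ (r / 2) with hS
  have hz0 : z₀ ∈ ball z₀ (r / 2) := mem_ball_self (by linarith)
  have hne : ∀ k, (S k).Nonempty := fun k => ⟨_, mem_image_of_mem _ hz0⟩
  have hbdd : ∀ k, BddAbove (S k) := fun k => ⟨1 / ((k : ℝ) + 1), by
    rintro _ ⟨z, hz, rfl⟩
    exact htn k z hz⟩
  set τ : ℕ → ℝ := fun k => sSup (S k) with hτ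
  have hle : ∀ k, τ k ≤ 1 / ((k : ℝ) + 1) := fun k => csSup_le (hne k) (by
    rintro _ ⟨z, hz, rfl⟩
    exact htn k z hz)
  have hnear : ∀ k, Near z₀ (r / 2) (t k).g (τ k) := fun k z hz =>
    le_csSup (hbdd k) (mem_image_of_mem _ hz)
  have hτ0 : ∀ k, 0 ≤ τ k := fun k => (norm_nonneg _).trans (hnear k z₀ hz0)
  have hpos : ∀ k, 0 < τ k := by
    intro k
    rcases (hτ0 k).lt_or_eq with h | h
    · exact h
    · exfalso
      -- `t k` is the identity on the half ball, hence everywhere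
      apply hyn k
      have hyd : dist (y k) z₀ < r := hy k
      obtain ⟨ρ, h1, h2⟩ := exists_between hyd
      have hyρ : y k ∈ ball z₀ ρ := h1
      have hz : ‖(t k).g (y k) - y k‖ ≤ 0 := by
        apply le_of_forall_pos_le_add
        intro ε hε
        obtain ⟨η, hη, hN⟩ := hLCONV G z₀ (r / 2) (by linarith)
          (ball_subset_ball (by linarith)) ρ h2 ε hε
        have := hN (t k) (htA k) (fun z hz => by
          have := hnear k z hz
          linarith) (y k) hyρ
        linarith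
      exact sub_eq_zero.1 (norm_le_zero_iff.1 hz)
  have hlim : Tendsto τ atTop (𝓝 0) :=
    squeeze_zero hτ0 hle tendsto_one_div_add_atTop_nhds_zero_nat
  obtain ⟨φ, -, V, hV, hconv⟩ := hLSUB G z₀ (r / 2) (by linarith)
    (ball_subset_ball (by linarith)) t τ htA hpos hlim
    ⟨1, fun k => by rw [one_mul]; exact hnear k⟩
  have hev := hconv (r / 2) (by linarith) (1 / 2) (by norm_num)
  obtain ⟨k, hk⟩ := hev.exists
  have h1 : τ (φ k) ≤ 1 / 2 * τ (φ k) := csSup_le (hne _) (by
    rintro _ ⟨z, hz, rfl⟩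
    have h2 := hk z hz
    rw [hV0 V hV z (ball_subset_ball (by linarith) hz), smul_zero, sub_zero] at h2
    exact h2)
  have := hpos (φ k)
  linarith

end Pool.Agent.Helper82.SP
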