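import Pool.Agent.Helper45.SP.GoalsG

/-!
# MP_97d78d_ag / MP_5ff3c6_ag: packet SP PICK (Schwarz-Pick)
-/

open Complex Metric Set Filter Topology
open scoped ContDiff ComplexConjugate

namespace Pool.Agent.Helper82.SP

open Pool.Agent.Helper95.Lin Pool.Agent.Helper10.SP Pool.Agent.Helper45.SP

theorem moebius_id (M : ℝ) (u α : ℂ) :
    ‖(M : ℂ) ^ 2 - conj α * u‖ ^ 2 - (M * ‖u - α‖) ^ 2 = (M ^ 2 - ‖u‖ ^ 2) * (M ^ 2 - ‖α‖ ^ 2) := by
  rw [mul_pow, Complex.sq_norm, Complex.sq_norm, Complex.sq_norm, Complex.sq_norm]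
  simp only [Complex.normSq_apply, Complex.sub_re, Complex.sub_im, Complex.mul_re, Complex.mul_im,
    Complex.conj_re, Complex.conj_im, pow_two, Complex.ofReal_re, Complex.ofReal_im]
  ring

/-- Schwarz-Pick at the centre of the disc. -/
theorem schwarzPick {φ : ℂ → ℂ} {M R : ℝ} (hR : 0 < R) (hM : 0 < M)
    (hd : DifferentiableOn ℂ φ (ball 0 R)) (hb : ∀ ζ ∈ ball (0 : ℂ) R, ‖φ ζ‖ < M) :
    ‖deriv φ 0‖ ≤ (M ^ 2 - ‖φ 0‖ ^ 2) / (M * R) := by
  have h0 : (0 : ℂ) ∈ ball (0 : ℂ) R := mem_ball_self hR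
  set α := φ 0 with hα
  have hαM : ‖α‖ < M := hb 0 h0
  have hαM2 : 0 < M ^ 2 - ‖α‖ ^ 2 := by
    have := pow_lt_pow_left₀ hαM (norm_nonneg _) (by norm_num : (2 : ℕ) ≠ 0)
    linarith
  have hden : ∀ ζ ∈ ball (0 : ℂ) R, (M : ℂ) ^ 2 - conj α * φ ζ ≠ 0 := by
    intro ζ hζ h
    have h1 := moebius_id M (φ ζ) α
    rw [h, norm_zero] at h1
    have hu := hb ζ hζ
    have hu2 : 0 < M ^ 2 - ‖φ ζ‖ ^ 2 := by
      have := pow_lt_pow_left₀ hu (norm_nonneg _) (by norm_num : (2 : ℕ) ≠ 0)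
      linarith
    have : 0 < (M ^ 2 - ‖φ ζ‖ ^ 2) * (M ^ 2 - ‖α‖ ^ 2) := mul_pos hu2 hαM2
    have h2 : 0 ≤ (M * ‖φ ζ - α‖) ^ 2 := sq_nonneg _
    linarith
  set g : ℂ → ℂ := fun ζ => (M * (φ ζ - α)) / ((M : ℂ) ^ 2 - conj α * φ ζ) with hg
  have hgd : DifferentiableOn ℂ g (ball 0 R) := by
    apply DifferentiableOn.div
    · exact (hd.sub_const α).const_mul _
    · exact (hd.const_mul _).const_sub _
    · exact hden
  have hg0 : g 0 = 0 := by simp [hg, ← hα]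
  have hmaps : MapsTo g (ball 0 R) (ball (g 0) 1) := by
    intro ζ hζ
    rw [hg0, mem_ball_zero_iff]
    simp only [hg]
    have hu := hb ζ hζ
    have hu2 : 0 < M ^ 2 - ‖φ ζ‖ ^ 2 := by
      have := pow_lt_pow_left₀ hu (norm_nonneg _) (by norm_num : (2 : ℕ) ≠ 0)
      linarith
    have h1 := moebius_id M (φ ζ) α
    have h3 : 0 < (M ^ 2 - ‖φ ζ‖ ^ 2) * (M ^ 2 - ‖α‖ ^ 2) := mul_pos hu2 hαM2
    have h4 : (M * ‖φ ζ - α‖) ^ 2 < ‖(M : ℂ) ^ 2 - conj α * φ ζ‖ ^ 2 := by linarith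
    have h5 : M * ‖φ ζ - α‖ < ‖(M : ℂ) ^ 2 - conj α * φ ζ‖ := lt_of_pow_lt_pow_left₀ 2 (norm_nonneg _) h4
    rw [norm_div, norm_mul, Complex.norm_real, Real.norm_of_nonneg hM.le, div_lt_one
      (norm_pos_iff.2 (hden ζ hζ))]
    exact h5
  have hS := Complex.norm_deriv_le_div_of_mapsTo_ball hgd (hmaps.mono_right ball_subset_closedBall) hR
  have hφ : HasDerivAt φ (deriv φ 0) 0 := (hd.differentiableAt (isOpen_ball.mem_nhds h0)).hasDerivAt
  have hgder : HasDerivAt g (M * deriv φ 0 / ((M : ℂ) ^ 2 - conj α * α)) 0 := by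
    have h1 : HasDerivAt (fun ζ => (M : ℂ) * (φ ζ - α)) (M * deriv φ 0) 0 :=
      (hφ.sub_const α).const_mul _
    have h2 : HasDerivAt (fun ζ => (M : ℂ) ^ 2 - conj α * φ ζ) (-(conj α * deriv φ 0)) 0 :=
      (hφ.const_mul (conj α)).const_sub _
    have h3 := h1.div h2 (hden 0 h0)
    refine h3.congr_deriv ?_
    rw [← hα, sub_self, mul_zero, zero_mul, sub_zero]
    have := hden 0 h0
    rw [← hα] at this
    field_simp
  rw [hgder.deriv] at hS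
  have hcc : (M : ℂ) ^ 2 - conj α * α = ((M ^ 2 - ‖α‖ ^ 2 : ℝ) : ℂ) := by
    rw [mul_comm, Complex.mul_conj, Complex.normSq_eq_norm_sq]
    push_cast
    ring
  rw [hcc, norm_div, norm_mul, Complex.norm_real, Complex.norm_real, Real.norm_of_nonneg hM.le,
    Real.norm_of_nonneg hαM2.le, div_le_iff₀ hαM2] at hS
  rw [le_div_iff₀ (by positivity)]
  calc ‖deriv φ 0‖ * (M * R) = (M * ‖deriv φ 0‖) * R := by ring
    _ ≤ (1 / R * (M ^ 2 - ‖α‖ ^ 2)) * R := mul_le_mul_of_nonneg_right hS hR.le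
    _ = M ^ 2 - ‖α‖ ^ 2 := by field_simp

theorem PICK : S_PICK := by
  intro b z₀ ρ ρ' hρ f ε hε hf hmod z hz
  have hRpos : 0 < ρ' - ρ := by linarith
  have hzρ' : z ∈ ball z₀ ρ' := ball_subset_ball hρ.le hz
  have hε0 : 0 ≤ ε := (abs_nonneg _).trans (hmod z hzρ')
  apply ContinuousLinearMap.opNorm_le_bound _ (by positivity)
  intro v
  rcases eq_or_ne v 0 with hv | hv
  · rw [hv]; simp
  have hvn : 0 < ‖v‖ := norm_pos_iff.2 hv
  set R := (ρ' - ρ) / ‖v‖ with hR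
  have hR0 : 0 < R := by positivity
  set φ : ℂ → ℂ := fun ζ => f (z + ζ • v) with hφ
  have hmap : MapsTo (fun ζ : ℂ => z + ζ • v) (ball 0 R) (ball z₀ ρ') := by
    intro ζ hζ
    have h1 : ‖ζ‖ < R := by simpa using hζ
    have h2 : ‖ζ‖ * ‖v‖ < ρ' - ρ := by
      rw [hR, lt_div_iff₀ hvn] at h1
      exact h1
    have h3 : dist z z₀ < ρ := hz
    calc dist (z + ζ • v) z₀ ≤ dist (z + ζ • v) z + dist z z₀ := dist_triangle _ _ _
      _ = ‖ζ‖ * ‖v‖ + dist z z₀ := by rw [dist_eq_norm, add_sub_cancel_left, norm_smul]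
      _ < ρ' := by linarith
  have hline : ∀ ζ : ℂ, HasDerivAt (fun ζ : ℂ => z + ζ • v) v ζ := by
    intro ζ
    have := ((hasDerivAt_id ζ).smul_const v).const_add z
    simpa using this
  have hφd : DifferentiableOn ℂ φ (ball 0 R) :=
    hf.comp (fun ζ _ => (hline ζ).differentiableAt.differentiableWithinAt) hmap
  have hfz : DifferentiableAt ℂ f z := hf.differentiableAt (isOpen_ball.mem_nhds hzρ')
  have hφ0 : HasDerivAt φ (fderiv ℂ f z v) 0 := by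
    have h1 : HasFDerivAt f (fderiv ℂ f z) ((fun ζ : ℂ => z + ζ • v) 0) := by
      simpa using hfz.hasFDerivAt
    exact h1.comp_hasDerivAt (0 : ℂ) (hline 0)
  have hφz : φ 0 = f z := by simp [hφ]
  have hlow : 1 - ε ≤ ‖φ 0‖ := by
    rw [hφz]
    have := (abs_le.1 (hmod z hzρ')).1
    linarith
  have hmain : ‖fderiv ℂ f z v‖ ≤ 4 * ε / R := by
    apply le_of_forall_pos_le_add
    intro δ hδ
    -- choose `M = 1 + ε + κ`
    set κ := min 1 (δ * R / 5) with hκ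
    have hκ0 : 0 < κ := lt_min one_pos (by positivity)
    have hκ1 : κ ≤ 1 := min_le_left _ _
    have hκ2 : κ ≤ δ * R / 5 := min_le_right _ _
    set M := 1 + ε + κ with hM
    have hM1 : 1 ≤ M := by linarith
    have hb : ∀ ζ ∈ ball (0 : ℂ) R, ‖φ ζ‖ < M := by
      intro ζ hζ
      have := (abs_le.1 (hmod _ (hmap hζ))).2
      show ‖f (z + ζ • v)‖ < M
      linarith
    have hS := schwarzPick hR0 (by linarith) hφd hb
    rw [hφ0.deriv] at hS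
    have hnum : 0 ≤ M ^ 2 - ‖φ 0‖ ^ 2 := by
      have := hb 0 (mem_ball_self hR0)
      have := pow_lt_pow_left₀ this (norm_nonneg _) (by norm_num : (2 : ℕ) ≠ 0)
      linarith
    have h1 : (M ^ 2 - ‖φ 0‖ ^ 2) / (M * R) ≤ (M ^ 2 - ‖φ 0‖ ^ 2) / R := by
      apply div_le_div_of_nonneg_left hnum hR0
      nlinarith
    have h2 : (1 - ε) ^ 2 ≤ ‖φ 0‖ ^ 2 := pow_le_pow_left₀ (by linarith) hlow 2
    have h3 : M ^ 2 - ‖φ 0‖ ^ 2 ≤ 4 * ε + δ * R := by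
      have : M ^ 2 - (1 - ε) ^ 2 = 4 * ε + κ * (2 + 2 * ε + κ) := by rw [hM]; ring
      have h4 : κ * (2 + 2 * ε + κ) ≤ κ * 5 := mul_le_mul_of_nonneg_left (by linarith) hκ0.le
      linarith
    calc ‖fderiv ℂ f z v‖ ≤ (M ^ 2 - ‖φ 0‖ ^ 2) / R := hS.trans h1
      _ ≤ (4 * ε + δ * R) / R := div_le_div_of_nonneg_right h3 hR0.le
      _ = 4 * ε / R + δ := by field_simp
  calc ‖fderiv ℂ f z v‖ ≤ 4 * ε / R := hmain
    _ = 4 * ε / (ρ' - ρ) * ‖v‖ := by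
      rw [hR]
      field_simp

end Pool.Agent.Helper82.SP
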