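import Pool.Agent.Helper10.SP.GoalsT

/-!
# MP_97d78d_ag / MP_5ff3c6_ag: packet SP-PROJ (projection to the holomorphic sections)
-/

open Complex Metric Set Filter Topology MeasureTheory
open scoped ContDiff ComplexConjugate ComplexOrder Manifold

namespace Pool.Agent.Helper82.SP

open Pool.Agent.Helper95.Lin Pool.Agent.Helper16.Abund Pool.Agent.Helper92.Orb
open Pool.Agent.Helper10.SP

universe u

namespace PROJ

variable {n : ℕ}

theorem cd_lin {f g : Cn n → ℂ} {x : Cn n} (hf : DifferentiableAt ℝ f x)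
    (hg : DifferentiableAt ℝ g x) (a c : ℂ) (l : Fin n) :
    cd l (fun y => a * f y + c * g y) x = a * cd l f x + c * cd l g x := by
  unfold cd
  have h : HasFDerivAt (𝕜 := ℝ) (fun y => a * f y + c * g y)
      (a • fderiv ℝ f x + c • fderiv ℝ g x) x :=
    (hf.hasFDerivAt.const_mul a).add (hg.hasFDerivAt.const_mul c)
  rw [h.fderiv]
  simp only [add_apply, smul_apply, smul_eq_mul]
  ring

theorem cdb_lin {f g : Cn n → ℂ} {x : Cn n} (hf : DifferentiableAt ℝ f x)
    (hg : DifferentiableAt ℝ g x) (a c : ℂ) (l : Fin n) :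
    cdb l (fun y => a * f y + c * g y) x = a * cdb l f x + c * cdb l g x := by
  unfold cdb
  have h : HasFDerivAt (𝕜 := ℝ) (fun y => a * f y + c * g y)
      (a • fderiv ℝ f x + c • fderiv ℝ g x) x :=
    (hf.hasFDerivAt.const_mul a).add (hg.hasFDerivAt.const_mul c)
  rw [h.fderiv]
  simp only [add_apply, smul_apply, smul_eq_mul]
  ring

theorem cd_congr {T : Set (Cn n)} (hT : IsOpen T) {f g : Cn n → ℂ} (h : ∀ y ∈ T, f y = g y)
    {x : Cn n} (hx : x ∈ T) (l : Fin n) : cd l f x = cd l g x := by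
  have e : f =ᶠ[𝓝 x] g := by
    filter_upwards [hT.mem_nhds hx] with y hy using h y hy
  unfold cd
  rw [e.fderiv_eq]

theorem smDA {T : Set (Cn n)} (hT : IsOpen T) {f : Cn n → ℂ} (hf : ContDiffOn ℝ ∞ f T)
    {x : Cn n} (hx : x ∈ T) : DifferentiableAt ℝ f x :=
  (hf.contDiffAt (hT.mem_nhds hx)).differentiableAt (by simp)

section lin

variable {T : Set (Cn n)} {H : Cn n → Matrix (Fin n) (Fin n) ℂ} {W : Cn n → ℝ}

theorem vfld_lin (hT : IsOpen T) {f g : Cn n → ℂ} (hf : ContDiffOn ℝ ∞ f T)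
    (hg : ContDiffOn ℝ ∞ g T) (a c : ℂ) {y : Cn n} (hy : y ∈ T) (k : Fin n) :
    vfld H (fun y => a * f y + c * g y) y k = a * vfld H f y k + c * vfld H g y k := by
  unfold vfld
  rw [Finset.mul_sum, Finset.mul_sum, ← Finset.sum_add_distrib]
  refine Finset.sum_congr rfl fun j _ => ?_
  rw [cdb_lin (smDA hT hf hy) (smDA hT hg hy)]
  ring

theorem sm_Wvfld (hWIRT : S_WIRT) (hT : IsOpen T)
    (hH : ∀ j k, ContDiffOn ℝ ∞ (fun x => (H x)⁻¹ j k) T) (hW : ContDiffOn ℝ ∞ W T)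
    {f : Cn n → ℂ} (hf : ContDiffOn ℝ ∞ f T) (k : Fin n) :
    ContDiffOn ℝ ∞ (fun y => (W y : ℂ) * vfld H f y k) T := by
  have h1 : ContDiffOn ℝ ∞ (fun y => (W y : ℂ)) T := Complex.ofRealCLM.contDiff.comp_contDiffOn hW
  apply h1.mul
  unfold vfld
  apply ContDiffOn.sum
  intro j _
  exact (hH j k).mul ((hWIRT T hT f f hf hf).1 j).2

theorem boxO_lin (hWIRT : S_WIRT) (hT : IsOpen T)
    (hH : ∀ j k, ContDiffOn ℝ ∞ (fun x => (H x)⁻¹ j k) T) (hW : ContDiffOn ℝ ∞ W T)
    {f g : Cn n → ℂ} (hf : ContDiffOn ℝ ∞ f T) (hg : ContDiffOn ℝ ∞ g T) (a c : ℂ)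
    {x : Cn n} (hx : x ∈ T) :
    boxO H W (fun y => a * f y + c * g y) x = a * boxO H W f x + c * boxO H W g x := by
  unfold boxO
  have h : ∀ k, cd k (fun y => (W y : ℂ) * vfld H (fun y => a * f y + c * g y) y k) x =
      a * cd k (fun y => (W y : ℂ) * vfld H f y k) x +
        c * cd k (fun y => (W y : ℂ) * vfld H g y k) x := by
    intro k
    rw [← cd_lin (smDA hT (sm_Wvfld hWIRT hT hH hW hf k) hx)
      (smDA hT (sm_Wvfld hWIRT hT hH hW hg k) hx)]
    apply cd_congr hT _ hx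
    intro y hy
    rw [vfld_lin hT hf hg a c hy]
    ring
  rw [Finset.sum_congr rfl fun k _ => h k, Finset.sum_add_distrib, ← Finset.mul_sum,
    ← Finset.mul_sum]
  ring

end lin

section hilb

variable {T : Set (Cn n)} {κ W : Cn n → ℝ}

theorem integ {E : Type} [NormedAddCommGroup E] [NormedSpace ℝ E] (hT : IsOpen T)
    (hκ : TestF T κ) {F : Cn n → E} (hF : ContinuousOn F T) :
    IntegrableOn (fun x => κ x • F x) T := by
  obtain ⟨h1, h2, h3⟩ := hκ
  have hc : ContinuousOn (fun x => κ x • F x) (tsupport κ) :=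
    (h1.continuous.continuousOn).smul (hF.mono h3)
  have hC : IntegrableOn (fun x => κ x • F x) (tsupport κ) := hc.integrableOn_compact h2
  refine hC.of_forall_sdiff_eq_zero hT.measurableSet ?_
  intro x hx
  rw [image_eq_zero_of_notMem_tsupport hx.2, zero_smul]

theorem integ_ns (hT : IsOpen T) (hκ : TestF T κ) (hW : ContinuousOn W T) {s : Cn n → ℂ}
    (hs : ContinuousOn s T) : IntegrableOn (fun x => κ x * W x * ‖s x‖ ^ 2) T := by
  have h := integ hT hκ (F := fun x => W x * ‖s x‖ ^ 2) (hW.mul (hs.norm.pow 2))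
  refine h.congr_fun (fun x _ => ?_) hT.measurableSet
  simp only [smul_eq_mul]
  ring

theorem integ_ip (hT : IsOpen T) (hκ : TestF T κ) (hW : ContinuousOn W T) {s t : Cn n → ℂ}
    (hs : ContinuousOn s T) (ht : ContinuousOn t T) :
    IntegrableOn (fun x => ((κ x * W x : ℝ) : ℂ) * (s x * conj (t x))) T := by
  have hWc : ContinuousOn (fun x => (W x : ℂ)) T := Complex.continuous_ofReal.comp_continuousOn hW
  have htc : ContinuousOn (fun x => conj (t x)) T := Complex.continuous_conj.comp_continuousOn ht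
  have h := integ hT hκ (F := fun x => (W x : ℂ) * (s x * conj (t x))) (hWc.mul (hs.mul htc))
  refine h.congr_fun (fun x _ => ?_) hT.measurableSet
  simp only [Complex.real_smul]
  push_cast
  ring

theorem norm_sq_lin (s t c : ℂ) :
    ‖s + c * t‖ ^ 2 = ‖s‖ ^ 2 + 2 * (conj c * (s * conj t)).re + ‖c‖ ^ 2 * ‖t‖ ^ 2 := by
  rw [Complex.sq_norm, Complex.sq_norm, Complex.sq_norm, Complex.sq_norm]
  simp only [Complex.normSq_apply, Complex.add_re, Complex.add_im, Complex.mul_re, Complex.mul_im,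
    Complex.conj_re, Complex.conj_im]
  ring

theorem nsE_lin (hT : IsOpen T) (hκ : TestF T κ) (hW : ContinuousOn W T) {s t : Cn n → ℂ}
    (hs : ContinuousOn s T) (ht : ContinuousOn t T) (c : ℂ) :
    nsE T κ W (fun x => s x + c * t x) =
      nsE T κ W s + 2 * (conj c * ipE T κ W s t).re + ‖c‖ ^ 2 * nsE T κ W t := by
  have i1 := integ_ns hT hκ hW hs
  have i2 := integ_ns hT hκ hW ht
  have i3 := integ_ip hT hκ hW hs ht
  have i3' : IntegrableOn (fun x => (conj c * (((κ x * W x : ℝ) : ℂ) * (s x * conj (t x)))).re) T :=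
    (i3.const_mul (conj c)).re
  have e3 : ∫ x in T, (conj c * (((κ x * W x : ℝ) : ℂ) * (s x * conj (t x)))).re =
      (conj c * ipE T κ W s t).re := by
    have h := Complex.reCLM.integral_comp_comm (i3.const_mul (conj c))
    simp only [Complex.reCLM_apply] at h
    rw [h, integral_const_mul]
    rfl
  have i12 : IntegrableOn (fun x => κ x * W x * ‖s x‖ ^ 2 +
      2 * (conj c * (((κ x * W x : ℝ) : ℂ) * (s x * conj (t x)))).re) T :=
    i1.add (i3'.const_mul 2)
  unfold nsE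
  rw [← e3, ← integral_const_mul, ← integral_const_mul, ← integral_add i1 (i3'.const_mul 2),
    ← integral_add i12 (i2.const_mul _)]
  refine setIntegral_congr_fun hT.measurableSet fun x _ => ?_
  show κ x * W x * ‖s x + c * t x‖ ^ 2 = κ x * W x * ‖s x‖ ^ 2 +
      2 * (conj c * (((κ x * W x : ℝ) : ℂ) * (s x * conj (t x)))).re +
      ‖c‖ ^ 2 * (κ x * W x * ‖t x‖ ^ 2)
  rw [norm_sq_lin]
  have e : (conj c * (((κ x * W x : ℝ) : ℂ) * (s x * conj (t x)))).re =
      κ x * W x * (conj c * (s x * conj (t x))).re := by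
    rw [← mul_assoc, mul_comm (conj c), mul_assoc, Complex.re_ofReal_mul]
  rw [e]
  ring

theorem nsE_smul (c : ℂ) (t : Cn n → ℂ) :
    nsE T κ W (fun x => c * t x) = ‖c‖ ^ 2 * nsE T κ W t := by
  unfold nsE
  rw [← integral_const_mul]
  congr 1
  funext x
  rw [norm_mul]
  ring

theorem nsE_congr (hT : IsOpen T) {s t : Cn n → ℂ} (h : ∀ x ∈ T, s x = t x) :
    nsE T κ W s = nsE T κ W t := by
  unfold nsE
  refine setIntegral_congr_fun hT.measurableSet fun x hx => ?_
  show κ x * W x * ‖s x‖ ^ 2 = κ x * W x * ‖t x‖ ^ 2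
  rw [h x hx]

theorem nsE_nonneg (hT : IsOpen T) (hκ : ∀ x, 0 ≤ κ x) (hW : ∀ x ∈ T, 0 < W x) (s : Cn n → ℂ) :
    0 ≤ nsE T κ W s :=
  setIntegral_nonneg hT.measurableSet fun x hx =>
    mul_nonneg (mul_nonneg (hκ x) (hW x hx).le) (by positivity)

end hilb

theorem Sec_lin {T : Set (Cn n)} {G : Type u} {R : G → Cn n → Cn n → Prop} {m : ℕ}
    {f g : Cn n → ℂ} (hf : Sec T R m f) (hg : Sec T R m g) (a c : ℂ) :
    Sec T R m (fun y => a * f y + c * g y) := by
  refine ⟨(contDiffOn_const.mul hf.1).add (contDiffOn_const.mul hg.1), ?_⟩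
  intro U τ hU x hx
  show a * f x + c * g x = (a * f (τ x) + c * g (τ x)) * (fderiv ℂ τ x).det ^ m
  rw [hf.2 U τ hU x hx, hg.2 U τ hU x hx]
  ring

end PROJ

open PROJ

theorem proj (hWIRT : S_WIRT) (hDETI : S_DETI.{u}) (hBOX : S_BOX.{u}) (hREG : S_REG.{u}) :
    S_PROJ.{u} := by
  intro n T G _ R H K κ hκ m W hW s hs
  have hT : IsOpen T := K.et.isOpen
  have hH := (hDETI T R H K).2.2.1
  have hWs := hW.smooth
  have hWc : ContinuousOn W T := hWs.continuousOn
  have hbox : ∀ h, Sec T R m h → Sec T R m (boxO H W h) := fun h hh =>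
    (hBOX T R H K κ hκ m W hW h h hh hh).1
  have hlin : ∀ f g, Sec T R m f → Sec T R m g → ∀ a c : ℂ, ∀ x ∈ T,
      boxO H W (fun y => a * f y + c * g y) x = a * boxO H W f x + c * boxO H W g x :=
    fun f g hf hg a c x hx => boxO_lin hWIRT hT hH hWs hf.1 hg.1 a c hx
  have hsub : ∀ f g, Sec T R m f → Sec T R m g → Sec T R m (fun x => f x - g x) := by
    intro f g hf hg
    have e : (fun x => f x - g x) = fun x => 1 * f x + (-1) * g x := by funext x; ring
    rw [e]
    exact Sec_lin hf hg _ _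
  have hN0 : ∀ f, 0 ≤ nsE T κ W f := fun f => nsE_nonneg hT hκ.nonneg hW.pos f
  set S : Set ℝ := {r | ∃ h, Sec T R m h ∧ r = nsE T κ W (fun x => s x - boxO H W h x)} with hS
  have hSne : S.Nonempty := ⟨_, s, hs, rfl⟩
  have hSb : BddBelow S := ⟨0, by
    rintro r ⟨h, -, rfl⟩
    exact hN0 _⟩
  set d := sInf S with hd
  have hdle : ∀ h, Sec T R m h → d ≤ nsE T κ W (fun x => s x - boxO H W h x) := fun h hh =>
    csInf_le hSb ⟨h, hh, rfl⟩
  have hex : ∀ j : ℕ, ∃ h, Sec T R m h ∧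
      nsE T κ W (fun x => s x - boxO H W h x) < d + 1 / ((j : ℝ) + 1) := by
    intro j
    have : sInf S < d + 1 / ((j : ℝ) + 1) := by
      have : (0 : ℝ) < 1 / ((j : ℝ) + 1) := by positivity
      linarith
    obtain ⟨r, ⟨h, hh, rfl⟩, hr⟩ := exists_lt_of_csInf_lt hSne this
    exact ⟨h, hh, hr⟩
  choose h hh hhd using hex
  set sj : ℕ → Cn n → ℂ := fun j x => s x - boxO H W (h j) x with hsj
  have hsjS : ∀ j, Sec T R m (sj j) := fun j => hsub _ _ hs (hbox _ (hh j))
  have hcont : ∀ f, Sec T R m f → ContinuousOn f T := fun f hf => hf.1.continuousOn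
  -- the Cauchy property
  have hcau : ∀ i j, nsE T κ W (fun x => sj i x - sj j x) ≤
      2 / ((i : ℝ) + 1) + 2 / ((j : ℝ) + 1) := by
    intro i j
    have p1 := nsE_lin hT hκ.test hWc (hcont _ (hsjS i)) (hcont _ (hsjS j)) 1
    have p2 := nsE_lin hT hκ.test hWc (hcont _ (hsjS i)) (hcont _ (hsjS j)) (-1)
    have e2 : (fun x => sj i x + (-1) * sj j x) = fun x => sj i x - sj j x := by
      funext x; ring
    rw [e2] at p2
    have hmid : d ≤ nsE T κ W (fun x => (1 / 2 : ℂ) * (sj i x + 1 * sj j x)) := by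
      have h1 := hdle (fun y => (1 / 2 : ℂ) * h i y + (1 / 2 : ℂ) * h j y)
        (Sec_lin (hh i) (hh j) _ _)
      refine h1.trans (le_of_eq (nsE_congr hT fun x hx => ?_))
      rw [hlin _ _ (hh i) (hh j) _ _ x hx]
      simp only [hsj]
      ring
    rw [nsE_smul] at hmid
    have hn : ‖(1 / 2 : ℂ)‖ ^ 2 = 1 / 4 := by norm_num
    rw [hn] at hmid
    have q1 := hhd i
    have q2 := hhd j
    have q1' : nsE T κ W (sj i) < d + 1 / ((i : ℝ) + 1) := q1
    have q2' : nsE T κ W (sj j) < d + 1 / ((j : ℝ) + 1) := q2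
    simp only [map_one, map_neg, one_mul, neg_mul, Complex.neg_re, norm_one, norm_neg, one_pow]
      at p1 p2
    simp only [one_mul] at hmid
    have r1 : 2 / ((i : ℝ) + 1) = 2 * (1 / ((i : ℝ) + 1)) := by ring
    have r2 : 2 / ((j : ℝ) + 1) = 2 * (1 / ((j : ℝ) + 1)) := by ring
    rw [r1, r2]
    linarith
  have hCauchy : ∀ ε > 0, ∃ J, ∀ i ≥ J, ∀ j ≥ J, nsE T κ W (fun x => sj i x - sj j x) ≤ ε := by
    intro ε hε
    obtain ⟨J, hJ⟩ := exists_nat_one_div_lt (show (0 : ℝ) < ε / 4 by positivity)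
    refine ⟨J, fun i hi j hj => (hcau i j).trans ?_⟩
    have key : ∀ i ≥ J, 2 / ((i : ℝ) + 1) ≤ ε / 2 := by
      intro i hi
      have h1 : (J : ℝ) + 1 ≤ (i : ℝ) + 1 := by
        have : (J : ℝ) ≤ i := by exact_mod_cast hi
        linarith
      have h2 : 1 / ((i : ℝ) + 1) ≤ 1 / ((J : ℝ) + 1) :=
        one_div_le_one_div_of_le (by positivity) h1
      have r1 : 2 / ((i : ℝ) + 1) = 2 * (1 / ((i : ℝ) + 1)) := by ring
      rw [r1]
      linarith
    have := key i hi
    have := key j hj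
    linarith
  -- asymptotic orthogonality
  have horth : ∀ f, Sec T R m f →
      Tendsto (fun j => ipE T κ W (sj j) (boxO H W f)) atTop (𝓝 0) := by
    intro f hf
    set B := nsE T κ W (boxO H W f) with hB
    have hB0 : 0 ≤ B := hN0 _
    have hkey : ∀ j, ‖ipE T κ W (sj j) (boxO H W f)‖ ^ 2 ≤ (B + 1) * (1 / ((j : ℝ) + 1)) := by
      intro j
      set α := ipE T κ W (sj j) (boxO H W f) with hα
      set t : ℝ := 1 / (B + 1) with ht
      have ht0 : 0 < t := by positivity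
      have htB : t * B ≤ 1 := by
        rw [ht, div_mul_eq_mul_div, one_mul, div_le_one (by positivity)]
        linarith
      have p := nsE_lin hT hκ.test hWc (hcont _ (hsjS j)) (hcont _ (hbox f hf)) (-(t * α))
      rw [← hα, ← hB] at p
      have h1 := hdle (fun y => 1 * h j y + (t * α) * f y) (Sec_lin (hh j) hf _ _)
      have h2 : nsE T κ W (fun x => s x - boxO H W (fun y => 1 * h j y + (t * α) * f y) x) =
          nsE T κ W (fun x => sj j x + (-(t * α)) * boxO H W f x) := by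
        refine nsE_congr hT fun x hx => ?_
        rw [hlin _ _ (hh j) hf _ _ x hx]
        simp only [hsj]
        ring
      rw [h2, p] at h1
      have e1 : (conj (-((t : ℂ) * α)) * α).re = -(t * ‖α‖ ^ 2) := by
        rw [map_neg, map_mul, Complex.conj_ofReal, neg_mul, Complex.neg_re, mul_assoc,
          Complex.re_ofReal_mul, mul_comm (conj α), Complex.mul_conj, Complex.ofReal_re,
          Complex.normSq_eq_norm_sq]
      have e2 : ‖-((t : ℂ) * α)‖ ^ 2 = t ^ 2 * ‖α‖ ^ 2 := by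
        rw [norm_neg, norm_mul, Complex.norm_real, Real.norm_of_nonneg ht0.le, mul_pow]
      rw [e1, e2] at h1
      have q : nsE T κ W (sj j) < d + 1 / ((j : ℝ) + 1) := hhd j
      have hα2 : 0 ≤ ‖α‖ ^ 2 := by positivity
      have h3 : t ^ 2 * ‖α‖ ^ 2 * B ≤ t * ‖α‖ ^ 2 := by
        calc t ^ 2 * ‖α‖ ^ 2 * B = (t * B) * (t * ‖α‖ ^ 2) := by ring
          _ ≤ 1 * (t * ‖α‖ ^ 2) := mul_le_mul_of_nonneg_right htB (by positivity)
          _ = t * ‖α‖ ^ 2 := one_mul _
      have h4 : t * ‖α‖ ^ 2 ≤ 1 / ((j : ℝ) + 1) := by linarith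
      have h5 : ‖α‖ ^ 2 = (B + 1) * (t * ‖α‖ ^ 2) := by
        rw [ht]
        field_simp
      rw [h5]
      exact mul_le_mul_of_nonneg_left h4 (by positivity)
    rw [Metric.tendsto_atTop]
    intro ε hε
    obtain ⟨J, hJ⟩ := exists_nat_one_div_lt (show (0 : ℝ) < ε ^ 2 / (B + 1) by positivity)
    refine ⟨J, fun j hj => ?_⟩
    rw [dist_zero_right]
    have h1 : (J : ℝ) + 1 ≤ (j : ℝ) + 1 := by
      have : (J : ℝ) ≤ j := by exact_mod_cast hj
      linarith
    have h2 : 1 / ((j : ℝ) + 1) ≤ 1 / ((J : ℝ) + 1) :=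
      one_div_le_one_div_of_le (by positivity) h1
    have h3 : 1 / ((j : ℝ) + 1) < ε ^ 2 / (B + 1) := lt_of_le_of_lt h2 hJ
    rw [lt_div_iff₀ (by positivity)] at h3
    have h4 := hkey j
    have h5 : ‖ipE T κ W (sj j) (boxO H W f)‖ ^ 2 < ε ^ 2 := by
      refine lt_of_le_of_lt h4 ?_
      rw [mul_comm]
      exact h3
    exact lt_of_pow_lt_pow_left₀ 2 hε.le h5
  obtain ⟨g, hg, hgd, hglim⟩ := hREG T R H K κ hκ m W hW sj hsjS hCauchy horth
  refine ⟨g, h, hg, hgd, hh, ?_⟩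
  refine hglim.congr fun j => ?_
  congr 1
  funext x
  simp only [hsj]
  ring

end Pool.Agent.Helper82.SP
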