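import Pool.Agent.Helper10.SP.GoalsE
import Pool.Agent.Helper27.Lin.Montel

/-!
# MP_97d78d_ag / MP_5ff3c6_ag: packet SP-NET (finite nets)
-/

open Complex Metric Set Filter Topology MeasureTheory
open scoped ContDiff ComplexConjugate

namespace Pool.Agent.Helper82.SP

open Pool.Agent.Helper95.Lin Pool.Agent.Helper10.SP

theorem net : S_NET := by
  intro b N c R P Φ C hA i A hAB η hη
  classical
  by_contra hcon
  push Not at hcon
  -- the greedy sequence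
  have hstep : ∀ S : Finset (Tri b), (∀ x ∈ S, x ∈ A) → ∃ y, y ∈ A ∧ ∀ x ∈ S,
      ¬ ∀ z ∈ ball (c i) 3, ‖y.g z - x.g z‖ ≤ η ∧ ‖y.a z - x.a z‖ ≤ η := by
    intro S hS
    obtain ⟨t, ht, hk⟩ := hcon S.card (fun k => (S.equivFin.symm k : Tri b))
      (fun k => hS _ (S.equivFin.symm k).2)
    refine ⟨t, ht, fun x hx hclose => ?_⟩
    obtain ⟨z, hz, h⟩ := hk (S.equivFin ⟨x, hx⟩)
    have := hclose z hz
    simp only [Equiv.symm_apply_apply] at h
    exact absurd this.2 (not_le.2 (h this.1))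
  obtain ⟨f, hfA, hfr⟩ := exists_seq_of_forall_finset_exists (fun t => t ∈ A)
    (fun x y => ¬ ∀ z ∈ ball (c i) 3, ‖y.g z - x.g z‖ ≤ η ∧ ‖y.a z - x.a z‖ ≤ η) hstep
  have hbig : ∀ k, Big c P i (f k) := fun k => hAB _ (hfA k)
  have hholo := fun k => hA.holo _ _ (hbig k).1
  obtain ⟨B, hB⟩ := (Bornology.isBounded_iUnion.2
    (fun j : Fin N => (isBounded_ball : Bornology.IsBounded (ball (c j) R)))).exists_norm_le
  obtain ⟨φ, hφ, F, -, hF⟩ := _root_.Helper27.LinMontel.montel (ball (c i) 4) isOpen_ball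
    (fun k => (f k).g) (fun k => (hholo k).2.2.1)
    (fun K hK _ => ⟨B, fun k z hz => hB _ ((hholo k).2.2.2.2.2 z (hK hz)).1⟩)
  obtain ⟨ψ, hψ, F', -, hF'⟩ := _root_.Helper27.LinMontel.montel (m := 1) (ball (c i) 4) isOpen_ball
    (fun k z _ => (f (φ k)).a z)
    (fun k => differentiableOn_pi.2 fun _ => (hholo (φ k)).2.2.2.1)
    (fun K hK _ => ⟨C, fun k z hz => by
      rw [pi_norm_le_iff_of_nonneg (by linarith [hA.Cge])]
      intro _
      exact (hA.abd i _ (hbig _) z (hK hz)).1⟩)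
  have hsub : closedBall (c i) 3 ⊆ ball (c i) 4 := closedBall_subset_ball (by norm_num)
  have h1 := hψ.tendsto_atTop.eventually
    (hF (closedBall (c i) 3) hsub (isCompact_closedBall _ _) (η / 2) (by positivity))
  have h2 := hF' (closedBall (c i) 3) hsub (isCompact_closedBall _ _) (η / 2) (by positivity)
  obtain ⟨K, hK⟩ := eventually_atTop.1 (h1.and h2)
  have hlt : φ (ψ K) < φ (ψ (K + 1)) := hφ (hψ (Nat.lt_succ_self K))
  apply hfr _ _ hlt
  intro z hz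
  have hz' : z ∈ closedBall (c i) 3 := ball_subset_closedBall hz
  obtain ⟨a1, a2⟩ := hK K le_rfl
  obtain ⟨b1, b2⟩ := hK (K + 1) (Nat.le_succ K)
  constructor
  · calc ‖(f (φ (ψ (K + 1)))).g z - (f (φ (ψ K))).g z‖
        = ‖((f (φ (ψ (K + 1)))).g z - F z) - ((f (φ (ψ K))).g z - F z)‖ := by
          rw [sub_sub_sub_cancel_right]
      _ ≤ ‖(f (φ (ψ (K + 1)))).g z - F z‖ + ‖(f (φ (ψ K))).g z - F z‖ := norm_sub_le _ _
      _ ≤ η / 2 + η / 2 := add_le_add (b1 z hz') (a1 z hz')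
      _ = η := by ring
  · have c1 : ‖(f (φ (ψ K))).a z - F' z 0‖ ≤ η / 2 := (norm_le_pi_norm _ (0 : Fin 1)).trans (a2 z hz')
    have c2 : ‖(f (φ (ψ (K + 1)))).a z - F' z 0‖ ≤ η / 2 :=
      (norm_le_pi_norm _ (0 : Fin 1)).trans (b2 z hz')
    calc ‖(f (φ (ψ (K + 1)))).a z - (f (φ (ψ K))).a z‖
        = ‖((f (φ (ψ (K + 1)))).a z - F' z 0) - ((f (φ (ψ K))).a z - F' z 0)‖ := by
          rw [sub_sub_sub_cancel_right]
      _ ≤ ‖(f (φ (ψ (K + 1)))).a z - F' z 0‖ + ‖(f (φ (ψ K))).a z - F' z 0‖ := norm_sub_le _ _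
      _ ≤ η / 2 + η / 2 := add_le_add c2 c1
      _ = η := by ring

end Pool.Agent.Helper82.SP
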