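import Pool.Agent.Helper82.SP.GoalsB

/-!
# Project SP: B9, B10
-/

set_option autoImplicit false

namespace Pool.Agent.Helper82.SP

open Matrix Real
open Pool.Agent.Helper26.LU (V M3 SO3 nrm sph proj Bm Rot crossM)

/-- The cyclic permutation `x ↦ (x 1, x 2, x 0)`. -/
def cyc : M3 := !![0, 1, 0; 0, 0, 1; 1, 0, 0]

theorem cyc_SO3 : cyc ∈ SO3 := by
  rw [Pool.Agent.Helper26.LU.mem_SO3]
  constructor
  · ext i j
    fin_cases i <;> fin_cases j <;> simp [cyc, Matrix.mul_apply, Fin.sum_univ_three]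
  · simp [cyc, Matrix.det_fin_three]

theorem cyc_mulVec (x : V) : cyc *ᵥ x = ![x 1, x 2, x 0] := by
  ext i
  fin_cases i <;> simp [cyc, Matrix.mulVec, dotProduct, Fin.sum_univ_three]

theorem goalB9 : G_B9 := by
  intro d d' h
  by_contra hcon
  push_neg at hcon
  obtain ⟨hd, hd'⟩ := hcon
  have hdd : 0 < d ⬝ᵥ d := by
    have := Pool.Agent.Helper26.LU.nrm_pos hd
    rw [← Pool.Agent.Helper26.LU.nrm_sq]; positivity
  have hdd' : 0 < d' ⬝ᵥ d' := by
    have := Pool.Agent.Helper26.LU.nrm_pos hd'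
    rw [← Pool.Agent.Helper26.LU.nrm_sq]; positivity
  obtain ⟨y, hy0, hy1, hy2⟩ : ∃ y : V, y ≠ 0 ∧ y ⬝ᵥ d ≠ 0 ∧ y ⬝ᵥ d' ≠ 0 := by
    by_cases hp : d ⬝ᵥ d' = 0
    · refine ⟨d + d', ?_, ?_, ?_⟩
      · intro h0
        have : (d + d') ⬝ᵥ d = 0 := by rw [h0]; simp
        rw [add_dotProduct, dotProduct_comm d' d, hp] at this
        linarith
      · rw [add_dotProduct, dotProduct_comm d' d, hp]; linarith
      · rw [add_dotProduct, hp]; linarith
    · exact ⟨d, hd, hdd.ne', hp⟩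
  have hx := Pool.Agent.Helper26.LU.proj_sph hy0
  obtain ⟨Q, hQ, hQe⟩ := Pool.Agent.Helper26.LU.exists_rot hx
  have hA : Q * cyc ∈ SO3 := Pool.Agent.Helper26.LU.SO3_mul hQ cyc_SO3
  have hcol : ∀ i, (Q * cyc) i 0 = proj y i := by
    intro i
    rw [← hQe]
    simp [cyc, Matrix.mul_apply, Fin.sum_univ_three, Matrix.mulVec, dotProduct,
      Pool.Agent.Helper26.LU.e]
  have hre : ∀ x : V, y ⬝ᵥ x ≠ 0 → cm ((Q * cyc)ᵀ *ᵥ x) ≠ 0 := by
    intro x hx0 h0
    have hr := congrArg Complex.re h0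
    simp only [cm, Complex.sub_re, Complex.ofReal_re, Complex.mul_re, Complex.I_re,
      Complex.I_im, Complex.ofReal_im, Complex.zero_re, zero_mul, mul_zero, sub_zero] at hr
    have e1 : ((Q * cyc)ᵀ *ᵥ x) 0 = proj y ⬝ᵥ x := by
      simp only [Matrix.mulVec, dotProduct, Matrix.transpose_apply, hcol]
    rw [e1, proj, smul_dotProduct, smul_eq_mul] at hr
    have hn := Pool.Agent.Helper26.LU.nrm_pos hy0
    rcases mul_eq_zero.1 hr with h1 | h1
    · exact (inv_ne_zero hn.ne') h1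
    · exact hx0 h1
  rcases mul_eq_zero.1 (h _ hA) with h1 | h1
  · exact hre d hy1 h1
  · exact hre d' hy2 h1

theorem goalB10 (hB9 : G_B9) : G_B10 := by
  intro κ b hκ h
  have h01 := hB9 _ _ fun A hA => (h A hA).1
  have h02 := hB9 _ _ fun A hA => (h A hA).2.1
  have h03 := hB9 _ _ fun A hA => (h A hA).2.2
  -- the relation
  let r : Fin 4 → Fin 4 → Prop := fun i j => κ i = κ j ∧ (κ i = 1 → b i = b j)
  have hr : ∀ i j, κ i • b j - κ j • b i = 0 → r i j := by
    intro i j h0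
    rcases hκ i with ⟨hi, hbi⟩ | hi <;> rcases hκ j with ⟨hj, hbj⟩ | hj
    · exact ⟨by rw [hi, hj], fun h1 => absurd (hi.symm.trans h1) (by norm_num)⟩
    · rw [hi, hj] at h0
      simp at h0
      exact absurd h0 hbi
    · rw [hi, hj] at h0
      simp at h0
      exact absurd h0 hbj
    · rw [hi, hj] at h0
      refine ⟨by rw [hi, hj], fun _ => ?_⟩
      have := sub_eq_zero.1 h0
      simpa using this.symm
  have hsymm : ∀ i j, r i j → r j i := by
    intro i j ⟨h1, h2⟩
    exact ⟨h1.symm, fun h3 => (h2 (h1.trans h3)).symm⟩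
  have htrans : ∀ i j k, r i j → r j k → r i k := by
    intro i j k ⟨h1, h2⟩ ⟨h3, h4⟩
    exact ⟨h1.trans h3, fun h5 => (h2 h5).trans (h4 (h1 ▸ h5))⟩
  have h01' : r 0 1 ∨ r 2 3 := h01.imp (hr 0 1) (hr 2 3)
  have h02' : r 0 2 ∨ r 1 3 := h02.imp (hr 0 2) (hr 1 3)
  have h03' : r 0 3 ∨ r 1 2 := h03.imp (hr 0 3) (hr 1 2)
  -- conclusion from an index
  have hfin : ∀ i0 m : Fin 4, m ≠ i0 → (∀ i, i ≠ i0 → r m i) →
      (∀ i, i ≠ i0 → κ i = 0) ∨ ∃ c, ∀ i, i ≠ i0 → κ i = 1 ∧ b i = c := by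
    intro i0 m hm hall
    rcases hκ m with ⟨hm0, _⟩ | hm1
    · left
      intro i hi
      rw [← (hall i hi).1, hm0]
    · right
      refine ⟨b m, fun i hi => ⟨?_, ?_⟩⟩
      · rw [← (hall i hi).1, hm1]
      · exact ((hall i hi).2 hm1).symm
  have hrefl : ∀ i, r i i := fun i => ⟨rfl, fun _ => rfl⟩
  rcases h01' with a1 | a1 <;> rcases h02' with a2 | a2 <;> rcases h03' with a3 | a3
  · exact ⟨3, hfin 3 0 (by decide) (by
      intro i hi; fin_cases i
      · exact hrefl 0
      · exact a1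
      · exact a2
      · exact absurd rfl hi)⟩
  · exact ⟨3, hfin 3 0 (by decide) (by
      intro i hi; fin_cases i
      · exact hrefl 0
      · exact a1
      · exact a2
      · exact absurd rfl hi)⟩
  · exact ⟨2, hfin 2 0 (by decide) (by
      intro i hi; fin_cases i
      · exact hrefl 0
      · exact a1
      · exact absurd rfl hi
      · exact a3)⟩
  · exact ⟨0, hfin 0 1 (by decide) (by
      intro i hi; fin_cases i
      · exact absurd rfl hi
      · exact hrefl 1
      · exact a3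
      · exact a2)⟩
  · exact ⟨1, hfin 1 0 (by decide) (by
      intro i hi; fin_cases i
      · exact hrefl 0
      · exact absurd rfl hi
      · exact a2
      · exact a3)⟩
  · exact ⟨0, hfin 0 2 (by decide) (by
      intro i hi; fin_cases i
      · exact absurd rfl hi
      · exact hsymm _ _ a3
      · exact hrefl 2
      · exact a1)⟩
  · exact ⟨1, hfin 1 3 (by decide) (by
      intro i hi; fin_cases i
      · exact hsymm _ _ a3
      · exact absurd rfl hi
      · exact hsymm _ _ a1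
      · exact hrefl 3)⟩
  · exact ⟨0, hfin 0 2 (by decide) (by
      intro i hi; fin_cases i
      · exact absurd rfl hi
      · exact hsymm _ _ a3
      · exact hrefl 2
      · exact a1)⟩

end Pool.Agent.Helper82.SP
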