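import Pool.Agent.Helper82.SP.GoalsB

/-!
# Project SP: NF, TB
-/

set_option autoImplicit false

namespace Pool.Agent.Helper82.SP

open Matrix Real
open Pool.Agent.Helper26.LU (V M3 SO3 nrm sph proj Bm Rot crossM)

theorem goalNF : G_NF := by
  intro v a ⟨ha, hv⟩
  obtain ⟨l, hl, hl2, h⟩ := Pool.Agent.Helper71.Tet.frame v a ha hv
  obtain ⟨M, p, hM, hp⟩ := h 1 (one_mem _) 0
  have hdet : M.det = 1 ∨ M.det = -1 := by
    have : M.det * M.det = 1 := by
      have := congrArg Matrix.det hM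
      rwa [Matrix.det_mul, Matrix.det_transpose, Matrix.det_one] at this
    exact mul_self_eq_one_iff.mp this
  rcases hdet with hd | hd
  · refine ⟨p, M, l, ?_, hl.ne', hl2, fun i => ?_⟩
    · rw [Pool.Agent.Helper26.LU.mem_SO3]; exact ⟨hM, hd⟩
    · have := hp i
      rw [Matrix.one_mulVec, add_zero] at this
      rw [this, add_comm]
      rfl
  · refine ⟨p, -M, -l, ?_, by simpa using hl.ne', by simpa using hl2, fun i => ?_⟩
    · rw [Pool.Agent.Helper26.LU.mem_SO3]
      constructor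
      · simpa using hM
      · rw [Matrix.det_neg, hd]; norm_num
    · have := hp i
      rw [Matrix.one_mulVec, add_zero] at this
      rw [this, add_comm, Matrix.neg_mulVec, smul_neg, neg_smul, neg_neg]
      rfl

theorem tt_sum : ∑ i, tt i = 0 := by
  ext k
  fin_cases k <;> simp [tt, Fin.sum_univ_four]

theorem tt_dot (i j : Fin 4) : tt i ⬝ᵥ tt j = if i = j then 3 else -1 := by
  fin_cases i <;> fin_cases j <;> simp [tt, dotProduct, Fin.sum_univ_three] <;> norm_num

theorem tt_frame (x : V) : ∑ i, (x ⬝ᵥ tt i) • tt i = (4 : ℝ) • x := by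
  ext k
  fin_cases k <;> simp [tt, Fin.sum_univ_four, dotProduct, Fin.sum_univ_three] <;> ring

theorem gv_nf {v : Fin 4 → V} {z : V} {O : M3} {l : ℝ} (hv : ∀ i, v i = z + l • (O *ᵥ tt i)) :
    gv v = z := by
  have h1 : ∑ i, v i = (4 : ℝ) • z := by
    have h2 : ∑ i, (O *ᵥ tt i) = 0 := by
      have : ∑ i, (O *ᵥ tt i) = O *ᵥ (∑ i, tt i) := by
        rw [Matrix.mulVec_sum]
      rw [this, tt_sum, Matrix.mulVec_zero]
    rw [Finset.sum_congr rfl fun i _ => hv i, Finset.sum_add_distrib, ← Finset.smul_sum, h2]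
    simp
    ext k
    simp
  rw [gv, h1, smul_smul]
  norm_num

theorem goalTB (hNF : G_NF) : G_TB := by
  intro v a ht
  obtain ⟨z, O, l, hO, hl, hl2, hv⟩ := hNF v a ht
  have hg := gv_nf hv
  have hd : ∀ i, v i - gv v = l • (O *ᵥ tt i) := fun i => by rw [hg, hv i]; abel
  have hsum : ∑ i, (v i - gv v) = 0 := by
    rw [Finset.sum_congr rfl fun i _ => hd i, ← Finset.smul_sum, ← Matrix.mulVec_sum, tt_sum]
    simp
  have ha0 : a ≠ 0 := ht.1.ne'
  have h1 : ∀ x, ∑ i, bc v a x i = 1 := by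
    intro x
    simp only [bc]
    rw [Finset.sum_add_distrib, ← Finset.mul_sum, ← dotProduct_sum, hsum]
    simp
  have h3 : ∀ i j, (v i - gv v) ⬝ᵥ (v j - gv v) = if i = j then 3 * a ^ 2 / 8 else -a ^ 2 / 8 := by
    intro i j
    rw [hd i, hd j, smul_dotProduct, dotProduct_smul, Pool.Agent.Helper26.LU.dot_mulVec hO,
      tt_dot, smul_eq_mul, smul_eq_mul, ← mul_assoc, ← pow_two, hl2]
    split_ifs <;> ring
  have h2 : ∀ x, ∑ i, bc v a x i • v i = x := by
    intro x
    have e1 : ∑ i, bc v a x i • v i = ∑ i, bc v a x i • (v i - gv v) + gv v := by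
      have : ∑ i, bc v a x i • (v i - gv v) = ∑ i, bc v a x i • v i - (∑ i, bc v a x i) • gv v := by
        simp only [smul_sub, Finset.sum_sub_distrib, Finset.sum_smul]
      rw [this, h1 x, one_smul]; abel
    have e2 : ∑ i, bc v a x i • (v i - gv v) = x - gv v := by
      have e3 : ∑ i, ((x - gv v) ⬝ᵥ (v i - gv v)) • (v i - gv v) = (a ^ 2 / 2) • (x - gv v) := by
        have e4 : ∀ i, ((x - gv v) ⬝ᵥ (v i - gv v)) • (v i - gv v)
            = (l ^ 2) • (O *ᵥ (((Oᵀ *ᵥ (x - gv v)) ⬝ᵥ tt i) • tt i)) := by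
          intro i
          rw [hd i, dotProduct_smul, smul_smul, Matrix.mulVec_smul, smul_smul]
          congr 1
          have : (x - gv v) ⬝ᵥ (O *ᵥ tt i) = (Oᵀ *ᵥ (x - gv v)) ⬝ᵥ tt i := by
            rw [Matrix.dotProduct_mulVec, Matrix.mulVec_transpose]
          rw [this]; simp only [smul_eq_mul]; ring
        rw [Finset.sum_congr rfl fun i _ => e4 i, ← Finset.smul_sum, ← Matrix.mulVec_sum, tt_frame,
          Matrix.mulVec_smul, Matrix.mulVec_mulVec,
          ((Pool.Agent.Helper26.LU.mem_SO3 O).1 hO).1, Matrix.one_mulVec, smul_smul, hl2]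
        congr 1; ring
      have e5 : ∑ i, bc v a x i • (v i - gv v)
          = (1 / 4 : ℝ) • ∑ i, (v i - gv v)
            + (2 / a ^ 2) • ∑ i, ((x - gv v) ⬝ᵥ (v i - gv v)) • (v i - gv v) := by
        simp only [bc, add_smul, Finset.sum_add_distrib, Finset.smul_sum, smul_smul]
      rw [e5, hsum, e3, smul_zero, zero_add, smul_smul]
      rw [show 2 / a ^ 2 * (a ^ 2 / 2) = (1 : ℝ) by field_simp, one_smul]
    rw [e1, e2]; abel
  refine ⟨h1, h2, h3, ?_⟩
  intro β hβ
  have e1 : ∑ i, β i • v i = ∑ i, β i • (v i - gv v) := by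
    simp only [smul_sub, Finset.sum_sub_distrib]
    rw [← Finset.sum_smul, hβ]; simp
  rw [e1]
  simp only [Fin.sum_univ_four] at hβ ⊢
  simp only [add_dotProduct, dotProduct_add, smul_dotProduct, dotProduct_smul, h3, smul_eq_mul]
  simp
  have hb : β 0 = -(β 1 + β 2 + β 3) := by linarith
  rw [hb]
  ring

end Pool.Agent.Helper82.SP
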