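import Pool.Agent.Helper82.SP.NF

/-!
# Project SP: B14, A13, A10a, A4a
-/

set_option autoImplicit false

namespace Pool.Agent.Helper82.SP

open Matrix Real
open Pool.Agent.Helper26.LU (V M3 SO3 nrm sph proj Bm Rot crossM)

theorem exists_ne_ne : ∀ i j : Fin 4, ∃ k : Fin 4, k ≠ i ∧ k ≠ j := by decide

theorem dist_formula (hTB : G_TB) {v : Fin 4 → V} {a : ℝ} (ht : Tet v a) {w : V}
    {β : Fin 4 → ℝ} (hs : ∑ i, β i = 1) (hw : ∑ i, β i • v i = w) (k : Fin 4) :
    (v k - w) ⬝ᵥ (v k - w) = a ^ 2 / 2 * (∑ i, β i ^ 2 - 2 * β k + 1) := by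
  obtain ⟨-, -, -, h4⟩ := hTB v a ht
  have h := h4 (fun i => (if i = k then 1 else 0) - β i) (by
    rw [Finset.sum_sub_distrib, hs]; simp)
  have e1 : ∑ i, ((if i = k then (1:ℝ) else 0) - β i) • v i = v k - w := by
    simp only [sub_smul, Finset.sum_sub_distrib, hw, ite_smul, one_smul, zero_smul]
    simp
  rw [e1] at h
  rw [h]
  congr 1
  have : ∀ i, ((if i = k then (1:ℝ) else 0) - β i) ^ 2
      = (if i = k then (1 - 2 * β k : ℝ) else 0) + β i ^ 2 := by
    intro i
    split_ifs with hi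
    · subst hi; ring
    · ring
  rw [Finset.sum_congr rfl fun i _ => this i, Finset.sum_add_distrib]
  simp
  ring

theorem goalB14 (hTB : G_TB) : G_B14 := by
  intro v a w ht hw
  obtain ⟨h1, h2, h3, h4⟩ := hTB v a ht
  have ha : 0 < a := ht.1
  have ha2 : 0 < a ^ 2 := by positivity
  set β := bc v a w with hβ
  have hs : ∑ i, β i = 1 := h1 w
  have hv : ∑ i, β i • v i = w := h2 w
  have hnn : ∀ k, 0 ≤ β k := by
    intro k
    have e := dist_formula hTB ht hs hv k
    have hk := hw k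
    rw [e] at hk
    have hk2 : ∑ i, β i ^ 2 - 2 * β k + 1 ≤ 4 / 3 := by
      have : a ^ 2 / 2 * (∑ i, β i ^ 2 - 2 * β k + 1) ≤ a ^ 2 / 2 * (4 / 3) := by linarith
      exact le_of_mul_le_mul_left this (by positivity)
    -- Cauchy
    rw [Fin.sum_univ_four] at hs hk2
    fin_cases k <;> simp only [Fin.zero_eta, Fin.mk_one, Fin.reduceFinMk, Fin.isValue] at hk2 ⊢ <;>
      by_contra hneg <;> rw [not_le] at hneg
    · have hq : β 1 ^ 2 + β 2 ^ 2 + β 3 ^ 2 ≥ (1 - β 0) ^ 2 / 3 := by
        have : β 1 + β 2 + β 3 = 1 - β 0 := by linarith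
        rw [← this]
        nlinarith [sq_nonneg (β 1 - β 2), sq_nonneg (β 1 - β 3), sq_nonneg (β 2 - β 3)]
      nlinarith
    · have hq : β 0 ^ 2 + β 2 ^ 2 + β 3 ^ 2 ≥ (1 - β 1) ^ 2 / 3 := by
        have : β 0 + β 2 + β 3 = 1 - β 1 := by linarith
        rw [← this]
        nlinarith [sq_nonneg (β 0 - β 2), sq_nonneg (β 0 - β 3), sq_nonneg (β 2 - β 3)]
      nlinarith
    · have hq : β 0 ^ 2 + β 1 ^ 2 + β 3 ^ 2 ≥ (1 - β 2) ^ 2 / 3 := by
        have : β 0 + β 1 + β 3 = 1 - β 2 := by linarith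
        rw [← this]
        nlinarith [sq_nonneg (β 0 - β 1), sq_nonneg (β 0 - β 3), sq_nonneg (β 1 - β 3)]
      nlinarith
    · have hq : β 0 ^ 2 + β 1 ^ 2 + β 2 ^ 2 ≥ (1 - β 3) ^ 2 / 3 := by
        have : β 0 + β 1 + β 2 = 1 - β 3 := by linarith
        rw [← this]
        nlinarith [sq_nonneg (β 0 - β 1), sq_nonneg (β 0 - β 2), sq_nonneg (β 1 - β 2)]
      nlinarith
  constructor
  · rw [← hv]
    exact (convex_convexHull ℝ (Set.range v)).sum_mem (fun i _ => hnn i) hs
      (fun i _ => subset_convexHull ℝ _ (Set.mem_range_self i))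
  · intro i j hseg
    obtain ⟨s, t, hs0, ht0, hst, hw'⟩ := hseg
    obtain ⟨k, hki, hkj⟩ := exists_ne_ne i j
    -- coordinates
    have hβ' : ∑ m, ((if m = i then s else 0) + (if m = j then t else 0)) = 1 := by
      rw [Finset.sum_add_distrib]; simp [hst]
    have hv' : ∑ m, ((if m = i then s else 0) + (if m = j then t else 0)) • v m = w := by
      simp only [add_smul, ite_smul, zero_smul, Finset.sum_add_distrib]
      simp [hw']
    have e := dist_formula hTB ht hβ' hv' k
    have hk := hw k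
    rw [e] at hk
    simp only [if_neg hki, if_neg hkj, add_zero, mul_zero, sub_zero] at hk
    have hk2 : ∑ m, ((if m = i then s else 0) + (if m = j then t else 0)) ^ 2 + 1 ≤ 4 / 3 := by
      have : a ^ 2 / 2 * (∑ m, ((if m = i then s else 0) + (if m = j then t else 0)) ^ 2 + 1)
          ≤ a ^ 2 / 2 * (4 / 3) := by linarith
      exact le_of_mul_le_mul_left this (by positivity)
    have hge : (1 : ℝ) / 2 ≤ ∑ m, ((if m = i then s else 0) + (if m = j then t else 0)) ^ 2 := by
      by_cases hij : i = j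
      · subst hij
        have : ∀ m, ((if m = i then s else 0) + (if m = i then t else 0)) ^ 2
            = if m = i then (1:ℝ) else 0 := by
          intro m; split_ifs
          · rw [hst]; norm_num
          · norm_num
        rw [Finset.sum_congr rfl fun m _ => this m]
        simp; norm_num
      · have : ∀ m, ((if m = i then s else 0) + (if m = j then t else 0)) ^ 2
            = (if m = i then s ^ 2 else 0) + (if m = j then t ^ 2 else 0) := by
          intro m
          by_cases hm : m = i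
          · have : m ≠ j := fun h => hij (hm.symm.trans h)
            simp [hm, hij]
          · simp [hm]
        rw [Finset.sum_congr rfl fun m _ => this m, Finset.sum_add_distrib]
        simp
        have : t = 1 - s := by linarith
        rw [this]
        nlinarith [sq_nonneg (s - 1 / 2)]
    linarith

theorem piv_w {v : Fin 4 → V} {w : V} {b ρ : Fin 4 → ℝ} {u : Fin 4 → V} (hp : Piv v w b ρ u) :
    ∑ i, b i • v i = w := by
  have h1 : ∀ i, b i • v i = b i • w + (b i * ρ i) • u i := by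
    intro i; rw [hp.eq i, smul_add, smul_smul]
  rw [Finset.sum_congr rfl fun i _ => h1 i, Finset.sum_add_distrib, hp.bal, ← Finset.sum_smul,
    hp.sum, one_smul, add_zero]

theorem piv_dist {v : Fin 4 → V} {w : V} {b ρ : Fin 4 → ℝ} {u : Fin 4 → V} (hp : Piv v w b ρ u)
    (i : Fin 4) : (v i - w) ⬝ᵥ (v i - w) = ρ i ^ 2 := by
  have h1 : v i - w = ρ i • u i := by rw [hp.eq i]; abel
  have h2 : u i ⬝ᵥ u i = 1 := hp.unit i
  rw [h1, smul_dotProduct, dotProduct_smul, h2]
  simp [pow_two]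

theorem goalA13 (hTB : G_TB) : G_A13 := by
  intro v a w b ρ u ht hp heq i
  have hw := piv_w hp
  have e : ∀ k, ρ 0 ^ 2 = a ^ 2 / 2 * (∑ i, b i ^ 2 - 2 * b k + 1) := by
    intro k
    rw [heq 0 k, ← piv_dist hp k]
    exact dist_formula hTB ht hp.sum hw k
  have ha2 : 0 < a ^ 2 := by have := ht.1; positivity
  have hb : ∀ k, b k = b 0 := by
    intro k
    have h1 := e k
    have h2 := e 0
    have h3 : a ^ 2 / 2 * (∑ i, b i ^ 2 - 2 * b k + 1) = a ^ 2 / 2 * (∑ i, b i ^ 2 - 2 * b 0 + 1) := by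
      rw [← h1, ← h2]
    have h4 := mul_left_cancel₀ (by positivity : a ^ 2 / 2 ≠ 0) h3
    linarith
  have hb0 : b 0 = 1 / 4 := by
    have := hp.sum
    rw [Fin.sum_univ_four, hb 1, hb 2, hb 3] at this
    linarith
  rw [heq i 0, e 0, Fin.sum_univ_four, hb 1, hb 2, hb 3, hb0]
  ring

theorem goalA10a (hTB : G_TB) : G_A10a := by
  intro v a w b ρ u ht hp i j hij hx
  obtain ⟨-, -, -, h4⟩ := hTB v a ht
  have hui : u i ⬝ᵥ u i = 1 := hp.unit i
  have huj : u j ⬝ᵥ u j = 1 := hp.unit j
  have hsq := Pool.Agent.Helper26.LU.cross_sq (hp.unit i) (hp.unit j)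
  rw [hx] at hsq
  have hsq' : (u i ⬝ᵥ u j) ^ 2 = 1 := by simp at hsq; linarith
  obtain ⟨ε, hε, hεu⟩ : ∃ ε : ℝ, ε ^ 2 = 1 ∧ u j = ε • u i := by
    refine ⟨u i ⬝ᵥ u j, hsq', ?_⟩
    have h0 : (u j - (u i ⬝ᵥ u j) • u i) ⬝ᵥ (u j - (u i ⬝ᵥ u j) • u i) = 0 := by
      rw [sub_dotProduct, dotProduct_sub, dotProduct_sub, smul_dotProduct, smul_dotProduct,
        dotProduct_smul, dotProduct_smul, hui, huj, dotProduct_comm (u j) (u i)]
      simp only [smul_eq_mul]
      linear_combination (-1 : ℝ) * hsq'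
    exact sub_eq_zero.1 (dotProduct_self_eq_zero.1 h0)
  have hvi : v i - w = ρ i • u i := by rw [hp.eq i]; abel
  have hvj : v j - w = (ρ j * ε) • u i := by rw [hp.eq j, hεu, smul_smul]; abel
  have hri := hp.pos i
  have hrj := hp.pos j
  have hbal : ∑ k, b k • (v k - w) = 0 := by
    simp only [smul_sub, Finset.sum_sub_distrib]
    rw [piv_w hp, ← Finset.sum_smul, hp.sum]; simp
  by_cases hσ : ρ j - ε * ρ i = 0
  · have : v i = v j := by
      have h5 : v i - w = v j - w := by
        rw [hvi, hvj]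
        congr 1
        have h6 : ρ j = ε * ρ i := by linarith
        rw [h6]; linear_combination (-ρ i) * hε
      exact sub_left_injective h5
    have h7 := ht.2 i j hij
    rw [this, sub_self, zero_dotProduct] at h7
    replace h7 := pow_eq_zero_iff (two_ne_zero) |>.1 h7.symm
    exact ht.1.ne' h7
  · set γ : Fin 4 → ℝ := fun k => b k - ((if k = i then ρ j else 0) - (if k = j then ε * ρ i else 0))
      / (ρ j - ε * ρ i) with hγ
    have hγs : ∑ k, γ k = 0 := by
      simp only [hγ, Finset.sum_sub_distrib, hp.sum, ← Finset.sum_div]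
      simp
      field_simp
      ring
    have hγv : ∑ k, γ k • v k = 0 := by
      have e1 : ∑ k, γ k • v k = ∑ k, γ k • (v k - w) := by
        simp only [smul_sub, Finset.sum_sub_distrib]
        rw [← Finset.sum_smul, hγs]; simp
      rw [e1]
      have e2 : ∑ k, γ k • (v k - w) = ∑ k, b k • (v k - w)
          - (ρ j - ε * ρ i)⁻¹ • (∑ k, (if k = i then ρ j else 0) • (v k - w)
            - ∑ k, (if k = j then ε * ρ i else 0) • (v k - w)) := by
        rw [← Finset.sum_sub_distrib, Finset.smul_sum, ← Finset.sum_sub_distrib]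
        refine Finset.sum_congr rfl fun k _ => ?_
        rw [← sub_smul, smul_smul, ← sub_smul]
        congr 1
        simp only [hγ]
        ring
      rw [e2, hbal]
      simp only [ite_smul, zero_smul, Finset.sum_ite_eq', Finset.mem_univ, if_true]
      rw [hvi, hvj, smul_smul, smul_smul, ← sub_smul, show ρ j * ρ i - ε * ρ i * (ρ j * ε) = 0 by
        linear_combination (-(ρ i * ρ j)) * hε]
      simp
    have h8 := h4 γ hγs
    rw [hγv] at h8
    have ha2 : 0 < a ^ 2 := by have := ht.1; positivity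
    have h9 : ∑ k, γ k ^ 2 = 0 := by
      have : a ^ 2 / 2 * ∑ k, γ k ^ 2 = 0 := by rw [← h8]; simp
      exact (mul_eq_zero.1 this).resolve_left (by positivity)
    obtain ⟨k, hki, hkj, hbk⟩ := hp.three i j
    have h10 : γ k ^ 2 = 0 :=
      (Finset.sum_eq_zero_iff_of_nonneg (fun m _ => sq_nonneg (γ m))).1 h9 k (Finset.mem_univ k)
    have h11 : γ k = b k := by simp [hγ, hki, hkj]
    rw [h11] at h10
    have := pow_eq_zero_iff (two_ne_zero) |>.1 h10
    linarith

theorem goalA4a (hTB : G_TB) : G_A4a := by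
  intro v a w i0 ht
  obtain ⟨h1, h2, h3, h4⟩ := hTB v a ht
  have ha : 0 < a := ht.1
  have ha2 : 0 < a ^ 2 := by positivity
  set n := v i0 - gv v with hn
  have hnn : n ⬝ᵥ n = 3 * a ^ 2 / 8 := by rw [hn, h3]; simp
  have hni : ∀ i, i ≠ i0 → (v i - gv v) ⬝ᵥ n = -a ^ 2 / 8 := by
    intro i hi; rw [hn, h3, if_neg hi]
  -- the common value
  obtain ⟨i1, hi1, -⟩ := exists_ne_ne i0 i0
  set D := (v i1 - w) ⬝ᵥ n with hD
  have hDi : ∀ i, i ≠ i0 → (v i - w) ⬝ᵥ n = D := by
    intro i hi
    have e1 : (v i - w) ⬝ᵥ n = (v i - gv v) ⬝ᵥ n + (gv v - w) ⬝ᵥ n := by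
      rw [← add_dotProduct]; congr 1; abel
    have e2 : D = (v i1 - gv v) ⬝ᵥ n + (gv v - w) ⬝ᵥ n := by
      rw [hD, ← add_dotProduct]; congr 1; abel
    rw [e1, e2, hni i hi, hni i1 hi1]
  have hnpos : 0 < nrm n := by
    have : 0 < n ⬝ᵥ n := by rw [hnn]; positivity
    unfold nrm; exact Real.sqrt_pos.2 this
  have key : ∀ s : V, (∀ i, i ≠ i0 → 2 * ((v i - w) ⬝ᵥ s) + s ⬝ᵥ s = 0) →
      ∃ l : ℝ, s = l • n ∧ l * (2 * D + l * (3 * a ^ 2 / 8)) = 0 := by
    intro s hs
    have hα : ∀ i, i ≠ i0 → (v i - gv v) ⬝ᵥ s = (v i1 - gv v) ⬝ᵥ s := by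
      intro i hi
      have e1 := hs i hi
      have e2 := hs i1 hi1
      simp only [sub_dotProduct] at e1 e2 ⊢
      linarith
    set α := (v i1 - gv v) ⬝ᵥ s with hαd
    have hsum : ∑ i, (v i - gv v) = 0 := by
      rw [Finset.sum_sub_distrib, Finset.sum_const, Finset.card_univ, Fintype.card_fin,
        ← Nat.cast_smul_eq_nsmul ℝ, gv, smul_smul]
      norm_num
    have hα0 : n ⬝ᵥ s = -3 * α := by
      have e1 : ∑ i, (v i - gv v) ⬝ᵥ s = 0 := by
        rw [← sum_dotProduct, hsum, zero_dotProduct]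
      rw [← Finset.add_sum_erase _ _ (Finset.mem_univ i0)] at e1
      have e2 : ∑ i ∈ Finset.univ.erase i0, (v i - gv v) ⬝ᵥ s = 3 * α := by
        rw [Finset.sum_congr rfl fun i hi => hα i (Finset.ne_of_mem_erase hi)]
        simp
      rw [e2] at e1
      linarith
    have hsv : s = (-8 * α / a ^ 2) • n := by
      have e1 := h2 (gv v + s)
      have e2 : ∀ i, bc v a (gv v + s) i = 1 / 4 + 2 / a ^ 2 * ((v i - gv v) ⬝ᵥ s) := by
        intro i; simp only [bc]; rw [add_sub_cancel_left, dotProduct_comm]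
      have e3 : ∑ i, bc v a (gv v + s) i • (v i - gv v) = s := by
        simp only [smul_sub, Finset.sum_sub_distrib]
        rw [e1, ← Finset.sum_smul, h1]; simp
      have e4 : ∑ i, bc v a (gv v + s) i • (v i - gv v)
          = bc v a (gv v + s) i0 • n + (1 / 4 + 2 / a ^ 2 * α) • ∑ i ∈ Finset.univ.erase i0, (v i - gv v) := by
        rw [← Finset.add_sum_erase _ _ (Finset.mem_univ i0), Finset.smul_sum]
        congr 1
        refine Finset.sum_congr rfl fun i hi => ?_
        rw [e2, hα i (Finset.ne_of_mem_erase hi)]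
      have e5 : ∑ i ∈ Finset.univ.erase i0, (v i - gv v) = -n := by
        have := hsum
        rw [← Finset.add_sum_erase _ _ (Finset.mem_univ i0)] at this
        exact eq_neg_of_add_eq_zero_right this
      rw [e3, e5, e2, ← hn, hα0] at e4
      rw [e4]
      rw [smul_neg, ← sub_eq_add_neg, ← sub_smul]
      congr 1
      field_simp
      ring
    refine ⟨-8 * α / a ^ 2, hsv, ?_⟩
    have e6 := hs i1 hi1
    rw [hsv] at e6
    simp only [dotProduct_smul, smul_dotProduct, smul_eq_mul] at e6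
    rw [← hD, hnn] at e6
    linear_combination e6
  by_cases hD0 : D = 0
  · refine ⟨1, one_pos, fun s _ hs => ?_⟩
    obtain ⟨l, hl, hl2⟩ := key s hs
    rw [hD0] at hl2
    have : l ^ 2 * (3 * a ^ 2 / 8) = 0 := by linear_combination hl2
    have hl0 : l = 0 := by
      rcases mul_eq_zero.1 this with h | h
      · exact pow_eq_zero_iff (two_ne_zero) |>.1 h
      · exfalso; nlinarith
    rw [hl, hl0, zero_smul]
  · refine ⟨2 * |D| / nrm n, by positivity, fun s hsn hs => ?_⟩
    obtain ⟨l, hl, hl2⟩ := key s hs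
    rcases mul_eq_zero.1 hl2 with h | h
    · rw [hl, h, zero_smul]
    · exfalso
      rw [hl, Pool.Agent.Helper26.LU.nrm_smul] at hsn
      have e7 : |l| * (3 * a ^ 2 / 8) = 2 * |D| := by
        have e8 : l * (3 * a ^ 2 / 8) = -(2 * D) := by linarith
        have := congrArg abs e8
        rw [abs_mul, abs_neg, abs_mul, abs_of_pos (by positivity : (0:ℝ) < 3 * a ^ 2 / 8)] at this
        simpa using this
      rw [lt_div_iff₀ hnpos] at hsn
      have e9 : nrm n * nrm n = 3 * a ^ 2 / 8 := by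
        rw [← pow_two, Pool.Agent.Helper26.LU.nrm_sq, hnn]
      rw [mul_assoc, e9, e7] at hsn
      exact lt_irrefl _ hsn

end Pool.Agent.Helper82.SP
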