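import Pool.Agent.Helper82.SP.GoalsA

/-!
# Project SP (MP_db6300_gt), goals B: surfaces covered by planes and small spheres
-/

set_option autoImplicit false

namespace Pool.Agent.Helper82.SP

open Matrix Real
open Pool.Agent.Helper26.LU (V M3 SO3 nrm sph proj Bm Rot crossM)
open Pool.Agent.Helper71.Tet (Mq nq)

/-! ## Polynomials on the rotation group -/

/-- B1. The compatibility identity.
Proof. Let `N = t ⬝ᵥ t`. Expanding `Qd (z i + t) = 0`: `κ i * N + ∑ j, cX j i * t j = cH i`, i.e. `cH = N • κ + ∑ j, t j • cX j`. By linearity and alternation of `D4` (`Matrix.det` in columns; or expand all determinants and substitute): `D4 cH X0 X1 X2 = N Δ`, `D4 κ cH X1 X2 = t 0 Δ`, `D4 κ X0 cH X2 = t 1 Δ`, `D4 κ X0 X1 cH = t 2 Δ`,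
`Δ = D4 κ X0 X1 X2`. So `dI = N Δ² - (t 0² + t 1² + t 2²) Δ² = 0`. -/
def G_B1 : Prop := ∀ (κ : Fin 4 → ℝ) (b : Fin 4 → V) (g : Fin 4 → ℝ) (z : Fin 4 → V) (t : V),
  (∀ i, Qd (κ i) (b i) (g i) (z i + t) = 0) → dI κ b g z = 0

/-- B2. Every rotation comes from a unit quaternion.
Proof. First part: `Mq_orth`, `nq (c • q) = c² nq q`, and `(Mq q).det = nq q ^ 3` (ring). Second part: `r i j = R i j`; `t 0 = 1 + r00 + r11 + r22`, `t 1 = 1 + r00 - r11 - r22`, `t 2 = 1 - r00 + r11 - r22`, `t 3 = 1 - r00 - r11 + r22` have sum `4`, so some `t k ≥ 1`. If `t 0 > 0`: `q = (t 0, r21 - r12, r02 - r20, r10 - r01) / (2 √(t 0))`. From `R Rᵀ = 1 = Rᵀ R` and the cofactor identities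
(`R` equals its cofactor matrix, as `det R = 1`): `(r21 - r12)² = t 0 t 1`, etc., `(r21 - r12) (r02 - r20) = t 0 (r01 + r10)`, etc.; so `nq q = 1`, `Mq q = R`. For `t 1 > 0`: `q = (r21 - r12, t 1, r01 + r10, r02 + r20) / (2 √(t 1))`; similarly `t 2`: `(r02 - r20, r01 + r10, t 2, r12 + r21)`, `t 3`: `(r10 - r01, r02 + r20, r12 + r21, t 3)`.
Another way: `R` fixes a unit vector (`det (R - 1) = 0`), `R = A Rot θ Aᵀ`, and products of matrices `Mq q` are again such (quaternion multiplication, a ring identity). -/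
def G_B2 : Prop := (∀ q : Fin 4 → ℝ, nq q ≠ 0 → (nq q)⁻¹ • Mq q ∈ SO3) ∧
  ∀ R ∈ SO3, ∃ q : Fin 4 → ℝ, nq q = 1 ∧ Mq q = R

/-- EXT. Analytic functions on the rotation group (uses B2).
Proof. `h q = F (fun i => (nq q)⁻¹ • (Mq q *ᵥ v i))` is analytic on `{q | q ≠ 0}` (`nq q ≠ 0` there: `nq_eq_zero`), which is preconnected (`isConnected_compl_singleton_of_one_lt_rank`). The set of the `q ≠ 0` with `(nq q)⁻¹ • Mq q ∈ U` is open, nonempty (B2 for `R ∈ U ∩ SO3`), and `h = 0` on it. So `h = 0` for all `q ≠ 0` (`AnalyticOnNhd.eqOn_zero_of_preconnected_of_eventuallyEq_zero`); B2. -/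
def G_EXT : Prop := ∀ (F : (Fin 4 → V) → ℝ) (v : Fin 4 → V) (U : Set M3),
  AnalyticOnNhd ℝ F Set.univ → IsOpen U → (U ∩ (SO3 : Set M3)).Nonempty →
  (∀ R ∈ U, R ∈ SO3 → F (fun i => R *ᵥ v i) = 0) → ∀ R ∈ SO3, F (fun i => R *ᵥ v i) = 0

/-- LIN. Linear functions on the rotation group (uses EXT).
Proof. EXT with `v 0, v 1, v 2` the basis vectors, `v 3 = 0`, `F z = ∑ p, ∑ m, G p m * (z m p) - k` (`m = 0, 1, 2`): the equation holds for all `R ∈ SO3`. Let `D 0 = 1`, `D 1, D 2, D 3` the half turns `diag(1,-1,-1)`, `diag(-1,1,-1)`, `diag(-1,-1,1)`; `∑ R * D i = 0` gives `4 k = 0`. `R (D 0 + D 1)` has only the first column, twice the first column of `R`: `∑ p, G p 0 * R p 0 = 0`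
for all `R ∈ SO3`. The first columns of rotations include all basis vectors (permutation matrices), so `G p 0 = 0`. The other columns: `D 0 + D 2`, `D 0 + D 3`. -/
def G_LIN : Prop := ∀ (G : M3) (k : ℝ) (U : Set M3), IsOpen U → (U ∩ (SO3 : Set M3)).Nonempty →
  (∀ R ∈ U, R ∈ SO3 → ∑ p, ∑ m, G p m * R p m = k) → G = 0

/-! ## The top coefficient -/

/-- B4a. The compatibility expression in complex coordinates.
Proof. With `Δ = D4 K X0 X1 X2`, `θ = D4 H X0 X1 X2`, `T0 = D4 K H X1 X2`, `T1 = D4 K X0 H X2`, `T2 = D4 K X0 X1 H`: `D4 K Xp Xm X2 = -2 I Δ`, `D4 H Xp Xm X2 = -2 I θ`, `D4 K Xp Xm H = -2 I T2`, `D4 K Xp H X2 = T1 - I T0`, `D4 K H Xm X2 = -T1 - I T0` (multilinear and alternating). Then compute. (Checked numerically.) -/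
def G_B4a : Prop := ∀ K X0 X1 X2 H : Fin 4 → ℂ,
  4 * (D4 H X0 X1 X2 * D4 K X0 X1 X2 - D4 K H X1 X2 ^ 2 - D4 K X0 H X2 ^ 2 - D4 K X0 X1 H ^ 2) =
    D4 K (X0 + Complex.I • X1) (X0 - Complex.I • X1) H ^ 2
    + 4 * (D4 K (X0 + Complex.I • X1) H X2 * D4 K H (X0 - Complex.I • X1) X2)
    - D4 H (X0 + Complex.I • X1) (X0 - Complex.I • X1) X2 *
      D4 K (X0 + Complex.I • X1) (X0 - Complex.I • X1) X2

/-- B4. The top coefficient vanishes (uses B4a).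
Proof. Write `y i = z i 0 + I z i 1`, `β i = b i 0 + I b i 1`, `C i = cm (b i) = conj (β i)`, `u = exp(-I θ)`, `zz i = Rot θ *ᵥ z i`. Then (complex casts of the real columns at `zz`) `cX 0 + I cX 1 = 2 (κ y u⁻¹ - β) = 2 u⁻¹ Y`, `Y = κ y - β u`; `cX 0 - I cX 1 = 2 (κ u (conj y) - C) = 2 W`; `cX 2 = 2 (κ z 2 - b 2) = 2 Z`;
`cH = C y u⁻¹ + β (conj y) u + 2 b 2 z 2 - g - κ |z|² = u⁻¹ G`, `G = C y + β (conj y) u² + (2 b 2 z 2 - g - κ |z|²) u`. B4a and multilinearity: `4 u⁴ dI(zz) = 16 P(u)`, `P(u) = D4 κ Y W G ^ 2 + 4 u (D4 κ Y G Z * D4 κ G W Z - D4 G Y W Z * D4 κ Y W Z)`. (Checked numerically.) `P` is a polynomial in `u`, so differentiable on `ℂ`, and `P = 0` on the unit circle;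
the maximum modulus principle (`Complex.norm_le_of_forall_mem_frontier_norm_le` on the unit ball) gives `P 0 = 0`: `D4 κ (κ y) (-C) (C y) = 0`. -/
def G_B4 : Prop := ∀ (κ : Fin 4 → ℝ) (b : Fin 4 → V) (g : Fin 4 → ℝ) (z : Fin 4 → V),
  (∀ θ : ℝ, dI κ b g (fun i => Rot θ *ᵥ z i) = 0) →
  D4 (fun i => (κ i : ℂ)) (fun i => (κ i : ℂ) * ((z i 0 : ℂ) + Complex.I * (z i 1 : ℂ)))
    (fun i => cm (b i)) (fun i => cm (b i) * ((z i 0 : ℂ) + Complex.I * (z i 1 : ℂ))) = 0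

/-- B5. Algebra.
Proof. `M i j = κ i C j - κ j C i`. For `y i = n0 t0 + n1 t1 + n2 t2` (`t = tt i`): `D4 κ (κ y) C (C y) = -4 (M01 M23 n0² - M02 M13 n1² + M03 M12 n2²)` (ring identity, checked numerically). `n = (1, I, 0)`: `A + B = 0`, `n = (0, 1, I)`: `-B - Γ = 0` with `A = M01 M23`, `B = M02 M13`, `Γ = M03 M12`, and `A - B + Γ = 0` (ring). So `A = B = Γ = 0`. -/
def G_B5 : Prop := ∀ κ C : Fin 4 → ℂ,
  D4 κ (fun i => κ i * ((tt i 0 : ℂ) + Complex.I * (tt i 1 : ℂ))) C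
    (fun i => C i * ((tt i 0 : ℂ) + Complex.I * (tt i 1 : ℂ))) = 0 →
  D4 κ (fun i => κ i * ((tt i 1 : ℂ) + Complex.I * (tt i 2 : ℂ))) C
    (fun i => C i * ((tt i 1 : ℂ) + Complex.I * (tt i 2 : ℂ))) = 0 →
  (κ 0 * C 1 - κ 1 * C 0) * (κ 2 * C 3 - κ 3 * C 2) = 0 ∧
  (κ 0 * C 2 - κ 2 * C 0) * (κ 1 * C 3 - κ 3 * C 1) = 0 ∧
  (κ 0 * C 3 - κ 3 * C 0) * (κ 1 * C 2 - κ 2 * C 1) = 0

/-- B8. The three products (uses NF, B1, EXT, B4, B5).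
Proof. Fix `A ∈ SO3`, `b' i = Aᵀ *ᵥ b i`, `U' = {R | A * R ∈ U}` open, meets `SO3`. For `R ∈ U' ∩ SO3`: `t` for `A * R`, `t' = Aᵀ *ᵥ t`: `Qd (κ i) (b' i) (g i) (R *ᵥ v i + t') = 0` (dot products are invariant). B1: `dI κ b' g (fun i => R *ᵥ v i) = 0`; `dI κ b' g` is a polynomial in the coordinates of `z`, so analytic; EXT: this holds for all `R ∈ SO3`.
NF: `v i = z₀ + l • O *ᵥ tt i`. Let `P = 1` or the rotation `P x = (x 1, x 2, x 0)`; `B = P * Oᵀ ∈ SO3`, `z i = B *ᵥ v i = B *ᵥ z₀ + l • P *ᵥ tt i`. With `R = Rot θ * B`: B4 for `z`, `b'`: with `y i = y₀ + l y' i`, `y' i = tt i 0 + I tt i 1` resp. `tt i 1 + I tt i 2`: `D4 κ (κ y) C (C y) = l² D4 κ (κ y') C (C y')` (subtract `y₀` times the columns `κ`, `C`). B5;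
`κ i C j - κ j C i = cm (Aᵀ *ᵥ (κ i • b j - κ j • b i))`. -/
def G_B8 : Prop := ∀ (v : Fin 4 → V) (a : ℝ) (κ : Fin 4 → ℝ) (b : Fin 4 → V) (g : Fin 4 → ℝ)
  (U : Set M3), Tet v a → IsOpen U → (U ∩ (SO3 : Set M3)).Nonempty →
  (∀ R ∈ U, R ∈ SO3 → ∃ t, ∀ i, Qd (κ i) (b i) (g i) (R *ᵥ v i + t) = 0) → ∀ A ∈ SO3,
  cm (Aᵀ *ᵥ (κ 0 • b 1 - κ 1 • b 0)) * cm (Aᵀ *ᵥ (κ 2 • b 3 - κ 3 • b 2)) = 0 ∧
  cm (Aᵀ *ᵥ (κ 0 • b 2 - κ 2 • b 0)) * cm (Aᵀ *ᵥ (κ 1 • b 3 - κ 3 • b 1)) = 0 ∧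
  cm (Aᵀ *ᵥ (κ 0 • b 3 - κ 3 • b 0)) * cm (Aᵀ *ᵥ (κ 1 • b 2 - κ 2 • b 1)) = 0

/-- B9. Products of null functionals.
Proof. Suppose `d, d' ≠ 0`. There is a unit vector `x` with `x ⬝ᵥ d ≠ 0`, `x ⬝ᵥ d' ≠ 0`: `x = proj d` if `d ⬝ᵥ d' ≠ 0`, else `x = proj (d + d')`. There is `A ∈ SO3` with first column `x` (`exists_rot`: `Q *ᵥ e 0 = x`, `e 0 = (0,0,1)`; `A = Q * P`, `P` the cyclic permutation matrix taking `(1,0,0)` to `(0,0,1)`). The real part of `cm (Aᵀ *ᵥ d)` is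
`(Aᵀ *ᵥ d) 0 = x ⬝ᵥ d ≠ 0`, the same for `d'`. -/
def G_B9 : Prop := ∀ d d' : V, (∀ A ∈ SO3, cm (Aᵀ *ᵥ d) * cm (Aᵀ *ᵥ d') = 0) → d = 0 ∨ d' = 0

/-- B10. Three planes or three concentric spheres (uses B9).
Proof. B9 for the three products: with `d i j = κ i • b j - κ j • b i` (`d j i = - d i j`) we have (`d 01 = 0` or `d 23 = 0`), (`d 02 = 0` or `d 13 = 0`), (`d 03 = 0` or `d 12 = 0`). `d i j = 0` implies: `κ i = κ j`, and if both are `1` then `b i = b j` (if `κ i = 1`, `κ j = 0` then `b j = 0`, excluded). In the 8 cases the vanishing pairs contain a triangle or a star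
(`{01,02,03}`, `{01,02,12}`, `{01,13,03}`, `{01,13,12}`, `{23,02,03}`, `{23,02,12}`, `{23,13,03}`, `{23,13,12}`); `κ i = κ j ∧ (κ i = 1 → b i = b j)` is transitive, so it holds for three indices (for a star for all four). -/
def G_B10 : Prop := ∀ (κ : Fin 4 → ℝ) (b : Fin 4 → V), (∀ i, κ i = 0 ∧ b i ≠ 0 ∨ κ i = 1) →
  (∀ A ∈ SO3,
    cm (Aᵀ *ᵥ (κ 0 • b 1 - κ 1 • b 0)) * cm (Aᵀ *ᵥ (κ 2 • b 3 - κ 3 • b 2)) = 0 ∧
    cm (Aᵀ *ᵥ (κ 0 • b 2 - κ 2 • b 0)) * cm (Aᵀ *ᵥ (κ 1 • b 3 - κ 3 • b 1)) = 0 ∧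
    cm (Aᵀ *ᵥ (κ 0 • b 3 - κ 3 • b 0)) * cm (Aᵀ *ᵥ (κ 1 • b 2 - κ 2 • b 1)) = 0) →
  ∃ i0, (∀ i, i ≠ i0 → κ i = 0) ∨ ∃ c, ∀ i, i ≠ i0 → κ i = 1 ∧ b i = c

/-! ## Planes -/

/-- B11a. Dependent normals (uses TB, LIN).
Proof. `∑ μ i (n i ⬝ᵥ (R *ᵥ v i)) = ∑ μ i k i` on `U ∩ SO3` (`∑ μ i (n i ⬝ᵥ t) = 0`), a linear function of `R` with matrix `G p m = ∑ μ i n i p v i m`; LIN: `G = 0`. So `∑ μ i (v i ⬝ᵥ y) • n i = 0` for all `y : V`, with `∑ μ i • n i = 0`: `∑ μ i φ(v i) • n i = 0` for every affine `φ`; take `φ x = bc v a x j`: `φ (v i) = 1` if `i = j`, else `0` (TB (3)). So `μ j • n j = 0`,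
`μ j = 0` (otherwise `n j ≠ 0`). -/
def G_B11a : Prop := ∀ (v : Fin 4 → V) (a : ℝ) (n : Fin 4 → V) (k μ : Fin 4 → ℝ) (U : Set M3),
  Tet v a → IsOpen U → (U ∩ (SO3 : Set M3)).Nonempty →
  (∀ R ∈ U, R ∈ SO3 → ∃ t, ∀ i, μ i ≠ 0 → n i ⬝ᵥ (R *ᵥ v i + t) = k i) →
  ∑ i, μ i • n i = 0 → (∀ i, μ i ≠ 0 → n i ≠ 0) → μ = 0

/-- B11b. Three independent planes and a sphere: extension to all rotations (uses EXT).
Proof. The three vectors `n i`, `i ≠ i0`, are linearly independent in `V`, so there are `m i` (`i ≠ i0`) with `n i ⬝ᵥ m j = 1` if `i = j`, else `0`, and `x = ∑_{i ≠ i0} (n i ⬝ᵥ x) • m i`. The first three equations say `t = T z := ∑_{i ≠ i0} (k i - n i ⬝ᵥ z i) • m i` for `z i = R *ᵥ v i`. `F z = |z i0 + T z - c|² - r` is a polynomial, zero for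
`R ∈ U ∩ SO3`; EXT: for all `R ∈ SO3`, with `t = T (R v)`. -/
def G_B11b : Prop := ∀ (v : Fin 4 → V) (n : Fin 4 → V) (k : Fin 4 → ℝ) (c : V) (r : ℝ)
  (i0 : Fin 4) (U : Set M3), IsOpen U → (U ∩ (SO3 : Set M3)).Nonempty →
  (∀ μ : Fin 4 → ℝ, μ i0 = 0 → ∑ i, μ i • n i = 0 → μ = 0) →
  (∀ R ∈ U, R ∈ SO3 → ∃ t, (∀ i, i ≠ i0 → n i ⬝ᵥ (R *ᵥ v i + t) = k i) ∧
    (R *ᵥ v i0 + t - c) ⬝ᵥ (R *ᵥ v i0 + t - c) = r) →
  ∀ R ∈ SO3, ∃ t, (∀ i, i ≠ i0 → n i ⬝ᵥ (R *ᵥ v i + t) = k i) ∧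
    (R *ᵥ v i0 + t - c) ⬝ᵥ (R *ᵥ v i0 + t - c) = r

/-- B11c. A plane computation.
Proof. Write `ζ = exp(I θ)`, `νb = conj ν`. The two linear equations: `νb₁ σ + ν₁ conj σ = 2 κ₁ - νb₁ Y₁ ζ - ν₁ (conj Y₁) (conj ζ)` and the same with index `2`. Multiply the first by `ν₂`, the second by `ν₁`, subtract: `δ σ = E + a ζ + d conj ζ` with `δ = νb₁ ν₂ - νb₂ ν₁ ≠ 0`, `E = 2 κ₁ ν₂ - 2 κ₂ ν₁`, `a = -(νb₁ ν₂ Y₁ - νb₂ ν₁ Y₂)`,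
`d = -ν₁ ν₂ (conj Y₁ - conj Y₂)`. So `f ζ = |E + a ζ + d conj ζ|² = |δ|² ρ` for `|ζ| = 1`; `f ζ = |E|² + |a|² + |d|² + 2 Re (conj E (a ζ + d conj ζ)) + 2 Re (a (conj d) ζ²)`. `f 1 + f (-1) - f I - f (-I) = 8 Re (a conj d)`, and with `ζ₀ = exp(I π/4)`: `f ζ₀ + f (-ζ₀) - f (I ζ₀) - f (-I ζ₀) = 8 Re (I a conj d)`. So `a conj d = 0`. If `d = 0` then
`Y₁ = Y₂` (`ν₁, ν₂ ≠ 0` because `δ ≠ 0`); if `a = 0` then `νb₁ ν₂ Y₁ = νb₂ ν₁ Y₂`, so `|Y₁| = |Y₂|`. -/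
def G_B11c : Prop := ∀ (ν₁ ν₂ Y₁ Y₂ : ℂ) (κ₁ κ₂ ρ : ℝ),
  (starRingEnd ℂ) ν₁ * ν₂ - (starRingEnd ℂ) ν₂ * ν₁ ≠ 0 →
  (∀ θ : ℝ, ∃ σ : ℂ,
    ((starRingEnd ℂ) ν₁ * (σ + Complex.exp (Complex.I * θ) * Y₁)).re = κ₁ ∧
    ((starRingEnd ℂ) ν₂ * (σ + Complex.exp (Complex.I * θ) * Y₂)).re = κ₂ ∧
    ‖σ‖ ^ 2 = ρ) → ‖Y₁‖ = ‖Y₂‖

/-- B11d. Three independent planes and a sphere (uses NF, B11b, B11c).
Proof. B11b: the property holds for all `R ∈ SO3`. Let `j` be an index `≠ i0` and `p, q` the other two. `n j ≠ 0`; `A ∈ SO3` with `A *ᵥ (0,0,1) = proj (n j)` (`exists_rot`), `n' i = Aᵀ *ᵥ n i`, so `n' j = (0, 0, ν)`, `ν ≠ 0`; `c' = Aᵀ *ᵥ c`. For every `B ∈ SO3` and `θ`, with `R = A * Rot θ * B`, `z i = B *ᵥ v i`, `t' = Aᵀ *ᵥ t`: `n' i ⬝ᵥ (Rot θ *ᵥ z i + t') = k i` (`i ≠ i0`),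
`|Rot θ *ᵥ z i0 + t' - c'|² = r`. `(Rot θ *ᵥ z) 2 = z 2`; the equation `j`: `t' 2 = k j/ν - z j 2`, independent of `θ`. Put `y i = z i 0 + I z i 1`, `σ = ζ y i0 + (t' 0 + I t' 1) - (c' 0 + I c' 1)`, `Y₁ = y p - y i0`, `Y₂ = y q - y i0`, `ν₁ = n' p 0 + I n' p 1`, `ν₂ = n' q 0 + I n' q 1`: `conj ν₁ ν₂ - conj ν₂ ν₁ ≠ 0` (it is `2 I (n' p 0 n' q 1 - n' p 1 n' q 0)`, nonzero as
`n' p, n' q, n' j` are independent). `Re (conj ν₁ (σ + ζ Y₁)) = n' p 0 (Rot θ z p + t' - c') 0 + n' p 1 (..) 1 = const` (independent of `θ`), `‖σ‖² = r - (z i0 2 + t' 2 - c' 2)² = const`. B11c: `|y p - y i0| = |y q - y i0|` for every `B ∈ SO3`. NF: `v i = z₀ + l • O *ᵥ tt i`; `B = P * Oᵀ` with a cyclic permutation matrix `P` (3 of them): `y i - y i0 = l (w 0 + I w 1)`,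
`w = P *ᵥ (tt i - tt i0)`. `tt p - tt i0` has exactly one zero coordinate (the other two are `± 2`), `tt q - tt i0` has its zero coordinate elsewhere. Choose `P` that moves the zero coordinate of `tt p - tt i0` to the last place: `|y p - y i0|² = 8 l²`, `|y q - y i0|² = 4 l²`. Contradiction. (`fin_cases i0, p, q`.) -/
def G_B11d : Prop := ∀ (v : Fin 4 → V) (a : ℝ) (n : Fin 4 → V) (k : Fin 4 → ℝ) (c : V) (r : ℝ)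
  (i0 : Fin 4) (U : Set M3), Tet v a → IsOpen U → (U ∩ (SO3 : Set M3)).Nonempty →
  (∀ μ : Fin 4 → ℝ, μ i0 = 0 → ∑ i, μ i • n i = 0 → μ = 0) →
  (∀ R ∈ U, R ∈ SO3 → ∃ t, (∀ i, i ≠ i0 → n i ⬝ᵥ (R *ᵥ v i + t) = k i) ∧
    (R *ᵥ v i0 + t - c) ⬝ᵥ (R *ᵥ v i0 + t - c) = r) → False

/-! ## Concentric spheres -/

/-- B12. A constant pivot (uses TB).
Proof. For `R ∈ U ∩ SO3` and its `t` let `s = Rᵀ *ᵥ (c - t)`: `R *ᵥ v i + t = c + R *ᵥ (v i - s)`. For `i ≠ i0` the equation says `|v i - s|² = c ⬝ᵥ c - g i`. `Σ` = the set of all such `s : V`. If `s, s' ∈ Σ`: `(v i - v j) ⬝ᵥ (s' - s) = 0` for `i, j ≠ i0`, so `s' - s = λ • n`, `n = v i0 - gv v` (as in A4a), and `|v i - s - λ n|² = |v i - s|²`: `λ = 0` or `λ = 2 n ⬝ᵥ (v i - s)/|n|²`, so `Σ ⊆ {s₁, s₂}`.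
`F m = {R : M3 | ∀ i, c + R *ᵥ (v i - s m) ∈ frontier K ∧ Qd .. = 0}`, `m = 1, 2`, is closed, `U ∩ SO3 ⊆ F 1 ∪ F 2`. If `U ∩ SO3 ⊆ F 1`: `w = s₁`, `U' = U`; else `U' = U \ F 1`, `w = s₂`. -/
def G_B12 : Prop := ∀ (v : Fin 4 → V) (a : ℝ) (K : Set V) (κ : Fin 4 → ℝ) (b : Fin 4 → V)
  (g : Fin 4 → ℝ) (U : Set M3) (i0 : Fin 4) (c : V), Tet v a →
  (∀ i, i ≠ i0 → κ i = 1 ∧ b i = c) → IsOpen U → (U ∩ (SO3 : Set M3)).Nonempty →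
  (∀ R ∈ U, R ∈ SO3 → ∃ t, ∀ i, R *ᵥ v i + t ∈ frontier K ∧
    Qd (κ i) (b i) (g i) (R *ᵥ v i + t) = 0) →
  ∃ (w : V) (U' : Set M3), IsOpen U' ∧ (U' ∩ (SO3 : Set M3)).Nonempty ∧
    ∀ R ∈ U', R ∈ SO3 → ∀ i, c + R *ᵥ (v i - w) ∈ frontier K ∧
      Qd (κ i) (b i) (g i) (c + R *ᵥ (v i - w)) = 0

/-- B13. The radii (uses LIN).
Proof. `i ≠ i0`: `Qd = |v i - w|² - (c ⬝ᵥ c - g i) = 0`, so `|v i - w|² = b i ⬝ᵥ b i - g i ≤ 2 a²/3`. `i = i0`: `d = v i0 - w`; if `d = 0` clear. Let `d ≠ 0`, `κ = κ i0`, `b = b i0`, `g = g i0`. `κ = 0`: `-2 b ⬝ᵥ c - 2 b ⬝ᵥ (R *ᵥ d) + g = 0` on `U ∩ SO3`; LIN with `G p m = b p d m`: `b = 0`, excluded. `κ = 1`: `2 (c - b) ⬝ᵥ (R *ᵥ d) = const`, LIN: `(c - b) p d m = 0`, so `c = b`; then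
`|c + R d|² - 2 c ⬝ᵥ (c + R d) + g = |d|² - c ⬝ᵥ c + g = 0`. -/
def G_B13 : Prop := ∀ (v : Fin 4 → V) (a : ℝ) (κ : Fin 4 → ℝ) (b : Fin 4 → V) (g : Fin 4 → ℝ)
  (U : Set M3) (i0 : Fin 4) (c w : V),
  (∀ i, κ i = 0 ∧ b i ≠ 0 ∨ κ i = 1 ∧ b i ⬝ᵥ b i - g i ≤ 2 * a ^ 2 / 3) →
  (∀ i, i ≠ i0 → κ i = 1 ∧ b i = c) → IsOpen U → (U ∩ (SO3 : Set M3)).Nonempty →
  (∀ R ∈ U, R ∈ SO3 → ∀ i, Qd (κ i) (b i) (g i) (c + R *ᵥ (v i - w)) = 0) →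
  ∀ i, (v i - w) ⬝ᵥ (v i - w) ≤ 2 * a ^ 2 / 3

/-- B14. Small radii put the centre into the tetrahedron (uses TB).
Proof. `β i = bc v a w i`. TB (4) for `β - e_k`: `|w - v k|² = (a²/2) ((1 - β k)² + ∑_{i ≠ k} β i²) ≥ (a²/2) (1 - β k)² (1 + 1/3)` (Cauchy, `∑_{i ≠ k} β i = 1 - β k`), so `(1 - β k)² ≤ 1`, `β k ≥ 0`: `w ∈ convexHull`. If `w = (1 - s) v i + s v j`: take `k ≠ i, j`; `β` has only the entries `1 - s`, `s` at `i`, `j` (TB (4): uniqueness; or directly `|w - v k|² = (a²/2) (1 + (1 - s)² + s²)` from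
TB (4)), so `|w - v k|² ≥ 3 a²/4 > 2 a²/3`. (`i = j` is the case `w = v i`, distance `a`.) -/
def G_B14 : Prop := ∀ (v : Fin 4 → V) (a : ℝ) (w : V), Tet v a →
  (∀ i, (v i - w) ⬝ᵥ (v i - w) ≤ 2 * a ^ 2 / 3) →
  w ∈ convexHull ℝ (Set.range v) ∧ ∀ i j, w ∉ segment ℝ (v i) (v j)

/-! ## Assembly -/

/-- B15. Baire category.
Proof. For `J : Fin 4 → ι` let `F J` be the set of `R ∈ SO3` for which `t` exists with `R *ᵥ v i + t ∈ frontier K` and `Qd .. (R *ᵥ v i + t) = 0` for all `i`. It is the projection of the compact set of pairs `(R, t)` with `R ∈ SO3` (closed conditions; `t = x - R *ᵥ v 0` with `x ∈ frontier K` is bounded), so closed. The countably many `F J` cover the compact space `SO3`; Baire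
(`nonempty_interior_of_iUnion_of_closed` in the subtype `↥SO3`). -/
def G_B15 : Prop := ∀ (v : Fin 4 → V) (K : Set V) (ι : Type) [Countable ι] (κ : ι → ℝ) (b : ι → V)
  (g : ι → ℝ), IsCompact K → Adm v K → (∀ x ∈ frontier K, ∃ j, Qd (κ j) (b j) (g j) x = 0) →
  ∃ (J : Fin 4 → ι) (U : Set M3), IsOpen U ∧ (U ∩ (SO3 : Set M3)).Nonempty ∧
    ∀ R ∈ U, R ∈ SO3 → ∃ t, ∀ i, R *ᵥ v i + t ∈ frontier K ∧
      Qd (κ (J i)) (b (J i)) (g (J i)) (R *ᵥ v i + t) = 0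

/-- B17. From an open set of rotations to spherical germs.
Proof. For each `i` (then take the minimum over `i`): `p = proj (R0 *ᵥ d i)`; for `y` with `y ⬝ᵥ y = d i ⬝ᵥ d i` near `R0 *ᵥ d i`, `q = proj y` is near `p`, `1 + p ⬝ᵥ q ≠ 0`, `R = Bm p q * R0 ∈ SO3` and `R *ᵥ d i = nrm (d i) • Bm p q *ᵥ p = nrm y • q = y`. `R → R0` as `q → p` (`Bm p p = 1`, continuity), so `R ∈ U`. -/
def G_B17 : Prop := ∀ (K : Set V) (c : V) (d : Fin 4 → V) (U : Set M3) (R0 : M3), (∀ i, d i ≠ 0) →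
  IsOpen U → R0 ∈ U → R0 ∈ SO3 → (∀ R ∈ U, R ∈ SO3 → ∀ i, c + R *ᵥ d i ∈ frontier K) →
  ∃ ε > 0, ∀ i (y : V), y ⬝ᵥ y = d i ⬝ᵥ d i →
    (y - R0 *ᵥ d i) ⬝ᵥ (y - R0 *ᵥ d i) < ε → c + y ∈ frontier K

/-- B16. Spherical pieces (uses B8, B10, B11a, B11d, B12, B13, B14, B15, B17, PR).
Proof. B15 with `ι = ℕ ⊕ ℕ`: planes `κ = 0`, `b = n j / 2 ≠ 0`, `g = k j` up to sign (`-2 b ⬝ᵥ x + g = 0`), spheres `κ = 1`, `b = z j`, `g = z j ⬝ᵥ z j - r j`. B8, B10: `i0`. (a) All `κ i = 0`, `i ≠ i0`. If `κ i0 = 0`: a relation `μ ≠ 0` of the four normals (`Pool.Agent.Helper71.Tet.exists_rel`) contradicts B11a. If `κ i0 = 1` and there is `μ ≠ 0` with `μ i0 = 0`, `∑ μ i • b i = 0`: B11a.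
Otherwise B11d (`(x - c) ⬝ᵥ (x - c) = r` from `Qd`). (b) Concentric: B12, B13, B14; `v i ≠ w` as `w ∉ segment (v i) (v i)`; B17, PR. -/
def G_B16 : Prop := ∀ (v : Fin 4 → V) (a : ℝ) (K : Set V), Tet v a → Convex ℝ K → IsCompact K →
  Adm v K → ∀ (n : ℕ → V) (k : ℕ → ℝ) (z : ℕ → V) (r : ℕ → ℝ), (∀ j, n j ≠ 0) →
  (∀ j, r j ≤ 2 * a ^ 2 / 3) →
  frontier K ⊆ (⋃ j, {x | n j ⬝ᵥ x = k j}) ∪ ⋃ j, {x | (x - z j) ⬝ᵥ (x - z j) = r j} →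
  ∃ c, frontier K = {x | (x - c) ⬝ᵥ (x - c) = 3 * a ^ 2 / 8}

/-- HB. The half ball.
Proof. `K = {x | x ⬝ᵥ x ≤ a² ∧ 0 ≤ x 2}`, convex, compact. `{x ⬝ᵥ x < a² ∧ 0 < x 2}` is open and contained in `K`, so `frontier K ⊆ {x 2 = 0} ∪ {x ⬝ᵥ x = a²}`. Points of `K` with `x 2 = 0` (move down) or `x ⬝ᵥ x = a²` (move outwards, `(1 + ε) x`) are in `frontier K`. Adm: let `i0` minimize `(R *ᵥ v i) 2`, `t = -(R *ᵥ v i0)`: the vertex `i0` is `0 ∈ frontier K`; for `i ≠ i0` the point `x = R *ᵥ (v i - v i0)` has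
`x ⬝ᵥ x = a²`, `x 2 ≥ 0`. Not a sphere: it contains the three collinear points `0`, `(a/2, 0, 0)`, `(a, 0, 0)`. -/
def G_HB : Prop := ∀ (v : Fin 4 → V) (a : ℝ), Tet v a → ∃ K : Set V, Convex ℝ K ∧ IsCompact K ∧
  Adm v K ∧ frontier K ⊆ {x | x 2 = 0} ∪ {x | x ⬝ᵥ x = a ^ 2} ∧
  ∀ (c : V) (r : ℝ), frontier K ≠ {x | (x - c) ⬝ᵥ (x - c) = r}

end Pool.Agent.Helper82.SP
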