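import Pool.Agent.Helper82.SP.A9

/-!
# Project SP: A1, A2, A11
-/

set_option autoImplicit false

namespace Pool.Agent.Helper82.SP

open Matrix Real
open Pool.Agent.Helper26.LU (V M3 SO3 nrm sph proj Bm Rot crossM nrm_sq nrm_nonneg nrm_sph
  nrm_pos proj_sph proj_self nrm_proj nrm_add_le nrm_smul nrm_neg nrm_sub_comm abs_nrm_sub
  nrm_continuous dot_le norm_le_nrm nrm_le_norm sph_norm_le mem_SO3 SO3_left SO3_transpose
  SO3_mul dot_mulVec mulVec_sph crossM_mulVec crossM_transpose crossM_cube cross_sq Bm_SO3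
  Bm_mulVec Bm_self nrm_mulVec)

theorem proj_near {u : V} (hu : u ∈ sph) {y : V} (hy : y ≠ 0) :
    nrm (proj y - u) ≤ 2 * nrm (y - u) := by
  have h1 : proj y - u = (proj y - y) + (y - u) := by abel
  have h2 : nrm (proj y - y) = |1 - nrm y| := by
    have hp := nrm_pos hy
    have : proj y - y = ((nrm y)⁻¹ - 1) • y := by simp only [proj]; module
    rw [this, nrm_smul]
    nth_rw 2 [← abs_of_pos hp]
    rw [← abs_mul, sub_mul, inv_mul_cancel₀ hp.ne', one_mul]
  have h3 : |1 - nrm y| ≤ nrm (y - u) := by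
    have := abs_nrm_sub u y
    rw [nrm_sph hu, nrm_sub_comm] at this
    exact this
  rw [h1]
  refine (nrm_add_le _ _).trans ?_
  rw [h2]; linarith

/-- A supporting functional at a frontier point. -/
theorem support {K : Set V} (hK : Body K) {x₀ : V} (hx₀ : x₀ ∈ frontier K) :
    ∃ n : V, n ≠ 0 ∧ ∀ x ∈ K, n ⬝ᵥ x ≤ n ⬝ᵥ x₀ := by
  obtain ⟨hc, hcomp, hint⟩ := hK
  have hnot : x₀ ∉ interior K := hx₀.2
  obtain ⟨f, hf⟩ := geometric_hahn_banach_open_point hc.interior isOpen_interior hnot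
  have hfd : ∀ x : V, f x = (fun i => f (Pi.single i 1)) ⬝ᵥ x := by
    intro x
    have h1 : x = ∑ i, x i • (Pi.single i (1:ℝ) : V) := by
      ext j
      simp [Finset.sum_apply, Pi.single_apply]
    conv_lhs => rw [h1]
    rw [map_sum]
    simp only [map_smul, smul_eq_mul, dotProduct]
    exact Finset.sum_congr rfl fun i _ => mul_comm _ _
  refine ⟨fun i => f (Pi.single i 1), ?_, ?_⟩
  · intro h0
    obtain ⟨y, hy⟩ := hint
    have h1 := hf y hy
    rw [hfd y, hfd x₀, h0] at h1
    simp at h1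
  · intro x hx
    rw [← hfd, ← hfd]
    have hcl : x ∈ closure (interior K) := by
      rw [hc.closure_interior_eq_closure_of_nonempty_interior hint]
      exact subset_closure hx
    have hsub : closure (interior K) ⊆ {y | f y ≤ f x₀} :=
      closure_minimal (fun y hy => (hf y hy).le) (isClosed_le f.continuous continuous_const)
    exact hsub hcl

theorem frontier_sub {K : Set V} (hK : Body K) : frontier K ⊆ K :=
  hK.2.1.isClosed.frontier_subset

theorem goalA1 : G_A1 := by
  intro K c r u hK hr hu x hx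
  obtain ⟨hus, δ, hδ, hop⟩ := hu
  have hu1 : u ⬝ᵥ u = 1 := hus
  have hx0 : c + r • u ∈ frontier K := hop u hus (by simpa [nrm] using hδ)
  obtain ⟨n, hn0, hn⟩ := support hK hx0
  set k := n ⬝ᵥ u with hk
  -- perturbation
  have hpert : ∀ τ : V, u ⬝ᵥ τ = 0 → ∀ s : ℝ, 2 * (|s| * nrm τ) < δ →
      n ⬝ᵥ u + s * (n ⬝ᵥ τ) ≤ k * nrm (u + s • τ) := by
    intro τ hτ s hs
    have hy0 : u + s • τ ≠ 0 := by
      intro h0
      have : u ⬝ᵥ (u + s • τ) = 0 := by rw [h0]; simp
      rw [dotProduct_add, dotProduct_smul, hτ, hu1] at this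
      simp at this
    have h1 : nrm (proj (u + s • τ) - u) < δ := by
      refine (proj_near hus hy0).trans_lt ?_
      rw [add_sub_cancel_left, nrm_smul]; exact hs
    have h2 := hn _ (frontier_sub hK (hop _ (proj_sph hy0) h1))
    rw [dotProduct_add, dotProduct_add, dotProduct_smul, dotProduct_smul, smul_eq_mul,
      smul_eq_mul] at h2
    have h3 : n ⬝ᵥ proj (u + s • τ) ≤ k := by
      have : r * (n ⬝ᵥ proj (u + s • τ)) ≤ r * (n ⬝ᵥ u) := by linarith
      exact le_of_mul_le_mul_left this hr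
    have hN := nrm_pos hy0
    have h4 : n ⬝ᵥ (u + s • τ) = nrm (u + s • τ) * (n ⬝ᵥ proj (u + s • τ)) := by
      conv_lhs => rw [← nrm_proj _ hy0]
      rw [dotProduct_smul, smul_eq_mul]
    rw [dotProduct_add, dotProduct_smul, smul_eq_mul] at h4
    rw [h4]
    nlinarith
  -- the tangential part vanishes
  have hm : n - k • u = 0 := by
    by_contra hm0
    set m := n - k • u with hmd
    have hum : u ⬝ᵥ m = 0 := by
      rw [hmd, dotProduct_sub, dotProduct_smul, hu1, hk, dotProduct_comm u n]; simp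
    have hnm : n ⬝ᵥ m = m ⬝ᵥ m := by
      have : n = m + k • u := by rw [hmd]; abel
      conv_lhs => rw [this]
      rw [add_dotProduct, smul_dotProduct, hum]; simp
    have hmp := nrm_pos hm0
    have hmm : m ⬝ᵥ m = nrm m ^ 2 := (nrm_sq m).symm
    set s := min (δ / (4 * nrm m)) (1 / (|k| + 1)) with hs
    have hs0 : 0 < s := by positivity
    have hs1 : 2 * (|s| * nrm m) < δ := by
      rw [abs_of_pos hs0]
      have : s ≤ δ / (4 * nrm m) := min_le_left _ _
      rw [le_div_iff₀ (by positivity)] at this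
      linarith
    have h5 := hpert m hum s hs1
    rw [hnm, hmm] at h5
    have hN2 : nrm (u + s • m) ^ 2 = 1 + s ^ 2 * nrm m ^ 2 := by
      rw [nrm_sq, add_dotProduct, dotProduct_add, dotProduct_add, smul_dotProduct, dotProduct_smul,
        dotProduct_smul, smul_dotProduct, dotProduct_comm m u, hum, hu1, hmm]
      simp only [smul_eq_mul]; ring
    have hNn := nrm_nonneg (u + s • m)
    have hN3 : nrm (u + s • m) ≤ 1 + s ^ 2 * nrm m ^ 2 / 2 := by
      nlinarith [sq_nonneg (nrm (u + s • m) - 1)]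
    have hN4 : 1 ≤ nrm (u + s • m) := by nlinarith [sq_nonneg (s * nrm m)]
    have h6 : k * (nrm (u + s • m) - 1) ≤ |k| * (s ^ 2 * nrm m ^ 2 / 2) := by
      calc k * (nrm (u + s • m) - 1) ≤ |k| * (nrm (u + s • m) - 1) :=
            mul_le_mul_of_nonneg_right (le_abs_self k) (by linarith)
        _ ≤ |k| * (s ^ 2 * nrm m ^ 2 / 2) := mul_le_mul_of_nonneg_left (by linarith) (abs_nonneg _)
    have h7 : s * nrm m ^ 2 ≤ |k| * (s ^ 2 * nrm m ^ 2 / 2) := by
      rw [← hk] at h5
      linarith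
    have h8 : (1 : ℝ) ≤ |k| * s / 2 := by
      have hp : 0 < s * nrm m ^ 2 := by positivity
      have : (s * nrm m ^ 2) * 1 ≤ (s * nrm m ^ 2) * (|k| * s / 2) := by nlinarith
      exact le_of_mul_le_mul_left this hp
    have h9 : s * (|k| + 1) ≤ 1 := by
      have : s ≤ 1 / (|k| + 1) := min_le_right _ _
      rwa [le_div_iff₀ (by positivity)] at this
    nlinarith [abs_nonneg k]
  have hnk : n = k • u := sub_eq_zero.1 hm
  have hk0 : k ≠ 0 := by
    intro h0
    rw [h0, zero_smul] at hnk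
    exact hn0 hnk
  have hkpos : 0 < k := by
    by_contra hneg
    have hkneg : k < 0 := lt_of_le_of_ne (not_lt.1 hneg) hk0
    obtain ⟨τ, hτ, hτu⟩ := exists_perp hus
    have h5 := hpert τ (by rw [dotProduct_comm]; exact hτu) (δ / 4) (by
      rw [nrm_sph hτ, abs_of_pos (by positivity)]; linarith)
    have hnτ : n ⬝ᵥ τ = 0 := by
      rw [hnk, smul_dotProduct, dotProduct_comm, hτu]; simp
    rw [hnτ, ← hk, mul_zero, add_zero] at h5
    have hτ1 : τ ⬝ᵥ τ = 1 := hτ
    have hN2 : nrm (u + (δ / 4) • τ) ^ 2 = 1 + (δ / 4) ^ 2 := by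
      rw [nrm_sq, add_dotProduct, dotProduct_add, dotProduct_add, smul_dotProduct, dotProduct_smul,
        dotProduct_smul, smul_dotProduct, hτu, dotProduct_comm u τ, hτu, hu1, hτ1]
      simp only [smul_eq_mul]; ring
    have hNn := nrm_nonneg (u + (δ / 4) • τ)
    have hN4 : 1 < nrm (u + (δ / 4) • τ) := by
      have : 0 < (δ / 4) ^ 2 := by positivity
      nlinarith
    nlinarith
  have h10 := hn x hx
  rw [hnk, smul_dotProduct, smul_dotProduct, smul_eq_mul, smul_eq_mul] at h10
  have h11 : u ⬝ᵥ x ≤ u ⬝ᵥ (c + r • u) := le_of_mul_le_mul_left h10 hkpos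
  rw [dotProduct_add, dotProduct_smul, hu1, smul_eq_mul, mul_one] at h11
  rw [dotProduct_sub]
  linarith

end Pool.Agent.Helper82.SP
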