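import Pool.Agent.Helper82.SP.A1

/-!
# Project SP: A2, A11
-/

set_option autoImplicit false

namespace Pool.Agent.Helper82.SP

open Matrix Real
open Pool.Agent.Helper26.LU (V M3 SO3 nrm sph proj Bm Rot crossM nrm_sq nrm_nonneg nrm_sph
  nrm_pos proj_sph proj_self nrm_proj nrm_add_le nrm_smul nrm_neg nrm_sub_comm abs_nrm_sub
  nrm_continuous dot_le norm_le_nrm nrm_le_norm sph_norm_le mem_SO3 SO3_left SO3_transpose
  SO3_mul dot_mulVec mulVec_sph crossM_mulVec crossM_transpose crossM_cube cross_sq Bm_SO3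
  Bm_mulVec Bm_self nrm_mulVec)

theorem Op_near {K : Set V} {c : V} {r : ℝ} {u : V} {δ : ℝ} (hδ : 0 < δ)
    (h : ∀ u' ∈ sph, nrm (u' - u) < δ → c + r • u' ∈ frontier K) {u' : V} (hu' : u' ∈ sph)
    (h1 : nrm (u' - u) < δ / 2) : u' ∈ Op K c r := by
  refine ⟨hu', δ / 2, by linarith, fun u'' hu'' h2 => h u'' hu'' ?_⟩
  have : u'' - u = (u'' - u') + (u' - u) := by abel
  rw [this]
  exact (nrm_add_le _ _).trans_lt (by linarith)

/-- The chord through a point: a point inside the sphere is a midpoint of two points of the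
sphere at distance `√(r² - |z|²)`. -/
theorem chord {r : ℝ} (hr : 0 < r) {z p : V} (hp : p ∈ sph) {k : ℝ} (hz : z = k • p) (hk : |k| ≤ r) :
    ∃ τ ∈ sph, ∃ s : ℝ, 0 ≤ s ∧ s ^ 2 = r ^ 2 - k ^ 2 ∧
      (1 / r) • (z + s • τ) ∈ sph ∧ (1 / r) • (z - s • τ) ∈ sph := by
  obtain ⟨τ, hτ, hτp⟩ := exists_perp hp
  have hp1 : p ⬝ᵥ p = 1 := hp
  have hτ1 : τ ⬝ᵥ τ = 1 := hτ
  have hk2 : 0 ≤ r ^ 2 - k ^ 2 := by
    have : k ^ 2 ≤ r ^ 2 := sq_le_sq' (by linarith [abs_le.1 hk]) (abs_le.1 hk).2
    linarith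
  have hs2 : Real.sqrt (r ^ 2 - k ^ 2) ^ 2 = r ^ 2 - k ^ 2 := Real.sq_sqrt hk2
  refine ⟨τ, hτ, Real.sqrt (r ^ 2 - k ^ 2), Real.sqrt_nonneg _, hs2, ?_, ?_⟩
  · show _ ⬝ᵥ _ = (1 : ℝ)
    rw [smul_dotProduct, dotProduct_smul, hz, add_dotProduct, dotProduct_add, dotProduct_add,
      smul_dotProduct, smul_dotProduct, smul_dotProduct, smul_dotProduct, dotProduct_smul,
      dotProduct_smul, dotProduct_smul, dotProduct_smul, hτp, dotProduct_comm p τ, hτp, hp1, hτ1]
    simp only [smul_eq_mul]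
    field_simp
    nlinarith
  · show _ ⬝ᵥ _ = (1 : ℝ)
    rw [smul_dotProduct, dotProduct_smul, hz, sub_dotProduct, dotProduct_sub, dotProduct_sub,
      smul_dotProduct, smul_dotProduct, smul_dotProduct, smul_dotProduct, dotProduct_smul,
      dotProduct_smul, dotProduct_smul, dotProduct_smul, hτp, dotProduct_comm p τ, hτp, hp1, hτ1]
    simp only [smul_eq_mul]
    field_simp
    nlinarith

theorem goalA2 (hA1 : G_A1) : G_A2 := by
  intro K c r u hK hr hu
  obtain ⟨hus, δ, hδ, hop⟩ := hu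
  set η := min (r / 2) (min (r * δ / 4) (r * δ ^ 2 / 16)) with hη
  have hη0 : 0 < η := by positivity
  have hη1 : η ≤ r / 2 := min_le_left _ _
  have hη2 : η ≤ r * δ / 4 := (min_le_right _ _).trans (min_le_left _ _)
  have hη3 : η ≤ r * δ ^ 2 / 16 := (min_le_right _ _).trans (min_le_right _ _)
  -- basic data for a point near
  have hbase : ∀ x, nrm (x - (c + r • u)) < η → ∃ p ∈ sph, ∃ k : ℝ, 0 < k ∧ x - c = k • p ∧
      nrm (x - c) = k ∧ nrm (p - u) < δ / 2 ∧ r - k < η := by
    intro x hx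
    set z := x - c with hz
    have hzu : nrm (z - r • u) < η := by
      have : z - r • u = x - (c + r • u) := by rw [hz]; abel
      rw [this]; exact hx
    have hru : nrm (r • u) = r := by rw [nrm_smul, nrm_sph hus, abs_of_pos hr, mul_one]
    have h1 := abs_le.1 (abs_nrm_sub z (r • u))
    rw [hru] at h1
    have hzpos : 0 < nrm z := by linarith [h1.1]
    have hz0 : z ≠ 0 := by
      intro h0; rw [h0] at hzpos; simp [nrm] at hzpos
    set y := (1 / r) • z with hy
    have hy0 : y ≠ 0 := smul_ne_zero (by positivity) hz0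
    have hyu : nrm (y - u) < η / r := by
      have : y - u = (1 / r) • (z - r • u) := by
        rw [smul_sub (1 / r) z (r • u), smul_smul (1 / r) r u, one_div_mul_cancel hr.ne', one_smul]
      rw [this, nrm_smul, abs_of_pos (by positivity), one_div, inv_mul_eq_div]
      exact div_lt_div_of_pos_right hzu hr
    have hzy : z = r • y := by
      rw [hy, smul_smul, mul_one_div_cancel hr.ne', one_smul]
    have hnz : nrm z = r * nrm y := by
      rw [hzy, nrm_smul, abs_of_pos hr]
    refine ⟨proj y, proj_sph hy0, nrm z, hzpos, ?_, rfl, ?_, by linarith [h1.1]⟩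
    · rw [hnz, mul_smul, nrm_proj y hy0]; exact hzy
    · refine (proj_near hus hy0).trans_lt ?_
      have h2 : η / r ≤ δ / 4 := by
        rw [div_le_iff₀ hr]; linarith
      linarith
  have hin : ∀ x, nrm (x - (c + r • u)) < η → nrm (x - c) < r → x ∈ K := by
    intro x hx hlt
    obtain ⟨p, hp, k, hk, hzk, hnk, hpu, hrk⟩ := hbase x hx
    rw [hnk] at hlt
    obtain ⟨τ, hτ, s, hs0, hs2, hy1, hy2⟩ := chord hr hp hzk (by rw [abs_of_pos hk]; exact hlt.le)
    have hs : s < r * δ / 2 := by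
      have h3 : s ^ 2 < (r * δ / 2) ^ 2 := by
        have h4 : r ^ 2 - k ^ 2 ≤ 2 * r * (r - k) := by nlinarith
        have h5 : 2 * r * (r - k) < 2 * r * η := by
          apply mul_lt_mul_of_pos_left hrk (by positivity)
        have h6 : 2 * r * η ≤ 2 * r * (r * δ ^ 2 / 16) := by gcongr
        have h7 : 2 * r * (r * δ ^ 2 / 16) < (r * δ / 2) ^ 2 := by
          have : 0 < r ^ 2 * δ ^ 2 := by positivity
          nlinarith
        linarith
      exact lt_of_pow_lt_pow_left₀ 2 (by positivity) h3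
    have hxu : nrm ((x - c) - r • u) < η := by
      have : (x - c) - r • u = x - (c + r • u) := by abel
      rw [this]; exact hx
    have hmem : ∀ σ : ℝ, |σ| = s → (1 / r) • ((x - c) + σ • τ) ∈ sph → c + ((x - c) + σ • τ) ∈ K := by
      intro σ hσ hsph
      have h8 : nrm ((1 / r) • ((x - c) + σ • τ) - u) < δ := by
        have h9 : (1 / r) • ((x - c) + σ • τ) - u = (1 / r) • (((x - c) - r • u) + σ • τ) := by
          rw [smul_add, smul_add, smul_sub (1 / r) (x - c), smul_smul (1 / r) r u,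
            one_div_mul_cancel hr.ne', one_smul]
          abel
        rw [h9, nrm_smul, abs_of_pos (by positivity), one_div, inv_mul_eq_div, div_lt_iff₀ hr]
        refine (nrm_add_le _ _).trans_lt ?_
        rw [nrm_smul, nrm_sph hτ, hσ]
        linarith
      have h10 := frontier_sub hK (hop _ hsph h8)
      rwa [smul_smul, mul_one_div_cancel hr.ne', one_smul] at h10
    have hm1 := hmem s (abs_of_nonneg hs0) hy1
    have hm2 := hmem (-s) (by rw [abs_neg, abs_of_nonneg hs0]) (by
      rw [neg_smul, ← sub_eq_add_neg]; exact hy2)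
    have hx2 : x = (1 / 2 : ℝ) • (c + ((x - c) + s • τ)) + (1 / 2 : ℝ) • (c + ((x - c) + (-s) • τ)) := by
      module
    rw [hx2]
    exact hK.1 hm1 hm2 (by norm_num) (by norm_num) (by norm_num)
  refine ⟨η, hη0, fun x hx => ?_⟩
  have hle : x ∈ K → nrm (x - c) ≤ r := by
    intro hxK
    obtain ⟨p, hp, k, hk, hzk, hnk, hpu, hrk⟩ := hbase x hx
    have h1 := hA1 K c r p hK hr (Op_near hδ hop hp hpu) x hxK
    have hp1 : p ⬝ᵥ p = 1 := hp
    rw [hzk, dotProduct_smul, hp1, smul_eq_mul, mul_one] at h1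
    rw [hnk]; exact h1
  refine ⟨hle, fun hxf => ?_⟩
  apply le_antisymm (hle (frontier_sub hK hxf))
  by_contra hlt
  rw [not_le] at hlt
  have hopen : IsOpen {x' : V | nrm (x' - (c + r • u)) < η ∧ nrm (x' - c) < r} :=
    (isOpen_nrm_ball _ _).inter (isOpen_nrm_ball _ _)
  have hsub : {x' : V | nrm (x' - (c + r • u)) < η ∧ nrm (x' - c) < r} ⊆ K :=
    fun x' hx' => hin x' hx'.1 hx'.2
  exact hxf.2 (interior_maximal hsub hopen ⟨hx, hlt⟩)

theorem goalA11 (hA1 : G_A1) : G_A11 := by
  intro K c r hK hr hall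
  have hon : ∀ u ∈ sph, c + r • u ∈ frontier K := by
    intro u hu
    obtain ⟨-, δ, hδ, h⟩ := hall hu
    exact h u hu (by simpa [nrm] using hδ)
  have hnn : ∀ x : V, nrm x ^ 2 = x ⬝ᵥ x := nrm_sq
  -- a unit vector and decomposition
  have hdec : ∀ z : V, ∃ p ∈ sph, z = nrm z • p := by
    intro z
    by_cases hz : z = 0
    · refine ⟨![1, 0, 0], by simp [sph, dotProduct, Fin.sum_univ_three], ?_⟩
      rw [hz]; simp [nrm]
    · exact ⟨proj z, proj_sph hz, (nrm_proj z hz).symm⟩
  have hball : ∀ x, nrm (x - c) < r → x ∈ K := by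
    intro x hx
    obtain ⟨p, hp, hz⟩ := hdec (x - c)
    set k := nrm (x - c) with hk
    have hk0 : 0 ≤ k := nrm_nonneg _
    have h1 := frontier_sub hK (hon p hp)
    have h2 := frontier_sub hK (hon (-p) (by
      show (-p) ⬝ᵥ (-p) = (1:ℝ)
      rw [neg_dotProduct_neg]; exact hp))
    have hx2 : x = ((r + k) / (2 * r)) • (c + r • p) + ((r - k) / (2 * r)) • (c + r • (-p)) := by
      have e1 : ((r + k) / (2 * r)) • (c + r • p) + ((r - k) / (2 * r)) • (c + r • (-p))
          = ((r + k) / (2 * r) + (r - k) / (2 * r)) • c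
            + ((r + k) / (2 * r) * r - (r - k) / (2 * r) * r) • p := by module
      rw [e1, show (r + k) / (2 * r) + (r - k) / (2 * r) = 1 by field_simp; ring,
        show (r + k) / (2 * r) * r - (r - k) / (2 * r) * r = k by field_simp; ring, one_smul, ← hz]
      abel
    rw [hx2]
    exact hK.1 h1 h2 (by positivity) (div_nonneg (by linarith) (by positivity)) (by field_simp; ring)
  ext x
  constructor
  · intro hx
    obtain ⟨p, hp, hz⟩ := hdec (x - c)
    have h1 := hA1 K c r p hK hr (hall hp) x (frontier_sub hK hx)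
    have hp1 : p ⬝ᵥ p = 1 := hp
    rw [hz, dotProduct_smul, hp1, smul_eq_mul, mul_one] at h1
    have h2 : nrm (x - c) = r := by
      apply le_antisymm h1
      by_contra hlt
      rw [not_le] at hlt
      exact hx.2 (interior_maximal (fun y hy => hball y hy) (isOpen_nrm_ball c r) hlt)
    show (x - c) ⬝ᵥ (x - c) = r ^ 2
    rw [← nrm_sq, h2]
  · intro hx
    have hx' : (x - c) ⬝ᵥ (x - c) = r ^ 2 := hx
    have hu : (1 / r) • (x - c) ∈ sph := by
      show _ ⬝ᵥ _ = (1:ℝ)
      rw [smul_dotProduct, dotProduct_smul, hx', smul_eq_mul, smul_eq_mul]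
      field_simp
    have := hon _ hu
    rw [smul_smul, mul_one_div_cancel hr.ne', one_smul] at this
    simpa using this

end Pool.Agent.Helper82.SP
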