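import Pool.Agent.Helper82.SP.A2
import Pool.Agent.Helper82.SP.B14

/-!
# Project SP: A3, A4
-/

set_option autoImplicit false

namespace Pool.Agent.Helper82.SP

open Matrix Real Filter
open Pool.Agent.Helper26.LU (V M3 SO3 nrm sph proj Bm Rot crossM nrm_sq nrm_nonneg nrm_sph
  nrm_pos proj_sph proj_self nrm_proj nrm_add_le nrm_smul nrm_neg nrm_sub_comm abs_nrm_sub
  nrm_continuous dot_le norm_le_nrm nrm_le_norm sph_norm_le mem_SO3 SO3_left SO3_transpose
  SO3_mul dot_mulVec mulVec_sph crossM_mulVec crossM_transpose crossM_cube cross_sq Bm_SO3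
  Bm_mulVec Bm_self nrm_mulVec isCompact_SO3 isClosed_SO3)

theorem place_eq {v : Fin 4 → V} {w : V} {b ρ : Fin 4 → ℝ} {u : Fin 4 → V} (hp : Piv v w b ρ u)
    (R : M3) (t c : V) (i : Fin 4) :
    R *ᵥ v i + t = c + ρ i • (R *ᵥ u i) + (t - (c - R *ᵥ w)) := by
  rw [hp.eq i, Matrix.mulVec_add, Matrix.mulVec_smul]
  abel

theorem goalA3 (hA1 : G_A1) (hA2 : G_A2) : G_A3 := by
  intro v w b ρ u K c hp hK R hR i0 hcl hop t ht
  set τ := t - (c - R *ᵥ w) with hτ
  have hsph : ∀ i, R *ᵥ u i ∈ sph := fun i => mulVec_sph hR (hp.unit i)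
  have hle : ∀ i, (R *ᵥ u i) ⬝ᵥ τ ≤ 0 := by
    intro i
    have h1 : ∀ x ∈ K, (R *ᵥ u i) ⬝ᵥ (x - c) ≤ ρ i := by
      intro x hx
      have hclosed : IsClosed {y : V | y ⬝ᵥ (x - c) ≤ ρ i} :=
        isClosed_le (by fun_prop) continuous_const
      exact closure_minimal (fun y hy => hA1 K c (ρ i) y hK (hp.pos i) hy x hx) hclosed (hcl i)
    have h2 := h1 _ (ht i)
    rw [place_eq hp R t c i, ← hτ, add_assoc, add_sub_cancel_left, dotProduct_add, dotProduct_smul] at h2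
    have h3 : (R *ᵥ u i) ⬝ᵥ (R *ᵥ u i) = 1 := hsph i
    rw [h3, smul_eq_mul, mul_one] at h2
    linarith
  have hbal : ∑ i, b i * ρ i * ((R *ᵥ u i) ⬝ᵥ τ) = 0 := by
    have h1 : (R *ᵥ (∑ i, (b i * ρ i) • u i)) ⬝ᵥ τ = 0 := by rw [hp.bal]; simp
    rw [Matrix.mulVec_sum, sum_dotProduct] at h1
    rw [← h1]
    refine Finset.sum_congr rfl fun i _ => ?_
    rw [Matrix.mulVec_smul, smul_dotProduct, smul_eq_mul]
  have hterm : ∀ i ∈ Finset.univ, b i * ρ i * ((R *ᵥ u i) ⬝ᵥ τ) ≤ 0 := fun i _ =>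
    mul_nonpos_of_nonneg_of_nonpos (mul_nonneg (hp.nn i) (hp.pos i).le) (hle i)
  obtain ⟨i, hi, -, hbi⟩ := hp.three i0 i0
  have hzero : (R *ᵥ u i) ⬝ᵥ τ = 0 := by
    have := (Finset.sum_eq_zero_iff_of_nonpos hterm).1 hbal i (Finset.mem_univ i)
    exact (mul_eq_zero.1 this).resolve_left (mul_pos hbi (hp.pos i)).ne'
  -- strict convexity
  have hopi := hop i hi
  obtain ⟨η, hη, hnear⟩ := hA2 K c (ρ i) (R *ᵥ u i) hK (hp.pos i) hopi
  set x₀ := c + ρ i • (R *ᵥ u i) with hx₀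
  have hx₀K : x₀ ∈ K := by
    obtain ⟨hs, δ, hδ, h⟩ := hopi
    exact frontier_sub hK (h _ hs (by simpa [nrm] using hδ))
  have hx₁K : x₀ + τ ∈ K := by
    have := ht i
    rwa [place_eq hp R t c i] at this
  set s := min 1 (η / (2 * (nrm τ + 1))) with hs
  have hn := nrm_nonneg τ
  have hs0 : 0 < s := by positivity
  have hs1 : s ≤ 1 := min_le_left _ _
  have hs2 : s * nrm τ < η := by
    have h1 : s ≤ η / (2 * (nrm τ + 1)) := min_le_right _ _
    rw [le_div_iff₀ (by positivity)] at h1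
    nlinarith
  have hxs : x₀ + s • τ ∈ K := by
    have h1 := hK.1 hx₀K hx₁K (by linarith : 0 ≤ 1 - s) hs0.le (by ring)
    have h2 : (1 - s) • x₀ + s • (x₀ + τ) = x₀ + s • τ := by module
    rwa [h2] at h1
  have h3 := (hnear (x₀ + s • τ) (by
    rw [add_sub_cancel_left, nrm_smul, abs_of_pos hs0]; exact hs2)).1 hxs
  have h4 : nrm (x₀ + s • τ - c) ^ 2 ≤ ρ i ^ 2 := by
    have := nrm_nonneg (x₀ + s • τ - c)
    gcongr
  have h5 : x₀ + s • τ - c = ρ i • (R *ᵥ u i) + s • τ := by rw [hx₀]; abel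
  have h6 : (R *ᵥ u i) ⬝ᵥ (R *ᵥ u i) = 1 := hsph i
  rw [h5, nrm_sq, add_dotProduct, dotProduct_add, dotProduct_add, smul_dotProduct,
    smul_dotProduct, smul_dotProduct, smul_dotProduct, dotProduct_smul, dotProduct_smul,
    dotProduct_smul, dotProduct_smul, h6, hzero, dotProduct_comm τ, hzero] at h4
  simp only [smul_eq_mul] at h4
  have h7 : τ ⬝ᵥ τ ≤ 0 := by
    have : s * (s * (τ ⬝ᵥ τ)) ≤ 0 := by nlinarith
    by_contra hcon
    rw [not_le] at hcon
    have : 0 < s * (s * (τ ⬝ᵥ τ)) := by positivity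
    linarith
  have h8 : 0 ≤ τ ⬝ᵥ τ := by rw [← nrm_sq]; positivity
  have h9 : τ = 0 := dotProduct_self_eq_zero.1 (le_antisymm h7 h8)
  exact sub_eq_zero.1 h9

theorem Bm_cont {p : V} (hp : p ∈ sph) : ContinuousAt (fun q : V => Bm p q) p := by
  have hp1 : p ⬝ᵥ p = 1 := hp
  have h1 : ContinuousAt (fun q : V => (1 + p ⬝ᵥ q)⁻¹) p := by
    apply ContinuousAt.inv₀
    · exact (by fun_prop : Continuous fun q : V => 1 + p ⬝ᵥ q).continuousAt
    · show 1 + p ⬝ᵥ p ≠ 0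
      rw [hp1]; norm_num
  have h2 : Continuous fun q : V => crossM (crossProduct p q) := by
    have : ∀ i j, Continuous fun q : V => crossM (crossProduct p q) i j := by
      intro i j
      fin_cases i <;> fin_cases j <;> simp [crossM, cross_apply] <;> fun_prop
    exact continuous_matrix this
  unfold Bm
  exact (continuousAt_const.add h2.continuousAt).add (h1.smul (h2.matrix_mul h2).continuousAt)

theorem goalA4 (hA2 : G_A2) (hA3 : G_A3) (hA4a : G_A4a) : G_A4 := by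
  intro v a w b ρ u K c ht hp hK hadm R hR i0 hcl hop
  by_contra hnot
  set p := R *ᵥ u i0 with hpd
  have hps : p ∈ sph := mulVec_sph hR (hp.unit i0)
  have hp1 : p ⬝ᵥ p = 1 := hps
  -- the bad sequence
  have hex : ∀ k : ℕ, ∃ y ∈ sph, nrm (y - p) < 1 / ((k : ℝ) + 1) ∧ c + ρ i0 • y ∉ frontier K := by
    intro k
    by_contra hcon
    apply hnot
    refine ⟨hps, 1 / ((k : ℝ) + 1), by positivity, fun y hy hy2 => ?_⟩
    by_contra h3
    exact hcon ⟨y, hy, hy2, h3⟩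
  choose y hys hyn hyf using hex
  have hylim : Tendsto y atTop (nhds p) := by
    rw [tendsto_iff_norm_sub_tendsto_zero]
    refine squeeze_zero (fun _ => norm_nonneg _) (fun k => (norm_le_nrm _).trans (hyn k).le) ?_
    exact tendsto_one_div_add_atTop_nhds_zero_nat
  have hdot : ∀ k, 1 + p ⬝ᵥ y k ≠ 0 := by
    intro k h0
    have h1 : nrm (y k - p) ≤ 1 := (hyn k).le.trans (by
      rw [div_le_one (by positivity)]; linarith [(Nat.cast_nonneg k : (0:ℝ) ≤ k)])
    have h2 : nrm (y k - p) ^ 2 ≤ 1 := by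
      have := nrm_nonneg (y k - p); nlinarith
    have hy1 : y k ⬝ᵥ y k = 1 := hys k
    rw [nrm_sq, sub_dotProduct, dotProduct_sub, dotProduct_sub, hp1, hy1, dotProduct_comm (y k) p] at h2
    linarith
  let Rk : ℕ → M3 := fun k => Bm p (y k) * R
  have hRk : ∀ k, Rk k ∈ SO3 := fun k => SO3_mul (Bm_SO3 hps (hys k) (hdot k)) hR
  have hRku : ∀ k, Rk k *ᵥ u i0 = y k := by
    intro k
    show (Bm p (y k) * R) *ᵥ u i0 = y k
    rw [← Matrix.mulVec_mulVec, ← hpd, Bm_mulVec hps (hys k) (hdot k)]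
  have hRlim : Tendsto Rk atTop (nhds R) := by
    have h1 : Tendsto (fun k => Bm p (y k)) atTop (nhds (Bm p p)) := (Bm_cont hps).tendsto.comp hylim
    rw [Bm_self] at h1
    have h2 : Tendsto (fun k => Bm p (y k) * R) atTop (nhds ((1 : M3) * R)) := by
      have hc : Continuous fun M : M3 => M * R := continuous_id.matrix_mul continuous_const
      exact (hc.tendsto 1).comp h1
    rwa [Matrix.one_mul] at h2
  choose t htf using fun k => hadm (Rk k) (hRk k)
  have hKf : IsCompact (frontier K) := hK.2.1.of_isClosed_subset isClosed_frontier (frontier_sub hK)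
  have hcont1 : Continuous fun z : V × M3 => z.1 - z.2 *ᵥ v 0 := by fun_prop
  have hTc : IsCompact ((fun z : V × M3 => z.1 - z.2 *ᵥ v 0) '' (frontier K ×ˢ (SO3 : Set M3))) :=
    (hKf.prod isCompact_SO3).image hcont1
  have htmem : ∀ k, t k ∈ (fun z : V × M3 => z.1 - z.2 *ᵥ v 0) '' (frontier K ×ˢ (SO3 : Set M3)) := by
    intro k
    refine ⟨(Rk k *ᵥ v 0 + t k, Rk k), ⟨htf k 0, hRk k⟩, ?_⟩
    simp
  obtain ⟨t0, -, φ, hφ, hlim⟩ := hTc.tendsto_subseq htmem
  have hRφ : Tendsto (fun k => Rk (φ k)) atTop (nhds R) := hRlim.comp hφ.tendsto_atTop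
  have hact : ∀ x : V, Tendsto (fun k => Rk (φ k) *ᵥ x) atTop (nhds (R *ᵥ x)) := by
    intro x
    have hc : Continuous fun M : M3 => M *ᵥ x := by fun_prop
    exact (hc.tendsto R).comp hRφ
  have hlim2 : ∀ i, Tendsto (fun k => Rk (φ k) *ᵥ v i + t (φ k)) atTop (nhds (R *ᵥ v i + t0)) :=
    fun i => (hact (v i)).add hlim
  have hfr : ∀ i, R *ᵥ v i + t0 ∈ frontier K := fun i =>
    isClosed_frontier.mem_of_tendsto (hlim2 i) (Eventually.of_forall fun k => htf (φ k) i)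
  have hclall : ∀ i, R *ᵥ u i ∈ closure (Op K c (ρ i)) := by
    intro i
    by_cases hi : i = i0
    · rw [hi]; exact hcl
    · exact subset_closure (hop i hi)
  have ht0 : t0 = c - R *ᵥ w := hA3 v w b ρ u K c hp hK R hR i0 hclall hop t0
    (fun i => frontier_sub hK (hfr i))
  -- the small translation
  let s : ℕ → V := fun k => t (φ k) - (c - Rk (φ k) *ᵥ w)
  have hs0 : Tendsto s atTop (nhds 0) := by
    have h1 : Tendsto s atTop (nhds (t0 - (c - R *ᵥ w))) :=
      hlim.sub (tendsto_const_nhds.sub (hact w))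
    rwa [ht0, sub_self] at h1
  obtain ⟨η, hη, hsmall⟩ := hA4a v a w i0 ht
  have hnrm0 : nrm 0 = 0 := by simp [nrm]
  have hsn : Tendsto (fun k => nrm (s k)) atTop (nhds 0) := by
    have := (nrm_continuous.tendsto 0).comp hs0
    rwa [hnrm0] at this
  have hev1 : ∀ᶠ k in atTop, nrm (s k) < η := hsn.eventually (gt_mem_nhds hη)
  have hev2 : ∀ᶠ k in atTop, ∀ i, i ≠ i0 → nrm (Rk (φ k) *ᵥ v i + t (φ k) - c) = ρ i := by
    rw [eventually_all]
    intro i
    by_cases hi : i = i0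
    · exact Eventually.of_forall fun k h => absurd hi h
    · obtain ⟨ε, hε, hnear⟩ := hA2 K c (ρ i) (R *ᵥ u i) hK (hp.pos i) (hop i hi)
      have h1 : R *ᵥ v i + t0 = c + ρ i • (R *ᵥ u i) := by
        rw [place_eq hp R t0 c i, ht0, sub_self, add_zero]
      have h2 : Tendsto (fun k => nrm (Rk (φ k) *ᵥ v i + t (φ k) - (c + ρ i • (R *ᵥ u i)))) atTop
          (nhds 0) := by
        have h3 : Tendsto (fun k => Rk (φ k) *ᵥ v i + t (φ k) - (c + ρ i • (R *ᵥ u i))) atTop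
            (nhds 0) := by
          have := (hlim2 i).sub_const (c + ρ i • (R *ᵥ u i))
          rwa [h1, sub_self] at this
        have := (nrm_continuous.tendsto 0).comp h3
        rwa [hnrm0] at this
      filter_upwards [h2.eventually (gt_mem_nhds hε)] with k hk _
      exact (hnear _ hk).2 (htf (φ k) i)
  obtain ⟨k, hk1, hk2⟩ := (hev1.and hev2).exists
  set S := Rk (φ k) with hS
  have hSO : S ∈ SO3 := hRk (φ k)
  have hSS : S * Sᵀ = 1 := ((mem_SO3 S).1 hSO).1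
  have hs' : Sᵀ *ᵥ s k = 0 := by
    apply hsmall
    · rw [nrm_mulVec (SO3_transpose hSO)]; exact hk1
    · intro i hi
      have h1 := hk2 i hi
      have h2 : S *ᵥ v i + t (φ k) - c = S *ᵥ (v i - w) + s k := by
        show _ = _ + (t (φ k) - (c - S *ᵥ w))
        rw [Matrix.mulVec_sub]; abel
      have h3 : nrm (S *ᵥ (v i - w) + s k) ^ 2 = ρ i ^ 2 := by rw [← h2, h1]
      rw [nrm_sq, add_dotProduct, dotProduct_add, dotProduct_add, dot_mulVec hSO,
        piv_dist hp i, dotProduct_comm (s k)] at h3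
      have h4 : (S *ᵥ (v i - w)) ⬝ᵥ s k = (v i - w) ⬝ᵥ (Sᵀ *ᵥ s k) := by
        rw [Matrix.dotProduct_mulVec, Matrix.vecMul_transpose]
      have h5 : (Sᵀ *ᵥ s k) ⬝ᵥ (Sᵀ *ᵥ s k) = s k ⬝ᵥ s k := dot_mulVec (SO3_transpose hSO) _ _
      rw [← h4, h5]
      linarith
  have hsk : s k = 0 := by
    have := congrArg (fun x => S *ᵥ x) hs'
    simpa [Matrix.mulVec_mulVec, hSS] using this
  have h6 := htf (φ k) i0
  rw [place_eq hp (Rk (φ k)) (t (φ k)) c i0, hRku] at h6
  have h7 : t (φ k) - (c - Rk (φ k) *ᵥ w) = 0 := hsk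
  rw [h7, add_zero] at h6
  exact hyf (φ k) h6

end Pool.Agent.Helper82.SP
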