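import Pool.Agent.Helper82.SP.GoalsB

/-!
# Project SP: A5, A6, A7, AX
-/

set_option autoImplicit false

namespace Pool.Agent.Helper82.SP

open Matrix Real
open Pool.Agent.Helper26.LU (V M3 SO3 nrm sph proj Bm Rot crossM nrm_sq nrm_nonneg nrm_sph
  nrm_pos proj_sph proj_self nrm_proj nrm_add_le nrm_smul nrm_neg nrm_sub_comm abs_nrm_sub
  nrm_continuous dot_le norm_le_nrm nrm_le_norm sph_norm_le mem_SO3 SO3_left SO3_transpose
  SO3_mul dot_mulVec mulVec_sph crossM_mulVec crossM_transpose crossM_cube cross_sq Bm_SO3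
  Bm_mulVec Bm_self nrm_mulVec)

theorem isClosed_sph : IsClosed sph := by
  have : sph = {u : V | u ⬝ᵥ u = 1} := rfl
  rw [this]
  exact isClosed_eq (by fun_prop) continuous_const

theorem isCompact_sph : IsCompact sph := by
  apply Metric.isCompact_of_isClosed_isBounded isClosed_sph
  rw [Metric.isBounded_iff_subset_closedBall 0]
  refine ⟨1, fun u hu => ?_⟩
  rw [mem_closedBall_zero_iff]
  exact sph_norm_le hu

theorem isOpen_nrm_ball (x : V) (r : ℝ) : IsOpen {y : V | nrm (y - x) < r} :=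
  isOpen_lt (nrm_continuous.comp (continuous_id.sub continuous_const)) continuous_const

theorem goalA5 : G_A5 := by
  intro K c r
  have hG : ∃ G : Set V, IsOpen G ∧ Op K c r = sph ∩ G := by
    refine ⟨⋃ u : {u : V // u ∈ Op K c r}, ⋃ δ : {δ : ℝ // 0 < δ ∧ ∀ u' ∈ sph,
      nrm (u' - u.1) < δ → c + r • u' ∈ frontier K}, {y | nrm (y - u.1) < δ.1 / 2}, ?_, ?_⟩
    · exact isOpen_iUnion fun u => isOpen_iUnion fun δ => isOpen_nrm_ball _ _
    · ext x
      constructor
      · intro hx
        obtain ⟨hx1, δ, hδ, h⟩ := hx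
        refine ⟨hx1, ?_⟩
        rw [Set.mem_iUnion]
        refine ⟨⟨x, ⟨hx1, δ, hδ, h⟩⟩, ?_⟩
        rw [Set.mem_iUnion]
        refine ⟨⟨δ, hδ, h⟩, ?_⟩
        simp [nrm, hδ]
      · rintro ⟨hx1, hx2⟩
        rw [Set.mem_iUnion] at hx2
        obtain ⟨⟨u, hu⟩, hx2⟩ := hx2
        rw [Set.mem_iUnion] at hx2
        obtain ⟨⟨δ, hδ, h⟩, hx3⟩ := hx2
        have hx4 : nrm (x - u) < δ / 2 := hx3
        refine ⟨hx1, δ / 2, by linarith, fun u' hu' h1 => h u' hu' ?_⟩
        have : u' - u = (u' - x) + (x - u) := by abel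
        rw [this]
        exact (nrm_add_le _ _).trans_lt (by linarith)
  refine ⟨?_, hG⟩
  obtain ⟨G, hG1, hG2⟩ := hG
  have : sph \ Op K c r = sph ∩ Gᶜ := by
    rw [hG2]; ext x; simp [Set.mem_diff]
  rw [this]
  exact isCompact_sph.inter_right hG1.isClosed_compl

theorem goalA6 : G_A6 := by
  intro p hp q hq hpq x
  set w := crossProduct p q with hw
  set k := p ⬝ᵥ q with hk
  have hww : w ⬝ᵥ w = 1 - k ^ 2 := cross_sq hp hq
  have hp1 : p ⬝ᵥ p = 1 := hp
  have hq1 : q ⬝ᵥ q = 1 := hq
  have e1 : Bm p q *ᵥ x - x = crossProduct w x + (1 + k)⁻¹ • crossProduct w (crossProduct w x) := by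
    have hB : Bm p q = 1 + crossM w + (1 + k)⁻¹ • (crossM w * crossM w) := rfl
    rw [hB, Matrix.add_mulVec, Matrix.add_mulVec, Matrix.smul_mulVec, ← Matrix.mulVec_mulVec,
      crossM_mulVec, crossM_mulVec, Matrix.one_mulVec]
    abel
  have hab := abs_le.1 (dot_le p q)
  rw [nrm_sph hp, nrm_sph hq] at hab
  have hk1 : 0 < 1 + k := lt_of_le_of_ne (by linarith [hab.1]) (Ne.symm hpq)
  have hk2 : k ≤ 1 := by linarith [hab.2]
  -- the square
  set y := crossProduct w x with hy
  have hwy : w ⬝ᵥ y = 0 := dot_self_cross w x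
  have hyy : y ⬝ᵥ crossProduct w y = 0 := by
    rw [hy]; exact dot_cross_self w y
  have hww2 : crossProduct w y ⬝ᵥ crossProduct w y = (1 - k ^ 2) * (y ⬝ᵥ y) := by
    rw [cross_dot_cross, hww, hwy]; ring
  have hyn : y ⬝ᵥ y ≤ (1 - k ^ 2) * (x ⬝ᵥ x) := by
    rw [hy, cross_dot_cross, hww, dotProduct_comm x w]
    nlinarith [sq_nonneg (w ⬝ᵥ x)]
  apply le_of_sq_le_sq _ (mul_nonneg (nrm_nonneg _) (nrm_nonneg _))
  rw [mul_pow, nrm_sq, nrm_sq, nrm_sq, e1]
  have e2 : (y + (1 + k)⁻¹ • crossProduct w y) ⬝ᵥ (y + (1 + k)⁻¹ • crossProduct w y)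
      = (y ⬝ᵥ y) * (2 / (1 + k)) := by
    rw [dotProduct_add, add_dotProduct, add_dotProduct, smul_dotProduct, smul_dotProduct,
      dotProduct_smul, dotProduct_smul, hww2, dotProduct_comm (crossProduct w y) y, hyy]
    simp only [smul_eq_mul]
    field_simp
    ring
  rw [e2]
  have e3 : (p - q) ⬝ᵥ (p - q) = 2 * (1 - k) := by
    rw [dotProduct_sub, sub_dotProduct, sub_dotProduct, hp1, hq1, dotProduct_comm q p, ← hk]
    ring
  rw [e3]
  have e4 : (y ⬝ᵥ y) * (2 / (1 + k)) ≤ (1 - k ^ 2) * (x ⬝ᵥ x) * (2 / (1 + k)) :=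
    mul_le_mul_of_nonneg_right hyn (by positivity)
  refine e4.trans (le_of_eq ?_)
  field_simp
  ring

theorem goalA7 : G_A7 := by
  intro C hC hne
  have hbdd : ∀ x, BddBelow ((fun y => nrm (y - x)) '' C) := by
    intro x
    refine ⟨0, ?_⟩
    rintro _ ⟨y, _, rfl⟩
    exact nrm_nonneg _
  have hle : ∀ x, ∀ y ∈ C, dst C x ≤ nrm (y - x) := fun x y hy =>
    csInf_le (hbdd x) ⟨y, hy, rfl⟩
  have hatt : ∀ x, ∃ a ∈ C, nrm (a - x) = dst C x := by
    intro x
    obtain ⟨a, ha, hmin⟩ := hC.exists_isMinOn hne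
      (f := fun y => nrm (y - x)) (nrm_continuous.comp (continuous_id.sub continuous_const)).continuousOn
    refine ⟨a, ha, le_antisymm ?_ (hle x a ha)⟩
    apply le_csInf (hne.image _)
    rintro _ ⟨y, hy, rfl⟩
    exact hmin hy
  refine ⟨hatt, hle, ?_⟩
  have h1 : ∀ x y, dst C x - dst C y ≤ nrm (x - y) := by
    intro x y
    obtain ⟨a, ha, hay⟩ := hatt y
    have h2 := hle x a ha
    have h3 : a - x = (a - y) + (y - x) := by abel
    rw [h3] at h2
    have h4 := nrm_add_le (a - y) (y - x)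
    rw [nrm_sub_comm y x] at h4
    linarith
  intro x y
  rw [abs_le]
  have h2 := h1 x y
  have h3 := h1 y x
  rw [nrm_sub_comm y x] at h3
  constructor <;> linarith

theorem dst_continuous {C : Set V} (hC : IsCompact C) (hne : C.Nonempty) : Continuous (dst C) := by
  obtain ⟨-, -, h⟩ := goalA7 C hC hne
  rw [continuous_iff_continuousAt]
  intro x
  have h0 : Filter.Tendsto (fun y : V => nrm (y - x)) (nhds x) (nhds 0) := by
    have : Continuous fun y : V => nrm (y - x) := nrm_continuous.comp (continuous_id.sub continuous_const)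
    have h1 := this.tendsto x
    simpa [nrm] using h1
  rw [ContinuousAt, tendsto_iff_dist_tendsto_zero]
  refine squeeze_zero (fun _ => dist_nonneg) (fun y => ?_) h0
  rw [Real.dist_eq]
  exact h y x

theorem det_rod (q : V) (s k : ℝ) : (1 + s • crossM q + k • (crossM q * crossM q)).det
    = (1 - k * (q ⬝ᵥ q)) ^ 2 + s ^ 2 * (q ⬝ᵥ q) := by
  simp [crossM, Matrix.det_fin_three, Matrix.mul_apply, Fin.sum_univ_three, dotProduct,
    Matrix.one_apply]
  ring

theorem goalAX : G_AX := by
  intro q hq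
  have hq1 : q ⬝ᵥ q = 1 := hq
  have hact : ∀ θ x, rotA q θ *ᵥ x = x + sin θ • crossProduct q x +
      (1 - cos θ) • crossProduct q (crossProduct q x) := by
    intro θ x
    rw [rotA, Matrix.add_mulVec, Matrix.add_mulVec, Matrix.smul_mulVec, Matrix.smul_mulVec,
      ← Matrix.mulVec_mulVec, crossM_mulVec, crossM_mulVec, Matrix.one_mulVec]
  have hcube : crossM q * crossM q * crossM q = -crossM q := by
    rw [crossM_cube, hq1]; simp
  refine ⟨?_, ?_, hact, ?_, ?_, ?_⟩
  · intro θ
    rw [mem_SO3]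
    constructor
    · have ht : (rotA q θ)ᵀ = 1 - sin θ • crossM q + (1 - cos θ) • (crossM q * crossM q) := by
        rw [rotA, Matrix.transpose_add, Matrix.transpose_add, Matrix.transpose_smul,
          Matrix.transpose_smul, Matrix.transpose_mul, crossM_transpose, Matrix.transpose_one]
        simp [sub_eq_add_neg]
      rw [ht, rotA]
      have h4 : crossM q * crossM q * (crossM q * crossM q) = -(crossM q * crossM q) := by
        rw [← mul_assoc, hcube, neg_mul]
      have key : (1 + sin θ • crossM q + (1 - cos θ) • (crossM q * crossM q)) *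
          (1 - sin θ • crossM q + (1 - cos θ) • (crossM q * crossM q))
          = 1 + (2 * (1 - cos θ) - sin θ ^ 2) • (crossM q * crossM q)
            + (1 - cos θ) ^ 2 • (crossM q * crossM q * (crossM q * crossM q)) := by
        simp only [mul_add, add_mul, mul_sub, sub_mul, mul_one, one_mul, Matrix.mul_smul,
          Matrix.smul_mul, smul_smul]
        rw [← mul_assoc, ← mul_assoc]
        module
      rw [key, h4]
      have hs := Real.sin_sq_add_cos_sq θ
      have : (2 * (1 - cos θ) - sin θ ^ 2) - (1 - cos θ) ^ 2 = 0 := by linarith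
      have h5 : (2 * (1 - cos θ) - sin θ ^ 2) • (crossM q * crossM q)
          + (1 - cos θ) ^ 2 • (-(crossM q * crossM q))
          = ((2 * (1 - cos θ) - sin θ ^ 2) - (1 - cos θ) ^ 2) • (crossM q * crossM q) := by
        module
      rw [add_assoc, h5, this]
      simp
    · have hs := Real.sin_sq_add_cos_sq θ
      rw [rotA, det_rod, hq1]
      linarith
  · intro θ
    rw [hact]
    have : crossProduct q q = 0 := cross_self q
    rw [this]; simp
  · intro θ x hqx
    rw [hact]
    have : crossProduct q (crossProduct q x) = -x := by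
      ext i
      simp only [dotProduct, Fin.sum_univ_three] at hq1 hqx
      fin_cases i <;> simp [cross_apply]
      · linear_combination (-(x 0)) * hq1 + q 0 * hqx
      · linear_combination (-(x 1)) * hq1 + q 1 * hqx
      · linear_combination (-(x 2)) * hq1 + q 2 * hqx
    rw [this]
    module
  · unfold rotA
    fun_prop
  · simp [rotA]

end Pool.Agent.Helper82.SP
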