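import Pool.Agent.Helper82.SP.A3

/-!
# Project SP: A8, A10
-/

set_option autoImplicit false

namespace Pool.Agent.Helper82.SP

open Matrix Real Filter
open Pool.Agent.Helper26.LU (V M3 SO3 nrm sph proj Bm Rot crossM nrm_sq nrm_nonneg nrm_sph
  nrm_pos proj_sph proj_self nrm_proj nrm_add_le nrm_smul nrm_neg nrm_sub_comm abs_nrm_sub
  nrm_continuous dot_le norm_le_nrm nrm_le_norm sph_norm_le mem_SO3 SO3_left SO3_transpose
  SO3_mul dot_mulVec mulVec_sph crossM_mulVec crossM_transpose crossM_cube cross_sq Bm_SO3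
  Bm_mulVec Bm_self nrm_mulVec isCompact_SO3 isClosed_SO3)

theorem nrm_sub_sq {x y : V} (hx : x ∈ sph) (hy : y ∈ sph) : nrm (x - y) ^ 2 = 2 - 2 * (x ⬝ᵥ y) := by
  have hx1 : x ⬝ᵥ x = 1 := hx
  have hy1 : y ⬝ᵥ y = 1 := hy
  rw [nrm_sq, sub_dotProduct, dotProduct_sub, dotProduct_sub, hx1, hy1, dotProduct_comm y x]
  ring

theorem goalA8 (hA4 : G_A4) (hA6 : G_A6) (hA5 : G_A5) (hA7 : G_A7) : G_A8 := by
  intro v a0 w b ρ u K c ht hp hK hadm R hR hop i hne hlt2
  by_contra hcon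
  push Not at hcon
  set p := R *ᵥ u i with hpd
  have hps : p ∈ sph := mulVec_sph hR (hp.unit i)
  have hCc : ∀ j, IsCompact (sph \ Op K c (ρ j)) := fun j => (hA5 K c (ρ j)).1
  obtain ⟨hatt, hle, -⟩ := hA7 _ (hCc i) hne
  obtain ⟨a, ha, hmin⟩ := hatt p
  have has : a ∈ sph := ha.1
  rw [← hmin] at hlt2
  -- the numbers
  set k := p ⬝ᵥ a with hk
  have hsq := nrm_sub_sq has hps
  rw [dotProduct_comm a p, ← hk] at hsq
  have hk1 : -1 < k := by
    have := nrm_nonneg (a - p)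
    nlinarith
  have hap : a ≠ p := by
    intro h0
    exact ha.2 (h0 ▸ hop i)
  have hpos : 0 < nrm (a - p) := nrm_pos (sub_ne_zero.2 hap)
  have hk2 : k < 1 := by nlinarith
  have hne0 : 1 + p ⬝ᵥ a ≠ 0 := by rw [← hk]; linarith
  have hR' : Bm p a * R ∈ SO3 := SO3_mul (Bm_SO3 hps has hne0) hR
  have hR'i : (Bm p a * R) *ᵥ u i = a := by
    rw [← Matrix.mulVec_mulVec, ← hpd, Bm_mulVec hps has hne0]
  -- the other indices
  have hother : ∀ j, j ≠ i → (Bm p a * R) *ᵥ u j ∈ Op K c (ρ j) := by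
    intro j hj
    by_contra hnot
    have hsphj : (Bm p a * R) *ᵥ u j ∈ sph := mulVec_sph hR' (hp.unit j)
    have hmem : (Bm p a * R) *ᵥ u j ∈ sph \ Op K c (ρ j) := ⟨hsphj, hnot⟩
    have h1 := hcon j hj ⟨_, hmem⟩
    obtain ⟨-, hlej, -⟩ := hA7 _ (hCc j) ⟨_, hmem⟩
    have h2 := hlej (R *ᵥ u j) _ hmem
    have h3 := hA6 p hps a has hne0 (R *ᵥ u j)
    rw [nrm_sph (mulVec_sph hR (hp.unit j)), mul_one, nrm_sub_comm p a] at h3
    rw [← Matrix.mulVec_mulVec] at h2
    linarith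
  -- `a` is in the closure
  have hcl : a ∈ closure (Op K c (ρ i)) := by
    rw [Metric.mem_closure_iff]
    intro ε hε
    set e := min (1 / 2) (ε / 4) with he
    have he0 : 0 < e := by positivity
    have he1 : e ≤ 1 / 2 := min_le_left _ _
    have he2 : e ≤ ε / 4 := min_le_right _ _
    set y := a + e • p with hy
    have hnep : nrm (e • p) = e := by rw [nrm_smul, nrm_sph hps, abs_of_pos he0, mul_one]
    have hN := abs_le.1 (abs_nrm_sub y a)
    rw [nrm_sph has, hy, add_sub_cancel_left, hnep, ← hy] at hN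
    have hNpos : 0 < nrm y := by linarith [hN.1]
    have hy0 : y ≠ 0 := by
      intro h0; rw [h0] at hNpos; simp [nrm] at hNpos
    have hpy : p ⬝ᵥ y = k + e := by
      have hp1 : p ⬝ᵥ p = 1 := hps
      rw [hy, dotProduct_add, dotProduct_smul, hp1, smul_eq_mul, mul_one]
    have hpy2 : nrm y * (p ⬝ᵥ proj y) = k + e := by
      rw [← hpy]
      conv_rhs => rw [← nrm_proj y hy0]
      rw [dotProduct_smul, smul_eq_mul]
    have hgt : k < p ⬝ᵥ proj y := by
      have h1 : k * nrm y < k + e := by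
        have h2 : |k| < 1 := abs_lt.2 ⟨hk1, hk2⟩
        have h3 : |k * (nrm y - 1)| ≤ |k| * e := by
          rw [abs_mul]
          exact mul_le_mul_of_nonneg_left (abs_le.2 ⟨by linarith [hN.1], hN.2⟩) (abs_nonneg _)
        have h4 := (abs_le.1 h3).2
        have h5 : |k| * e < e := by nlinarith
        nlinarith
      rw [← hpy2, mul_comm k] at h1
      exact lt_of_mul_lt_mul_left h1 hNpos.le
    have hys : proj y ∈ sph := proj_sph hy0
    refine ⟨proj y, ?_, ?_⟩
    · by_contra hnot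
      have h1 := hle p _ ⟨hys, hnot⟩
      rw [← hmin] at h1
      have h2 := nrm_sub_sq hys hps
      rw [dotProduct_comm (proj y) p] at h2
      have h3 := nrm_nonneg (a - p)
      nlinarith
    · rw [dist_eq_norm, ← norm_neg, neg_sub]
      refine (norm_le_nrm _).trans_lt ?_
      have h1 := proj_near has hy0
      rw [hy, add_sub_cancel_left, hnep, ← hy] at h1
      linarith
  have hfin := hA4 v a0 w b ρ u K c ht hp hK hadm (Bm p a * R) hR' i
    (by rw [hR'i]; exact hcl) hother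
  rw [hR'i] at hfin
  exact ha.2 hfin

/-- A finite cover of a nonempty relatively open set by closed sets: one of them contains a
nonempty relatively open set. -/
theorem finite_cover {X : Type} [TopologicalSpace X] (S : Set X) {ι : Type} (s : Finset ι)
    (F : ι → Set X) (hF : ∀ i ∈ s, IsClosed (F i)) : ∀ G : Set X, IsOpen G → (G ∩ S).Nonempty →
    (∀ x ∈ G, x ∈ S → ∃ i ∈ s, x ∈ F i) → ∃ i ∈ s, ∃ U, IsOpen U ∧ U ⊆ G ∧ (U ∩ S).Nonempty ∧
      ∀ x ∈ U, x ∈ S → x ∈ F i := by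
  classical
  induction s using Finset.induction_on with
  | empty =>
    intro G hG ⟨x, hx1, hx2⟩ h
    obtain ⟨i, hi, -⟩ := h x hx1 hx2
    exact absurd hi (Finset.notMem_empty i)
  | insert j s hj ih =>
    intro G hG hne h
    by_cases hall : ∀ x ∈ G, x ∈ S → x ∈ F j
    · exact ⟨j, Finset.mem_insert_self j s, G, hG, subset_rfl, hne, hall⟩
    · push Not at hall
      obtain ⟨x, hxG, hxS, hxF⟩ := hall
      obtain ⟨i, hi, U, hU, hUG, hUne, hUF⟩ := ih (fun i hi => hF i (Finset.mem_insert_of_mem hi))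
        (G ∩ (F j)ᶜ) (hG.inter (hF j (Finset.mem_insert_self j s)).isOpen_compl)
        ⟨x, ⟨hxG, hxF⟩, hxS⟩ (by
          rintro y ⟨hyG, hyF⟩ hyS
          obtain ⟨i, hi, hy⟩ := h y hyG hyS
          rcases Finset.mem_insert.1 hi with rfl | hi
          · exact absurd hy hyF
          · exact ⟨i, hi, hy⟩)
      exact ⟨i, Finset.mem_insert_of_mem hi, U, hU, hUG.trans Set.inter_subset_left, hUne, hUF⟩

theorem dst_le_two {C : Set V} (hA7 : G_A7) (hC : IsCompact C) (hCs : C ⊆ sph) (hne : C.Nonempty)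
    {x : V} (hx : x ∈ sph) : dst C x ≤ 2 := by
  obtain ⟨y, hy⟩ := hne
  have h1 := (hA7 C hC ⟨y, hy⟩).2.1 x y hy
  have h2 := nrm_add_le y (-x)
  rw [← sub_eq_add_neg, nrm_neg, nrm_sph (hCs hy), nrm_sph hx] at h2
  linarith

theorem goalA10 (hA5 : G_A5) (hA7 : G_A7) (hA8 : G_A8) (hA9 : G_A9) (hA9b : G_A9b)
    (hA10a : G_A10a) : G_A10 := by
  classical
  intro v a w b ρ u K c ht hp hK hadm R₀ hR₀ hop
  by_contra hcon
  push Not at hcon
  obtain ⟨i₁, hi₁⟩ := hcon
  let C : Fin 4 → Set V := fun i => sph \ Op K c (ρ i)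
  have hCc : ∀ j, IsCompact (C j) := fun j => (hA5 K c (ρ j)).1
  have hCs : ∀ j, C j ⊆ sph := fun j => Set.diff_subset
  have hne₁ : (C i₁).Nonempty := by
    rw [Set.not_subset] at hi₁
    obtain ⟨x, hx, hx'⟩ := hi₁
    exact ⟨x, hx, hx'⟩
  choose G hGo hGeq using fun j => (hA5 K c (ρ j)).2
  -- the open set of rotations
  let W : Set M3 := ⋂ j, (fun R : M3 => R *ᵥ u j) ⁻¹' G j
  have hact : ∀ x : V, Continuous fun M : M3 => M *ᵥ x := fun x => by fun_prop
  have hWo : IsOpen W := isOpen_iInter_of_finite fun j => (hGo j).preimage (hact (u j))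
  have hWmem : ∀ R ∈ W, R ∈ SO3 → ∀ j, R *ᵥ u j ∈ Op K c (ρ j) := by
    intro R hR hRS j
    rw [hGeq j]
    exact ⟨mulVec_sph hRS (hp.unit j), Set.mem_iInter.1 hR j⟩
  have hWne : (W ∩ (SO3 : Set M3)).Nonempty := by
    refine ⟨R₀, Set.mem_iInter.2 fun j => ?_, hR₀⟩
    have := hop j
    rw [hGeq j] at this
    exact this.2
  let D : Fin 4 → M3 → ℝ := fun j R => dst (C j) (R *ᵥ u j)
  -- the closed sets, indexed by pairs; the diagonal is the set where the distance is two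
  let F : Fin 4 × Fin 4 → Set M3 := fun q =>
    if (C q.1).Nonempty ∧ (C q.2).Nonempty then
      (if q.1 = q.2 then {R | D q.1 R = 2} else {R | D q.1 R = D q.2 R}) else ∅
  have hDc : ∀ j, (C j).Nonempty → Continuous (D j) := fun j hj =>
    (dst_continuous (hCc j) hj).comp (hact (u j))
  have hFc : ∀ q ∈ (Finset.univ : Finset (Fin 4 × Fin 4)), IsClosed (F q) := by
    intro q _
    by_cases hq : (C q.1).Nonempty ∧ (C q.2).Nonempty
    · by_cases hq2 : q.1 = q.2
      · simp only [F, if_pos hq, if_pos hq2]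
        exact isClosed_eq (hDc _ hq.1) continuous_const
      · simp only [F, if_pos hq, if_neg hq2]
        exact isClosed_eq (hDc _ hq.1) (hDc _ hq.2)
    · simp only [F, if_neg hq]
      exact isClosed_empty
  have hcover : ∀ R ∈ W, R ∈ (SO3 : Set M3) → ∃ q ∈ (Finset.univ : Finset (Fin 4 × Fin 4)), R ∈ F q := by
    intro R hR hRS
    obtain ⟨i, hi, hmin⟩ := Finset.exists_min_image (Finset.univ.filter fun j => (C j).Nonempty)
      (fun j => D j R) ⟨i₁, by simp [hne₁]⟩
    have hine : (C i).Nonempty := (Finset.mem_filter.1 hi).2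
    have hDi : D i R ≤ 2 := dst_le_two hA7 (hCc i) (hCs i) hine (mulVec_sph hRS (hp.unit i))
    rcases lt_or_eq_of_le hDi with hlt | heq
    · obtain ⟨j, hji, hjne, hjle⟩ := hA8 v a w b ρ u K c ht hp hK hadm R hRS (hWmem R hR hRS) i
        hine hlt
      have hjge := hmin j (Finset.mem_filter.2 ⟨Finset.mem_univ j, hjne⟩)
      refine ⟨(i, j), Finset.mem_univ _, ?_⟩
      have h1 : D i R = D j R := le_antisymm hjge hjle
      simp only [F, if_pos (⟨hine, hjne⟩ : (C i).Nonempty ∧ (C j).Nonempty), if_neg (Ne.symm hji)]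
      exact h1
    · refine ⟨(i, i), Finset.mem_univ _, ?_⟩
      simp only [F, if_pos (⟨hine, hine⟩ : (C i).Nonempty ∧ (C i).Nonempty), if_true]
      exact heq
  obtain ⟨q, -, U, hU, hUW, hUne, hUF⟩ := finite_cover (SO3 : Set M3) Finset.univ F hFc W hWo hWne
    hcover
  by_cases hq : (C q.1).Nonempty ∧ (C q.2).Nonempty
  · by_cases hq2 : q.1 = q.2
    · simp only [F, if_pos hq, if_pos hq2] at hUF
      exact hA9b (C q.1) (u q.1) U (hCc _) (hCs _) hq.1 (hp.unit _) hU hUne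
        fun R hR hRS => hUF R hR hRS
    · simp only [F, if_pos hq, if_neg hq2] at hUF
      refine hA9 (C q.1) (C q.2) (u q.1) (u q.2) U (hCc _) (hCs _) hq.1 (hp.unit _) (hp.unit _)
        (hA10a v a w b ρ u ht hp _ _ hq2) hU hUne fun R hR hRS => ⟨?_, hUF R hR hRS⟩
      exact fun hmem => hmem.2 (hWmem R (hUW hR) hRS q.1)
  · simp only [F, if_neg hq] at hUF
    obtain ⟨R, hR, hRS⟩ := hUne
    exact hUF R hR hRS

end Pool.Agent.Helper82.SP
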