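import Pool.Agent.Helper82.SP.A5

/-!
# Project SP: A9b, A9
-/

set_option autoImplicit false

namespace Pool.Agent.Helper82.SP

open Matrix Real
open Pool.Agent.Helper26.LU (V M3 SO3 nrm sph proj Bm Rot crossM nrm_sq nrm_nonneg nrm_sph
  nrm_pos proj_sph proj_self nrm_proj nrm_add_le nrm_smul nrm_neg nrm_sub_comm abs_nrm_sub
  nrm_continuous dot_le norm_le_nrm nrm_le_norm sph_norm_le mem_SO3 SO3_left SO3_transpose
  SO3_mul dot_mulVec mulVec_sph crossM_mulVec crossM_transpose crossM_cube cross_sq Bm_SO3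
  Bm_mulVec Bm_self nrm_mulVec)

/-- Small rotations stay in an open set. -/
theorem rot_near (hAX : G_AX) {U : Set M3} (hU : IsOpen U) {R : M3} (hR : R ∈ U) {q : V}
    (hq : q ∈ sph) : ∃ ε > 0, ∀ θ : ℝ, |θ| < ε → rotA q θ * R ∈ U := by
  obtain ⟨-, -, -, -, hc, h0⟩ := hAX q hq
  have hcont : Continuous fun θ : ℝ => rotA q θ * R := by
    exact hc.matrix_mul continuous_const
  have hmem : (fun θ : ℝ => rotA q θ * R) ⁻¹' U ∈ nhds (0 : ℝ) := by
    apply hcont.continuousAt.preimage_mem_nhds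
    apply hU.mem_nhds
    simpa [h0] using hR
  obtain ⟨ε, hε, h⟩ := Metric.mem_nhds_iff.1 hmem
  refine ⟨ε, hε, fun θ hθ => ?_⟩
  exact h (by simpa [Metric.mem_ball, Real.dist_eq] using hθ)

/-- Existence of a perpendicular unit vector. -/
theorem exists_perp {P : V} (hP : P ∈ sph) : ∃ q ∈ sph, q ⬝ᵥ P = 0 := by
  obtain ⟨Q, hQ, hQe⟩ := Pool.Agent.Helper26.LU.exists_rot hP
  refine ⟨Q *ᵥ ![1, 0, 0], mulVec_sph hQ (by simp [sph, dotProduct, Fin.sum_univ_three]), ?_⟩
  rw [← hQe, dot_mulVec hQ]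
  simp [Pool.Agent.Helper26.LU.e, dotProduct, Fin.sum_univ_three]

theorem eq_neg_of_dist {y P : V} (hy : y ∈ sph) (hP : P ∈ sph) (h : 2 ≤ nrm (y - P)) : y = -P := by
  have hy1 : y ⬝ᵥ y = 1 := hy
  have hP1 : P ⬝ᵥ P = 1 := hP
  have h2 : 4 ≤ nrm (y - P) ^ 2 := by nlinarith
  rw [nrm_sq, sub_dotProduct, dotProduct_sub, dotProduct_sub, hy1, hP1, dotProduct_comm P y] at h2
  have h0 : (y + P) ⬝ᵥ (y + P) ≤ 0 := by
    rw [add_dotProduct, dotProduct_add, dotProduct_add, hy1, hP1, dotProduct_comm P y]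
    linarith
  have h1 : 0 ≤ (y + P) ⬝ᵥ (y + P) := by rw [← nrm_sq]; positivity
  exact eq_neg_of_add_eq_zero_left (dotProduct_self_eq_zero.1 (le_antisymm h0 h1))

theorem goalA9b (hA7 : G_A7) (hAX : G_AX) : G_A9b := by
  intro C p U hC hCs hne hp hU ⟨R, hRU, hR⟩ h
  obtain ⟨hatt, hle, -⟩ := hA7 C hC hne
  -- description of `C`
  have hC1 : ∀ R ∈ U, R ∈ SO3 → ∀ y ∈ C, y = -(R *ᵥ p) := by
    intro R hRU hR y hy
    apply eq_neg_of_dist (hCs hy) (mulVec_sph hR hp)
    rw [← h R hRU hR]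
    exact hle _ y hy
  set P := R *ᵥ p with hP
  have hPs : P ∈ sph := mulVec_sph hR hp
  have hP1 : P ⬝ᵥ P = 1 := hPs
  obtain ⟨q, hq, hqP⟩ := exists_perp hPs
  obtain ⟨ε, hε, hrot⟩ := rot_near hAX hU hRU hq
  obtain ⟨hSO, -, -, hact, -, -⟩ := hAX q hq
  obtain ⟨y, hy⟩ := hne
  set θ := min (ε / 2) 1 with hθ
  have hθ0 : 0 < θ := lt_min (by linarith) one_pos
  have hθ1 : θ ≤ 1 := min_le_right _ _
  have hθε : |θ| < ε := by
    rw [abs_of_pos hθ0]; exact (min_le_left _ _).trans_lt (by linarith)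
  have e1 := hC1 R hRU hR y hy
  have e2 := hC1 (rotA q θ * R) (hrot θ hθε) (SO3_mul (hSO θ) hR) y hy
  rw [← Matrix.mulVec_mulVec, ← hP, hact θ P hqP] at e2
  have e3 : P = cos θ • P + sin θ • crossProduct q P := by
    have := e1.symm.trans e2
    exact neg_injective this
  have e4 : P ⬝ᵥ P = P ⬝ᵥ (cos θ • P + sin θ • crossProduct q P) := by rw [← e3]
  rw [dotProduct_add, dotProduct_smul, dotProduct_smul, hP1, dot_cross_self] at e4
  simp at e4
  have h5 : cos θ < 1 := by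
    have : cos θ < cos 0 := Real.cos_lt_cos_of_nonneg_of_le_pi_div_two le_rfl
      (by linarith [Real.pi_gt_three]) hθ0
    simpa using this
  linarith

theorem cross_rot {R : M3} (hR : R ∈ SO3) (x y : V) :
    crossProduct (R *ᵥ x) (R *ᵥ y) ⬝ᵥ crossProduct (R *ᵥ x) (R *ᵥ y)
      = crossProduct x y ⬝ᵥ crossProduct x y := by
  rw [cross_dot_cross, cross_dot_cross, dot_mulVec hR, dot_mulVec hR, dot_mulVec hR, dot_mulVec hR]

theorem sq_eq_one_iff_or {x : ℝ} : x ^ 2 = 1 ↔ x = 1 ∨ x = -1 := by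
  constructor
  · intro h
    have : (x - 1) * (x + 1) = 0 := by linarith
    rcases mul_eq_zero.1 this with h1 | h1
    · left; linarith
    · right; linarith
  · rintro (rfl | rfl) <;> norm_num

theorem cross_rodr {P : V} (Q : V) (hP : P ⬝ᵥ P = 1) (s k : ℝ) :
    crossProduct (Q + s • crossProduct P Q + k • crossProduct P (crossProduct P Q)) P
      = (1 - k) • crossProduct Q P + s • crossProduct P (crossProduct Q P) := by
  have e1 : crossProduct (crossProduct P Q) P = crossProduct P (crossProduct Q P) := by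
    rw [cross_cross_eq_smul_sub_smul, cross_cross_eq_smul_sub_smul']
  have e2 : crossProduct (crossProduct P (crossProduct P Q)) P = -crossProduct Q P := by
    rw [cross_cross_eq_smul_sub_smul' P P Q, hP, map_sub, map_smul, LinearMap.sub_apply,
      LinearMap.smul_apply, cross_self, smul_zero, zero_sub, one_smul]
  rw [map_add, map_add, map_smul, map_smul, LinearMap.add_apply, LinearMap.add_apply,
    LinearMap.smul_apply, LinearMap.smul_apply, e1, e2]
  module

theorem frame3 {P m y : V} (hP : P ⬝ᵥ P = 1) (hPm : P ⬝ᵥ m = 0) (hPy : P ⬝ᵥ y = 0) :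
    (m ⬝ᵥ m) • y = (y ⬝ᵥ m) • m + (y ⬝ᵥ crossProduct P m) • crossProduct P m := by
  have e1 := cross_cross_eq_smul_sub_smul' m y m
  have e2 : crossProduct P (crossProduct y m) = 0 := by
    rw [cross_cross_eq_smul_sub_smul', hPm, dotProduct_comm y P, hPy]; simp
  have e3 : crossProduct y m = (P ⬝ᵥ crossProduct y m) • P := by
    have := cross_cross_eq_smul_sub_smul' P P (crossProduct y m)
    rw [e2, hP, one_smul, map_zero] at this
    exact (sub_eq_zero.1 this.symm).symm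
  have e4 : crossProduct m (crossProduct y m) = (y ⬝ᵥ crossProduct P m) • crossProduct P m := by
    rw [e3, map_smul]
    have e5 : P ⬝ᵥ crossProduct y m = -(y ⬝ᵥ crossProduct P m) := by
      rw [triple_product_permutation P y m, ← cross_anticomm P m, dotProduct_neg]
    rw [e5, ← cross_anticomm P m]
    module
  rw [e4] at e1
  rw [e1]
  abel

theorem goalA9 (hA7 : G_A7) (hA9b : G_A9b) (hAX : G_AX) : G_A9 := by
  intro C C' p q U hC hCs hne hp hq hpq hU hne2 h
  obtain ⟨hatt, hle, -⟩ := hA7 C hC hne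
  -- step (i)
  have hi : ∀ R ∈ U, R ∈ SO3 → ∀ a ∈ C, nrm (a - R *ᵥ p) = dst C (R *ᵥ p) →
      a ⬝ᵥ crossProduct (R *ᵥ q) (R *ᵥ p) = 0 := by
    intro R hRU hR a ha hmin
    set P := R *ᵥ p with hP
    set Q := R *ᵥ q with hQ
    have hPs : P ∈ sph := mulVec_sph hR hp
    have hQs : Q ∈ sph := mulVec_sph hR hq
    have hP1 : P ⬝ᵥ P = 1 := hPs
    have ha1 : a ⬝ᵥ a = 1 := hCs ha
    obtain ⟨ε, hε, hrot⟩ := rot_near hAX hU hRU hQs
    obtain ⟨hSO, hfix, hact, -, -, -⟩ := hAX Q hQs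
    have key : ∀ θ : ℝ, |θ| < ε → a ⬝ᵥ (rotA Q θ *ᵥ P) ≤ a ⬝ᵥ P := by
      intro θ hθ
      have hR' : rotA Q θ * R ∈ SO3 := SO3_mul (hSO θ) hR
      have hR'U := hrot θ hθ
      have e1 := (h _ hR'U hR').2
      rw [← Matrix.mulVec_mulVec, ← Matrix.mulVec_mulVec, ← hQ, ← hP, hfix θ, hQ,
        ← (h R hRU hR).2, ← hP, ← hmin] at e1
      have e2 := hle (rotA Q θ *ᵥ P) a ha
      rw [← hQ] at e1
      rw [e1] at e2
      have e3 : nrm (a - P) ^ 2 ≤ nrm (a - rotA Q θ *ᵥ P) ^ 2 := by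
        have := nrm_nonneg (a - P)
        gcongr
      have hPθ : (rotA Q θ *ᵥ P) ⬝ᵥ (rotA Q θ *ᵥ P) = 1 := by
        rw [dot_mulVec (hSO θ)]; exact hP1
      rw [nrm_sq, nrm_sq, sub_dotProduct, sub_dotProduct, dotProduct_sub, dotProduct_sub,
        dotProduct_sub, dotProduct_sub, hP1, hPθ, dotProduct_comm P a,
        dotProduct_comm (rotA Q θ *ᵥ P) a] at e3
      linarith
    -- derivative
    set α := a ⬝ᵥ crossProduct Q P with hα
    set β := a ⬝ᵥ crossProduct Q (crossProduct Q P) with hβ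
    have key2 : ∀ θ : ℝ, |θ| < ε → sin θ * α + (1 - cos θ) * β ≤ 0 := by
      intro θ hθ
      have := key θ hθ
      rw [hact, dotProduct_add, dotProduct_add, dotProduct_smul, dotProduct_smul, smul_eq_mul,
        smul_eq_mul] at this
      linarith
    by_contra hne0
    -- choose small θ with the sign of α
    have hαpos : 0 < |α| := abs_pos.2 hne0
    set t := min (ε / 2) (min 1 (|α| / (2 * (|β| + 1)))) with ht
    have ht0 : 0 < t := by positivity
    have ht1 : t ≤ 1 := (min_le_right _ _).trans (min_le_left _ _)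
    have htε : t < ε := (min_le_left _ _).trans_lt (by linarith)
    have ht2 : t ≤ |α| / (2 * (|β| + 1)) := (min_le_right _ _).trans (min_le_right _ _)
    have hs1 : t / 2 ≤ sin t := by
      have := Real.mul_le_sin ht0.le (by linarith [Real.pi_gt_three])
      have hpi : (1:ℝ) / 2 ≤ 2 / π := by
        rw [div_le_div_iff₀ (by norm_num) Real.pi_pos]; linarith [Real.pi_lt_four]
      nlinarith
    have hc1 : 1 - cos t ≤ t ^ 2 / 2 := by
      have := Real.one_sub_sq_div_two_le_cos (x := t)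
      linarith
    have hc0 : 0 ≤ 1 - cos t := by linarith [Real.cos_le_one t]
    have hmain : 0 < sin t * |α| - (1 - cos t) * |β| := by
      have hb : (1 - cos t) * |β| ≤ t ^ 2 / 2 * |β| := mul_le_mul_of_nonneg_right hc1 (abs_nonneg _)
      have ha' : t / 2 * |α| ≤ sin t * |α| := mul_le_mul_of_nonneg_right hs1 (abs_nonneg _)
      have h3 : t * (2 * (|β| + 1)) ≤ |α| := by
        rwa [le_div_iff₀ (by positivity)] at ht2
      nlinarith [abs_nonneg β]
    rcases lt_or_gt_of_ne hne0 with hneg | hpos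
    · have h5 := key2 (-t) (by rw [abs_neg, abs_of_pos ht0]; exact htε)
      rw [Real.sin_neg, Real.cos_neg] at h5
      rw [abs_of_neg hneg] at hmain
      have : -((1 - cos t) * β) ≤ (1 - cos t) * |β| := by
        rw [← mul_neg]
        exact mul_le_mul_of_nonneg_left (neg_le_abs β) hc0
      linarith
    · have h5 := key2 t (by rw [abs_of_pos ht0]; exact htε)
      rw [abs_of_pos hpos] at hmain
      have : -((1 - cos t) * β) ≤ (1 - cos t) * |β| := by
        rw [← mul_neg]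
        exact mul_le_mul_of_nonneg_left (neg_le_abs β) hc0
      linarith
  -- step (ii)
  apply hA9b C p U hC hCs hne hp hU hne2
  intro R hRU hR
  set P := R *ᵥ p with hP
  set Q := R *ᵥ q with hQ
  have hPs : P ∈ sph := mulVec_sph hR hp
  have hQs : Q ∈ sph := mulVec_sph hR hq
  have hP1 : P ⬝ᵥ P = 1 := hPs
  obtain ⟨a, ha, hmin⟩ := hatt P
  have ha1 : a ⬝ᵥ a = 1 := hCs ha
  have hm1 := hi R hRU hR a ha hmin
  rw [← hP, ← hQ] at hm1
  set m := crossProduct Q P with hm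
  obtain ⟨ε, hε, hrot⟩ := rot_near hAX hU hRU hPs
  obtain ⟨hSO, hfix, hact, -, -, -⟩ := hAX P hPs
  set t := min (ε / 2) 1 with ht
  have ht0 : 0 < t := lt_min (by linarith) one_pos
  have ht1 : t ≤ 1 := min_le_right _ _
  have htε : |t| < ε := by rw [abs_of_pos ht0]; exact (min_le_left _ _).trans_lt (by linarith)
  have hR' : rotA P t * R ∈ SO3 := SO3_mul (hSO t) hR
  have hm2 := hi _ (hrot t htε) hR' a ha (by
    rw [← Matrix.mulVec_mulVec, ← hP, hfix t]; exact hmin)
  rw [← Matrix.mulVec_mulVec, ← Matrix.mulVec_mulVec, ← hP, ← hQ, hfix t] at hm2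
  -- expand `(rotA P t Q) × P`
  have hcr : crossProduct (rotA P t *ᵥ Q) P = cos t • m + sin t • crossProduct P m := by
    rw [hact, cross_rodr Q hP1, ← hm]
    congr 1
    rw [sub_sub_cancel]
  rw [hcr, dotProduct_add, dotProduct_smul, dotProduct_smul, hm1, smul_zero, zero_add,
    smul_eq_mul] at hm2
  have hsin : sin t ≠ 0 := (Real.sin_pos_of_pos_of_lt_pi ht0 (by linarith [Real.pi_gt_three])).ne'
  have hm3 : a ⬝ᵥ crossProduct P m = 0 := (mul_eq_zero.1 hm2).resolve_left hsin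
  -- `a = ± P`
  have hmm : m ⬝ᵥ m ≠ 0 := by
    rw [hm, hQ, hP, cross_rot hR]
    intro h0
    apply hpq
    have : crossProduct q p = 0 := dotProduct_self_eq_zero.1 h0
    rw [← cross_anticomm, this, neg_zero]
  have hPm : P ⬝ᵥ m = 0 := by rw [hm]; exact dot_cross_self Q P
  have hexp : (m ⬝ᵥ m) • (a - (a ⬝ᵥ P) • P) = (a ⬝ᵥ m) • m + (a ⬝ᵥ crossProduct P m) • crossProduct P m := by
    have h5 : P ⬝ᵥ (a - (a ⬝ᵥ P) • P) = 0 := by
      rw [dotProduct_sub, dotProduct_smul, hP1, dotProduct_comm P a]; simp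
    rw [frame3 hP1 hPm h5]
    congr 2
    · rw [sub_dotProduct, smul_dotProduct, hPm]; simp
    · rw [sub_dotProduct, smul_dotProduct, dot_self_cross]; simp
  rw [hm1, hm3, zero_smul, zero_smul, add_zero] at hexp
  have haP : a = (a ⬝ᵥ P) • P := by
    have := (smul_eq_zero.1 hexp).resolve_left hmm
    exact sub_eq_zero.1 this
  have hk2 : (a ⬝ᵥ P) ^ 2 = 1 := by
    have : a ⬝ᵥ a = (a ⬝ᵥ P) ^ 2 := by
      nth_rw 1 [haP]
      rw [smul_dotProduct, dotProduct_comm P a, smul_eq_mul, pow_two]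
    rw [← this, ha1]
  have hPC : P ∉ C := (h R hRU hR).1
  have hk : a ⬝ᵥ P = 1 ∨ a ⬝ᵥ P = -1 := sq_eq_one_iff_or.1 hk2
  rcases hk with h1 | h1
  · rw [h1, one_smul] at haP
    exact absurd (haP ▸ ha) hPC
  · rw [h1, neg_smul, one_smul] at haP
    rw [← hmin, haP, show -P - P = (-2 : ℝ) • P by module, nrm_smul, nrm_sph hPs]
    norm_num

end Pool.Agent.Helper82.SP
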