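import Pool.Agent.Helper82.SP.GoalsB

/-!
# Project SP: B11c
-/

set_option autoImplicit false

namespace Pool.Agent.Helper82.SP

open Matrix Real

theorem goalB11c : G_B11c := by
  intro ν₁ ν₂ Y₁ Y₂ κ₁ κ₂ ρ hδ h
  set n1 := (starRingEnd ℂ) ν₁ with hn1
  set n2 := (starRingEnd ℂ) ν₂ with hn2
  set y1 := (starRingEnd ℂ) Y₁ with hy1
  set y2 := (starRingEnd ℂ) Y₂ with hy2
  set δ := n1 * ν₂ - n2 * ν₁ with hδdef
  set E : ℂ := 2 * κ₁ * ν₂ - 2 * κ₂ * ν₁ with hE
  set a : ℂ := -(n1 * ν₂ * Y₁ - n2 * ν₁ * Y₂) with ha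
  set d : ℂ := -(ν₁ * ν₂ * (y1 - y2)) with hd
  -- the function on the circle
  have key : ∀ ζ ζb : ℂ, (∃ θ : ℝ, ζ = Complex.exp (Complex.I * θ)) → ζb = (starRingEnd ℂ) ζ →
      (E + a * ζ + d * ζb) * ((starRingEnd ℂ) E + (starRingEnd ℂ) a * ζb + (starRingEnd ℂ) d * ζ)
        = δ * (starRingEnd ℂ) δ * ρ := by
    rintro ζ ζb ⟨θ, hθ⟩ hζb
    obtain ⟨σ, h1, h2, h3⟩ := h θ
    rw [← hθ] at h1 h2
    have g1 : n1 * (σ + ζ * Y₁) + ν₁ * ((starRingEnd ℂ) σ + ζb * y1) = 2 * κ₁ := by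
      have := Complex.add_conj (n1 * (σ + ζ * Y₁))
      rw [h1] at this
      simp only [map_mul, map_add, hn1, Complex.conj_conj] at this
      rw [hζb]
      rw [← hn1] at this
      rw [this]; push_cast; ring
    have g2 : n2 * (σ + ζ * Y₂) + ν₂ * ((starRingEnd ℂ) σ + ζb * y2) = 2 * κ₂ := by
      have := Complex.add_conj (n2 * (σ + ζ * Y₂))
      rw [h2] at this
      simp only [map_mul, map_add, hn2, Complex.conj_conj] at this
      rw [hζb]
      rw [← hn2] at this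
      rw [this]; push_cast; ring
    have g3 : δ * σ = E + a * ζ + d * ζb := by
      rw [hδdef, hE, ha, hd]
      linear_combination ν₂ * g1 - ν₁ * g2
    have g4 : (starRingEnd ℂ) δ * (starRingEnd ℂ) σ
        = (starRingEnd ℂ) E + (starRingEnd ℂ) a * ζb + (starRingEnd ℂ) d * ζ := by
      have := congrArg (starRingEnd ℂ) g3
      simp only [map_mul, map_add] at this
      rw [hζb] at this ⊢
      rw [this, Complex.conj_conj]
    rw [← g3, ← g4]
    have g5 : σ * (starRingEnd ℂ) σ = (ρ : ℂ) := by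
      rw [Complex.mul_conj, Complex.normSq_eq_norm_sq, h3]
    linear_combination δ * (starRingEnd ℂ) δ * g5
  have hI : Complex.I ^ 2 = -1 := Complex.I_sq
  have hpi : ∀ x : ℝ, ∃ θ : ℝ, Complex.exp (Complex.I * x) = Complex.exp (Complex.I * θ) :=
    fun x => ⟨x, rfl⟩
  have u1 : Complex.exp (Complex.I * (0 : ℝ)) = 1 := by simp
  have u2 : Complex.exp (Complex.I * (π : ℝ)) = -1 := by
    rw [mul_comm]; exact Complex.exp_pi_mul_I
  have u3 : Complex.exp (Complex.I * ((π / 2 : ℝ) : ℂ)) = Complex.I := by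
    rw [mul_comm, Complex.exp_mul_I]
    rw [← Complex.ofReal_cos, ← Complex.ofReal_sin, Real.cos_pi_div_two, Real.sin_pi_div_two]
    simp
  have u4 : Complex.exp (Complex.I * ((-(π / 2) : ℝ) : ℂ)) = -Complex.I := by
    rw [mul_comm, Complex.exp_mul_I]
    rw [← Complex.ofReal_cos, ← Complex.ofReal_sin, Real.cos_neg, Real.sin_neg,
      Real.cos_pi_div_two, Real.sin_pi_div_two]
    simp
  obtain ⟨w, hw, hw2, hwc⟩ : ∃ w : ℂ, (∃ θ : ℝ, w = Complex.exp (Complex.I * θ)) ∧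
      w ^ 2 = Complex.I ∧ w * (starRingEnd ℂ) w = 1 := by
    refine ⟨Complex.exp (Complex.I * ((π / 4 : ℝ) : ℂ)), ⟨_, rfl⟩, ?_, ?_⟩
    · calc Complex.exp (Complex.I * ((π / 4 : ℝ) : ℂ)) ^ 2
          = Complex.exp ((2 : ℕ) * (Complex.I * ((π / 4 : ℝ) : ℂ))) := by
            rw [Complex.exp_nat_mul]
        _ = Complex.exp (Complex.I * ((π / 2 : ℝ) : ℂ)) := by
            congr 1; push_cast; ring
        _ = Complex.I := u3
    · rw [Complex.mul_conj, Complex.normSq_eq_norm_sq, mul_comm Complex.I,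
        Complex.norm_exp_ofReal_mul_I]
      simp
  have hmulexp : ∀ x : ℝ, ∃ θ : ℝ, w * Complex.exp (Complex.I * x) = Complex.exp (Complex.I * θ) := by
    intro x
    obtain ⟨θ, hθ⟩ := hw
    refine ⟨θ + x, ?_⟩
    rw [hθ, ← Complex.exp_add]
    congr 1; push_cast; ring
  have k1 := key 1 1 ⟨0, u1.symm⟩ (by simp)
  have k2 := key (-1) (-1) ⟨π, u2.symm⟩ (by simp)
  have k3 := key Complex.I (-Complex.I) ⟨_, u3.symm⟩ (by simp)
  have k4 := key (-Complex.I) Complex.I ⟨_, u4.symm⟩ (by simp)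
  set wb := (starRingEnd ℂ) w with hwb
  have m1 := key w wb hw hwb
  have m2 := key (-w) (-wb) (by
    obtain ⟨θ, hθ⟩ := hmulexp π
    exact ⟨θ, by rw [← hθ, u2]; ring⟩) (by rw [map_neg])
  have m3 := key (w * Complex.I) (-(wb * Complex.I)) (by
    obtain ⟨θ, hθ⟩ := hmulexp (π / 2)
    exact ⟨θ, by rw [← hθ, u3]⟩) (by rw [map_mul, Complex.conj_I, ← hwb]; ring)
  have m4 := key (-(w * Complex.I)) (wb * Complex.I) (by
    obtain ⟨θ, hθ⟩ := hmulexp (-(π / 2))
    exact ⟨θ, by rw [← hθ, u4]; ring⟩) (by rw [map_neg, map_mul, Complex.conj_I, ← hwb]; ring)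
  set ac := (starRingEnd ℂ) a with hac
  set dc := (starRingEnd ℂ) d with hdc
  set Ec := (starRingEnd ℂ) E with hEc
  have r1 : a * dc + ac * d = 0 := by
    have h4 : 4 * (a * dc + ac * d) = 0 := by
      linear_combination k1 + k2 - k3 - k4 - 2 * (a - d) * (ac - dc) * hI
    simpa using h4
  have r2 : a * dc - ac * d = 0 := by
    have hwb2 : wb ^ 2 = -Complex.I := by
      have := congrArg (starRingEnd ℂ) hw2
      rw [map_pow, Complex.conj_I] at this
      exact this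
    have h4 : 4 * Complex.I * (a * dc - ac * d) = 0 := by
      linear_combination m1 + m2 - m3 - m4 - 2 * (a * w - d * wb) * (ac * wb - dc * w) * hI
        - 4 * a * dc * hw2 - 4 * ac * d * hwb2
    have hI0 : (4 : ℂ) * Complex.I ≠ 0 := by simp
    exact (mul_eq_zero.1 h4).resolve_left hI0
  have r3 : a * dc = 0 := by linear_combination (1/2 : ℂ) * r1 + (1/2 : ℂ) * r2
  have hν : ν₁ ≠ 0 ∧ ν₂ ≠ 0 := by
    constructor
    · intro h0; apply hδ; rw [hδdef, hn1, h0]; simp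
    · intro h0; apply hδ; rw [hδdef, hn2, h0]; simp
  rcases mul_eq_zero.1 r3 with h0 | h0
  · have e1 : n1 * ν₂ * Y₁ = n2 * ν₁ * Y₂ := by
      have := h0; rw [ha] at this; linear_combination (-1 : ℂ) * this
    have e2 := congrArg norm e1
    simp only [norm_mul, hn1, hn2, Complex.norm_conj] at e2
    have hp : ‖ν₁‖ * ‖ν₂‖ ≠ 0 := mul_ne_zero (norm_ne_zero_iff.2 hν.1) (norm_ne_zero_iff.2 hν.2)
    apply mul_left_cancel₀ hp
    linarith
  · have h0' : d = 0 := by
      have := congrArg (starRingEnd ℂ) h0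
      simpa [hdc] using this
    rw [hd] at h0'
    have e1 : y1 - y2 = 0 := by
      have := neg_eq_zero.1 h0'
      exact (mul_eq_zero.1 this).resolve_left (mul_ne_zero hν.1 hν.2)
    have e2 : Y₁ = Y₂ := by
      have := congrArg (starRingEnd ℂ) (sub_eq_zero.1 e1)
      simpa [hy1, hy2] using this
    rw [e2]

end Pool.Agent.Helper82.SP
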