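import Pool.Agent.Helper82.SP.GoalsB

/-!
# Project SP: expansion of the determinant, B5, B4a, B1
-/

set_option autoImplicit false

namespace Pool.Agent.Helper82.SP

open Matrix Real
open Pool.Agent.Helper26.LU (V M3 SO3 nrm sph proj Bm Rot crossM)

theorem D4_expand {𝕜 : Type} [CommRing 𝕜] (p q r s : Fin 4 → 𝕜) : D4 p q r s =
    p 0 * (q 1 * (r 2 * s 3 - r 3 * s 2) - q 2 * (r 1 * s 3 - r 3 * s 1)
      + q 3 * (r 1 * s 2 - r 2 * s 1))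
    - p 1 * (q 0 * (r 2 * s 3 - r 3 * s 2) - q 2 * (r 0 * s 3 - r 3 * s 0)
      + q 3 * (r 0 * s 2 - r 2 * s 0))
    + p 2 * (q 0 * (r 1 * s 3 - r 3 * s 1) - q 1 * (r 0 * s 3 - r 3 * s 0)
      + q 3 * (r 0 * s 1 - r 1 * s 0))
    - p 3 * (q 0 * (r 1 * s 2 - r 2 * s 1) - q 1 * (r 0 * s 2 - r 2 * s 0)
      + q 2 * (r 0 * s 1 - r 1 * s 0)) := by
  unfold D4
  rw [Matrix.det_succ_column_zero, Fin.sum_univ_four]
  simp only [Matrix.det_fin_three, Matrix.submatrix_apply, Matrix.of_apply]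
  simp [Fin.succAbove, Fin.lt_def]
  ring

theorem lam_formula (κ C : Fin 4 → ℂ) (n0 n1 n2 : ℂ) :
    D4 κ (fun i => κ i * ((tt i 0 : ℂ) * n0 + (tt i 1 : ℂ) * n1 + (tt i 2 : ℂ) * n2)) C
      (fun i => C i * ((tt i 0 : ℂ) * n0 + (tt i 1 : ℂ) * n1 + (tt i 2 : ℂ) * n2)) =
    -4 * ((κ 0 * C 1 - κ 1 * C 0) * (κ 2 * C 3 - κ 3 * C 2) * n0 ^ 2
      - (κ 0 * C 2 - κ 2 * C 0) * (κ 1 * C 3 - κ 3 * C 1) * n1 ^ 2
      + (κ 0 * C 3 - κ 3 * C 0) * (κ 1 * C 2 - κ 2 * C 1) * n2 ^ 2) := by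
  rw [D4_expand]
  simp only [tt, Matrix.cons_val_zero, Matrix.cons_val_one, Matrix.cons_val]
  push_cast
  ring

theorem goalB5 : G_B5 := by
  intro κ C h1 h2
  have hI : Complex.I ^ 2 = -1 := Complex.I_sq
  have f1 := lam_formula κ C 1 Complex.I 0
  have f2 := lam_formula κ C 0 1 Complex.I
  have g1 : (fun i => κ i * ((tt i 0 : ℂ) * 1 + (tt i 1 : ℂ) * Complex.I + (tt i 2 : ℂ) * 0))
      = fun i => κ i * ((tt i 0 : ℂ) + Complex.I * (tt i 1 : ℂ)) := by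
    funext i; ring
  have g2 : (fun i => C i * ((tt i 0 : ℂ) * 1 + (tt i 1 : ℂ) * Complex.I + (tt i 2 : ℂ) * 0))
      = fun i => C i * ((tt i 0 : ℂ) + Complex.I * (tt i 1 : ℂ)) := by
    funext i; ring
  have g3 : (fun i => κ i * ((tt i 0 : ℂ) * 0 + (tt i 1 : ℂ) * 1 + (tt i 2 : ℂ) * Complex.I))
      = fun i => κ i * ((tt i 1 : ℂ) + Complex.I * (tt i 2 : ℂ)) := by
    funext i; ring
  have g4 : (fun i => C i * ((tt i 0 : ℂ) * 0 + (tt i 1 : ℂ) * 1 + (tt i 2 : ℂ) * Complex.I))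
      = fun i => C i * ((tt i 1 : ℂ) + Complex.I * (tt i 2 : ℂ)) := by
    funext i; ring
  rw [g1, g2, h1] at f1
  rw [g3, g4, h2] at f2
  set A := (κ 0 * C 1 - κ 1 * C 0) * (κ 2 * C 3 - κ 3 * C 2) with hA
  set B := (κ 0 * C 2 - κ 2 * C 0) * (κ 1 * C 3 - κ 3 * C 1) with hB
  set G := (κ 0 * C 3 - κ 3 * C 0) * (κ 1 * C 2 - κ 2 * C 1) with hG
  have hP : A - B + G = 0 := by rw [hA, hB, hG]; ring
  have e1 : A + B = 0 := by linear_combination (1/4 : ℂ) * f1 + B * hI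
  have e2 : B + G = 0 := by linear_combination (-1/4 : ℂ) * f2 + G * hI
  refine ⟨?_, ?_, ?_⟩
  · linear_combination (1/3 : ℂ) * (hP + 2 * e1 - e2)
  · linear_combination (1/3 : ℂ) * (e1 + e2 - hP)
  · linear_combination (1/3 : ℂ) * (hP - e1 + 2 * e2)

end Pool.Agent.Helper82.SP
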