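import Pool.Agent.Helper82.SP.Str

/-!
# Project SP: small spheres on an open set of rotations; pivots
-/

set_option autoImplicit false

namespace Pool.Agent.Helper82.SP

open Matrix Real
open Pool.Agent.Helper26.LU (V M3 SO3 nrm sph proj Bm Rot crossM mem_SO3 isCompact_SO3)
open Pool.Agent.Helper44.SP (key_line dot_mulVec_SO3 Qd_center)

/-- Pivoting placements on an open set of rotations. -/
theorem pivotRigid (hB17 : G_B17) (hPR : G_PR) (v : Fin 4 → V) (a : ℝ) (K : Set V) (ht : Tet v a)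
    (hc : Convex ℝ K) (hcomp : IsCompact K) (hadm : Adm v K) (c w : V) (U : Set M3)
    (hU : IsOpen U) (hne : (U ∩ (SO3 : Set M3)).Nonempty)
    (hw1 : w ∈ convexHull ℝ (Set.range v)) (hw2 : ∀ i j, w ∉ segment ℝ (v i) (v j))
    (hp : ∀ R ∈ U, R ∈ SO3 → ∀ i, c + R *ᵥ (v i - w) ∈ frontier K) :
    frontier K = {x | (x - c) ⬝ᵥ (x - c) = 3 * a ^ 2 / 8} := by
  obtain ⟨R₀, hR₀, hR₀S⟩ := hne
  have hd : ∀ i, v i - w ≠ 0 := by
    intro i h0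
    apply hw2 i i
    rw [sub_eq_zero.1 h0]
    exact left_mem_segment ℝ _ _
  obtain ⟨ε, hε, hgerm⟩ := hB17 K c (fun i => v i - w) U R₀ hd hU hR₀ hR₀S hp
  exact hPR v a K ht hc hcomp hadm c w R₀ ε hw1 hw2 hR₀S hε hgerm

/-- Planes and small spheres on an open set of rotations. -/
theorem localPieces (hB8 : G_B8) (hB10 : G_B10) (hB11a : G_B11a) (hB11d : G_B11d)
    (hLIN : G_LIN) (hTB : G_TB) (hB14 : G_B14) (hB17 : G_B17) (hPR : G_PR)
    (v : Fin 4 → V) (a : ℝ) (K : Set V) (ht : Tet v a)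
    (hc : Convex ℝ K) (hcomp : IsCompact K) (hadm : Adm v K)
    (U0 : Set M3) (hU0 : IsOpen U0) (hne0 : (U0 ∩ (SO3 : Set M3)).Nonempty)
    (n : ℕ → V) (k : ℕ → ℝ) (z : ℕ → V) (r : ℕ → ℝ) (hn : ∀ j, n j ≠ 0)
    (hr : ∀ j, r j ≤ 2 * a ^ 2 / 3)
    (hloc : ∀ R ∈ U0, R ∈ SO3 → ∃ t, ∀ i, R *ᵥ v i + t ∈ frontier K ∧
      ((∃ j, n j ⬝ᵥ (R *ᵥ v i + t) = k j) ∨
        ∃ j, (R *ᵥ v i + t - z j) ⬝ᵥ (R *ᵥ v i + t - z j) = r j)) :
    ∃ c, frontier K = {x | (x - c) ⬝ᵥ (x - c) = 3 * a ^ 2 / 8} := by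
  obtain ⟨i0, c, w, U, hU, -, hne, hp, h1, h2⟩ := localStructure hB8 hB10 hB11a hB11d hLIN hTB
    v a K ht hcomp U0 hU0 hne0 n k z r hn hloc
  have ha : 0 < a := ht.1
  have hrad : ∀ i, (v i - w) ⬝ᵥ (v i - w) ≤ 2 * a ^ 2 / 3 := by
    intro i
    by_cases hi : i = i0
    · rw [hi]
      rcases h2 with h | ⟨j, -, h⟩
      · rw [h, sub_self, zero_dotProduct]
        positivity
      · rw [h]
        exact hr j
    · obtain ⟨j, -, h⟩ := h1 i hi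
      rw [h]
      exact hr j
  obtain ⟨hw1, hw2⟩ := hB14 v a w ht hrad
  exact ⟨c, pivotRigid hB17 hPR v a K ht hc hcomp hadm c w U hU hne hw1 hw2 hp⟩

end Pool.Agent.Helper82.SP
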