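import Pool.Agent.Helper82.SP.A8

/-!
# Project SP: A12, INT, PR
-/

set_option autoImplicit false

namespace Pool.Agent.Helper82.SP

open Matrix Real Filter
open Pool.Agent.Helper26.LU (V M3 SO3 nrm sph proj Bm Rot crossM nrm_sq nrm_nonneg nrm_sph
  nrm_pos proj_sph proj_self nrm_proj nrm_add_le nrm_smul nrm_neg nrm_sub_comm abs_nrm_sub
  nrm_continuous dot_le norm_le_nrm nrm_le_norm sph_norm_le mem_SO3 SO3_left SO3_transpose
  SO3_mul dot_mulVec mulVec_sph crossM_mulVec crossM_transpose crossM_cube cross_sq Bm_SO3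
  Bm_mulVec Bm_self nrm_mulVec isCompact_SO3 isClosed_SO3)

theorem goalA12 : G_A12 := by
  intro v w hw hseg
  have hsub : convexHull ℝ (Set.range v) ⊆
      {x | ∃ b : Fin 4 → ℝ, (∀ i, 0 ≤ b i) ∧ ∑ i, b i = 1 ∧ ∑ i, b i • v i = x} := by
    apply convexHull_min
    · rintro _ ⟨i, rfl⟩
      refine ⟨fun j => if j = i then 1 else 0, fun j => ?_, by simp, by simp⟩
      show (0 : ℝ) ≤ if j = i then 1 else 0
      split_ifs <;> norm_num
    · rintro x ⟨b, hb0, hb1, hbx⟩ y ⟨d, hd0, hd1, hdy⟩ s t hs ht hst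
      refine ⟨fun j => s * b j + t * d j, fun j => ?_, ?_, ?_⟩
      · have := hb0 j
        have := hd0 j
        positivity
      · rw [Finset.sum_add_distrib, ← Finset.mul_sum, ← Finset.mul_sum, hb1, hd1, mul_one, mul_one, hst]
      · simp only [add_smul, mul_smul, Finset.sum_add_distrib, ← Finset.smul_sum, hbx, hdy]
  obtain ⟨b, hb0, hb1, hbw⟩ := hsub hw
  have hne : ∀ i, v i ≠ w := by
    intro i h0
    exact hseg i i (h0 ▸ left_mem_segment ℝ _ _)
  have hpos : ∀ i, 0 < nrm (v i - w) := fun i => nrm_pos (sub_ne_zero.2 (hne i))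
  refine ⟨b, fun i => nrm (v i - w), fun i => proj (v i - w), hb0, hb1, ?_, hpos,
    fun i => proj_sph (sub_ne_zero.2 (hne i)), fun i => ?_, ?_⟩
  · intro i j
    by_contra hcon
    push Not at hcon
    have hz : ∀ k, k ≠ i → k ≠ j → b k = 0 := fun k hki hkj => le_antisymm (hcon k hki hkj) (hb0 k)
    by_cases hij : i = j
    · subst hij
      have e1 : ∑ k, b k = b i := Finset.sum_eq_single i (fun k _ hk => hz k hk hk) (by simp)
      have e2 : ∑ k, b k • v k = b i • v i := Finset.sum_eq_single i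
        (fun k _ hk => by rw [hz k hk hk, zero_smul]) (by simp)
      rw [e1] at hb1
      rw [e2, hb1, one_smul] at hbw
      exact hne i hbw
    · have e1 : ∑ k, b k = b i + b j := by
        rw [← Finset.sum_subset (Finset.subset_univ {i, j}), Finset.sum_pair hij]
        intro k _ hk
        simp only [Finset.mem_insert, Finset.mem_singleton, not_or] at hk
        exact hz k hk.1 hk.2
      have e2 : ∑ k, b k • v k = b i • v i + b j • v j := by
        rw [← Finset.sum_subset (Finset.subset_univ {i, j}), Finset.sum_pair hij]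
        intro k _ hk
        simp only [Finset.mem_insert, Finset.mem_singleton, not_or] at hk
        rw [hz k hk.1 hk.2, zero_smul]
      exact hseg i j ⟨b i, b j, hb0 i, hb0 j, by rw [← e1, hb1], by rw [← e2, hbw]⟩
  · rw [nrm_proj _ (sub_ne_zero.2 (hne i))]; abel
  · have e1 : ∀ i, (b i * nrm (v i - w)) • proj (v i - w) = b i • (v i - w) := by
      intro i
      rw [mul_smul, nrm_proj _ (sub_ne_zero.2 (hne i))]
    rw [Finset.sum_congr rfl fun i _ => e1 i]
    simp only [smul_sub, Finset.sum_sub_distrib]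
    rw [hbw, ← Finset.sum_smul, hb1, one_smul, sub_self]

theorem goalINT (hTB : G_TB) : G_INT := by
  intro v a K ht hc hcomp hadm
  obtain ⟨h1, h2, h3, -⟩ := hTB v a ht
  obtain ⟨t, htf⟩ := hadm 1 (one_mem _)
  have ha : 0 < a := ht.1
  have htK : ∀ i, v i + t ∈ K := fun i => by
    have := hcomp.isClosed.frontier_subset (htf i)
    rwa [Matrix.one_mulVec] at this
  have hcont : ∀ i, Continuous fun x : V => bc v a x i := fun i => by
    unfold bc; fun_prop
  have hg : ∀ i, bc v a (gv v) i = 1 / 4 := fun i => by simp [bc]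
  have hopen : IsOpen {x : V | ∀ i, 0 < bc v a x i} := by
    have : {x : V | ∀ i, 0 < bc v a x i} = ⋂ i, {x : V | 0 < bc v a x i} := by
      ext x; simp
    rw [this]
    exact isOpen_iInter_of_finite fun i => isOpen_lt continuous_const (hcont i)
  have hopen2 : IsOpen {y : V | ∀ i, 0 < bc v a (y - t) i} :=
    hopen.preimage (continuous_id.sub continuous_const)
  refine ⟨gv v + t, ?_⟩
  refine interior_maximal (t := {y : V | ∀ i, 0 < bc v a (y - t) i}) ?_ hopen2 ?_
  · intro y hy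
    have e1 : y = ∑ i, bc v a (y - t) i • (v i + t) := by
      simp only [smul_add, Finset.sum_add_distrib]
      rw [h2, ← Finset.sum_smul, h1, one_smul]; abel
    rw [e1]
    exact hc.sum_mem (fun i _ => (hy i).le) (h1 _) fun i _ => htK i
  · intro i
    rw [add_sub_cancel_right, hg]; norm_num

theorem goalPR (hINT : G_INT) (hA10 : G_A10) (hA11 : G_A11) (hA12 : G_A12) (hA13 : G_A13) :
    G_PR := by
  intro v a K ht hc hcomp hadm c w R₀ ε hw hseg hR₀ hε h
  have hK : Body K := ⟨hc, hcomp, hINT v a K ht hc hcomp hadm⟩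
  obtain ⟨b, ρ, u, hp⟩ := hA12 v w hw hseg
  have hvw : ∀ i, v i - w = ρ i • u i := fun i => by rw [hp.eq i]; abel
  have hop : ∀ i, R₀ *ᵥ u i ∈ Op K c (ρ i) := by
    intro i
    have hρ := hp.pos i
    refine ⟨mulVec_sph hR₀ (hp.unit i), Real.sqrt ε / ρ i, div_pos (Real.sqrt_pos.2 hε) hρ, ?_⟩
    intro u' hu' hn
    apply h i
    · rw [hvw i, smul_dotProduct, dotProduct_smul, smul_dotProduct, dotProduct_smul]
      have h1 : u' ⬝ᵥ u' = 1 := hu'
      have h2 : u i ⬝ᵥ u i = 1 := hp.unit i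
      rw [h1, h2]
    · have h1 : ρ i • u' - R₀ *ᵥ (v i - w) = ρ i • (u' - R₀ *ᵥ u i) := by
        rw [hvw i, Matrix.mulVec_smul, smul_sub]
      rw [h1, ← nrm_sq, nrm_smul, abs_of_pos hρ]
      rw [lt_div_iff₀ hρ] at hn
      have h2 := nrm_nonneg (u' - R₀ *ᵥ u i)
      have h3 : (ρ i * nrm (u' - R₀ *ᵥ u i)) ^ 2 < Real.sqrt ε ^ 2 := by
        have : 0 ≤ ρ i * nrm (u' - R₀ *ᵥ u i) := by positivity
        apply pow_lt_pow_left₀ _ this two_ne_zero
        linarith
      rwa [Real.sq_sqrt hε.le] at h3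
  have hall := hA10 v a w b ρ u K c ht hp hK hadm R₀ hR₀ hop
  have hfr : ∀ i, frontier K = {x | (x - c) ⬝ᵥ (x - c) = ρ i ^ 2} := fun i =>
    hA11 K c (ρ i) hK (hp.pos i) (hall i)
  have hρeq : ∀ i j, ρ i = ρ j := by
    intro i j
    have h1 : c + ρ i • u 0 ∈ frontier K := by
      rw [hfr i]
      show (c + ρ i • u 0 - c) ⬝ᵥ (c + ρ i • u 0 - c) = ρ i ^ 2
      have h2 : u 0 ⬝ᵥ u 0 = 1 := hp.unit 0
      rw [add_sub_cancel_left, smul_dotProduct, dotProduct_smul, h2]
      simp [pow_two]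
    rw [hfr j] at h1
    have h3 : (c + ρ i • u 0 - c) ⬝ᵥ (c + ρ i • u 0 - c) = ρ j ^ 2 := h1
    have h2 : u 0 ⬝ᵥ u 0 = 1 := hp.unit 0
    rw [add_sub_cancel_left, smul_dotProduct, dotProduct_smul, h2] at h3
    simp only [smul_eq_mul, mul_one] at h3
    have h4 : ρ i ^ 2 = ρ j ^ 2 := by rw [← h3]; ring
    exact (pow_left_inj₀ (hp.pos i).le (hp.pos j).le two_ne_zero).1 h4
  rw [hfr 0, hA13 v a w b ρ u ht hp hρeq 0]

end Pool.Agent.Helper82.SP
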