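import Pool.Agent.Helper82.SP.B4a
import Pool.Agent.Helper82.SP.B5
import Pool.Agent.Helper82.SP.B9
import Pool.Agent.Helper82.SP.B11c
import Pool.Agent.Helper82.SP.A8
import Pool.Agent.Helper82.SP.PR
import Pool.Agent.Helper82.SP.LP
import Pool.Agent.Helper13.SP.B8
import Pool.Agent.Helper27.SP.B2
import Pool.Agent.Helper30.SP.B11b
import Pool.Agent.Helper43.SP.HBC
import Pool.Agent.Helper53.SP.B11a
import Pool.Agent.Helper72.SP.HBF
import Pool.Agent.Helper78.SP.B17
import Pool.Agent.Helper85.SP.B11d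
import Pool.Agent.Helper86.SP.LIN
import Pool.Agent.Helper89.SP.HBS
import Pool.Agent.Helper95.SP.HBM
import Pool.Agent.Helper96.SP.EXT

/-!
# Project SP: assembly
-/

set_option autoImplicit false

namespace Pool.Agent.Helper82.SP

theorem factTB : G_TB := goalTB goalNF

theorem factEXT : G_EXT := Pool.Agent.Helper96.SP.goalEXT Pool.Agent.Helper27.SP.goalB2

theorem factLIN : G_LIN := Pool.Agent.Helper86.SP.LIN.goalLIN factEXT

theorem factB8 : G_B8 := Pool.Agent.Helper13.SP.goalB8 factEXT

theorem factB10 : G_B10 := goalB10 goalB9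

theorem factB11a : G_B11a := Pool.Agent.Helper53.SP.goalB11a factTB factLIN

theorem factB11d : G_B11d :=
  Pool.Agent.Helper85.SP.goalB11d goalNF (Pool.Agent.Helper30.SP.goalB11b factEXT) goalB11c

theorem factB14 : G_B14 := goalB14 factTB

theorem factB17 : G_B17 := Pool.Agent.Helper78.SP.goalB17

theorem factPR : G_PR := by
  have hA2 := goalA2 goalA1
  have hA3 := goalA3 goalA1 hA2
  have hA4 := goalA4 hA2 hA3 (goalA4a factTB)
  have hA8 := goalA8 hA4 goalA6 goalA5 goalA7
  have hA9b := goalA9b goalA7 goalAX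
  have hA9 := goalA9 goalA7 hA9b goalAX
  have hA10 := goalA10 goalA5 goalA7 hA8 hA9 hA9b (goalA10a factTB)
  exact goalPR (goalINT factTB) hA10 (goalA11 goalA1) goalA12 (goalA13 factTB)

theorem factHBF : G_HBF := Pool.Agent.Helper72.SP.goalHBF

theorem factHBS : G_HBS := Pool.Agent.Helper89.SP.goalHBS factHBF

theorem factHBC : G_HBC := Pool.Agent.Helper43.SP.goalHBC factHBF factTB

theorem factHBM : G_HBM := Pool.Agent.Helper95.SP.goalHBM factHBC

end Pool.Agent.Helper82.SP

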