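import Pool.Agent.Helper82.SP.GoalsB

/-!
# Project SP: B16
-/

set_option autoImplicit false

namespace Pool.Agent.Helper82.SP

open Matrix Real Filter
open Pool.Agent.Helper26.LU (V M3 SO3 nrm sph proj Bm Rot crossM)

theorem goalB16 (hB8 : G_B8) (hB10 : G_B10) (hB11a : G_B11a) (hB11d : G_B11d) (hB12 : G_B12)
    (hB13 : G_B13) (hB14 : G_B14) (hB15 : G_B15) (hB17 : G_B17) (hINT : G_INT) (hPR : G_PR) :
    G_B16 := by
  intro v a K ht hc hcomp hadm n k z r hn hr hcov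
  have hK : Body K := ⟨hc, hcomp, hINT v a K ht hc hcomp hadm⟩
  let κ : ℕ ⊕ ℕ → ℝ := Sum.elim (fun _ => 0) (fun _ => 1)
  let b : ℕ ⊕ ℕ → V := Sum.elim (fun j => (-(1 / 2) : ℝ) • n j) z
  let g : ℕ ⊕ ℕ → ℝ := Sum.elim (fun j => -k j) (fun j => z j ⬝ᵥ z j - r j)
  have hcov' : ∀ x ∈ frontier K, ∃ j, Qd (κ j) (b j) (g j) x = 0 := by
    intro x hx
    rcases hcov hx with h | h
    · obtain ⟨j, hj⟩ := Set.mem_iUnion.1 h
      have hj' : n j ⬝ᵥ x = k j := hj
      refine ⟨Sum.inl j, ?_⟩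
      simp only [κ, b, g, Sum.elim_inl, Qd, smul_dotProduct, smul_eq_mul]
      rw [hj']; ring
    · obtain ⟨j, hj⟩ := Set.mem_iUnion.1 h
      have hj' : (x - z j) ⬝ᵥ (x - z j) = r j := hj
      refine ⟨Sum.inr j, ?_⟩
      simp only [κ, b, g, Sum.elim_inr, Qd]
      rw [sub_dotProduct, dotProduct_sub, dotProduct_sub, dotProduct_comm x (z j)] at hj'
      linarith
  have htype : ∀ j, κ j = 0 ∧ b j ≠ 0 ∨ κ j = 1 ∧ b j ⬝ᵥ b j - g j ≤ 2 * a ^ 2 / 3 := by
    rintro (j | j)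
    · left
      refine ⟨rfl, ?_⟩
      show (-(1 / 2) : ℝ) • n j ≠ 0
      exact smul_ne_zero (by norm_num) (hn j)
    · right
      refine ⟨rfl, ?_⟩
      show z j ⬝ᵥ z j - (z j ⬝ᵥ z j - r j) ≤ 2 * a ^ 2 / 3
      linarith [hr j]
  obtain ⟨J, U, hU, hUne, hfull⟩ := hB15 v K (ℕ ⊕ ℕ) κ b g hcomp hadm hcov'
  have hκ2 : ∀ i, κ (J i) = 0 ∧ b (J i) ≠ 0 ∨
      κ (J i) = 1 ∧ b (J i) ⬝ᵥ b (J i) - g (J i) ≤ 2 * a ^ 2 / 3 := fun i => htype (J i)
  have hκ1 : ∀ i, κ (J i) = 0 ∧ b (J i) ≠ 0 ∨ κ (J i) = 1 := fun i =>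
    (hκ2 i).imp id fun h => h.1
  have hQ : ∀ R ∈ U, R ∈ SO3 → ∃ t, ∀ i, Qd (κ (J i)) (b (J i)) (g (J i)) (R *ᵥ v i + t) = 0 := by
    intro R hR hRS
    obtain ⟨t, h⟩ := hfull R hR hRS
    exact ⟨t, fun i => (h i).2⟩
  have hprod := hB8 v a (fun i => κ (J i)) (fun i => b (J i)) (fun i => g (J i)) U ht hU hUne hQ
  obtain ⟨i0, hcase⟩ := hB10 (fun i => κ (J i)) (fun i => b (J i)) hκ1 hprod
  have hplane : ∀ i, κ (J i) = 0 → ∀ x, Qd (κ (J i)) (b (J i)) (g (J i)) x = 0 →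
      b (J i) ⬝ᵥ x = g (J i) / 2 := by
    intro i hi x hx
    rw [hi] at hx
    simp only [Qd] at hx
    linarith
  have hbne : ∀ i, κ (J i) = 0 → b (J i) ≠ 0 := by
    intro i hi
    rcases hκ1 i with h | h
    · exact h.2
    · rw [hi] at h; norm_num at h
  rcases hcase with hpl | ⟨c, hconc⟩
  · exfalso
    -- a relation supported on planes is trivial
    have hrel : ∀ μ : Fin 4 → ℝ, (∀ i, μ i ≠ 0 → κ (J i) = 0) → ∑ i, μ i • b (J i) = 0 → μ = 0 := by
      intro μ hμ hsum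
      apply hB11a v a (fun i => b (J i)) (fun i => g (J i) / 2) μ U ht hU hUne
      · intro R hR hRS
        obtain ⟨t, h⟩ := hQ R hR hRS
        exact ⟨t, fun i hi => hplane i (hμ i hi) _ (h i)⟩
      · exact hsum
      · exact fun i hi => hbne i (hμ i hi)
    rcases hκ1 i0 with h0 | h1
    · obtain ⟨μ, hμ0, hμ⟩ := Pool.Agent.Helper71.Tet.exists_rel fun i => b (J i)
      apply hμ0
      apply hrel μ
      · intro i _
        by_cases hi : i = i0
        · rw [hi]; exact h0.1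
        · exact hpl i hi
      · ext m
        simpa [Finset.sum_apply] using hμ m
    · apply hB11d v a (fun i => b (J i)) (fun i => g (J i) / 2) (b (J i0))
        (b (J i0) ⬝ᵥ b (J i0) - g (J i0)) i0 U ht hU hUne
      · intro μ hμ0 hsum
        apply hrel μ _ hsum
        intro i hi
        have : i ≠ i0 := by
          rintro rfl
          exact hi hμ0
        exact hpl i this
      · intro R hR hRS
        obtain ⟨t, h⟩ := hQ R hR hRS
        refine ⟨t, fun i hi => hplane i (hpl i hi) _ (h i), ?_⟩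
        have h2 := h i0
        rw [h1] at h2
        simp only [Qd] at h2
        rw [sub_dotProduct, dotProduct_sub, dotProduct_sub,
          dotProduct_comm (R *ᵥ v i0 + t) (b (J i0))]
        linarith
  · obtain ⟨w, U', hU', hU'ne, hU'full⟩ := hB12 v a K (fun i => κ (J i)) (fun i => b (J i))
      (fun i => g (J i)) U i0 c ht hconc hU hUne hfull
    have hrad := hB13 v a (fun i => κ (J i)) (fun i => b (J i)) (fun i => g (J i)) U' i0 c w
      hκ2 hconc hU' hU'ne fun R hR hRS i => (hU'full R hR hRS i).2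
    obtain ⟨hw1, hw2⟩ := hB14 v a w ht hrad
    obtain ⟨R₀, hR₀, hR₀S⟩ := hU'ne
    have hd : ∀ i, v i - w ≠ 0 := by
      intro i h0
      apply hw2 i i
      rw [sub_eq_zero.1 h0]
      exact left_mem_segment ℝ _ _
    obtain ⟨ε, hε, hgerm⟩ := hB17 K c (fun i => v i - w) U' R₀ hd hU' hR₀ hR₀S
      fun R hR hRS i => (hU'full R hR hRS i).1
    exact ⟨c, hPR v a K ht hc hcomp hadm c w R₀ ε hw1 hw2 hR₀S hε hgerm⟩

end Pool.Agent.Helper82.SP
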