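import Pool.Agent.Helper82.SP.B4a

/-!
# Project SP: B4
-/

set_option autoImplicit false

namespace Pool.Agent.Helper82.SP

open Matrix Real
open Pool.Agent.Helper26.LU (V M3 SO3 nrm sph proj Bm Rot crossM)

theorem D4_cast (p q r s : Fin 4 → ℝ) : ((D4 p q r s : ℝ) : ℂ)
    = D4 (fun i => (p i : ℂ)) (fun i => (q i : ℂ)) (fun i => (r i : ℂ)) (fun i => (s i : ℂ)) := by
  rw [D4_expand, D4_expand]
  push_cast
  ring

theorem D4_smul (p q r s : Fin 4 → ℂ) (a b c d : ℂ) :
    D4 (a • p) (b • q) (c • r) (d • s) = a * b * c * d * D4 p q r s := by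
  rw [D4_expand, D4_expand]
  simp only [Pi.smul_apply, smul_eq_mul]
  ring

/-- The scaled polynomial. -/
noncomputable def Pf (K y yb β C ga Z : Fin 4 → ℂ) (u : ℂ) : ℂ :=
  D4 K (fun i => K i * y i - β i * u) (fun i => K i * u * yb i - C i)
      (fun i => C i * y i + β i * yb i * u ^ 2 + ga i * u) ^ 2
    + 4 * u * (D4 K (fun i => K i * y i - β i * u)
        (fun i => C i * y i + β i * yb i * u ^ 2 + ga i * u) Z *
      D4 K (fun i => C i * y i + β i * yb i * u ^ 2 + ga i * u)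
        (fun i => K i * u * yb i - C i) Z
      - D4 (fun i => C i * y i + β i * yb i * u ^ 2 + ga i * u)
        (fun i => K i * y i - β i * u) (fun i => K i * u * yb i - C i) Z *
      D4 K (fun i => K i * y i - β i * u) (fun i => K i * u * yb i - C i) Z)

theorem D4_diff {p q r s : ℂ → Fin 4 → ℂ} (hp : ∀ i, Differentiable ℂ fun u => p u i)
    (hq : ∀ i, Differentiable ℂ fun u => q u i) (hr : ∀ i, Differentiable ℂ fun u => r u i)
    (hs : ∀ i, Differentiable ℂ fun u => s u i) :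
    Differentiable ℂ fun u => D4 (p u) (q u) (r u) (s u) := by
  have p0 := hp 0
  have p1 := hp 1
  have p2 := hp 2
  have p3 := hp 3
  have q0 := hq 0
  have q1 := hq 1
  have q2 := hq 2
  have q3 := hq 3
  have r0 := hr 0
  have r1 := hr 1
  have r2 := hr 2
  have r3 := hr 3
  have s0 := hs 0
  have s1 := hs 1
  have s2 := hs 2
  have s3 := hs 3
  simp only [D4_expand]
  fun_prop

theorem Pf_diff (K y yb β C ga Z : Fin 4 → ℂ) : Differentiable ℂ (Pf K y yb β C ga Z) := by
  have hK : ∀ i : Fin 4, Differentiable ℂ fun _ : ℂ => K i := fun i => by fun_prop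
  have hZ : ∀ i : Fin 4, Differentiable ℂ fun _ : ℂ => Z i := fun i => by fun_prop
  have hY : ∀ i : Fin 4, Differentiable ℂ fun u : ℂ => K i * y i - β i * u := fun i => by fun_prop
  have hW : ∀ i : Fin 4, Differentiable ℂ fun u : ℂ => K i * u * yb i - C i := fun i => by fun_prop
  have hG : ∀ i : Fin 4, Differentiable ℂ fun u : ℂ =>
      C i * y i + β i * yb i * u ^ 2 + ga i * u := fun i => by fun_prop
  unfold Pf
  have d1 := D4_diff (p := fun _ => K) (q := fun u i => K i * y i - β i * u)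
    (r := fun u i => K i * u * yb i - C i)
    (s := fun u i => C i * y i + β i * yb i * u ^ 2 + ga i * u) hK hY hW hG
  have d2 := D4_diff (p := fun _ => K) (q := fun u i => K i * y i - β i * u)
    (r := fun u i => C i * y i + β i * yb i * u ^ 2 + ga i * u)
    (s := fun _ => Z) hK hY hG hZ
  have d3 := D4_diff (p := fun _ => K) (q := fun u i => C i * y i + β i * yb i * u ^ 2 + ga i * u)
    (r := fun u i => K i * u * yb i - C i)
    (s := fun _ => Z) hK hG hW hZ
  have d4 := D4_diff (p := fun u i => C i * y i + β i * yb i * u ^ 2 + ga i * u)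
    (q := fun u i => K i * y i - β i * u)
    (r := fun u i => K i * u * yb i - C i)
    (s := fun _ => Z) hG hY hW hZ
  have d5 := D4_diff (p := fun _ => K) (q := fun u i => K i * y i - β i * u)
    (r := fun u i => K i * u * yb i - C i)
    (s := fun _ => Z) hK hY hW hZ
  exact (d1.pow 2).add (((differentiable_const _).mul differentiable_id).mul
    ((d2.mul d3).sub (d4.mul d5)))

theorem Pf_zero (K y yb β C ga Z : Fin 4 → ℂ) : Pf K y yb β C ga Z 0
    = D4 K (fun i => K i * y i) C (fun i => C i * y i) ^ 2 := by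
  unfold Pf
  have : D4 K (fun i => K i * y i - β i * 0) (fun i => K i * 0 * yb i - C i)
      (fun i => C i * y i + β i * yb i * 0 ^ 2 + ga i * 0)
      = - D4 K (fun i => K i * y i) C (fun i => C i * y i) := by
    rw [D4_expand, D4_expand]
    ring
  rw [this]
  ring

theorem goalB4 : G_B4 := by
  intro κ b g z h
  set K : Fin 4 → ℂ := fun i => (κ i : ℂ) with hK
  set y : Fin 4 → ℂ := fun i => (z i 0 : ℂ) + Complex.I * (z i 1 : ℂ) with hy
  set yb : Fin 4 → ℂ := fun i => (z i 0 : ℂ) - Complex.I * (z i 1 : ℂ) with hyb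
  set β : Fin 4 → ℂ := fun i => (b i 0 : ℂ) + Complex.I * (b i 1 : ℂ) with hβ
  set C : Fin 4 → ℂ := fun i => cm (b i) with hC
  set ga : Fin 4 → ℂ := fun i => ((2 * (b i 2 * z i 2) - g i - κ i * (z i ⬝ᵥ z i) : ℝ) : ℂ) with hga
  set Z : Fin 4 → ℂ := fun i => ((κ i * z i 2 - b i 2 : ℝ) : ℂ) with hZ
  have hI : Complex.I ^ 2 = -1 := Complex.I_sq
  have hP : ∀ θ : ℝ, Pf K y yb β C ga Z (Complex.exp (-(θ : ℂ) * Complex.I)) = 0 := by
    intro θ
    set u := Complex.exp (-(θ : ℂ) * Complex.I) with hu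
    set w := Complex.exp ((θ : ℂ) * Complex.I) with hw
    have huw : w * u = 1 := by
      rw [hu, hw, ← Complex.exp_add]; simp
    have hwc : w = Complex.cos θ + Complex.sin θ * Complex.I := Complex.exp_mul_I _
    have huc : u = Complex.cos θ - Complex.sin θ * Complex.I := by
      rw [hu, Complex.exp_mul_I]; simp [sub_eq_add_neg]
    set zz : Fin 4 → V := fun i => Rot θ *ᵥ z i with hzz
    have z0 : ∀ i, zz i 0 = cos θ * z i 0 - sin θ * z i 1 := by
      intro i; simp [hzz, Rot, Matrix.mulVec, dotProduct, Fin.sum_univ_three]; ring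
    have z1 : ∀ i, zz i 1 = sin θ * z i 0 + cos θ * z i 1 := by
      intro i; simp [hzz, Rot, Matrix.mulVec, dotProduct, Fin.sum_univ_three]
    have z2 : ∀ i, zz i 2 = z i 2 := by
      intro i; simp [hzz, Rot, Matrix.mulVec, dotProduct, Fin.sum_univ_three]
    have zs : ∀ i, zz i ⬝ᵥ zz i = z i ⬝ᵥ z i := fun i =>
      Pool.Agent.Helper26.LU.dot_mulVec (Pool.Agent.Helper26.LU.Rot_SO3 θ) _ _
    have hd := h θ
    have hdc : ((dI κ b g zz : ℝ) : ℂ) = 0 := by rw [hzz, hd]; simp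
    -- the columns
    have cp : (fun i => ((cX κ b zz 0 i : ℝ) : ℂ)) + Complex.I • (fun i => ((cX κ b zz 1 i : ℝ) : ℂ))
        = (2 * w) • fun i => K i * y i - β i * u := by
      funext i
      simp only [Pi.add_apply, Pi.smul_apply, smul_eq_mul, cX, z0, z1, hK, hy, hβ]
      push_cast
      linear_combination (2 * (b i 0 + Complex.I * b i 1 : ℂ)) * huw
        - 2 * (κ i : ℂ) * ((z i 0 : ℂ) + Complex.I * (z i 1 : ℂ)) * hwc
        - 2 * (κ i : ℂ) * (Complex.sin θ) * (z i 1 : ℂ) * hI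
    have cq : (fun i => ((cX κ b zz 0 i : ℝ) : ℂ)) - Complex.I • (fun i => ((cX κ b zz 1 i : ℝ) : ℂ))
        = (2 : ℂ) • fun i => K i * u * yb i - C i := by
      funext i
      simp only [Pi.sub_apply, Pi.smul_apply, smul_eq_mul, cX, z0, z1, hK, hyb, hC, cm]
      push_cast
      linear_combination (-2) * (κ i : ℂ) * ((z i 0 : ℂ) - Complex.I * (z i 1 : ℂ)) * huc
        - 2 * (κ i : ℂ) * (Complex.sin θ) * (z i 1 : ℂ) * hI
    have c2 : (fun i => ((cX κ b zz 2 i : ℝ) : ℂ)) = (2 : ℂ) • Z := by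
      funext i
      simp only [Pi.smul_apply, smul_eq_mul, cX, z2, hZ]
      push_cast
      ring
    have ch : (fun i => ((cH κ b g zz i : ℝ) : ℂ))
        = w • fun i => C i * y i + β i * yb i * u ^ 2 + ga i * u := by
      funext i
      simp only [Pi.smul_apply, smul_eq_mul, cH, zs, hga, hC, hy, hyb, hβ, cm]
      have : b i ⬝ᵥ zz i = b i 0 * (cos θ * z i 0 - sin θ * z i 1)
          + b i 1 * (sin θ * z i 0 + cos θ * z i 1) + b i 2 * z i 2 := by
        simp only [dotProduct, Fin.sum_univ_three, z0, z1, z2]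
      rw [this]
      push_cast
      linear_combination
        (-(((b i 0 : ℂ) - Complex.I * (b i 1 : ℂ)) * ((z i 0 : ℂ) + Complex.I * (z i 1 : ℂ)))) * hwc
        - (((b i 0 : ℂ) + Complex.I * (b i 1 : ℂ)) * ((z i 0 : ℂ) - Complex.I * (z i 1 : ℂ))) * huc
        - (((b i 0 : ℂ) + Complex.I * (b i 1 : ℂ)) * ((z i 0 : ℂ) - Complex.I * (z i 1 : ℂ)) * u
          + (2 * ((b i 2 : ℂ) * (z i 2 : ℂ)) - (g i : ℂ) - (κ i : ℂ) * ((z i ⬝ᵥ z i : ℝ) : ℂ))) * huw
        + (2 * Complex.cos (θ : ℂ) * (b i 1 : ℂ) * (z i 1 : ℂ)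
          - 2 * Complex.sin (θ : ℂ) * ((b i 0 : ℂ) * (z i 1 : ℂ) - (b i 1 : ℂ) * (z i 0 : ℂ))) * hI
    have key := goalB4a K (fun i => ((cX κ b zz 0 i : ℝ) : ℂ)) (fun i => ((cX κ b zz 1 i : ℝ) : ℂ))
      (fun i => ((cX κ b zz 2 i : ℝ) : ℂ)) (fun i => ((cH κ b g zz i : ℝ) : ℂ))
    have lhs : (4 : ℂ) * ((dI κ b g zz : ℝ) : ℂ) = 4 * (D4 (fun i => ((cH κ b g zz i : ℝ) : ℂ))
        (fun i => ((cX κ b zz 0 i : ℝ) : ℂ)) (fun i => ((cX κ b zz 1 i : ℝ) : ℂ))
        (fun i => ((cX κ b zz 2 i : ℝ) : ℂ)) * D4 K (fun i => ((cX κ b zz 0 i : ℝ) : ℂ))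
        (fun i => ((cX κ b zz 1 i : ℝ) : ℂ)) (fun i => ((cX κ b zz 2 i : ℝ) : ℂ))
        - D4 K (fun i => ((cH κ b g zz i : ℝ) : ℂ)) (fun i => ((cX κ b zz 1 i : ℝ) : ℂ))
          (fun i => ((cX κ b zz 2 i : ℝ) : ℂ)) ^ 2
        - D4 K (fun i => ((cX κ b zz 0 i : ℝ) : ℂ)) (fun i => ((cH κ b g zz i : ℝ) : ℂ))
          (fun i => ((cX κ b zz 2 i : ℝ) : ℂ)) ^ 2
        - D4 K (fun i => ((cX κ b zz 0 i : ℝ) : ℂ)) (fun i => ((cX κ b zz 1 i : ℝ) : ℂ))
          (fun i => ((cH κ b g zz i : ℝ) : ℂ)) ^ 2) := by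
      rw [dI]
      push_cast
      rw [D4_cast, D4_cast, D4_cast, D4_cast, D4_cast]
    rw [← lhs, hdc, cp, cq, c2, ch] at key
    have k1 := D4_smul K (fun i => K i * y i - β i * u) (fun i => K i * u * yb i - C i)
      (fun i => C i * y i + β i * yb i * u ^ 2 + ga i * u) 1 (2 * w) 2 w
    have k2 := D4_smul K (fun i => K i * y i - β i * u)
      (fun i => C i * y i + β i * yb i * u ^ 2 + ga i * u) Z 1 (2 * w) w 2
    have k3 := D4_smul K (fun i => C i * y i + β i * yb i * u ^ 2 + ga i * u)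
      (fun i => K i * u * yb i - C i) Z 1 w 2 2
    have k4 := D4_smul (fun i => C i * y i + β i * yb i * u ^ 2 + ga i * u)
      (fun i => K i * y i - β i * u) (fun i => K i * u * yb i - C i) Z w (2 * w) 2 2
    have k5 := D4_smul K (fun i => K i * y i - β i * u) (fun i => K i * u * yb i - C i) Z
      1 (2 * w) 2 2
    rw [one_smul] at k1 k2 k3 k5
    rw [k1, k2, k3, k4, k5] at key
    have hw0 : w ≠ 0 := Complex.exp_ne_zero _
    have : 16 * w ^ 4 * Pf K y yb β C ga Z u = 0 := by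
      unfold Pf
      linear_combination (-1 : ℂ) * key + (64 * w ^ 3) * (D4 K (fun i => K i * y i - β i * u)
        (fun i => C i * y i + β i * yb i * u ^ 2 + ga i * u) Z *
      D4 K (fun i => C i * y i + β i * yb i * u ^ 2 + ga i * u)
        (fun i => K i * u * yb i - C i) Z
      - D4 (fun i => C i * y i + β i * yb i * u ^ 2 + ga i * u)
        (fun i => K i * y i - β i * u) (fun i => K i * u * yb i - C i) Z *
      D4 K (fun i => K i * y i - β i * u) (fun i => K i * u * yb i - C i) Z) * huw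
    exact (mul_eq_zero.1 this).resolve_left (mul_ne_zero (by norm_num) (pow_ne_zero 4 hw0))
  have hP0 : Pf K y yb β C ga Z 0 = 0 := by
    have hb : Bornology.IsBounded (Metric.ball (0 : ℂ) 1) := Metric.isBounded_ball
    have hn : ‖Pf K y yb β C ga Z 0‖ ≤ 0 := by
      apply Complex.norm_le_of_forall_mem_frontier_norm_le (U := Metric.ball (0 : ℂ) 1) hb
        (Pf_diff K y yb β C ga Z).diffContOnCl
      · intro x hx
        rw [frontier_ball (0 : ℂ) one_ne_zero, mem_sphere_zero_iff_norm] at hx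
        obtain ⟨t, ht⟩ := (Complex.norm_eq_one_iff x).1 hx
        have := hP (-t)
        rw [show (-((-t : ℝ) : ℂ)) * Complex.I = (t : ℂ) * Complex.I by push_cast; ring, ht] at this
        rw [this]; simp
      · exact subset_closure (by simp)
    exact norm_le_zero_iff.1 hn
  rw [Pf_zero] at hP0
  exact pow_eq_zero_iff (two_ne_zero) |>.1 hP0

end Pool.Agent.Helper82.SP
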