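import Pool.Agent.Helper82.SP.B5

/-!
# Project SP: B4a, B1
-/

set_option autoImplicit false

namespace Pool.Agent.Helper82.SP

open Matrix Real
open Pool.Agent.Helper26.LU (V M3 SO3 nrm sph proj Bm Rot crossM)

theorem goalB4a : G_B4a := by
  intro K X0 X1 X2 H
  have hI : Complex.I ^ 2 = -1 := Complex.I_sq
  have t1 : D4 K (X0 + Complex.I • X1) (X0 - Complex.I • X1) H
      = -2 * Complex.I * D4 K X0 X1 H := by
    rw [D4_expand, D4_expand]
    simp only [Pi.add_apply, Pi.sub_apply, Pi.smul_apply, smul_eq_mul]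
    ring
  have t2 : D4 K (X0 + Complex.I • X1) H X2 = D4 K X0 H X2 - Complex.I * D4 K H X1 X2 := by
    rw [D4_expand, D4_expand, D4_expand]
    simp only [Pi.add_apply, Pi.smul_apply, smul_eq_mul]
    ring
  have t3 : D4 K H (X0 - Complex.I • X1) X2 = -D4 K X0 H X2 - Complex.I * D4 K H X1 X2 := by
    rw [D4_expand, D4_expand, D4_expand]
    simp only [Pi.sub_apply, Pi.smul_apply, smul_eq_mul]
    ring
  have t4 : D4 H (X0 + Complex.I • X1) (X0 - Complex.I • X1) X2
      = -2 * Complex.I * D4 H X0 X1 X2 := by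
    rw [D4_expand, D4_expand]
    simp only [Pi.add_apply, Pi.sub_apply, Pi.smul_apply, smul_eq_mul]
    ring
  have t5 : D4 K (X0 + Complex.I • X1) (X0 - Complex.I • X1) X2
      = -2 * Complex.I * D4 K X0 X1 X2 := by
    rw [D4_expand, D4_expand]
    simp only [Pi.add_apply, Pi.sub_apply, Pi.smul_apply, smul_eq_mul]
    ring
  rw [t1, t2, t3, t4, t5]
  linear_combination (-4 * D4 K X0 X1 H ^ 2 - 4 * D4 K H X1 X2 ^ 2
    + 4 * D4 H X0 X1 X2 * D4 K X0 X1 X2) * hI

theorem goalB1 : G_B1 := by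
  intro κ b g z t h
  have hH : cH κ b g z = (t ⬝ᵥ t) • κ + t 0 • cX κ b z 0 + t 1 • cX κ b z 1
      + t 2 • cX κ b z 2 := by
    funext i
    have := h i
    simp only [Qd, dotProduct, Fin.sum_univ_three, Pi.add_apply] at this
    simp only [cH, cX, dotProduct, Fin.sum_univ_three, Pi.add_apply, Pi.smul_apply, smul_eq_mul]
    linear_combination (-1 : ℝ) * this
  have e0 : D4 (cH κ b g z) (cX κ b z 0) (cX κ b z 1) (cX κ b z 2)
      = (t ⬝ᵥ t) * D4 κ (cX κ b z 0) (cX κ b z 1) (cX κ b z 2) := by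
    rw [hH, D4_expand, D4_expand]
    simp only [Pi.add_apply, Pi.smul_apply, smul_eq_mul]
    ring
  have e1 : D4 κ (cH κ b g z) (cX κ b z 1) (cX κ b z 2)
      = t 0 * D4 κ (cX κ b z 0) (cX κ b z 1) (cX κ b z 2) := by
    rw [hH, D4_expand, D4_expand]
    simp only [Pi.add_apply, Pi.smul_apply, smul_eq_mul]
    ring
  have e2 : D4 κ (cX κ b z 0) (cH κ b g z) (cX κ b z 2)
      = t 1 * D4 κ (cX κ b z 0) (cX κ b z 1) (cX κ b z 2) := by
    rw [hH, D4_expand, D4_expand]
    simp only [Pi.add_apply, Pi.smul_apply, smul_eq_mul]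
    ring
  have e3 : D4 κ (cX κ b z 0) (cX κ b z 1) (cH κ b g z)
      = t 2 * D4 κ (cX κ b z 0) (cX κ b z 1) (cX κ b z 2) := by
    rw [hH, D4_expand, D4_expand]
    simp only [Pi.add_apply, Pi.smul_apply, smul_eq_mul]
    ring
  rw [dI, e0, e1, e2, e3]
  simp only [dotProduct, Fin.sum_univ_three]
  ring

end Pool.Agent.Helper82.SP
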