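import Pool.Agent.Helper26.LU.Base2
import Pool.Agent.Helper71.TetPlanes

/-!
# Project SP (MP_db6300_gt): convex surfaces with four concentric spherical germs, definitions
-/

set_option autoImplicit false

namespace Pool.Agent.Helper82.SP

open Matrix Real
open Pool.Agent.Helper26.LU (V M3 SO3 nrm sph proj Bm Rot crossM)

/-- `v` are the vertices of a regular tetrahedron of edge `a`. -/
def Tet (v : Fin 4 → V) (a : ℝ) : Prop :=
  0 < a ∧ ∀ i j, i ≠ j → (v i - v j) ⬝ᵥ (v i - v j) = a ^ 2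

/-- The static property: for every rotation `R` a translate of the rotated tetrahedron has its
vertices on the boundary of `K`. -/
def Adm (v : Fin 4 → V) (K : Set V) : Prop :=
  ∀ R ∈ SO3, ∃ t : V, ∀ i, R *ᵥ v i + t ∈ frontier K

/-- `K` is a convex body. -/
def Body (K : Set V) : Prop := Convex ℝ K ∧ IsCompact K ∧ (interior K).Nonempty

/-- The directions near which the boundary of `K` contains the sphere of radius `r` about `c`. -/
def Op (K : Set V) (c : V) (r : ℝ) : Set V :=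
  {u | u ∈ sph ∧ ∃ δ > 0, ∀ u' ∈ sph, nrm (u' - u) < δ → c + r • u' ∈ frontier K}

/-- `w` is a point of the tetrahedron that is not on an edge (`b`: barycentric coordinates),
`v i = w + ρ i • u i` with unit vectors `u i`. -/
structure Piv (v : Fin 4 → V) (w : V) (b ρ : Fin 4 → ℝ) (u : Fin 4 → V) : Prop where
  nn : ∀ i, 0 ≤ b i
  sum : ∑ i, b i = 1
  three : ∀ i j, ∃ k, k ≠ i ∧ k ≠ j ∧ 0 < b k
  pos : ∀ i, 0 < ρ i
  unit : ∀ i, u i ∈ sph
  eq : ∀ i, v i = w + ρ i • u i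
  bal : ∑ i, (b i * ρ i) • u i = 0

/-- Euclidean distance from `x` to `C`. -/
noncomputable def dst (C : Set V) (x : V) : ℝ := sInf ((fun y => nrm (y - x)) '' C)

/-- Rotation about the unit vector `q`. -/
noncomputable def rotA (q : V) (θ : ℝ) : M3 :=
  1 + sin θ • crossM q + (1 - cos θ) • (crossM q * crossM q)

/-- Four vertices of the cube. -/
def tt : Fin 4 → V := ![![1, 1, 1], ![1, -1, -1], ![-1, 1, -1], ![-1, -1, 1]]

/-- The centre of gravity of the tetrahedron. -/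
noncomputable def gv (v : Fin 4 → V) : V := (1 / 4 : ℝ) • ∑ j, v j

/-- The barycentric coordinates of `x`. -/
noncomputable def bc (v : Fin 4 → V) (a : ℝ) (x : V) (i : Fin 4) : ℝ :=
  1 / 4 + 2 / a ^ 2 * ((x - gv v) ⬝ᵥ (v i - gv v))

/-- Equation of a plane (`κ = 0`) or of a sphere (`κ = 1`). -/
def Qd (κ : ℝ) (b : V) (g : ℝ) (x : V) : ℝ := κ * (x ⬝ᵥ x) - 2 * (b ⬝ᵥ x) + g

/-- Determinant of four columns. -/
def D4 {𝕜 : Type} [CommRing 𝕜] (p q r s : Fin 4 → 𝕜) : 𝕜 :=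
  (Matrix.of fun i : Fin 4 => ![p i, q i, r i, s i]).det

/-- Columns of the linear system for `(|t|², t)`. -/
def cX (κ : Fin 4 → ℝ) (b z : Fin 4 → V) (j : Fin 3) : Fin 4 → ℝ :=
  fun i => 2 * (κ i * z i j - b i j)

/-- Right-hand side of the linear system for `(|t|², t)`. -/
def cH (κ : Fin 4 → ℝ) (b : Fin 4 → V) (g : Fin 4 → ℝ) (z : Fin 4 → V) : Fin 4 → ℝ :=
  fun i => 2 * (b i ⬝ᵥ z i) - g i - κ i * (z i ⬝ᵥ z i)

/-- The compatibility expression: Cramer's numerators must satisfy `|t|² = t · t`. -/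
def dI (κ : Fin 4 → ℝ) (b : Fin 4 → V) (g : Fin 4 → ℝ) (z : Fin 4 → V) : ℝ :=
  D4 (cH κ b g z) (cX κ b z 0) (cX κ b z 1) (cX κ b z 2) *
      D4 κ (cX κ b z 0) (cX κ b z 1) (cX κ b z 2)
    - D4 κ (cH κ b g z) (cX κ b z 1) (cX κ b z 2) ^ 2
    - D4 κ (cX κ b z 0) (cH κ b g z) (cX κ b z 2) ^ 2
    - D4 κ (cX κ b z 0) (cX κ b z 1) (cH κ b g z) ^ 2

/-- The null functional. -/
noncomputable def cm (d : V) : ℂ := (d 0 : ℂ) - Complex.I * (d 1 : ℂ)

end Pool.Agent.Helper82.SP
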