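import Pool.Agent.Helper82.SP.Defs

/-!
# Project SP (MP_db6300_gt), goals A: patch rigidity

Every packet proves one Prop `G_...` as a theorem `goal... : G_...` in
`Pool/Agent/<You>/SP/<Name>.lean`; goals named in its proof (after: uses) are hypotheses of the
theorem (`theorem goalTB (hNF : G_NF) : G_TB := ..`). Facts of `Helper26/LU/Base.lean`,
`Base2.lean` (SO3, nrm, sph, proj, Bm, Rot) and `Helper71/TetBase.lean`, `TetPlanes.lean` are free.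
Distances are Euclidean (`nrm`), `V` carries the supremum norm (`norm_le_nrm`, `nrm_le_norm`).
-/

set_option autoImplicit false

namespace Pool.Agent.Helper82.SP

open Matrix Real
open Pool.Agent.Helper26.LU (V M3 SO3 nrm sph proj Bm Rot crossM)

/-! ## The tetrahedron -/

/-- NF. Normal form.
Proof. `Pool.Agent.Helper71.Tet.frame` (`TetBase.lean`) with `R = 1`, `t = 0`: `v i = l • (M *ᵥ tt i) + p`, `M * Mᵀ = 1`, `l > 0`, `l² = a²/8` (`tt` is `Helper71.Tet.sg`, same literal, `rfl`). `M.det = ± 1`; if `-1` use `-M`, `-l` (`det_neg`, dimension 3). -/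
def G_NF : Prop := ∀ (v : Fin 4 → V) (a : ℝ), Tet v a → ∃ (z : V) (O : M3) (l : ℝ), O ∈ SO3 ∧
  l ≠ 0 ∧ l ^ 2 = a ^ 2 / 8 ∧ ∀ i, v i = z + l • (O *ᵥ tt i)

/-- TB. Barycentric coordinates (uses NF).
Proof. With NF: `gv v = z` (`∑ tt i = 0`), `v i - gv v = l • O *ᵥ tt i`. (1) `∑ bc = 1`: `∑ (v i - gv v) = 0`. (2) `∑ bc i • v i = ∑ bc i • (v i - gv v) + gv v` and, with `y = x - gv v`, `∑ (y ⬝ᵥ (v i - gv v)) • (v i - gv v) = l² O ∑ ((Oᵀ y) ⬝ᵥ tt i) • tt i = 4 l² y = (a²/2) y` (`∑ (x ⬝ᵥ tt i) • tt i = 4 x`, by coordinates).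
(3) `(v i - gv) ⬝ᵥ (v j - gv) = l² (tt i ⬝ᵥ tt j) = (a²/8) (3 if i = j else -1)`. (4) For `∑ β = 0`: `∑_{i,j} β i β j |v i - v j|² = -2 |∑ β i v i|²` and the left side is `a² ∑_{i ≠ j} β i β j = -a² ∑ β i²`. Or from (3): `∑ β i v i = ∑ β i (v i - gv)`. -/
def G_TB : Prop := ∀ (v : Fin 4 → V) (a : ℝ), Tet v a →
  (∀ x, ∑ i, bc v a x i = 1) ∧ (∀ x, ∑ i, bc v a x i • v i = x) ∧
  (∀ i j, (v i - gv v) ⬝ᵥ (v j - gv v) = if i = j then 3 * a ^ 2 / 8 else -a ^ 2 / 8) ∧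
  ∀ β : Fin 4 → ℝ, ∑ i, β i = 0 →
    (∑ i, β i • v i) ⬝ᵥ (∑ i, β i • v i) = a ^ 2 / 2 * ∑ i, β i ^ 2

/-- INT. The interior is nonempty (uses TB).
Proof. `R = 1`: `t` with `v i + t ∈ frontier K ⊆ K` (`K` is closed). `bc v a x i` is continuous in `x` and equal to `1/4` at `x = gv v`; so for `x` near `gv v` all `bc v a x i > 0` and `x + t = ∑ bc v a x i • (v i + t) ∈ K` (convexity, TB). So `gv v + t ∈ interior K`. -/
def G_INT : Prop := ∀ (v : Fin 4 → V) (a : ℝ) (K : Set V), Tet v a → Convex ℝ K → IsCompact K →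
  Adm v K → (interior K).Nonempty

/-! ## Patches -/

/-- A1. The tangent plane of a spherical patch supports `K`.
Proof. `x₀ = c + r • u ∈ frontier K`, so `x₀ ∉ interior K`; `geometric_hahn_banach_open_point` for the open convex set `interior K` and `K = closure (interior K)` (`Convex.closure_interior_eq_closure_of_nonempty_interior`) give `n ≠ 0` with `n ⬝ᵥ x ≤ n ⬝ᵥ x₀` on `K` (every linear functional on `V` is a dot product). For unit `u'` near `u` we have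
`c + r • u' ∈ K`, so `n ⬝ᵥ u' ≤ n ⬝ᵥ u`. Let `m = n - (n ⬝ᵥ u) • u ⟂ u`. If `m ≠ 0` put `u' = cos s • u + sin s • (m / |m|)`, `s > 0` small: `n ⬝ᵥ u' = cos s (n ⬝ᵥ u) + sin s |m|`, which is `> n ⬝ᵥ u` for small `s > 0` (derivative `|m| > 0`; or `sin s |m| - (1 - cos s) |n ⬝ᵥ u| > 0`, `1 - cos s ≤ s²/2`, `sin s ≥ s/2`): contradiction. So `n = λ u`.
With `u' = cos s • u + sin s • τ`, `τ ⟂ u` a unit vector: `λ cos s ≤ λ`, so `λ ≥ 0`, and `λ ≠ 0`. Hence `u ⬝ᵥ x ≤ u ⬝ᵥ x₀ = u ⬝ᵥ c + r`. -/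
def G_A1 : Prop := ∀ (K : Set V) (c : V) (r : ℝ) (u : V), Body K → 0 < r → u ∈ Op K c r →
  ∀ x ∈ K, u ⬝ᵥ (x - c) ≤ r

/-- A2. Near a spherical patch `K` is the ball (uses A1).
Proof. `δ` from `Op`. Unit vectors `u'` with `nrm (u' - u) < δ/2` are in `Op K c r` too. Let `x` be near `c + r • u`, so `x ≠ c` and `u' = proj (x - c)` is near `u` (`proj` is continuous at `r • u ≠ 0`). If `x ∈ K`: A1 for `u'`: `nrm (x - c) = u' ⬝ᵥ (x - c) ≤ r`. Claim: if `nrm (x - c) < r` (`x` near `c + r • u`) then `x ∈ K`: take a unit vector `τ ⟂ x - c`,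
`s = √(r² - nrm (x - c)²)`, `y± = x ± s • τ`: `nrm (y± - c) = r`, and `s² ≤ 2 r (r - nrm (x - c)) ≤ 2 r nrm (x - c - r • u)` is small, so `y± = c + r • u±` with unit `u±` near `u`, `y± ∈ frontier K ⊆ K`, and `x` is their midpoint. The set of these `x` is open, so they are interior points. Hence `x ∈ frontier K` near `c + r • u` (it is in `K`) has
`nrm (x - c) = r`. -/
def G_A2 : Prop := ∀ (K : Set V) (c : V) (r : ℝ) (u : V), Body K → 0 < r → u ∈ Op K c r →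
  ∃ η > 0, ∀ x, nrm (x - (c + r • u)) < η →
    (x ∈ K → nrm (x - c) ≤ r) ∧ (x ∈ frontier K → nrm (x - c) = r)

/-- A3. Uniqueness of the placement (uses A1, A2).
Proof. `τ = t - (c - R *ᵥ w)`, `R *ᵥ v i + t = c + ρ i • R *ᵥ u i + τ`. A1 passes to the closure: `(R *ᵥ u i) ⬝ᵥ (x - c) ≤ ρ i` for `x ∈ K`; with `x = R *ᵥ v i + t`: `(R *ᵥ u i) ⬝ᵥ τ ≤ 0`. From `bal` (apply `R`): `∑ b i ρ i (R *ᵥ u i ⬝ᵥ τ) = 0`, all terms `≤ 0`, so `R *ᵥ u i ⬝ᵥ τ = 0` whenever `b i > 0`. `three i0 i0` gives `i ≠ i0` with `b i > 0`; `R *ᵥ u i ∈ Op K c (ρ i)`.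
`K` contains `x₀ = c + ρ i • R *ᵥ u i` (closure of the frontier points `c + ρ i u'`; or `Op`) and `x₀ + τ`, so `x₀ + s • τ`, `0 ≤ s ≤ 1`; for small `s > 0` A2 gives `nrm (ρ i • R *ᵥ u i + s • τ) ≤ ρ i`, i.e. `ρ i² + s² τ ⬝ᵥ τ ≤ ρ i²`, so `τ = 0`. -/
def G_A3 : Prop := ∀ (v : Fin 4 → V) (w : V) (b ρ : Fin 4 → ℝ) (u : Fin 4 → V) (K : Set V) (c : V),
  Piv v w b ρ u → Body K → ∀ R ∈ SO3, ∀ i0, (∀ i, R *ᵥ u i ∈ closure (Op K c (ρ i))) →
  (∀ i, i ≠ i0 → R *ᵥ u i ∈ Op K c (ρ i)) → ∀ t, (∀ i, R *ᵥ v i + t ∈ K) → t = c - R *ᵥ w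

/-- A4a. Three of the distances determine a small translation (uses TB).
Proof. Subtracting two of the equations: `(v i - v j) ⬝ᵥ s = 0` for `i, j ≠ i0`, so `(v i - gv v) ⬝ᵥ s = α` for all `i ≠ i0` and `(v i0 - gv v) ⬝ᵥ s = -3 α` (the sum is `0`). TB for `x = gv v + s`: `s = (2/a²) ∑ ((v i - gv) ⬝ᵥ s) • (v i - gv) = λ • n` with `n = v i0 - gv v`, `λ = -8 α/a²`; `n ⬝ᵥ n = 3 a²/8`.
Let `D = (v i - w) ⬝ᵥ n`, the same number for all `i ≠ i0` (`(v i - v j) ⬝ᵥ n = 0` by TB). The equation says `2 λ D + λ² |n|² = 0`: `λ = 0` or `λ = -2 D/|n|²`. If `D = 0` then `λ = 0`. If `D ≠ 0` take `η = 2 |D| / nrm n`. -/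
def G_A4a : Prop := ∀ (v : Fin 4 → V) (a : ℝ) (w : V) (i0 : Fin 4), Tet v a →
  ∃ η > 0, ∀ s : V, nrm s < η → (∀ i, i ≠ i0 → 2 * ((v i - w) ⬝ᵥ s) + s ⬝ᵥ s = 0) → s = 0

/-- A4. Limit rigidity: the pivoting placements stay on the surface at the boundary (uses A2, A3, A4a).
Proof. Let `p = R *ᵥ u i0` and suppose `p ∉ Op K c (ρ i0)`; `p ∈ sph`. Then there are unit `y k → p` with `c + ρ i0 • y k ∉ frontier K`. `R k = Bm p (y k) * R ∈ SO3` (`Bm_SO3`, `1 + p ⬝ᵥ y k ≠ 0` for large `k`), `R k → R` (`Bm p p = 1`, `Bm p` is continuous near `p`), `R k *ᵥ u i0 = y k` (`Bm_mulVec`). Adm: `t k`; `t k = x - R k *ᵥ v 0` with `x ∈ frontier K` is bounded.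
If `t k` does not converge to `c - R *ᵥ w` a subsequence converges to some `t ≠ c - R *ᵥ w`, with `R *ᵥ v i + t ∈ frontier K ⊆ K`, contradicting A3. So `s k = t k - (c - R k *ᵥ w) → 0`, and `R k *ᵥ v i + t k = c + ρ i • R k *ᵥ u i + s k → c + ρ i • R *ᵥ u i`; for `i ≠ i0` and large `k` A2: `nrm (ρ i • R k *ᵥ u i + s k) = ρ i`, so with `s' = (R k)ᵀ *ᵥ s k`:
`2 ((v i - w) ⬝ᵥ s') + s' ⬝ᵥ s' = 0`. A4a: `s' = 0`, so `s k = 0` for large `k`, and `R k *ᵥ v i0 + t k = c + ρ i0 • y k ∈ frontier K`, a contradiction. (Instead of sequences: `IsCompact`/filters are fine.) -/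
def G_A4 : Prop := ∀ (v : Fin 4 → V) (a : ℝ) (w : V) (b ρ : Fin 4 → ℝ) (u : Fin 4 → V) (K : Set V)
  (c : V), Tet v a → Piv v w b ρ u → Body K → Adm v K → ∀ R ∈ SO3, ∀ i0,
  R *ᵥ u i0 ∈ closure (Op K c (ρ i0)) → (∀ i, i ≠ i0 → R *ᵥ u i ∈ Op K c (ρ i)) →
  R *ᵥ u i0 ∈ Op K c (ρ i0)

/-- A5. The complement of the patches is compact.
Proof. `Op = sph ∩ G`, `G = {x | ∃ u ∈ Op, with its δ, nrm (x - u) < δ/2}` open (`nrm` is continuous); for `u' ∈ sph` with `nrm (u' - u) < δ/2` the number `δ/2` works. `sph` is compact (closed, bounded: `sph_norm_le`). Also: `Op K c r = sph ∩ G` with `G` open, stated for later use. -/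
def G_A5 : Prop := ∀ (K : Set V) (c : V) (r : ℝ), IsCompact (sph \ Op K c r) ∧
  ∃ G : Set V, IsOpen G ∧ Op K c r = sph ∩ G

/-- A6. `Bm p q` moves unit vectors by at most `|p - q|`.
Proof. `w = p × q`, `k = p ⬝ᵥ q`, `w ⬝ᵥ w = 1 - k²` (`cross_sq`). `Bm p q *ᵥ x - x = w × x + (1 + k)⁻¹ • (w × (w × x))`, the two terms are orthogonal, and `|w × (w × x)|² = |w|² |w × x|²`. So the square of the length is `|w × x|² (1 + (1 - k²)/(1 + k)²) = |w × x|² · 2/(1 + k) ≤ (1 - k²) |x|² · 2/(1 + k) = 2 (1 - k) |x|² = |p - q|² |x|²`. -/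
def G_A6 : Prop := ∀ p ∈ sph, ∀ q ∈ sph, 1 + p ⬝ᵥ q ≠ 0 → ∀ x,
  nrm (Bm p q *ᵥ x - x) ≤ nrm (p - q) * nrm x

/-- A7. The distance function.
Proof. `y ↦ nrm (y - x)` is continuous on the compact `C` (`nrm_continuous`), attains its minimum; the set `{nrm (y - x)}` is bounded below by `0` (`csInf_le`, `le_csInf`). Lipschitz: triangle inequality `nrm_add_le`. -/
def G_A7 : Prop := ∀ C : Set V, IsCompact C → C.Nonempty →
  (∀ x, ∃ a ∈ C, nrm (a - x) = dst C x) ∧ (∀ x, ∀ y ∈ C, dst C x ≤ nrm (y - x)) ∧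
  ∀ x y, |dst C x - dst C y| ≤ nrm (x - y)

/-- A8. No strict minimum (uses A4, A5, A6, A7).
Proof. Suppose that for every `j ≠ i` with `C j := sph \ Op K c (ρ j)` nonempty `dst (C i) (R u i) < dst (C j) (R u j)`. Let `p = R *ᵥ u i`, `a ∈ C i` nearest to `p` (A7), `d = nrm (a - p) < 2`, so `a ≠ -p`, `1 + p ⬝ᵥ a ≠ 0` (`|a - p|² = 2 - 2 p ⬝ᵥ a < 4`). `R' = Bm p a * R ∈ SO3`, `R' *ᵥ u i = a`. For `j ≠ i`:
`nrm (R' *ᵥ u j - R *ᵥ u j) ≤ nrm (p - a) = d` (A6), so if `C j` is nonempty `R' *ᵥ u j ∉ C j` (A7: otherwise `dst (C j) (R u j) ≤ d`), and `R' *ᵥ u j ∈ sph`, so `R' *ᵥ u j ∈ Op K c (ρ j)`; if `C j` is empty this is clear. `a ∈ closure (Op K c (ρ i))`: for small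
`ε > 0` put `a' = proj (a + ε • p) → a`. With `k = p ⬝ᵥ a`, `|k| < 1` (`a ≠ p` because `p ∈ Op`, `a ≠ -p`) and `N = nrm (a + ε • p)`, `|N - 1| ≤ ε`: `p ⬝ᵥ a' = (k + ε)/N > k` because `k + ε - k N ≥ ε - |k| ε > 0`. So `nrm (a' - p) < nrm (a - p) = dst (C i) p`, `a' ∉ C i`, `a' ∈ Op`. A4 for `R'`, `i0 = i`: `a ∈ Op K c (ρ i)`, a contradiction. -/
def G_A8 : Prop := ∀ (v : Fin 4 → V) (a : ℝ) (w : V) (b ρ : Fin 4 → ℝ) (u : Fin 4 → V) (K : Set V)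
  (c : V), Tet v a → Piv v w b ρ u → Body K → Adm v K → ∀ R ∈ SO3,
  (∀ i, R *ᵥ u i ∈ Op K c (ρ i)) → ∀ i, (sph \ Op K c (ρ i)).Nonempty →
  dst (sph \ Op K c (ρ i)) (R *ᵥ u i) < 2 → ∃ j, j ≠ i ∧ (sph \ Op K c (ρ j)).Nonempty ∧
    dst (sph \ Op K c (ρ j)) (R *ᵥ u j) ≤ dst (sph \ Op K c (ρ i)) (R *ᵥ u i)

/-- AX. Rotations about an axis.
Proof. `rotA q θ * (rotA q θ)ᵀ = 1` from `crossM_transpose`, `crossM_cube` (`q ⬝ᵥ q = 1`), `sin² + cos² = 1`, as in `Bm_SO3`; `Bm_det`-like computation of the determinant by `det_fin_three`. `crossM q *ᵥ q = 0`. For `q ⬝ᵥ x = 0`: `q × (q × x) = -x`. -/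
def G_AX : Prop := ∀ q ∈ sph, (∀ θ, rotA q θ ∈ SO3) ∧ (∀ θ, rotA q θ *ᵥ q = q) ∧
  (∀ θ x, rotA q θ *ᵥ x = x + sin θ • crossProduct q x +
    (1 - cos θ) • crossProduct q (crossProduct q x)) ∧
  (∀ θ x, q ⬝ᵥ x = 0 → rotA q θ *ᵥ x = cos θ • x + sin θ • crossProduct q x) ∧
  Continuous (rotA q) ∧ rotA q 0 = 1

/-- A9b. The distance is not `2` on an open set (uses A7, AX).
Proof. Let `R ∈ U ∩ SO3`, `P = R *ᵥ p`. All `y ∈ C` have `nrm (y - P) ≥ 2`, `y, P` unit, so `y = -P`: `C = {-P}`. Take a unit vector `q ⟂ P`; `R' = rotA q θ * R ∈ U ∩ SO3` for small `θ > 0`, `R' *ᵥ p = cos θ • P + sin θ • q × P ≠ P` (`q × P` is a unit vector), but also `C = {-(R' *ᵥ p)}`. -/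
def G_A9b : Prop := ∀ (C : Set V) (p : V) (U : Set M3), IsCompact C → C ⊆ sph → C.Nonempty →
  p ∈ sph → IsOpen U → (U ∩ (SO3 : Set M3)).Nonempty →
  (∀ R ∈ U, R ∈ SO3 → dst C (R *ᵥ p) = 2) → False

/-- A9. Two of the distances do not agree on an open set (uses A7, A9b, AX).
Proof. (i) Let `R ∈ U ∩ SO3`, `P = R *ᵥ p`, `Q = R *ᵥ q`, `a ∈ C` with `nrm (a - P) = dst C P`. For small `θ`, `R' = rotA Q θ * R ∈ U ∩ SO3`, `R' *ᵥ q = Q`, so `dst C (R' *ᵥ p) = dst C' Q = dst C P`, hence `nrm (a - R' *ᵥ p) ≥ nrm (a - P)`, i.e. `a ⬝ᵥ (rotA Q θ *ᵥ P) ≤ a ⬝ᵥ P`: `sin θ (a ⬝ᵥ (Q × P)) + (1 - cos θ) (..) ≤ 0` for all small `θ` of both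
signs; so `a ⬝ᵥ (Q × P) = 0` (derivative at `0`). (ii) Apply (i) to `R' = rotA P φ * R`, `φ ≠ 0` small: `R' *ᵥ p = P`, `a` is nearest again, `m = Q × P ⟂ P`, `(R' *ᵥ q) × P = rotA P φ *ᵥ m = cos φ • m + sin φ • P × m` (rotations preserve cross products; or expand): `a ⬝ᵥ m = 0` and `a ⬝ᵥ (P × m) = 0`. `m ≠ 0` (`|m|² = |p × q|²`: `cross_sq`), so `P, m, P × m`
is an orthogonal basis and `a = (a ⬝ᵥ P) • P`, `a = ± P`; `a ≠ P` as `P ∉ C`. So `a = -P`, `dst C P = nrm (a - P) = 2`. A9b. -/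
def G_A9 : Prop := ∀ (C C' : Set V) (p q : V) (U : Set M3), IsCompact C → C ⊆ sph → C.Nonempty →
  p ∈ sph → q ∈ sph → crossProduct p q ≠ 0 → IsOpen U → (U ∩ (SO3 : Set M3)).Nonempty →
  (∀ R ∈ U, R ∈ SO3 → R *ᵥ p ∉ C ∧ dst C (R *ᵥ p) = dst C' (R *ᵥ q)) → False

/-- A10a. The directions are not parallel (uses TB).
Proof. Suppose `u i × u j = 0`: `(u i ⬝ᵥ u j)² = 1` (`cross_sq`), so `u j = ε • u i`, `ε = ± 1`. `v i - w = ρ i • u i`, `v j - w = ρ j • u j`, so `ρ j • (v i - w) - ε ρ i • (v j - w) = 0`. `bal` and `eq`: `∑ b k • (v k - w) = 0`. Let `σ = ρ j - ε ρ i`. If `σ = 0` then `v i = v j`, impossible. If `σ ≠ 0`: `γ k = b k - (ρ j [k = i] - ε ρ i [k = j])/σ` has `∑ γ = 0` and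
`∑ γ k • v k = ∑ γ k • (v k - w) = 0`, so `γ = 0` by TB (4), so `b k = 0` for `k ≠ i, j`, contradicting `three`. -/
def G_A10a : Prop := ∀ (v : Fin 4 → V) (a : ℝ) (w : V) (b ρ : Fin 4 → ℝ) (u : Fin 4 → V),
  Tet v a → Piv v w b ρ u → ∀ i j, i ≠ j → crossProduct (u i) (u j) ≠ 0

/-- A10. All patches are whole spheres (uses A5, A7, A8, A9, A9b, A10a).
Proof. `C i = sph \ Op K c (ρ i)`, `W = {R ∈ SO3 : ∀ i, R *ᵥ u i ∈ Op K c (ρ i)} = SO3 ∩ G`, `G` open (A5), nonempty. Suppose some `C i` is nonempty. For `R ∈ W` let `i` be an index with `C i` nonempty and `dst (C i) (R u i)` minimal. It is `≤ 2` (distance of unit vectors); if it is `< 2` A8 gives `j ≠ i`, `C j` nonempty, with `dst (C j) (R u j) ≤ dst (C i) (R u i)`, so equal.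
So `W` is covered by the finitely many sets `{R : dst (C i) (R u i) = 2}` (`C i` nonempty) and `{R : dst (C i) (R u i) = dst (C j) (R u j)}` (`i ≠ j`, both nonempty), closed in `M3` (A7: continuous). A finite union of closed sets with empty interior (in the space `SO3`) has empty interior, so one of them contains `SO3 ∩ U` with `U ⊆ G` open and `SO3 ∩ U ≠ ∅`
(or by induction on the number of sets: if the first closed set does not contain `SO3 ∩ G`, replace `G` by `G` minus it). A9b resp. A9 with `p = u i`, `q = u j` (A10a; `R u i ∉ C i` as `R ∈ W`): contradiction. So all `C i` are empty. -/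
def G_A10 : Prop := ∀ (v : Fin 4 → V) (a : ℝ) (w : V) (b ρ : Fin 4 → ℝ) (u : Fin 4 → V) (K : Set V)
  (c : V), Tet v a → Piv v w b ρ u → Body K → Adm v K → ∀ R ∈ SO3,
  (∀ i, R *ᵥ u i ∈ Op K c (ρ i)) → ∀ i, sph ⊆ Op K c (ρ i)

/-- A11. The frontier is the sphere (uses A1).
Proof. `⊇`: `x - c = r • u'`. `⊆`: `x ∈ frontier K ⊆ K`; if `x ≠ c`, A1 for `u' = proj (x - c)` gives `nrm (x - c) ≤ r`. All points `y` with `nrm (y - c) < r` are in `K`: `y` is on the segment between `c + r • u'` and `c - r • u'`, `u' = proj (y - c)` (any unit vector if `y = c`), and these are in `frontier K ⊆ K`. So the open ball is in the interior, `nrm (x - c) = r`. -/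
def G_A11 : Prop := ∀ (K : Set V) (c : V) (r : ℝ), Body K → 0 < r → sph ⊆ Op K c r →
  frontier K = {x | (x - c) ⬝ᵥ (x - c) = r ^ 2}

/-- A12. Data of a pivot.
Proof. `w = ∑ b i • v i` with `b i ≥ 0`, `∑ b = 1` (`convexHull_range_eq_exists_sum`-type lemma, or `mem_convexHull_iff_exists_fintype`). `three`: if `b k = 0` for all `k ≠ i, j` then `w ∈ segment (v i) (v j)`. `v i ≠ w` (`segment (v i) (v i) = {v i}`), `ρ i = nrm (v i - w)`, `u i = proj (v i - w)`. `bal`: `∑ b i • (v i - w) = w - w`. -/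
def G_A12 : Prop := ∀ (v : Fin 4 → V) (w : V), w ∈ convexHull ℝ (Set.range v) →
  (∀ i j, w ∉ segment ℝ (v i) (v j)) → ∃ (b ρ : Fin 4 → ℝ) (u : Fin 4 → V), Piv v w b ρ u

/-- A13. Equal radii.
Proof. Let `r = ρ i²`. `(v i - w) ⬝ᵥ (v j - w) = (r + r - a²)/2` for `i ≠ j`. Take the dot product of `∑ b j • (v j - w) = 0` with `v i - w`: `b i r + (1 - b i) (r - a²/2) = 0`, so `r = (1 - b i) a²/2` for all `i`, all `b i` are equal, `= 1/4`, `r = 3 a²/8`. -/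
def G_A13 : Prop := ∀ (v : Fin 4 → V) (a : ℝ) (w : V) (b ρ : Fin 4 → ℝ) (u : Fin 4 → V),
  Tet v a → Piv v w b ρ u → (∀ i j, ρ i = ρ j) → ∀ i, ρ i ^ 2 = 3 * a ^ 2 / 8

/-- PR. Patch rigidity (uses INT, A10, A11, A12, A13).
Proof. INT: `Body K`. A12: `b, ρ, u`, `v i - w = ρ i • u i`. `R0 *ᵥ u i ∈ Op K c (ρ i)`: for unit `u'` near `R0 *ᵥ u i` use the hypothesis with `y = ρ i • u'`. A10, A11 (for each `i`): `frontier K` is the sphere of radius `ρ i` about `c` for every `i`, so the `ρ i` are equal (`c + ρ 0 • e` lies on all of them); A13. -/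
def G_PR : Prop := ∀ (v : Fin 4 → V) (a : ℝ) (K : Set V), Tet v a → Convex ℝ K → IsCompact K →
  Adm v K → ∀ (c w : V) (R0 : M3) (ε : ℝ), w ∈ convexHull ℝ (Set.range v) →
  (∀ i j, w ∉ segment ℝ (v i) (v j)) → R0 ∈ SO3 → 0 < ε →
  (∀ i (y : V), y ⬝ᵥ y = (v i - w) ⬝ᵥ (v i - w) →
    (y - R0 *ᵥ (v i - w)) ⬝ᵥ (y - R0 *ᵥ (v i - w)) < ε → c + y ∈ frontier K) →
  frontier K = {x | (x - c) ⬝ᵥ (x - c) = 3 * a ^ 2 / 8}

end Pool.Agent.Helper82.SP
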