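import Pool.Agent.Helper82.SP.GoalsB

/-!
# Project SP (MP_db6300_gt), goals C: the half ball
-/

set_option autoImplicit false

namespace Pool.Agent.Helper82.SP

open Matrix Real
open Pool.Agent.Helper26.LU (V M3 SO3 nrm sph proj Bm Rot crossM)

/-- The continuous property: from one placement the tetrahedron can be moved continuously to every
orientation, with its vertices on the boundary of `K` all the time. -/
def Mot (v : Fin 4 → V) (K : Set V) : Prop :=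
  ∃ (R₀ : M3) (t₀ : V), R₀ ∈ SO3 ∧ (∀ i, R₀ *ᵥ v i + t₀ ∈ frontier K) ∧ ∀ R ∈ SO3,
    ∃ (S : ℝ → M3) (t : ℝ → V), ContinuousOn S (Set.Icc 0 1) ∧ ContinuousOn t (Set.Icc 0 1) ∧
      S 0 = R₀ ∧ t 0 = t₀ ∧ S 1 = R ∧
      ∀ s ∈ Set.Icc (0 : ℝ) 1, S s ∈ SO3 ∧ ∀ i, S s *ᵥ v i + t s ∈ frontier K

/-- The half ball of radius `a`. -/
def half (a : ℝ) : Set V := {x | x ⬝ᵥ x ≤ a ^ 2 ∧ 0 ≤ x 2}

/-- HBF. The boundary of the half ball.
Proof. Convex (`nrm_add_le`, or `x ⬝ᵥ x` is a convex function), closed and bounded. `{x ⬝ᵥ x < a² ∧ 0 < x 2}` is open and contained in `half a`, so a point of `half a` that is not in the right-hand side is interior. A point `x` of `half a` with `x 2 = 0` is not interior (`x - ε (0,0,1)` is outside), a point with `x ⬝ᵥ x = a²` neither (`(1 + ε) • x` is outside). -/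
def G_HBF : Prop := ∀ a : ℝ, 0 < a → Convex ℝ (half a) ∧ IsCompact (half a) ∧
  frontier (half a) = {x | x ∈ half a ∧ (x 2 = 0 ∨ x ⬝ᵥ x = a ^ 2)}

/-- HBS. The half ball has the static property and is not a ball (uses HBF).
Proof. Let `i0` minimize `(R *ᵥ v i) 2` (`Finset.exists_min_image`), `t = -(R *ᵥ v i0)`. The vertex `i0` is at `0`; for `i ≠ i0` the point `x = R *ᵥ (v i - v i0)` has `x ⬝ᵥ x = a²`, `x 2 ≥ 0`. Not a sphere: the frontier contains `0`, `(a/2, 0, 0)`, `(a, 0, 0)`; a sphere `{(x - c) ⬝ᵥ (x - c) = r}` with `(s, 0, 0)` for `s = 0, a/2, a` would give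
`s² - 2 s (c 0) + const = 0` for three values of `s`. -/
def G_HBS : Prop := ∀ (v : Fin 4 → V) (a : ℝ), Tet v a → Adm v (half a) ∧
  ∀ (c : V) (r : ℝ), frontier (half a) ≠ {x | (x - c) ⬝ᵥ (x - c) = r}

/-- HBC. All placements on the half ball (uses HBF, TB).
Proof. `x i = R *ᵥ v i + t`, `w = -(Rᵀ *ᵥ t)`, so `x i = R *ᵥ (v i - w)`, `|v i - w| = |x i| ≤ a`. `β i = bc v a w i`: `∑ β = 1`, `∑ β i • v i = w`. TB (4) for `e_k - β`: `|v k - w|² = (a²/2) (∑ β² - 2 β k + 1) ≤ a²` (`dist_formula` in `Helper82/SP/B14.lean`), so `β k ≥ m := (∑ β² - 1)/2`, with equality if `|x k| = a`.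
`h k = (x k) 2 ≥ 0`; if `|x k| ≠ a` then `h k = 0` (HBF). `∑ β i • (v i - w) = 0` gives `∑ β i h i = 0`, so `m ∑ h i = 0` (the terms with `β i ≠ m` have `h i = 0`). If all `h i = 0` then `R *ᵥ (v i - v j)` has third coordinate `0` for all `i, j`, impossible (the `v i - v 0` span `V`: by TB (2) every `x - gv v` is a combination of the `v i - gv v`, whose rotated third coordinates
would all be equal, of sum `0`, so `0`; take `x - gv v = Rᵀ *ᵥ (0,0,1)`). So `∑ h i > 0`, `m = 0`: `∑ β² = 1`, `β k ≥ 0`, `∑ β = 1`, so `β k ≤ 1`, `∑ β k (1 - β k) = 0`, every `β k ∈ {0, 1}`, one of them is `1`: `w = v k`, `t = -(R *ᵥ v k)`, and `(R *ᵥ v j) 2 - (R *ᵥ v k) 2 = h j ≥ 0`. -/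
def G_HBC : Prop := ∀ (v : Fin 4 → V) (a : ℝ), Tet v a → ∀ R ∈ SO3, ∀ t : V,
  (∀ i, R *ᵥ v i + t ∈ frontier (half a)) →
  ∃ i, t = -(R *ᵥ v i) ∧ ∀ j, (R *ᵥ v i) 2 ≤ (R *ᵥ v j) 2

/-- HBM. The half ball does not have the continuous property (uses HBC).
Proof. Suppose `Mot`; HBC: `t₀ = -(R₀ *ᵥ v i)` for some `i`. There is `R ∈ SO3` with `(R *ᵥ v j) 2 < (R *ᵥ v i) 2` for some `j ≠ i` (`exists_rot`: `Q *ᵥ (0,0,1) = (1/a) • (v i - v j)`, `R = Qᵀ`: `(R *ᵥ (v i - v j)) 2 = a`). Take the path to `R`. The sets `A k = {s ∈ [0,1] | t s = -(S s *ᵥ v k)}` are closed, cover `[0,1]` (HBC), and are pairwise disjoint (`S s` is injective, `v k ≠ v l`),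
`0 ∈ A i`; `[0,1]` is connected, so `A i = [0,1]` (e.g. `isPreconnected_Icc` with `A i` and the union of the others, `isPreconnected_closed_iff`). At `s = 1`: `t 1 = -(R *ᵥ v i)`; HBC at `s = 1` gives `k` with `t 1 = -(R *ᵥ v k)`, so `k = i`, and `(R *ᵥ v i) 2 ≤ (R *ᵥ v j) 2`, a contradiction. -/
def G_HBM : Prop := ∀ (v : Fin 4 → V) (a : ℝ), Tet v a → ¬ Mot v (half a)

end Pool.Agent.Helper82.SP
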