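import Pool.Agent.Helper44.SP.B12

/-!
# Project SP: local versions of B15 and B12
-/

set_option autoImplicit false

namespace Pool.Agent.Helper82.SP

open Matrix Real
open Pool.Agent.Helper26.LU (V M3 SO3 nrm sph proj Bm Rot crossM mem_SO3 isCompact_SO3)
open Pool.Agent.Helper44.SP (key_line dot_mulVec_SO3 Qd_center)

/-- Baire category on an open set of rotations. -/
theorem localB15 (v : Fin 4 → V) (K : Set V) (ι : Type) [Countable ι] (κ : ι → ℝ) (b : ι → V)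
    (g : ι → ℝ) (hK : IsCompact K) (U0 : Set M3) (hU0 : IsOpen U0)
    (hne0 : (U0 ∩ (SO3 : Set M3)).Nonempty)
    (hloc : ∀ R ∈ U0, R ∈ SO3 → ∃ t, ∀ i, R *ᵥ v i + t ∈ frontier K ∧
      ∃ j, Qd (κ j) (b j) (g j) (R *ᵥ v i + t) = 0) :
    ∃ (J : Fin 4 → ι) (U : Set M3), IsOpen U ∧ U ⊆ U0 ∧ (U ∩ (SO3 : Set M3)).Nonempty ∧
      ∀ R ∈ U, R ∈ SO3 → ∃ t, ∀ i, R *ᵥ v i + t ∈ frontier K ∧
        Qd (κ (J i)) (b (J i)) (g (J i)) (R *ᵥ v i + t) = 0 := by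
  have hKf : IsCompact (frontier K) :=
    hK.of_isClosed_subset isClosed_frontier hK.isClosed.frontier_subset
  have hcont1 : Continuous fun z : V × M3 => z.1 - z.2 *ᵥ v 0 := by fun_prop
  have hTc : IsCompact ((fun z : V × M3 => z.1 - z.2 *ᵥ v 0) '' (frontier K ×ˢ (SO3 : Set M3))) :=
    (hKf.prod isCompact_SO3).image hcont1
  let S : (Fin 4 → ι) → Set (V × ↥SO3) := fun J =>
    {z | ∀ i, (z.2 : M3) *ᵥ v i + z.1 ∈ frontier K ∧
      Qd (κ (J i)) (b (J i)) (g (J i)) ((z.2 : M3) *ᵥ v i + z.1) = 0}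
  have hact : ∀ x : V, Continuous fun z : V × ↥SO3 => (z.2 : M3) *ᵥ x + z.1 := by
    intro x
    have h1 : Continuous fun M : M3 => M *ᵥ x := by fun_prop
    exact (h1.comp (continuous_subtype_val.comp continuous_snd)).add continuous_fst
  have hQ : ∀ (k : ℝ) (c : V) (d : ℝ), Continuous fun x : V => Qd k c d x := by
    intro k c d
    unfold Qd
    fun_prop
  have hScl : ∀ J, IsClosed (S J) := by
    intro J
    have : S J = ⋂ i, ({z : V × ↥SO3 | (z.2 : M3) *ᵥ v i + z.1 ∈ frontier K} ∩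
        {z | Qd (κ (J i)) (b (J i)) (g (J i)) ((z.2 : M3) *ᵥ v i + z.1) = 0}) := by
      ext z
      simp [S]
    rw [this]
    exact isClosed_iInter fun i => (isClosed_frontier.preimage (hact (v i))).inter
      (isClosed_eq ((hQ _ _ _).comp (hact (v i))) continuous_const)
  have hSc : ∀ J, IsCompact (S J) := by
    intro J
    refine IsCompact.of_isClosed_subset (hTc.prod (isCompact_univ : IsCompact (Set.univ : Set ↥SO3)))
      (hScl J) ?_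
    intro z hz
    refine ⟨⟨((z.2 : M3) *ᵥ v 0 + z.1, (z.2 : M3)), ⟨(hz 0).1, z.2.2⟩, ?_⟩, Set.mem_univ _⟩
    simp
  have hne : Nonempty ↥SO3 := ⟨1⟩
  have hW : IsOpen {R : ↥SO3 | (R : M3) ∈ U0} := hU0.preimage continuous_subtype_val
  let f : Option (Fin 4 → ι) → Set ↥SO3 := fun o =>
    o.elim {R : ↥SO3 | (R : M3) ∈ U0}ᶜ fun J => Prod.snd '' S J
  have hfc : ∀ o, IsClosed (f o) := by
    rintro (_ | J)
    · exact hW.isClosed_compl
    · exact ((hSc J).image continuous_snd).isClosed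
  have hfu : ⋃ o, f o = Set.univ := by
    rw [Set.eq_univ_iff_forall]
    intro R
    by_cases hR : (R : M3) ∈ U0
    · obtain ⟨t, ht⟩ := hloc R hR R.2
      choose J hJ using fun i => (ht i).2
      exact Set.mem_iUnion.2 ⟨some J, (t, R), fun i => ⟨(ht i).1, hJ i⟩, rfl⟩
    · exact Set.mem_iUnion.2 ⟨none, hR⟩
  have hd := dense_iUnion_interior_of_closed hfc hfu
  obtain ⟨R0, hR0U, hR0⟩ := hne0
  obtain ⟨R1, hR1W, hR1⟩ := hd.inter_open_nonempty _ hW ⟨⟨R0, hR0⟩, hR0U⟩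
  obtain ⟨o, ho⟩ := Set.mem_iUnion.1 hR1
  rcases o with _ | J
  · exact absurd hR1W (interior_subset ho)
  obtain ⟨U, hU, hUe⟩ := isOpen_induced_iff.1 (isOpen_interior (s := f (some J)))
  refine ⟨J, U ∩ U0, hU.inter hU0, Set.inter_subset_right, ?_, ?_⟩
  · have h1 : R1 ∈ Subtype.val ⁻¹' U := by
      rw [hUe]
      exact ho
    exact ⟨R1, ⟨h1, hR1W⟩, R1.2⟩
  · intro R hRU hR
    have h1 : (⟨R, hR⟩ : ↥SO3) ∈ interior (f (some J)) := by
      rw [← hUe]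
      exact hRU.1
    obtain ⟨⟨t, R'⟩, hz, he⟩ := interior_subset h1
    have he' : R' = ⟨R, hR⟩ := he
    subst he'
    exact ⟨t, hz⟩

/-- B12 with an open subset of the given open set. -/
theorem localB12 (hTB : G_TB) (v : Fin 4 → V) (a : ℝ) (K : Set V) (κ : Fin 4 → ℝ) (b : Fin 4 → V)
    (g : Fin 4 → ℝ) (U : Set M3) (i0 : Fin 4) (c : V) (ht : Tet v a)
    (hκ : ∀ i, i ≠ i0 → κ i = 1 ∧ b i = c) (hU : IsOpen U) (hne : (U ∩ (SO3 : Set M3)).Nonempty)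
    (hmain : ∀ R ∈ U, R ∈ SO3 → ∃ t, ∀ i, R *ᵥ v i + t ∈ frontier K ∧
      Qd (κ i) (b i) (g i) (R *ᵥ v i + t) = 0) :
    ∃ (w : V) (U' : Set M3), IsOpen U' ∧ U' ⊆ U ∧ (U' ∩ (SO3 : Set M3)).Nonempty ∧
      ∀ R ∈ U', R ∈ SO3 → ∀ i, c + R *ᵥ (v i - w) ∈ frontier K ∧
        Qd (κ i) (b i) (g i) (c + R *ᵥ (v i - w)) = 0 := by
  -- the pivots
  have hrep : ∀ R ∈ SO3, ∀ t : V, ∀ i, R *ᵥ v i + t = c + R *ᵥ (v i - Rᵀ *ᵥ (c - t)) := by
    intro R hR t i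
    rw [Matrix.mulVec_sub, Matrix.mulVec_mulVec, ((mem_SO3 R).1 hR).1, Matrix.one_mulVec]
    abel
  have hdist : ∀ R ∈ SO3, ∀ s : V, (∀ i, Qd (κ i) (b i) (g i) (c + R *ᵥ (v i - s)) = 0) →
      ∀ i, i ≠ i0 → (v i - s) ⬝ᵥ (v i - s) = c ⬝ᵥ c - g i := by
    intro R hR s h i hi
    have h1 := h i
    rw [(hκ i hi).1, (hκ i hi).2, Qd_center, dot_mulVec_SO3 hR] at h1
    linarith
  obtain ⟨R0, hR0U, hR0⟩ := hne
  obtain ⟨t0, ht0⟩ := hmain R0 hR0U hR0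
  obtain ⟨s0, hs0⟩ : ∃ s0, s0 = R0ᵀ *ᵥ (c - t0) := ⟨_, rfl⟩
  have hd0 : ∀ i, i ≠ i0 → (v i - s0) ⬝ᵥ (v i - s0) = c ⬝ᵥ c - g i := by
    refine hdist R0 hR0 s0 fun i => ?_
    rw [hs0, ← hrep R0 hR0 t0 i]
    exact (ht0 i).2
  obtain ⟨D, hD⟩ := key_line hTB ht s0 i0
  have ha2 : 0 < a ^ 2 := by
    have := ht.1
    positivity
  obtain ⟨l1, hl1⟩ : ∃ l1 : ℝ, l1 = -(2 * D) / (3 * a ^ 2 / 8) := ⟨_, rfl⟩
  obtain ⟨s1, hs1⟩ : ∃ s1 : V, s1 = s0 - l1 • (v i0 - gv v) := ⟨_, rfl⟩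
  have htwo : ∀ s : V, (∀ i, i ≠ i0 → (v i - s) ⬝ᵥ (v i - s) = c ⬝ᵥ c - g i) →
      s = s0 ∨ s = s1 := by
    intro s hs
    obtain ⟨l, hl, hl2⟩ := hD (s0 - s) fun i hi => by
      have e1 := hs i hi
      rw [← hd0 i hi] at e1
      have e2 : v i - s = (v i - s0) + (s0 - s) := by abel
      rw [e2] at e1
      simp only [add_dotProduct, dotProduct_add] at e1
      rw [dotProduct_comm (s0 - s) (v i - s0)] at e1
      linarith
    rcases mul_eq_zero.1 hl2 with h | h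
    · left
      rw [h, zero_smul, sub_eq_zero] at hl
      exact hl.symm
    · right
      have e3 : l = l1 := by
        rw [hl1, eq_div_iff (by positivity)]
        linarith
      rw [hs1, ← e3, ← hl]
      abel
  let F : Set M3 := {R | ∀ i, c + R *ᵥ (v i - s0) ∈ frontier K ∧
    Qd (κ i) (b i) (g i) (c + R *ᵥ (v i - s0)) = 0}
  have hF : IsClosed F := by
    have e : F = ⋂ i, ((fun R : M3 => c + R *ᵥ (v i - s0)) ⁻¹' frontier K ∩
        {R | Qd (κ i) (b i) (g i) (c + R *ᵥ (v i - s0)) = 0}) := by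
      ext R
      simp [F, Set.mem_iInter]
    rw [e]
    have hc : ∀ i, Continuous fun R : M3 => c + R *ᵥ (v i - s0) := fun i => by fun_prop
    refine isClosed_iInter fun i => (isClosed_frontier.preimage (hc i)).inter ?_
    refine isClosed_eq ?_ continuous_const
    have h1 : Continuous fun x : V => Qd (κ i) (b i) (g i) x := by
      unfold Qd
      fun_prop
    exact h1.comp (hc i)
  by_cases hsub : ∀ R ∈ U, R ∈ SO3 → R ∈ F
  · exact ⟨s0, U, hU, subset_rfl, ⟨R0, hR0U, hR0⟩, fun R hRU hR i => hsub R hRU hR i⟩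
  · push Not at hsub
    obtain ⟨R1, hR1U, hR1, hR1F⟩ := hsub
    refine ⟨s1, U ∩ Fᶜ, hU.inter hF.isOpen_compl, Set.inter_subset_left,
      ⟨R1, ⟨hR1U, hR1F⟩, hR1⟩, ?_⟩
    rintro R ⟨hRU, hRF⟩ hR i
    obtain ⟨t, ht'⟩ := hmain R hRU hR
    have hall : ∀ i, c + R *ᵥ (v i - Rᵀ *ᵥ (c - t)) ∈ frontier K ∧
        Qd (κ i) (b i) (g i) (c + R *ᵥ (v i - Rᵀ *ᵥ (c - t))) = 0 := by
      intro i
      rw [← hrep R hR t i]
      exact ht' i
    rcases htwo (Rᵀ *ᵥ (c - t)) (hdist R hR _ fun i => (hall i).2) with h | h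
    · exfalso
      apply hRF
      intro i
      rw [← h]
      exact hall i
    · rw [← h]
      exact hall i

end Pool.Agent.Helper82.SP
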