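import Pool.Agent.Helper82.SP.All

/-!
# Project SP: one sphere and planes, preparations
-/

set_option autoImplicit false

namespace Pool.Agent.Helper82.SP

open Matrix Real
open Pool.Agent.Helper26.LU (V M3 SO3 nrm sph proj Bm Rot crossM nrm_sq nrm_nonneg nrm_sph
  nrm_pos proj_sph proj_self nrm_proj nrm_add_le nrm_smul nrm_neg nrm_sub_comm abs_nrm_sub
  nrm_continuous dot_le norm_le_nrm nrm_le_norm sph_norm_le mem_SO3 SO3_left SO3_transpose
  SO3_mul SO3_one dot_mulVec mulVec_sph exists_rot isClosed_SO3 isCompact_SO3)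

/-- Rotations act transitively on orthonormal pairs. -/
theorem exists_rot2 {p q u y : V} (hp : p ∈ sph) (hq : q ∈ sph) (hu : u ∈ sph) (hy : y ∈ sph)
    (hpq : p ⬝ᵥ q = 0) (huy : u ⬝ᵥ y = 0) : ∃ R ∈ SO3, R *ᵥ p = u ∧ R *ᵥ q = y := by
  obtain ⟨Q1, hQ1, hQ1p⟩ := exists_rot hp
  obtain ⟨Q2, hQ2, hQ2u⟩ := exists_rot hu
  have hR1 : Q2 * Q1ᵀ ∈ SO3 := SO3_mul hQ2 (SO3_transpose hQ1)
  have hR1p : (Q2 * Q1ᵀ) *ᵥ p = u := by
    rw [← hQ1p, ← Matrix.mulVec_mulVec, Matrix.mulVec_mulVec _ Q1ᵀ Q1, SO3_left hQ1,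
      Matrix.one_mulVec, hQ2u]
  set m := (Q2 * Q1ᵀ) *ᵥ q with hm
  have hmm : m ⬝ᵥ m = 1 := mulVec_sph hR1 hq
  have hum : u ⬝ᵥ m = 0 := by
    rw [← hR1p, hm, dot_mulVec hR1, hpq]
  have hfr := frame3 (P := u) (m := m) (y := y) hu hum huy
  rw [hmm, one_smul] at hfr
  set α := y ⬝ᵥ m with hα
  set β := y ⬝ᵥ crossProduct u m with hβ
  have hcm : crossProduct u m ⬝ᵥ crossProduct u m = 1 := by
    rw [cross_dot_cross, hmm, hum, show u ⬝ᵥ u = 1 from hu]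
    ring
  have hmc : m ⬝ᵥ crossProduct u m = 0 := by
    rw [triple_product_permutation, cross_self, dotProduct_zero]
  have h1 : α ^ 2 + β ^ 2 = 1 := by
    have h2 : y ⬝ᵥ y = 1 := hy
    have h3 : y ⬝ᵥ y = y ⬝ᵥ (α • m + β • crossProduct u m) := by rw [← hfr]
    rw [dotProduct_add, dotProduct_smul, dotProduct_smul, ← hα, ← hβ, smul_eq_mul, smul_eq_mul,
      h2] at h3
    linarith
  -- the angle
  obtain ⟨θ, hc, hs⟩ : ∃ θ : ℝ, cos θ = α ∧ sin θ = β := by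
    have hne : (⟨α, β⟩ : ℂ) ≠ 0 := by
      intro h
      have h4 := congrArg Complex.re h
      have h5 := congrArg Complex.im h
      simp only [Complex.zero_re, Complex.zero_im] at h4 h5
      rw [h4, h5] at h1
      norm_num at h1
    have hno : ‖(⟨α, β⟩ : ℂ)‖ = 1 := by
      rw [Complex.norm_def, Complex.normSq_mk, ← sq, ← sq, h1, Real.sqrt_one]
    refine ⟨Complex.arg ⟨α, β⟩, ?_, ?_⟩
    · rw [Complex.cos_arg hne, hno]; simp
    · rw [Complex.sin_arg, hno]; simp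
  obtain ⟨hA1, hA2, -, hA4, -, -⟩ := goalAX u hu
  refine ⟨rotA u θ * (Q2 * Q1ᵀ), SO3_mul (hA1 θ) hR1, ?_, ?_⟩
  · rw [← Matrix.mulVec_mulVec, hR1p, hA2]
  · rw [← Matrix.mulVec_mulVec, ← hm, hA4 θ m hum, hc, hs, hfr]

/-- A rotation putting the edge `v 0 v 1` into the direction `u`, with `v 2`, `v 3` high. -/
theorem exists_low {v : Fin 4 → V} {a : ℝ} (ht : Tet v a) {u m : V} (hu : u ∈ sph)
    (hmu : 0 < m ⬝ᵥ u) : ∃ R ∈ SO3, R *ᵥ (v 1 - v 0) = a • u ∧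
      ∀ i, i ≠ 0 → 0 < m ⬝ᵥ (R *ᵥ (v i - v 0)) := by
  obtain ⟨ha, hv⟩ := ht
  -- the edges at `v 0`
  obtain ⟨e1, he1⟩ : ∃ e, e = v 1 - v 0 := ⟨_, rfl⟩
  obtain ⟨e2, he2⟩ : ∃ e, e = v 2 - v 0 := ⟨_, rfl⟩
  obtain ⟨e3, he3⟩ : ∃ e, e = v 3 - v 0 := ⟨_, rfl⟩
  have h11 : e1 ⬝ᵥ e1 = a ^ 2 := by rw [he1]; exact hv 1 0 (by decide)
  have h22 : e2 ⬝ᵥ e2 = a ^ 2 := by rw [he2]; exact hv 2 0 (by decide)
  have h33 : e3 ⬝ᵥ e3 = a ^ 2 := by rw [he3]; exact hv 3 0 (by decide)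
  have h12 : e1 ⬝ᵥ e2 = a ^ 2 / 2 := by
    have h := hv 1 2 (by decide)
    rw [show v 1 - v 2 = e1 - e2 by rw [he1, he2]; abel, sub_dotProduct, dotProduct_sub,
      dotProduct_sub, h11, h22, dotProduct_comm e2 e1] at h
    linarith
  have h13 : e1 ⬝ᵥ e3 = a ^ 2 / 2 := by
    have h := hv 1 3 (by decide)
    rw [show v 1 - v 3 = e1 - e3 by rw [he1, he3]; abel, sub_dotProduct, dotProduct_sub,
      dotProduct_sub, h11, h33, dotProduct_comm e3 e1] at h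
    linarith
  have h23 : e2 ⬝ᵥ e3 = a ^ 2 / 2 := by
    have h := hv 2 3 (by decide)
    rw [show v 2 - v 3 = e2 - e3 by rw [he2, he3]; abel, sub_dotProduct, dotProduct_sub,
      dotProduct_sub, h22, h33, dotProduct_comm e3 e2] at h
    linarith
  obtain ⟨s, hs⟩ : ∃ s, s = e2 + e3 - e1 := ⟨_, rfl⟩
  have hs1 : e1 ⬝ᵥ s = 0 := by
    rw [hs, dotProduct_sub, dotProduct_add, h12, h13, h11]; ring
  have hss : s ⬝ᵥ s = 2 * a ^ 2 := by
    rw [hs]
    simp only [sub_dotProduct, add_dotProduct, dotProduct_sub, dotProduct_add]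
    rw [dotProduct_comm e2 e1, dotProduct_comm e3 e1, dotProduct_comm e3 e2, h11, h22, h33, h12,
      h13, h23]
    ring
  have he10 : e1 ≠ 0 := by
    intro h
    rw [h, zero_dotProduct] at h11
    have : 0 < a ^ 2 := by positivity
    linarith
  have hs0 : s ≠ 0 := by
    intro h
    rw [h, zero_dotProduct] at hss
    have : 0 < a ^ 2 := by positivity
    linarith
  have hne1 : nrm e1 = a := by
    have h := nrm_sq e1
    rw [h11] at h
    exact (pow_left_inj₀ (nrm_nonneg _) ha.le (by norm_num)).1 h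
  have hpe : a • proj e1 = e1 := by
    have := nrm_proj e1 he10
    rw [hne1] at this
    exact this
  have hps : nrm s • proj s = s := nrm_proj s hs0
  have hperp : proj e1 ⬝ᵥ proj s = 0 := by
    have h1 : (a • proj e1) ⬝ᵥ (nrm s • proj s) = 0 := by rw [hpe, hps, hs1]
    rw [smul_dotProduct, dotProduct_smul, smul_eq_mul, smul_eq_mul] at h1
    have h2 := nrm_pos hs0
    rcases mul_eq_zero.1 h1 with h | h
    · exact absurd h ha.ne'
    · rcases mul_eq_zero.1 h with h | h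
      · exact absurd h h2.ne'
      · exact h
  -- the direction of `m` perpendicular to `u`
  obtain ⟨y, hy, huy, hmy, hmuy⟩ : ∃ y ∈ sph, u ⬝ᵥ y = 0 ∧ 0 ≤ m ⬝ᵥ y ∧
      ∀ d, u ⬝ᵥ d = 0 → y ⬝ᵥ d = 0 → m ⬝ᵥ d = 0 := by
    have huu : u ⬝ᵥ u = 1 := hu
    by_cases hm : m - (m ⬝ᵥ u) • u = 0
    · obtain ⟨y, hy, hyu⟩ := exists_perp hu
      have hm' : m = (m ⬝ᵥ u) • u := sub_eq_zero.1 hm
      refine ⟨y, hy, by rw [dotProduct_comm]; exact hyu, ?_, ?_⟩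
      · rw [hm', smul_dotProduct, dotProduct_comm u y, hyu, smul_zero]
      · intro d hd _
        rw [hm', smul_dotProduct, hd, smul_zero]
    · refine ⟨proj (m - (m ⬝ᵥ u) • u), proj_sph hm, ?_, ?_, ?_⟩
      · simp only [proj, dotProduct_smul, dotProduct_sub, smul_eq_mul]
        rw [huu, dotProduct_comm u m]; ring
      · simp only [proj, dotProduct_smul, dotProduct_sub, smul_eq_mul]
        have h3 : 0 ≤ m ⬝ᵥ m - m ⬝ᵥ u * (m ⬝ᵥ u) := by
          have h4 : 0 ≤ (m - (m ⬝ᵥ u) • u) ⬝ᵥ (m - (m ⬝ᵥ u) • u) := by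
            rw [← nrm_sq]; positivity
          rw [sub_dotProduct, dotProduct_sub, dotProduct_sub, smul_dotProduct, smul_dotProduct,
            dotProduct_smul, dotProduct_smul, huu, dotProduct_comm u m] at h4
          simp only [smul_eq_mul] at h4
          linarith
        exact mul_nonneg (inv_nonneg.2 (nrm_nonneg _)) h3
      · intro d hd hyd
        simp only [proj, smul_dotProduct, sub_dotProduct, smul_eq_mul] at hyd
        rcases mul_eq_zero.1 hyd with h | h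
        · exact absurd h (inv_ne_zero (nrm_pos hm).ne')
        · rw [hd, mul_zero, sub_zero] at h
          exact h
  obtain ⟨R, hR, hRp, hRs⟩ := exists_rot2 (proj_sph he10) (proj_sph hs0) hu hy hperp huy
  have hRe : R *ᵥ e1 = a • u := by rw [← hpe, Matrix.mulVec_smul, hRp]
  have hRs' : R *ᵥ s = nrm s • y := by rw [← hps, Matrix.mulVec_smul, hRs, hps]
  -- `e2 - e3` is perpendicular to both
  have hd : m ⬝ᵥ (R *ᵥ (e2 - e3)) = 0 := by
    apply hmuy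
    · have h1 : (a • u) ⬝ᵥ (R *ᵥ (e2 - e3)) = 0 := by
        rw [← hRe, dot_mulVec hR, dotProduct_sub, h12, h13, sub_self]
      rw [smul_dotProduct, smul_eq_mul] at h1
      exact (mul_eq_zero.1 h1).resolve_left ha.ne'
    · have h1 : (nrm s • y) ⬝ᵥ (R *ᵥ (e2 - e3)) = 0 := by
        rw [← hRs', dot_mulVec hR, hs]
        simp only [sub_dotProduct, add_dotProduct, dotProduct_sub]
        rw [h22, h33, h12, h13, h23, dotProduct_comm e3 e2, h23]
        ring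
      rw [smul_dotProduct, smul_eq_mul] at h1
      exact (mul_eq_zero.1 h1).resolve_left (nrm_pos hs0).ne'
  have hm1 : m ⬝ᵥ (R *ᵥ e1) = a * (m ⬝ᵥ u) := by rw [hRe, dotProduct_smul, smul_eq_mul]
  have hms : m ⬝ᵥ (R *ᵥ s) = nrm s * (m ⬝ᵥ y) := by rw [hRs', dotProduct_smul, smul_eq_mul]
  have hpos : 0 < a * (m ⬝ᵥ u) := mul_pos ha hmu
  have hnn : 0 ≤ nrm s * (m ⬝ᵥ y) := mul_nonneg (nrm_nonneg _) hmy
  have hsum : m ⬝ᵥ (R *ᵥ e2) + m ⬝ᵥ (R *ᵥ e3) = a * (m ⬝ᵥ u) + nrm s * (m ⬝ᵥ y) := by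
    rw [← hm1, ← hms, ← dotProduct_add, ← dotProduct_add, ← Matrix.mulVec_add,
      ← Matrix.mulVec_add, hs]
    congr 2
    abel
  have hdiff : m ⬝ᵥ (R *ᵥ e2) - m ⬝ᵥ (R *ᵥ e3) = 0 := by
    rw [← dotProduct_sub, ← Matrix.mulVec_sub, hd]
  refine ⟨R, hR, by rw [← he1]; exact hRe, ?_⟩
  intro i hi
  fin_cases i
  · exact absurd rfl hi
  · show 0 < m ⬝ᵥ (R *ᵥ (v 1 - v 0))
    rw [← he1, hm1]; exact hpos
  · show 0 < m ⬝ᵥ (R *ᵥ (v 2 - v 0))
    rw [← he2]; linarith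
  · show 0 < m ⬝ᵥ (R *ᵥ (v 3 - v 0))
    rw [← he3]; linarith

end Pool.Agent.Helper82.SP
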