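import Pool.Agent.Helper82.SP.OS1

/-!
# Project SP: vertex pivots at one centre force a half ball
-/

set_option autoImplicit false

namespace Pool.Agent.Helper82.SP

open Matrix Real
open Pool.Agent.Helper26.LU (V M3 SO3 nrm sph proj Bm Rot crossM nrm_sq nrm_nonneg nrm_sph
  nrm_pos proj_sph proj_self nrm_proj nrm_add_le nrm_smul nrm_neg nrm_sub_comm abs_nrm_sub
  nrm_continuous dot_le norm_le_nrm nrm_le_norm sph_norm_le mem_SO3 SO3_left SO3_transpose
  SO3_mul SO3_one dot_mulVec mulVec_sph exists_rot isClosed_SO3 isCompact_SO3)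

theorem dot_le_sq_iff {x : V} {a : ℝ} (ha : 0 < a) : x ⬝ᵥ x ≤ a ^ 2 ↔ nrm x ≤ a := by
  rw [← nrm_sq]
  exact pow_le_pow_iff_left₀ (nrm_nonneg _) ha.le (by norm_num)

/-- Vertex pivots at one centre. -/
theorem half_of_pivots {v : Fin 4 → V} {a : ℝ} (ht : Tet v a) {K : Set V} (hK : Body K) (z : V)
    (hall : ∀ R ∈ SO3, ∃ i0, ∀ i, z + R *ᵥ (v i - v i0) ∈ frontier K) :
    ∃ m : V, m ≠ 0 ∧ K = {x | (x - z) ⬝ᵥ (x - z) ≤ a ^ 2 ∧ 0 ≤ m ⬝ᵥ (x - z)} := by
  have ha : 0 < a := ht.1
  have hcl : IsClosed K := hK.2.1.isClosed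
  have hconv : Convex ℝ K := hK.1
  -- the centre is on the boundary
  have hz : z ∈ frontier K := by
    obtain ⟨i0, h⟩ := hall 1 SO3_one
    have := h i0
    rw [sub_self, Matrix.mulVec_zero, add_zero] at this
    exact this
  obtain ⟨n, hn0, hn⟩ := support hK hz
  obtain ⟨m, hm⟩ : ∃ m : V, m = -n := ⟨_, rfl⟩
  have hm0 : m ≠ 0 := by rw [hm]; exact neg_ne_zero.2 hn0
  have hmK : ∀ x ∈ K, 0 ≤ m ⬝ᵥ (x - z) := by
    intro x hx
    have := hn x hx
    rw [hm, neg_dotProduct, dotProduct_sub]
    linarith
  -- the open hemisphere is in the frontier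
  have hhem : ∀ u ∈ sph, 0 < m ⬝ᵥ u → z + a • u ∈ frontier K := by
    intro u hu hmu
    obtain ⟨R, hR, hRe, hlow⟩ := exists_low ht hu hmu
    obtain ⟨i0, h⟩ := hall R hR
    have hi0 : i0 = 0 := by
      by_contra hne
      have h1 := hmK _ (frontier_sub hK (h 0))
      rw [add_sub_cancel_left] at h1
      have h2 := hlow i0 hne
      have h3 : v 0 - v i0 = -(v i0 - v 0) := by abel
      rw [h3, Matrix.mulVec_neg, dotProduct_neg] at h1
      linarith
    rw [hi0] at h
    have h1 := h 1
    rw [hRe] at h1
    exact h1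
  -- points of the open half ball
  have hopen : ∀ x, nrm (x - z) ≤ a → 0 < m ⬝ᵥ (x - z) → x ∈ K := by
    intro x hx hmx
    have hne : x - z ≠ 0 := by
      intro h
      rw [h, dotProduct_zero] at hmx
      exact lt_irrefl _ hmx
    have hpos := nrm_pos hne
    have hu := proj_sph hne
    have hmu : 0 < m ⬝ᵥ proj (x - z) := by
      simp only [proj, dotProduct_smul, smul_eq_mul]
      exact mul_pos (inv_pos.2 hpos) hmx
    have h1 := frontier_sub hK (hhem _ hu hmu)
    have h2 := frontier_sub hK hz
    have h3 : x = (1 - nrm (x - z) / a) • z + (nrm (x - z) / a) • (z + a • proj (x - z)) := by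
      have h4 := nrm_proj (x - z) hne
      have h5 : (nrm (x - z) / a) • (a • proj (x - z)) = x - z := by
        rw [smul_smul, div_mul_cancel₀ _ ha.ne', h4]
      rw [smul_add, h5]
      module
    rw [h3]
    exact hconv h2 h1 (by rw [sub_nonneg, div_le_one ha]; exact hx) (by positivity) (by ring)
  have hmm : 0 < m ⬝ᵥ m := by
    rw [← nrm_sq]
    have := nrm_pos hm0
    positivity
  have hpm : 0 < m ⬝ᵥ proj m := by
    simp only [proj, dotProduct_smul, smul_eq_mul]
    exact mul_pos (inv_pos.2 (nrm_pos hm0)) hmm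
  -- an interior point
  have hint : ∀ y, nrm (y - z) < a → 0 < m ⬝ᵥ (y - z) → y ∈ interior K := by
    intro y hy hmy
    rw [mem_interior]
    refine ⟨{x | nrm (x - z) < a} ∩ {x | 0 < m ⬝ᵥ (x - z)}, ?_, ?_, ⟨hy, hmy⟩⟩
    · rintro x ⟨h1, h2⟩
      exact hopen x (le_of_lt h1) h2
    · refine IsOpen.inter ?_ ?_
      · exact isOpen_lt (nrm_continuous.comp (continuous_id.sub continuous_const)) continuous_const
      · exact isOpen_lt continuous_const
          (Continuous.dotProduct continuous_const (continuous_id.sub continuous_const))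
  refine ⟨m, hm0, Set.Subset.antisymm ?_ ?_⟩
  · -- `K` is contained in the half ball
    have key : ∀ x ∈ K, 0 < m ⬝ᵥ (x - z) → nrm (x - z) ≤ a := by
      intro x hx hmx
      by_contra hcon
      push Not at hcon
      have hne : x - z ≠ 0 := by
        intro h
        rw [h, dotProduct_zero] at hmx
        exact lt_irrefl _ hmx
      have hpos := nrm_pos hne
      have hu := proj_sph hne
      have hmu : 0 < m ⬝ᵥ proj (x - z) := by
        simp only [proj, dotProduct_smul, smul_eq_mul]
        exact mul_pos (inv_pos.2 hpos) hmx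
      have hp := hhem _ hu hmu
      have hq : z + (a / 2) • proj (x - z) ∈ interior K := by
        apply hint
        · rw [add_sub_cancel_left, nrm_smul, nrm_sph hu, abs_of_pos (by positivity)]
          linarith
        · rw [add_sub_cancel_left, dotProduct_smul, smul_eq_mul]
          positivity
      have hseg : z + a • proj (x - z) ∈ openSegment ℝ (z + (a / 2) • proj (x - z)) x := by
        -- parameter
        have hden : 0 < nrm (x - z) - a / 2 := by linarith
        refine ⟨(nrm (x - z) - a) / (nrm (x - z) - a / 2), (a / 2) / (nrm (x - z) - a / 2),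
          div_pos (by linarith) hden, div_pos (by positivity) hden, ?_, ?_⟩
        · rw [← add_div, show nrm (x - z) - a + a / 2 = nrm (x - z) - a / 2 by ring,
            div_self hden.ne']
        · have h4 : x = z + nrm (x - z) • proj (x - z) := by
            rw [nrm_proj (x - z) hne]; abel
          have h5 : ∀ s : ℝ, ∀ p : V, 0 < s - a / 2 →
              ((s - a) / (s - a / 2)) • (z + (a / 2) • p) + (a / 2 / (s - a / 2)) • (z + s • p)
                = z + a • p := by
            intro s p hs
            have e1 : (s - a) / (s - a / 2) + a / 2 / (s - a / 2) = 1 := by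
              rw [← add_div, show s - a + a / 2 = s - a / 2 by ring, div_self hs.ne']
            have e2 : (s - a) / (s - a / 2) * (a / 2) + a / 2 / (s - a / 2) * s = a := by
              have e3 : (s - a) / (s - a / 2) * (a / 2) + a / 2 / (s - a / 2) * s
                  = a * ((s - a / 2) / (s - a / 2)) := by ring
              rw [e3, div_self hs.ne', mul_one]
            calc ((s - a) / (s - a / 2)) • (z + (a / 2) • p) +
                  (a / 2 / (s - a / 2)) • (z + s • p)
                = ((s - a) / (s - a / 2) + a / 2 / (s - a / 2)) • z +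
                  ((s - a) / (s - a / 2) * (a / 2) + a / 2 / (s - a / 2) * s) • p := by module
              _ = z + a • p := by rw [e1, e2, one_smul]
          have h6 := h5 (nrm (x - z)) (proj (x - z)) hden
          rw [← h4] at h6
          exact h6
      exact hp.2 (hconv.openSegment_interior_self_subset_interior hq hx hseg)
    intro x hx
    refine ⟨?_, hmK x hx⟩
    rw [dot_le_sq_iff ha]
    by_contra hcon
    push Not at hcon
    -- move towards an interior point
    obtain ⟨q, hq⟩ : ∃ q : V, q = z + (a / 2) • proj m := ⟨_, rfl⟩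
    have hqK : q ∈ K := by
      apply hopen
      · rw [hq, add_sub_cancel_left, nrm_smul, nrm_sph (proj_sph hm0), abs_of_pos (by positivity)]
        linarith
      · rw [hq, add_sub_cancel_left, dotProduct_smul, smul_eq_mul]
        positivity
    have hcont : Continuous fun s : ℝ => nrm ((1 - s) • x + s • q - z) :=
      nrm_continuous.comp (by fun_prop)
    have hop : IsOpen {s : ℝ | a < nrm ((1 - s) • x + s • q - z)} :=
      isOpen_lt continuous_const hcont
    have h0 : (0 : ℝ) ∈ {s : ℝ | a < nrm ((1 - s) • x + s • q - z)} := by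
      simp only [Set.mem_setOf_eq, sub_zero, one_smul, zero_smul, add_zero]
      exact hcon
    obtain ⟨ε, hε, hball⟩ := Metric.isOpen_iff.1 hop 0 h0
    set s := min (ε / 2) (1 / 2) with hs
    have hs0 : 0 < s := lt_min (by positivity) (by norm_num)
    have hs1 : s ≤ 1 / 2 := min_le_right _ _
    have hsε : s < ε := lt_of_le_of_lt (min_le_left _ _) (by linarith)
    have hmem : s ∈ Metric.ball (0 : ℝ) ε := by
      rw [Metric.mem_ball, dist_zero_right, Real.norm_eq_abs, abs_of_pos hs0]
      exact hsε
    have hbig : a < nrm ((1 - s) • x + s • q - z) := hball hmem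
    have hxK : (1 - s) • x + s • q ∈ K := hconv hx hqK (by linarith) hs0.le (by ring)
    have hmpos : 0 < m ⬝ᵥ ((1 - s) • x + s • q - z) := by
      have h1 : (1 - s) • x + s • q - z = (1 - s) • (x - z) + s • ((a / 2) • proj m) := by
        rw [hq]; module
      rw [h1, dotProduct_add, dotProduct_smul, dotProduct_smul, dotProduct_smul]
      simp only [smul_eq_mul]
      have h2 := hmK x hx
      have h3 : 0 ≤ (1 - s) * (m ⬝ᵥ (x - z)) := mul_nonneg (by linarith) h2
      have h4 : 0 < s * (a / 2 * (m ⬝ᵥ proj m)) := by positivity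
      linarith
    exact absurd (key _ hxK hmpos) (not_le.2 hbig)
  · -- the half ball is contained in `K`
    rintro x ⟨hx1, hx2⟩
    rw [dot_le_sq_iff ha] at hx1
    have hlim : Filter.Tendsto (fun s : ℝ => z + ((1 - s) • (x - z) + s • (a • proj m)))
        (nhdsWithin 0 (Set.Ioi 0)) (nhds x) := by
      have hc : Continuous fun s : ℝ => z + ((1 - s) • (x - z) + s • (a • proj m)) := by fun_prop
      have h1 := hc.tendsto 0
      have h2 : z + (((1 : ℝ) - 0) • (x - z) + (0 : ℝ) • (a • proj m)) = x := by
        rw [sub_zero, one_smul, zero_smul, add_zero]; abel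
      rw [h2] at h1
      exact h1.mono_left nhdsWithin_le_nhds
    refine hcl.mem_of_tendsto hlim ?_
    have hev : Set.Ioo (0 : ℝ) 1 ∈ nhdsWithin (0 : ℝ) (Set.Ioi 0) :=
      Ioo_mem_nhdsGT (by norm_num)
    filter_upwards [hev] with s hs
    apply hopen
    · rw [add_sub_cancel_left]
      refine (nrm_add_le _ _).trans ?_
      rw [nrm_smul, nrm_smul, nrm_smul, nrm_sph (proj_sph hm0), abs_of_pos hs.1, abs_of_pos ha,
        abs_of_pos (by linarith [hs.2] : (0 : ℝ) < 1 - s)]
      have : (1 - s) * nrm (x - z) ≤ (1 - s) * a :=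
        mul_le_mul_of_nonneg_left hx1 (by linarith [hs.2])
      linarith
    · rw [add_sub_cancel_left, dotProduct_add, dotProduct_smul, dotProduct_smul, dotProduct_smul]
      simp only [smul_eq_mul]
      have h3 : 0 ≤ (1 - s) * (m ⬝ᵥ (x - z)) := mul_nonneg (by linarith [hs.2]) hx2
      have h4 : 0 < s * (a * (m ⬝ᵥ proj m)) := mul_pos hs.1 (mul_pos ha hpm)
      linarith

end Pool.Agent.Helper82.SP
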