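import Pool.Agent.Helper82.SP.OS2

/-!
# Project SP: one sphere and countably many planes, classification
-/

set_option autoImplicit false

namespace Pool.Agent.Helper82.SP

open Matrix Real
open Pool.Agent.Helper26.LU (V M3 SO3 nrm sph proj Bm Rot crossM nrm_sq nrm_nonneg nrm_sph
  nrm_pos proj_sph proj_self nrm_proj nrm_add_le nrm_smul nrm_neg nrm_sub_comm abs_nrm_sub
  nrm_continuous dot_le norm_le_nrm nrm_le_norm sph_norm_le mem_SO3 SO3_left SO3_transpose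
  SO3_mul SO3_one dot_mulVec mulVec_sph exists_rot isClosed_SO3 isCompact_SO3)
open Pool.Agent.Helper71.Tet (Mq nq)

/-- A point at the same distance from the four vertices. -/
theorem circumcentre {v : Fin 4 → V} {a r : ℝ} (ht : Tet v a) {w : V}
    (h : ∀ i, (v i - w) ⬝ᵥ (v i - w) = r) : w = gv v ∧ r = 3 * a ^ 2 / 8 := by
  obtain ⟨h1, h2, h3, -⟩ := factTB v a ht
  have ha : 0 < a := ht.1
  have hexp : ∀ i, (v i - gv v) ⬝ᵥ (w - gv v) =
      (3 * a ^ 2 / 8 + (w - gv v) ⬝ᵥ (w - gv v) - r) / 2 := by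
    intro i
    have e1 := h i
    have e2 : v i - w = (v i - gv v) - (w - gv v) := by abel
    have e3 := h3 i i
    rw [if_pos rfl] at e3
    have e4 : ∀ p q : V, (p - q) ⬝ᵥ (p - q) = p ⬝ᵥ p - 2 * (p ⬝ᵥ q) + q ⬝ᵥ q := by
      intro p q
      rw [sub_dotProduct, dotProduct_sub, dotProduct_sub, dotProduct_comm q p]
      ring
    rw [e2, e4, e3] at e1
    linarith
  have hsum0 : ∑ i, (v i - gv v) = 0 := by
    rw [Finset.sum_sub_distrib, Finset.sum_const, Finset.card_univ, Fintype.card_fin,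
      ← Nat.cast_smul_eq_nsmul ℝ, gv, smul_smul]
    norm_num
  have hsum : ∑ i, (v i - gv v) ⬝ᵥ (w - gv v) = 0 := by
    rw [← sum_dotProduct, hsum0, zero_dotProduct]
  rw [Finset.sum_congr rfl fun i _ => hexp i, Finset.sum_const, Finset.card_univ,
    Fintype.card_fin, nsmul_eq_mul] at hsum
  have hκ : (3 * a ^ 2 / 8 + (w - gv v) ⬝ᵥ (w - gv v) - r) / 2 = 0 := by
    have h4 : ((4 : ℕ) : ℝ) ≠ 0 := by norm_num
    exact (mul_eq_zero.1 hsum).resolve_left h4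
  have hbc : ∀ i, bc v a w i = 1 / 4 := by
    intro i
    simp only [bc]
    rw [dotProduct_comm, hexp i, hκ]
    ring
  have hw : w = gv v := by
    have e := h2 w
    simp only [hbc] at e
    rw [← Finset.smul_sum] at e
    rw [← e, gv]
  refine ⟨hw, ?_⟩
  have e1 := h 0
  rw [hw, h3 0 0, if_pos rfl] at e1
  exact e1.symm

/-- Planes and spheres: the static property. -/
theorem piecewise {v : Fin 4 → V} {a : ℝ} {K : Set V} (ht : Tet v a) (hc : Convex ℝ K)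
    (hcomp : IsCompact K) (hadm : Adm v K) (n : ℕ → V) (k : ℕ → ℝ) (z : ℕ → V) (r : ℕ → ℝ)
    (hn : ∀ j, n j ≠ 0)
    (h1 : ∀ i j, z i = z j → r i = r j ∨ (r i ≤ 2 * a ^ 2 / 3 ∧ r j ≤ 2 * a ^ 2 / 3))
    (h2 : ∀ i j, r i = a ^ 2 → r j = a ^ 2 → z i = z j)
    (hcov : frontier K ⊆ (⋃ j, {x | n j ⬝ᵥ x = k j}) ∪ ⋃ j, {x | (x - z j) ⬝ᵥ (x - z j) = r j}) :
    (∃ c, frontier K = {x | (x - c) ⬝ᵥ (x - c) = 3 * a ^ 2 / 8}) ∨
      ∃ c m : V, m ≠ 0 ∧ K = {x | (x - c) ⬝ᵥ (x - c) ≤ a ^ 2 ∧ 0 ≤ m ⬝ᵥ (x - c)} := by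
  have ha : 0 < a := ht.1
  have ha2 : 0 < a ^ 2 := by positivity
  have hK : Body K := ⟨hc, hcomp, goalINT factTB v a K ht hc hcomp hadm⟩
  by_cases hball : ∃ c, frontier K = {x | (x - c) ⬝ᵥ (x - c) = 3 * a ^ 2 / 8}
  · exact Or.inl hball
  right
  -- vertex pivots are dense
  have hdense : ∀ U0 : Set M3, IsOpen U0 → (U0 ∩ (SO3 : Set M3)).Nonempty →
      ∃ j, r j = a ^ 2 ∧ ∃ R ∈ U0, R ∈ SO3 ∧ ∃ i0, ∀ i, z j + R *ᵥ (v i - v i0) ∈ frontier K := by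
    intro U0 hU0 hne0
    obtain ⟨i0, c, w, U, hU, hUU0, hne, hp, hs1, hs2⟩ := localStructure factB8 factB10 factB11a
      factB11d factLIN factTB v a K ht hcomp U0 hU0 hne0 n k z r hn (by
        intro R _ hR
        obtain ⟨t, h⟩ := hadm R hR
        refine ⟨t, fun i => ⟨h i, ?_⟩⟩
        rcases hcov (h i) with h' | h'
        · left
          exact Set.mem_iUnion.1 h'
        · right
          exact Set.mem_iUnion.1 h')
    obtain ⟨i1, hi1, -⟩ := exists_ne_ne i0 i0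
    obtain ⟨j1, hz1, hr1⟩ := hs1 i1 hi1
    -- small radii are impossible
    have hsmall : ¬ ∀ i, (v i - w) ⬝ᵥ (v i - w) ≤ 2 * a ^ 2 / 3 := by
      intro hrad
      obtain ⟨hw1, hw2⟩ := factB14 v a w ht hrad
      exact hball ⟨c, pivotRigid factB17 factPR v a K ht hc hcomp hadm c w U hU hne hw1 hw2 hp⟩
    have hbig : ¬ r j1 ≤ 2 * a ^ 2 / 3 := by
      intro hle
      apply hsmall
      have hall : ∀ j, z j = c → r j ≤ 2 * a ^ 2 / 3 := by
        intro j hj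
        rcases h1 j j1 (hj.trans hz1.symm) with h | h
        · rw [h]; exact hle
        · exact h.1
      intro i
      by_cases hi : i = i0
      · rw [hi]
        rcases hs2 with h | ⟨j, hj, h⟩
        · rw [h, sub_self, zero_dotProduct]
          positivity
        · rw [h]
          exact hall j hj
      · obtain ⟨j, hj, h⟩ := hs1 i hi
        rw [h]
        exact hall j hj
    have heq : ∀ j, z j = c → r j = r j1 := by
      intro j hj
      rcases h1 j j1 (hj.trans hz1.symm) with h | h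
      · exact h
      · exact absurd h.2 hbig
    rcases hs2 with h3 | ⟨j', hj', h3⟩
    · refine ⟨j1, ?_, ?_⟩
      · rw [← hr1, ← h3]
        exact ht.2 i1 i0 hi1
      · obtain ⟨R, hRU, hR⟩ := hne
        refine ⟨R, hUU0 hRU, hR, i0, fun i => ?_⟩
        rw [h3, hz1]
        exact hp R hRU hR i
    · exfalso
      have hall : ∀ i, (v i - w) ⬝ᵥ (v i - w) = r j1 := by
        intro i
        by_cases hi : i = i0
        · rw [hi, h3]
          exact heq j' hj'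
        · obtain ⟨j, hj, h⟩ := hs1 i hi
          rw [h]
          exact heq j hj
      obtain ⟨-, hr⟩ := circumcentre ht hall
      apply hbig
      rw [hr]
      linarith
  -- one centre
  obtain ⟨j0, hj0, -⟩ := hdense Set.univ isOpen_univ ⟨1, Set.mem_univ _, SO3_one⟩
  refine ⟨z j0, ?_⟩
  have hdense' : ∀ U0 : Set M3, IsOpen U0 → (U0 ∩ (SO3 : Set M3)).Nonempty →
      ∃ R ∈ U0, R ∈ SO3 ∧ ∃ i0, ∀ i, z j0 + R *ᵥ (v i - v i0) ∈ frontier K := by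
    intro U0 hU0 hne0
    obtain ⟨j, hj, h⟩ := hdense U0 hU0 hne0
    rw [h2 j j0 hj hj0] at h
    exact h
  -- the set of these rotations is closed
  have hcl : IsClosed {R : M3 | ∃ i0, ∀ i, z j0 + R *ᵥ (v i - v i0) ∈ frontier K} := by
    have e : {R : M3 | ∃ i0, ∀ i, z j0 + R *ᵥ (v i - v i0) ∈ frontier K} =
        ⋃ i0 : Fin 4, ⋂ i, (fun R : M3 => z j0 + R *ᵥ (v i - v i0)) ⁻¹' frontier K := by
      ext R
      simp
    rw [e]
    refine isClosed_iUnion_of_finite fun i0 => isClosed_iInter fun i => ?_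
    have hc : Continuous fun R : M3 => z j0 + R *ᵥ (v i - v i0) := by fun_prop
    exact isClosed_frontier.preimage hc
  have hall : ∀ R ∈ SO3, ∃ i0, ∀ i, z j0 + R *ᵥ (v i - v i0) ∈ frontier K := by
    intro R hR
    by_contra hcon
    obtain ⟨R', hR'U, -, hR'⟩ := hdense' _ hcl.isOpen_compl ⟨R, hcon, hR⟩
    exact hR'U hR'
  exact half_of_pivots ht hK (z j0) hall

/-- The sphere has the static property. -/
theorem adm_sphere {v : Fin 4 → V} {a : ℝ} {K : Set V} (ht : Tet v a) {z : V}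
    (h : frontier K = {x | (x - z) ⬝ᵥ (x - z) = 3 * a ^ 2 / 8}) {R : M3} (hR : R ∈ SO3) (i : Fin 4) :
    R *ᵥ v i + (z - R *ᵥ gv v) ∈ frontier K := by
  obtain ⟨-, -, h3, -⟩ := factTB v a ht
  rw [h]
  show (R *ᵥ v i + (z - R *ᵥ gv v) - z) ⬝ᵥ (R *ᵥ v i + (z - R *ᵥ gv v) - z) = _
  have e : R *ᵥ v i + (z - R *ᵥ gv v) - z = R *ᵥ (v i - gv v) := by
    rw [Matrix.mulVec_sub]; abel
  rw [e, dot_mulVec hR, h3 i i, if_pos rfl]

/-- The rotation group is path connected. -/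
theorem path_SO3 {R : M3} (hR : R ∈ SO3) : ∃ S : ℝ → M3, ContinuousOn S (Set.Icc 0 1) ∧
    S 0 = 1 ∧ S 1 = R ∧ ∀ s ∈ Set.Icc (0 : ℝ) 1, S s ∈ SO3 := by
  obtain ⟨hq1, hq2⟩ := Pool.Agent.Helper27.SP.goalB2
  obtain ⟨q0, hq0n, hq0R⟩ := hq2 R hR
  -- the sign
  obtain ⟨q, hqn, hqR, hqpos⟩ : ∃ q : Fin 4 → ℝ, nq q = 1 ∧ Mq q = R ∧ 0 ≤ q 0 := by
    rcases le_total 0 (q0 0) with h | h
    · exact ⟨q0, hq0n, hq0R, h⟩
    · refine ⟨-q0, ?_, ?_, ?_⟩
      · rw [← hq0n]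
        simp only [nq, Pi.neg_apply, neg_sq]
      · rw [← hq0R]
        ext i j
        fin_cases i <;> fin_cases j <;> simp [Mq]
      · simpa using h
  let e : Fin 4 → ℝ := ![1, 0, 0, 0]
  let c : ℝ → Fin 4 → ℝ := fun s => (1 - s) • e + s • q
  have hc : Continuous c := by
    show Continuous fun s : ℝ => (1 - s) • e + s • q
    fun_prop
  have hcpos : ∀ s ∈ Set.Icc (0 : ℝ) 1, nq (c s) ≠ 0 := by
    intro s hs h0
    rcases eq_or_lt_of_le hs.2 with h | h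
    · have : c s = q := by simp [c, h]
      rw [this, hqn] at h0
      norm_num at h0
    · have h1 : 0 < c s 0 := by
        have : c s 0 = (1 - s) + s * q 0 := by
          show (1 - s) * e 0 + s * q 0 = (1 - s) + s * q 0
          simp [e]
        rw [this]
        have := mul_nonneg hs.1 hqpos
        linarith
      simp only [nq] at h0
      nlinarith [sq_nonneg (c s 1), sq_nonneg (c s 2), sq_nonneg (c s 3), pow_pos h1 2]
  have hMc : Continuous fun s => Mq (c s) := by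
    have hci : ∀ i, Continuous fun s => c s i := fun i => (continuous_apply i).comp hc
    refine continuous_matrix fun i j => ?_
    have h0 := hci 0
    have h1 := hci 1
    have h2 := hci 2
    have h3 := hci 3
    fin_cases i <;> fin_cases j <;> simp [Mq] <;> fun_prop
  have hnc : Continuous fun s => nq (c s) := by
    have hci : ∀ i, Continuous fun s => c s i := fun i => (continuous_apply i).comp hc
    have h0 := hci 0
    have h1 := hci 1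
    have h2 := hci 2
    have h3 := hci 3
    simp only [nq]
    fun_prop
  refine ⟨fun s => (nq (c s))⁻¹ • Mq (c s), ?_, ?_, ?_, ?_⟩
  · exact (hnc.continuousOn.inv₀ hcpos).smul hMc.continuousOn
  · have h1 : c 0 = e := by simp [c]
    have h2 : nq e = 1 := by simp [nq, e]
    show (nq (c 0))⁻¹ • Mq (c 0) = 1
    rw [h1, h2, inv_one, one_smul]
    ext i j
    fin_cases i <;> fin_cases j <;> simp [Mq, e]
  · have h1 : c 1 = q := by simp [c]
    show (nq (c 1))⁻¹ • Mq (c 1) = R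
    rw [h1, hqn, inv_one, one_smul, hqR]
  · intro s hs
    exact hq1 (c s) (hcpos s hs)

/-- The sphere has the continuous property. -/
theorem mot_sphere {v : Fin 4 → V} {a : ℝ} {K : Set V} (ht : Tet v a) {z : V}
    (h : frontier K = {x | (x - z) ⬝ᵥ (x - z) = 3 * a ^ 2 / 8}) : Mot v K := by
  refine ⟨1, z - (1 : M3) *ᵥ gv v, SO3_one, fun i => adm_sphere ht h SO3_one i, ?_⟩
  intro R hR
  obtain ⟨S, hS, hS0, hS1, hSs⟩ := path_SO3 hR
  refine ⟨S, fun s => z - S s *ᵥ gv v, hS, ?_, hS0, ?_, hS1, ?_⟩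
  · have h1 : Continuous fun M : M3 => z - M *ᵥ gv v := by fun_prop
    exact h1.comp_continuousOn hS
  · show z - S 0 *ᵥ gv v = z - (1 : M3) *ᵥ gv v
    rw [hS0]
  · intro s hs
    exact ⟨hSs s hs, fun i => adm_sphere ht h (hSs s hs) i⟩

theorem Mot.adm {v : Fin 4 → V} {K : Set V} (h : Mot v K) : Adm v K := by
  obtain ⟨R₀, t₀, -, -, hall⟩ := h
  intro R hR
  obtain ⟨S, t, -, -, -, -, hS1, hs⟩ := hall R hR
  refine ⟨t 1, fun i => ?_⟩
  have := (hs 1 ⟨zero_le_one, le_rfl⟩).2 i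
  rw [hS1] at this
  exact this

/-- A half ball in general position. -/
theorem half_general {a : ℝ} {z m : V} (hm : m ≠ 0) {K : Set V}
    (hK : K = {x | (x - z) ⬝ᵥ (x - z) ≤ a ^ 2 ∧ 0 ≤ m ⬝ᵥ (x - z)}) :
    ∃ Q ∈ SO3, ∀ x, x ∈ frontier K ↔ Qᵀ *ᵥ (x - z) ∈ frontier (half a) := by
  obtain ⟨Q, hQ, hQe⟩ := exists_rot (proj_sph hm)
  have hQt : Q * Qᵀ = 1 := ((mem_SO3 Q).1 hQ).1
  let Φ : V ≃ₜ V :=
    { toFun := fun x => Qᵀ *ᵥ (x - z)
      invFun := fun y => Q *ᵥ y + z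
      left_inv := fun x => by
        show Q *ᵥ (Qᵀ *ᵥ (x - z)) + z = x
        rw [Matrix.mulVec_mulVec, hQt, Matrix.one_mulVec]; abel
      right_inv := fun y => by
        show Qᵀ *ᵥ (Q *ᵥ y + z - z) = y
        rw [add_sub_cancel_right, Matrix.mulVec_mulVec, SO3_left hQ, Matrix.one_mulVec]
      continuous_toFun := by
        show Continuous fun x : V => Qᵀ *ᵥ (x - z)
        fun_prop
      continuous_invFun := by
        show Continuous fun y : V => Q *ᵥ y + z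
        fun_prop }
  have hpre : K = Φ ⁻¹' (half a) := by
    rw [hK]
    ext x
    show ((x - z) ⬝ᵥ (x - z) ≤ a ^ 2 ∧ 0 ≤ m ⬝ᵥ (x - z)) ↔
      ((Qᵀ *ᵥ (x - z)) ⬝ᵥ (Qᵀ *ᵥ (x - z)) ≤ a ^ 2 ∧ 0 ≤ (Qᵀ *ᵥ (x - z)) 2)
    rw [dot_mulVec (SO3_transpose hQ)]
    have h2 : (Qᵀ *ᵥ (x - z)) 2 = proj m ⬝ᵥ (x - z) := by
      have e1 : (Qᵀ *ᵥ (x - z)) 2 = (Pool.Agent.Helper26.LU.e 0) ⬝ᵥ (Qᵀ *ᵥ (x - z)) := by
        rw [Pool.Agent.Helper26.LU.e0]
        simp [dotProduct, Fin.sum_univ_three]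
      rw [e1, ← dot_mulVec hQ, hQe, Matrix.mulVec_mulVec, hQt, Matrix.one_mulVec]
    have h3 : proj m ⬝ᵥ (x - z) = (nrm m)⁻¹ * (m ⬝ᵥ (x - z)) := by
      simp only [proj, smul_dotProduct, smul_eq_mul]
    rw [h2, h3, mul_nonneg_iff_of_pos_left (inv_pos.2 (nrm_pos hm))]
  refine ⟨Q, hQ, fun x => ?_⟩
  rw [hpre, ← Φ.preimage_frontier]
  rfl

theorem adm_half {v : Fin 4 → V} {a : ℝ} (ht : Tet v a) {z m : V} (hm : m ≠ 0) {K : Set V}
    (hK : K = {x | (x - z) ⬝ᵥ (x - z) ≤ a ^ 2 ∧ 0 ≤ m ⬝ᵥ (x - z)}) : Adm v K := by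
  obtain ⟨Q, hQ, hfr⟩ := half_general hm hK
  have hQt : Q * Qᵀ = 1 := ((mem_SO3 Q).1 hQ).1
  intro R hR
  obtain ⟨t, h⟩ := (factHBS v a ht).1 (Qᵀ * R) (SO3_mul (SO3_transpose hQ) hR)
  refine ⟨z + Q *ᵥ t, fun i => ?_⟩
  rw [hfr]
  have e : Qᵀ *ᵥ (R *ᵥ v i + (z + Q *ᵥ t) - z) = (Qᵀ * R) *ᵥ v i + t := by
    have e1 : R *ᵥ v i + (z + Q *ᵥ t) - z = R *ᵥ v i + Q *ᵥ t := by abel
    rw [e1, Matrix.mulVec_add, Matrix.mulVec_mulVec, Matrix.mulVec_mulVec, SO3_left hQ,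
      Matrix.one_mulVec]
  rw [e]
  exact h i

theorem not_mot_half {v : Fin 4 → V} {a : ℝ} (ht : Tet v a) {z m : V} (hm : m ≠ 0) {K : Set V}
    (hK : K = {x | (x - z) ⬝ᵥ (x - z) ≤ a ^ 2 ∧ 0 ≤ m ⬝ᵥ (x - z)}) : ¬ Mot v K := by
  obtain ⟨Q, hQ, hfr⟩ := half_general hm hK
  have hQt : Q * Qᵀ = 1 := ((mem_SO3 Q).1 hQ).1
  rintro ⟨R₀, t₀, hR₀, h₀, hall⟩
  apply factHBM v a ht
  have e : ∀ (R : M3) (t : V) (i : Fin 4), R *ᵥ v i + t ∈ frontier K →
      (Qᵀ * R) *ᵥ v i + Qᵀ *ᵥ (t - z) ∈ frontier (half a) := by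
    intro R t i h
    rw [hfr] at h
    have e1 : Qᵀ *ᵥ (R *ᵥ v i + t - z) = (Qᵀ * R) *ᵥ v i + Qᵀ *ᵥ (t - z) := by
      rw [← Matrix.mulVec_mulVec, ← Matrix.mulVec_add]
      congr 1
      abel
    rw [e1] at h
    exact h
  refine ⟨Qᵀ * R₀, Qᵀ *ᵥ (t₀ - z), SO3_mul (SO3_transpose hQ) hR₀, fun i => e _ _ i (h₀ i), ?_⟩
  intro R hR
  obtain ⟨S, t, hS, ht', hS0, ht0, hS1, hs⟩ := hall (Q * R) (SO3_mul hQ hR)
  refine ⟨fun s => Qᵀ * S s, fun s => Qᵀ *ᵥ (t s - z), ?_, ?_, ?_, ?_, ?_, ?_⟩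
  · have h1 : Continuous fun M : M3 => Qᵀ * M := by fun_prop
    exact h1.comp_continuousOn hS
  · have h1 : Continuous fun x : V => Qᵀ *ᵥ (x - z) := by fun_prop
    exact h1.comp_continuousOn ht'
  · show Qᵀ * S 0 = Qᵀ * R₀
    rw [hS0]
  · show Qᵀ *ᵥ (t 0 - z) = Qᵀ *ᵥ (t₀ - z)
    rw [ht0]
  · show Qᵀ * S 1 = R
    rw [hS1, ← Matrix.mul_assoc, SO3_left hQ, Matrix.one_mul]
  · intro s hs'
    exact ⟨SO3_mul (SO3_transpose hQ) (hs s hs').1, fun i => e _ _ i ((hs s hs').2 i)⟩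

/-- Classification for planes and spheres. -/
theorem classification {v : Fin 4 → V} {a : ℝ} {K : Set V} (ht : Tet v a) (hc : Convex ℝ K)
    (hcomp : IsCompact K) (n : ℕ → V) (k : ℕ → ℝ) (z : ℕ → V) (r : ℕ → ℝ) (hn : ∀ j, n j ≠ 0)
    (h1 : ∀ i j, z i = z j → r i = r j ∨ (r i ≤ 2 * a ^ 2 / 3 ∧ r j ≤ 2 * a ^ 2 / 3))
    (h2 : ∀ i j, r i = a ^ 2 → r j = a ^ 2 → z i = z j)
    (hcov : frontier K ⊆ (⋃ j, {x | n j ⬝ᵥ x = k j}) ∪ ⋃ j, {x | (x - z j) ⬝ᵥ (x - z j) = r j}) :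
    (Adm v K ↔ ((∃ c, frontier K = {x | (x - c) ⬝ᵥ (x - c) = 3 * a ^ 2 / 8}) ∨
      ∃ c m : V, m ≠ 0 ∧ K = {x | (x - c) ⬝ᵥ (x - c) ≤ a ^ 2 ∧ 0 ≤ m ⬝ᵥ (x - c)})) ∧
    (Mot v K ↔ ∃ c, frontier K = {x | (x - c) ⬝ᵥ (x - c) = 3 * a ^ 2 / 8}) := by
  refine ⟨⟨fun h => piecewise ht hc hcomp h n k z r hn h1 h2 hcov, ?_⟩, ?_,
    fun ⟨c, h⟩ => mot_sphere ht h⟩
  · rintro (⟨c, h⟩ | ⟨c, m, hm, h⟩)
    · exact fun R hR => ⟨_, fun i => adm_sphere ht h hR i⟩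
    · exact adm_half ht hm h
  · intro h
    rcases piecewise ht hc hcomp h.adm n k z r hn h1 h2 hcov with h' | ⟨c, m, hm, h'⟩
    · exact h'
    · exact absurd h (not_mot_half ht hm h')

end Pool.Agent.Helper82.SP
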