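import Pool.Agent.Helper82.SP.OS3

/-!
# Project SP: vertex pivots at several centres, `K` contained in the balls
-/

set_option autoImplicit false

namespace Pool.Agent.Helper82.SP

open Matrix Real
open Pool.Agent.Helper26.LU (V M3 SO3 nrm sph proj Bm Rot crossM nrm_sq nrm_nonneg nrm_sph
  nrm_pos proj_sph proj_self nrm_proj nrm_add_le nrm_smul nrm_neg nrm_sub_comm abs_nrm_sub
  nrm_continuous dot_le norm_le_nrm nrm_le_norm sph_norm_le mem_SO3 SO3_left SO3_transpose
  SO3_mul SO3_one dot_mulVec mulVec_sph exists_rot isClosed_SO3 isCompact_SO3 Bm_SO3 Bm_mulVec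
  Bm_self proj_continuousOn sph_ne)

theorem dot_add_self (x y : V) : (x + y) ⬝ᵥ (x + y) = x ⬝ᵥ x + 2 * (x ⬝ᵥ y) + y ⬝ᵥ y := by
  rw [add_dotProduct, dotProduct_add, dotProduct_add, dotProduct_comm y x]
  ring

theorem dot_self_nonneg (x : V) : 0 ≤ x ⬝ᵥ x := by
  rw [← nrm_sq]; positivity

theorem eq_zero_of_dot {x : V} (h : x ⬝ᵥ x ≤ 0) : x = 0 :=
  dotProduct_self_eq_zero.1 (le_antisymm h (dot_self_nonneg x))

/-- The closed half ball is contained in a closed convex set that contains the centre and the open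
hemisphere. -/
theorem half_subset {a : ℝ} (ha : 0 < a) {K : Set V} (hcl : IsClosed K) (hconv : Convex ℝ K)
    {z m : V} (hm0 : m ≠ 0) (hz : z ∈ K) (hhem : ∀ u ∈ sph, 0 < m ⬝ᵥ u → z + a • u ∈ K) :
    {x | (x - z) ⬝ᵥ (x - z) ≤ a ^ 2 ∧ 0 ≤ m ⬝ᵥ (x - z)} ⊆ K := by
  have hopen : ∀ x, nrm (x - z) ≤ a → 0 < m ⬝ᵥ (x - z) → x ∈ K := by
    intro x hx hmx
    have hne : x - z ≠ 0 := by
      intro h
      rw [h, dotProduct_zero] at hmx
      exact lt_irrefl _ hmx
    have hpos := nrm_pos hne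
    have hu := proj_sph hne
    have hmu : 0 < m ⬝ᵥ proj (x - z) := by
      simp only [proj, dotProduct_smul, smul_eq_mul]
      exact mul_pos (inv_pos.2 hpos) hmx
    have h1 := hhem _ hu hmu
    have h3 : x = (1 - nrm (x - z) / a) • z + (nrm (x - z) / a) • (z + a • proj (x - z)) := by
      have h4 := nrm_proj (x - z) hne
      have h5 : (nrm (x - z) / a) • (a • proj (x - z)) = x - z := by
        rw [smul_smul, div_mul_cancel₀ _ ha.ne', h4]
      rw [smul_add, h5]
      module
    rw [h3]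
    exact hconv hz h1 (by rw [sub_nonneg, div_le_one ha]; exact hx) (by positivity) (by ring)
  have hmm : 0 < m ⬝ᵥ m := by
    rw [← nrm_sq]
    have := nrm_pos hm0
    positivity
  have hpm : 0 < m ⬝ᵥ proj m := by
    simp only [proj, dotProduct_smul, smul_eq_mul]
    exact mul_pos (inv_pos.2 (nrm_pos hm0)) hmm
  rintro x ⟨hx1, hx2⟩
  rw [dot_le_sq_iff ha] at hx1
  have hlim : Filter.Tendsto (fun s : ℝ => z + ((1 - s) • (x - z) + s • (a • proj m)))
      (nhdsWithin 0 (Set.Ioi 0)) (nhds x) := by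
    have hc : Continuous fun s : ℝ => z + ((1 - s) • (x - z) + s • (a • proj m)) := by fun_prop
    have h1 := hc.tendsto 0
    have h2 : z + (((1 : ℝ) - 0) • (x - z) + (0 : ℝ) • (a • proj m)) = x := by
      rw [sub_zero, one_smul, zero_smul, add_zero]; abel
    rw [h2] at h1
    exact h1.mono_left nhdsWithin_le_nhds
  refine hcl.mem_of_tendsto hlim ?_
  have hev : Set.Ioo (0 : ℝ) 1 ∈ nhdsWithin (0 : ℝ) (Set.Ioi 0) :=
    Ioo_mem_nhdsGT (by norm_num)
  filter_upwards [hev] with s hs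
  apply hopen
  · rw [add_sub_cancel_left]
    refine (nrm_add_le _ _).trans ?_
    rw [nrm_smul, nrm_smul, nrm_smul, nrm_sph (proj_sph hm0), abs_of_pos hs.1, abs_of_pos ha,
      abs_of_pos (by linarith [hs.2] : (0 : ℝ) < 1 - s)]
    have : (1 - s) * nrm (x - z) ≤ (1 - s) * a :=
      mul_le_mul_of_nonneg_left hx1 (by linarith [hs.2])
    linarith
  · rw [add_sub_cancel_left, dotProduct_add, dotProduct_smul, dotProduct_smul, dotProduct_smul]
    simp only [smul_eq_mul]
    have h3 : 0 ≤ (1 - s) * (m ⬝ᵥ (x - z)) := mul_nonneg (by linarith [hs.2]) hx2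
    have h4 : 0 < s * (a * (m ⬝ᵥ proj m)) := mul_pos hs.1 (mul_pos ha hpm)
    linarith

/-- A unit vector of the closed cap is a limit of unit vectors of the open cap. -/
theorem closed_cap {a γ : ℝ} {K : Set V} (hcl : IsClosed K) {z n : V} (hn : n ∈ sph)
    (hγ0 : 0 ≤ γ) (hγ1 : γ < 1) (h : ∀ u ∈ sph, γ < n ⬝ᵥ u → z + a • u ∈ K) {u : V}
    (hu : u ∈ sph) (hnu : γ ≤ n ⬝ᵥ u) : z + a • u ∈ K := by
  rcases eq_or_lt_of_le hnu with heq | hlt
  · have huu : u ⬝ᵥ u = 1 := hu
    have hnn : n ⬝ᵥ n = 1 := hn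
    have hlim : Filter.Tendsto (fun s : ℝ => z + a • proj (u + s • n))
        (nhdsWithin 0 (Set.Ioi 0)) (nhds (z + a • u)) := by
      have h1 : ContinuousAt (fun s : ℝ => u + s • n) 0 := by fun_prop
      have h2 : ContinuousAt proj (u + (0 : ℝ) • n) := by
        apply proj_continuousOn.continuousAt
        rw [zero_smul, add_zero]
        exact isOpen_ne.mem_nhds (sph_ne hu)
      have h3 : ContinuousAt (fun s : ℝ => z + a • proj (u + s • n)) 0 := by
        have h4 : ContinuousAt (fun s : ℝ => proj (u + s • n)) 0 :=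
          ContinuousAt.comp (f := fun s : ℝ => u + s • n) (x := 0) h2 h1
        exact continuousAt_const.add (h4.const_smul a)
      have h5 := h3.tendsto
      simp only [zero_smul, add_zero, proj_self hu] at h5
      exact h5.mono_left nhdsWithin_le_nhds
    refine hcl.mem_of_tendsto hlim ?_
    have hev : Set.Ioo (0 : ℝ) 1 ∈ nhdsWithin (0 : ℝ) (Set.Ioi 0) :=
      Ioo_mem_nhdsGT (by norm_num)
    filter_upwards [hev] with s hs
    have hs0 := hs.1
    have hsq : (u + s • n) ⬝ᵥ (u + s • n) = 1 + 2 * s * γ + s ^ 2 := by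
      rw [dot_add_self, dotProduct_smul, smul_dotProduct, dotProduct_smul, huu, hnn,
        dotProduct_comm u n, ← heq]
      simp only [smul_eq_mul]
      ring
    have hpos : 0 < (u + s • n) ⬝ᵥ (u + s • n) := by
      rw [hsq]
      have : 0 ≤ 2 * s * γ := by positivity
      nlinarith [sq_nonneg s]
    have hne : u + s • n ≠ 0 := by
      intro h0
      rw [h0, zero_dotProduct] at hpos
      exact lt_irrefl _ hpos
    refine h _ (proj_sph hne) ?_
    have hN := nrm_pos hne
    have hN2 := nrm_sq (u + s • n)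
    rw [hsq] at hN2
    simp only [proj, dotProduct_smul, dotProduct_add, smul_eq_mul]
    rw [← heq, hnn, mul_one, lt_inv_mul_iff₀ hN]
    have h6 : (nrm (u + s • n) * γ) ^ 2 < (γ + s) ^ 2 := by
      rw [mul_pow, hN2]
      have h7 : 0 < 1 - γ ^ 2 := by nlinarith
      have h8 : 0 < s ^ 2 * (1 - γ ^ 2) := by positivity
      have h9 : 0 ≤ 2 * s * γ * (1 - γ ^ 2) := by positivity
      nlinarith
    exact lt_of_pow_lt_pow_left₀ 2 (by positivity) h6
  · exact h u hu hlt

end Pool.Agent.Helper82.SP
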