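import Pool.Agent.Helper82.SP.OS4

/-!
# Project SP: vertex pivots at several centres, `K` contained in the balls (main step)
-/

set_option autoImplicit false

namespace Pool.Agent.Helper82.SP

open Matrix Real
open Pool.Agent.Helper26.LU (V M3 SO3 nrm sph proj Bm Rot crossM nrm_sq nrm_nonneg nrm_sph
  nrm_pos proj_sph proj_self nrm_proj nrm_add_le nrm_smul nrm_neg nrm_sub_comm abs_nrm_sub
  nrm_continuous dot_le norm_le_nrm nrm_le_norm sph_norm_le mem_SO3 SO3_left SO3_transpose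
  SO3_mul SO3_one dot_mulVec mulVec_sph exists_rot isClosed_SO3 isCompact_SO3 Bm_SO3 Bm_mulVec
  Bm_self proj_continuousOn sph_ne)

/-- Numbers for the mode at the neighbouring vertex on the boundary of the cap. -/
theorem num_mode1 {a γ σ ν X Y Q : ℝ} (ha : 0 < a) (hγ : 0 < γ) (hγ2 : γ ≤ 1 / 2) (hσ : 0 < σ)
    (hσγ : σ ^ 2 = 1 - γ ^ 2) (hν : 0 < ν) (hν2 : ν ^ 2 = 2 * a ^ 2) (hQ : X ^ 2 + Y ^ 2 ≤ Q)
    (h1 : 0 ≤ γ * X + σ * Y) (h2 : Q + a * X + ν * Y ≤ 0)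
    (h3 : 4 * a ^ 2 * σ ^ 2 - 4 * a * σ * (γ * Y - σ * X) + Q ≤ a ^ 2) : False := by
  obtain ⟨t, ht⟩ : ∃ t, t = γ * Y - σ * X := ⟨_, rfl⟩
  obtain ⟨m, hm⟩ : ∃ m, m = γ * X + σ * Y := ⟨_, rfl⟩
  have hX : X = γ * m - σ * t := by
    rw [ht, hm]
    linear_combination (-X) * hσγ
  have hY : Y = σ * m + γ * t := by
    rw [ht, hm]
    linear_combination (-Y) * hσγ
  have hQ' : m ^ 2 + t ^ 2 ≤ Q := by
    have : X ^ 2 + Y ^ 2 = m ^ 2 + t ^ 2 := by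
      rw [hX, hY]
      linear_combination (m ^ 2 + t ^ 2) * hσγ
    linarith
  rw [← ht] at h3
  rw [← hm] at h1
  -- the lower bound for `t`
  have hσ2 : 1 / 2 < σ := by nlinarith
  have h4 : (2 * a * σ - t) ^ 2 ≤ a ^ 2 := by nlinarith [sq_nonneg m]
  have h5 : 2 * a * σ - t ≤ a := by
    by_contra hcon
    push Not at hcon
    nlinarith
  have ht0 : 0 < t := by nlinarith
  -- the upper bound
  have h6 : t ≤ a * σ - ν * γ := by
    have h7 : t ^ 2 ≤ t * (a * σ - ν * γ) := by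
      have h8 : Q + a * (γ * m - σ * t) + ν * (σ * m + γ * t) ≤ 0 := by
        rw [← hX, ← hY]; exact h2
      have h9 : 0 ≤ m * (a * γ + ν * σ) := by positivity
      nlinarith [sq_nonneg m]
    rw [sq] at h7
    exact le_of_mul_le_mul_left h7 ht0
  have h10 : a * σ ≤ a - ν * γ := by linarith
  have h11 : (a * σ) ^ 2 ≤ (a - ν * γ) ^ 2 := pow_le_pow_left₀ (by positivity) h10 2
  have h12 : a * ν * γ * 2 ≤ 3 * a ^ 2 * γ ^ 2 := by
    have e1 : (a * σ) ^ 2 = a ^ 2 - a ^ 2 * γ ^ 2 := by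
      rw [mul_pow, hσγ]; ring
    have e2 : (a - ν * γ) ^ 2 = a ^ 2 - 2 * (a * ν * γ) + 2 * a ^ 2 * γ ^ 2 := by
      linear_combination γ ^ 2 * hν2
    rw [e1, e2] at h11
    linarith
  have h13 : 2 * ν ≤ 3 * a * γ := by
    have h14 : (a * γ) * (2 * ν) ≤ (a * γ) * (3 * a * γ) := by linarith
    exact le_of_mul_le_mul_left h14 (by positivity)
  nlinarith

/-- Numbers for the modes at the other two vertices. -/
theorem num_mode2 {a γ σ ν : ℝ} (ha : 0 < a) (hγ : 0 < γ) (hγ2 : γ ≤ 1 / 2) (hσ : 0 < σ)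
    (hσγ : σ ^ 2 = 1 - γ ^ 2) (hν : 0 < ν) (hν2 : ν ^ 2 = 2 * a ^ 2)
    (h : a / 2 ≤ 2 * γ * ((γ * a + σ * ν) / 2) - a / 2) : False := by
  have h1 : a * σ ^ 2 ≤ γ * σ * ν := by
    rw [hσγ]; nlinarith
  have h2 : a * σ ≤ γ * ν := by
    have : σ * (a * σ) ≤ σ * (γ * ν) := by nlinarith
    exact le_of_mul_le_mul_left this hσ
  have h3 : (a * σ) ^ 2 ≤ (γ * ν) ^ 2 := pow_le_pow_left₀ (by positivity) h2 2
  rw [mul_pow, mul_pow, hσγ, hν2] at h3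
  have h4 : 0 < a ^ 2 := by positivity
  have h5 : 0 < 1 - 3 * γ ^ 2 := by nlinarith
  have h6 := mul_pos h4 h5
  linarith

/-- Two edges at a vertex. -/
theorem edge_dot {v : Fin 4 → V} {a : ℝ} (ht : Tet v a) {i j k : Fin 4} (hik : i ≠ k) (hjk : j ≠ k)
    (hij : i ≠ j) : (v i - v k) ⬝ᵥ (v j - v k) = a ^ 2 / 2 := by
  have h1 := ht.2 i j hij
  have h2 := ht.2 i k hik
  have h3 := ht.2 j k hjk
  have e : v i - v j = (v i - v k) + (-(v j - v k)) := by abel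
  rw [e, dot_add_self, dotProduct_neg, neg_dotProduct, dotProduct_neg, h2, h3] at h1
  linarith

/-- The component of a unit vector perpendicular to another. -/
theorem split_unit {n u : V} (hn : n ∈ sph) (hu : u ∈ sph) : ∃ y ∈ sph, u ⬝ᵥ y = 0 ∧
    ∃ σ : ℝ, 0 ≤ σ ∧ n = (n ⬝ᵥ u) • u + σ • y ∧ σ ^ 2 = 1 - (n ⬝ᵥ u) ^ 2 := by
  have hnn : n ⬝ᵥ n = 1 := hn
  have huu : u ⬝ᵥ u = 1 := hu
  have hself : (n - (n ⬝ᵥ u) • u) ⬝ᵥ (n - (n ⬝ᵥ u) • u) = 1 - (n ⬝ᵥ u) ^ 2 := by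
    rw [sub_dotProduct, dotProduct_sub, dotProduct_sub, smul_dotProduct, smul_dotProduct,
      dotProduct_smul, dotProduct_smul, huu, hnn, dotProduct_comm u n]
    simp only [smul_eq_mul]
    ring
  by_cases hm : n - (n ⬝ᵥ u) • u = 0
  · obtain ⟨y, hy, hyu⟩ := exists_perp hu
    refine ⟨y, hy, by rw [dotProduct_comm]; exact hyu, 0, le_rfl, ?_, ?_⟩
    · rw [zero_smul, add_zero]
      exact sub_eq_zero.1 hm
    · rw [← hself, hm, zero_dotProduct]; norm_num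
  · refine ⟨proj (n - (n ⬝ᵥ u) • u), proj_sph hm, ?_, nrm (n - (n ⬝ᵥ u) • u), nrm_nonneg _, ?_, ?_⟩
    · simp only [proj, dotProduct_smul, dotProduct_sub, smul_eq_mul]
      rw [huu, dotProduct_comm u n]; ring
    · rw [nrm_proj _ hm]; abel
    · rw [nrm_sq, hself]

/-- The cap of radius sixty degrees. -/
theorem cap60 {v : Fin 4 → V} {a : ℝ} (ht : Tet v a) {K : Set V} {z n : V} (hn : n ∈ sph)
    (hnK : ∀ x ∈ K, 0 ≤ n ⬝ᵥ (x - z)) (hball : ∀ x ∈ K, (x - z) ⬝ᵥ (x - z) ≤ a ^ 2)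
    (hV : ∀ R ∈ SO3, ∃ c, ∃ i0, ∀ i, c + R *ᵥ (v i - v i0) ∈ K) {u : V} (hu : u ∈ sph)
    (hnu : 1 / 2 ≤ n ⬝ᵥ u) : z + a • u ∈ K := by
  have ha : 0 < a := ht.1
  obtain ⟨e1, he1⟩ : ∃ e, e = v 1 - v 0 := ⟨_, rfl⟩
  obtain ⟨e2, he2⟩ : ∃ e, e = v 2 - v 0 := ⟨_, rfl⟩
  have h11 : e1 ⬝ᵥ e1 = a ^ 2 := by rw [he1]; exact ht.2 1 0 (by decide)
  have h22 : e2 ⬝ᵥ e2 = a ^ 2 := by rw [he2]; exact ht.2 2 0 (by decide)
  have h12 : e1 ⬝ᵥ e2 = a ^ 2 / 2 := by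
    rw [he1, he2]; exact edge_dot ht (by decide) (by decide) (by decide)
  obtain ⟨s, hs⟩ : ∃ s, s = e2 - (1 / 2 : ℝ) • e1 := ⟨_, rfl⟩
  have hs1 : e1 ⬝ᵥ s = 0 := by
    rw [hs, dotProduct_sub, dotProduct_smul, h12, h11, smul_eq_mul]; ring
  have hss : s ⬝ᵥ s = 3 * a ^ 2 / 4 := by
    rw [hs, sub_dotProduct, dotProduct_sub, dotProduct_sub, smul_dotProduct, smul_dotProduct,
      dotProduct_smul, dotProduct_smul, dotProduct_comm e2 e1, h11, h22, h12]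
    simp only [smul_eq_mul]
    ring
  have ha2 : 0 < a ^ 2 := by positivity
  have he10 : e1 ≠ 0 := by
    intro h
    rw [h, zero_dotProduct] at h11
    linarith
  have hs0 : s ≠ 0 := by
    intro h
    rw [h, zero_dotProduct] at hss
    linarith
  have hne1 : nrm e1 = a := by
    have h := nrm_sq e1
    rw [h11] at h
    exact (pow_left_inj₀ (nrm_nonneg _) ha.le (by norm_num)).1 h
  have hpe : a • proj e1 = e1 := by
    have := nrm_proj e1 he10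
    rw [hne1] at this
    exact this
  have hps : nrm s • proj s = s := nrm_proj s hs0
  have hν := nrm_pos hs0
  have hν2 : nrm s ^ 2 = 3 * a ^ 2 / 4 := by rw [nrm_sq, hss]
  have hperp : proj e1 ⬝ᵥ proj s = 0 := by
    simp only [proj, smul_dotProduct, dotProduct_smul]
    rw [hs1, smul_zero, smul_zero]
  obtain ⟨y, hy, huy, σ, hσ0, hnσ, hσ2⟩ := split_unit hn hu
  obtain ⟨R, hR, hRp, hRq⟩ := exists_rot2 (proj_sph he10) (proj_sph hs0) hu hy hperp huy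
  have hR1 : R *ᵥ e1 = a • u := by rw [← hpe, Matrix.mulVec_smul, hRp]
  have hRs : R *ᵥ s = nrm s • y := by
    conv_lhs => rw [← hps]
    rw [Matrix.mulVec_smul, hRq]
  have hR2 : R *ᵥ e2 = (1 / 2 : ℝ) • (R *ᵥ e1) + nrm s • y := by
    rw [← hRs, hs, Matrix.mulVec_sub, Matrix.mulVec_smul]
    abel
  obtain ⟨c, i0, hc⟩ := hV R hR
  -- the displacement
  obtain ⟨δ, hδ⟩ : ∃ δ, δ = c + R *ᵥ (v 0 - v i0) - z := ⟨_, rfl⟩
  have hpos : ∀ i, z + (δ + R *ᵥ (v i - v 0)) ∈ K := by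
    intro i
    have h1 := hc i
    have e : c + R *ᵥ (v i - v i0) = z + (δ + R *ᵥ (v i - v 0)) := by
      rw [hδ, Matrix.mulVec_sub, Matrix.mulVec_sub, Matrix.mulVec_sub]
      abel
    rw [e] at h1
    exact h1
  have hnδ : 0 ≤ n ⬝ᵥ δ := by
    have h1 := hnK _ (hpos 0)
    rw [sub_self, Matrix.mulVec_zero, add_zero, add_sub_cancel_left] at h1
    exact h1
  have hd1 : δ ⬝ᵥ δ + 2 * (δ ⬝ᵥ (R *ᵥ e1)) ≤ 0 := by
    have h1 := hball _ (hpos 1)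
    rw [add_sub_cancel_left, ← he1, dot_add_self, dot_mulVec hR, h11] at h1
    linarith
  have hd2 : δ ⬝ᵥ δ + 2 * (δ ⬝ᵥ (R *ᵥ e2)) ≤ 0 := by
    have h1 := hball _ (hpos 2)
    rw [add_sub_cancel_left, ← he2, dot_add_self, dot_mulVec hR, h22] at h1
    linarith
  obtain ⟨β, hβ⟩ : ∃ β, β = n ⬝ᵥ u := ⟨_, rfl⟩
  rw [← hβ] at hnσ hσ2 hnu
  -- everything in terms of `δ ⬝ᵥ u`, `δ ⬝ᵥ y`
  have e1' : δ ⬝ᵥ (R *ᵥ e1) = a * (δ ⬝ᵥ u) := by rw [hR1, dotProduct_smul, smul_eq_mul]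
  have e2' : δ ⬝ᵥ (R *ᵥ e2) = a / 2 * (δ ⬝ᵥ u) + nrm s * (δ ⬝ᵥ y) := by
    rw [hR2, dotProduct_add, dotProduct_smul, dotProduct_smul, e1', smul_eq_mul, smul_eq_mul]
    ring
  have e3' : n ⬝ᵥ δ = β * (δ ⬝ᵥ u) + σ * (δ ⬝ᵥ y) := by
    rw [dotProduct_comm, hnσ, dotProduct_add, dotProduct_smul, dotProduct_smul, smul_eq_mul,
      smul_eq_mul]
  rw [e1'] at hd1
  rw [e2'] at hd2
  rw [e3'] at hnδ
  have hQ0 := dot_self_nonneg δ
  -- `β ν ≥ σ a / 2`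
  have hβν : σ * (a / 2) ≤ β * nrm s := by
    have h1 : (σ * (a / 2)) ^ 2 ≤ (β * nrm s) ^ 2 := by
      rw [mul_pow, mul_pow, hν2, hσ2]
      have hb : 0 ≤ β ^ 2 - 1 / 4 := by nlinarith
      have := mul_nonneg ha2.le hb
      linarith
    exact le_of_sq_le_sq h1 (by positivity)
  have hQ : δ ⬝ᵥ δ ≤ 0 := by
    -- multiply the cone relation by `a * ν`
    have h1 : 0 ≤ (β * (δ ⬝ᵥ u) + σ * (δ ⬝ᵥ y)) * (a * nrm s) := by positivity
    have h2 : (β * (δ ⬝ᵥ u) + σ * (δ ⬝ᵥ y)) * (a * nrm s)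
        = (β * nrm s - σ * (a / 2)) * (a * (δ ⬝ᵥ u)) +
          (σ * a) * (a / 2 * (δ ⬝ᵥ u) + nrm s * (δ ⬝ᵥ y)) := by ring
    have h3 : (β * nrm s - σ * (a / 2)) * (a * (δ ⬝ᵥ u)) ≤
        (β * nrm s - σ * (a / 2)) * (-(δ ⬝ᵥ δ) / 2) :=
      mul_le_mul_of_nonneg_left (by linarith) (by linarith)
    have h4 : (σ * a) * (a / 2 * (δ ⬝ᵥ u) + nrm s * (δ ⬝ᵥ y)) ≤ (σ * a) * (-(δ ⬝ᵥ δ) / 2) :=
      mul_le_mul_of_nonneg_left (by linarith) (by positivity)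
    have h5 : 0 ≤ -(δ ⬝ᵥ δ) / 2 * (β * nrm s + σ * (a / 2)) := by
      rw [h2] at h1
      linarith
    have h6 : 0 < β * nrm s + σ * (a / 2) := by
      have : 0 < β * nrm s := by positivity
      have : 0 ≤ σ * (a / 2) := by positivity
      linarith
    by_contra hcon
    push Not at hcon
    have : -(δ ⬝ᵥ δ) / 2 * (β * nrm s + σ * (a / 2)) < 0 :=
      mul_neg_of_neg_of_pos (by linarith) h6
    linarith
  have hδ0 := eq_zero_of_dot hQ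
  have h1 := hpos 1
  rw [hδ0, zero_add, ← he1, hR1] at h1
  exact h1

end Pool.Agent.Helper82.SP
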