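import Pool.Agent.Helper82.SP.OS5

/-!
# Project SP: vertex pivots at several centres, `K` contained in the balls: the half ball
-/

set_option autoImplicit false

namespace Pool.Agent.Helper82.SP

open Matrix Real
open Pool.Agent.Helper26.LU (V M3 SO3 nrm sph proj Bm Rot crossM nrm_sq nrm_nonneg nrm_sph
  nrm_pos proj_sph proj_self nrm_proj nrm_add_le nrm_smul nrm_neg nrm_sub_comm abs_nrm_sub
  nrm_continuous dot_le norm_le_nrm nrm_le_norm sph_norm_le mem_SO3 SO3_left SO3_transpose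
  SO3_mul SO3_one dot_mulVec mulVec_sph exists_rot isClosed_SO3 isCompact_SO3 Bm_SO3 Bm_mulVec
  Bm_self proj_continuousOn sph_ne)

/-- Rotations with a mode at the vertex `j` and a centre whose ball contains `K`. -/
def Emode (v : Fin 4 → V) (a : ℝ) (K : Set V) (j : Fin 4) : Set M3 :=
  Prod.snd '' {p : V × M3 | p.1 ∈ frontier K ∧ p.2 ∈ (SO3 : Set M3) ∧
    (∀ x ∈ K, (x - p.1) ⬝ᵥ (x - p.1) ≤ a ^ 2) ∧ ∀ i, p.1 + p.2 *ᵥ (v i - v j) ∈ K}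

theorem Emode_closed (v : Fin 4 → V) (a : ℝ) {K : Set V} (hK : IsCompact K) (j : Fin 4) :
    IsClosed (Emode v a K j) := by
  have hKf : IsCompact (frontier K) :=
    hK.of_isClosed_subset isClosed_frontier hK.isClosed.frontier_subset
  apply IsCompact.isClosed
  refine IsCompact.image ?_ continuous_snd
  refine IsCompact.of_isClosed_subset (hKf.prod isCompact_SO3) ?_ fun p hp => ⟨hp.1, hp.2.1⟩
  have e : {p : V × M3 | p.1 ∈ frontier K ∧ p.2 ∈ (SO3 : Set M3) ∧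
      (∀ x ∈ K, (x - p.1) ⬝ᵥ (x - p.1) ≤ a ^ 2) ∧ ∀ i, p.1 + p.2 *ᵥ (v i - v j) ∈ K} =
      (Prod.fst ⁻¹' frontier K) ∩ ((Prod.snd ⁻¹' (SO3 : Set M3)) ∩
      ((⋂ x ∈ K, {p : V × M3 | (x - p.1) ⬝ᵥ (x - p.1) ≤ a ^ 2}) ∩
        ⋂ i, (fun p : V × M3 => p.1 + p.2 *ᵥ (v i - v j)) ⁻¹' K)) := by
    ext p
    simp
  rw [e]
  refine (isClosed_frontier.preimage continuous_fst).inter
    ((isClosed_SO3.preimage continuous_snd).inter (IsClosed.inter ?_ ?_))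
  · refine isClosed_biInter fun x _ => ?_
    exact isClosed_le (by fun_prop) continuous_const
  · refine isClosed_iInter fun i => hK.isClosed.preimage ?_
    fun_prop

theorem mem_Emode {v : Fin 4 → V} {a : ℝ} {K : Set V} {j : Fin 4} {R : M3} :
    R ∈ Emode v a K j ↔ R ∈ SO3 ∧ ∃ c ∈ frontier K, (∀ x ∈ K, (x - c) ⬝ᵥ (x - c) ≤ a ^ 2) ∧
      ∀ i, c + R *ᵥ (v i - v j) ∈ K := by
  constructor
  · rintro ⟨⟨c, R'⟩, ⟨h1, h2, h3, h4⟩, rfl⟩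
    exact ⟨h2, c, h1, h3, h4⟩
  · rintro ⟨h2, c, h1, h3, h4⟩
    exact ⟨(c, R), ⟨h1, h2, h3, h4⟩, rfl⟩

/-- On the boundary of the cap there is no mode at the vertex `1`. -/
theorem no_mode1 {v : Fin 4 → V} {a : ℝ} (ht : Tet v a) {K : Set V} {z n f y : V}
    (hn : n ∈ sph) (hf : f ∈ sph) (hy : y ∈ sph) (hfy : f ⬝ᵥ y = 0) {γ σ ν : ℝ} (hγ : 0 < γ)
    (hγ2 : γ ≤ 1 / 2) (hσ : 0 < σ) (hσγ : σ ^ 2 = 1 - γ ^ 2) (hnf : n = γ • f + σ • y)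
    (hν : 0 < ν) (hν2 : ν ^ 2 = 2 * a ^ 2)
    (hnK : ∀ x ∈ K, 0 ≤ n ⬝ᵥ (x - z)) (hball : ∀ x ∈ K, (x - z) ⬝ᵥ (x - z) ≤ a ^ 2)
    (hcap : ∀ u ∈ sph, γ ≤ n ⬝ᵥ u → z + a • u ∈ K) {R : M3} (hR : R ∈ SO3)
    (hR1 : R *ᵥ (v 1 - v 0) = a • f)
    (hR23 : R *ᵥ (v 2 - v 0) + R *ᵥ (v 3 - v 0) = a • f + ν • y) : R ∉ Emode v a K 1 := by
  intro hE
  obtain ⟨-, c, -, hcK, hc⟩ := mem_Emode.1 hE
  have ha : 0 < a := ht.1
  have hff : f ⬝ᵥ f = 1 := hf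
  have hyy : y ⬝ᵥ y = 1 := hy
  have hnn : n ⬝ᵥ n = 1 := hn
  have hyf : y ⬝ᵥ f = 0 := by rw [dotProduct_comm]; exact hfy
  obtain ⟨τ, hτ⟩ : ∃ τ, τ = c - a • f - z := ⟨_, rfl⟩
  have hpos : ∀ i, z + (τ + R *ᵥ (v i - v 0)) ∈ K := by
    intro i
    have h1 := hc i
    have e : c + R *ᵥ (v i - v 1) = z + (τ + R *ᵥ (v i - v 0)) := by
      rw [hτ, ← hR1, Matrix.mulVec_sub, Matrix.mulVec_sub, Matrix.mulVec_sub]
      abel
    rw [e] at h1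
    exact h1
  have hnτ : 0 ≤ n ⬝ᵥ τ := by
    have h1 := hnK _ (hpos 0)
    rw [sub_self, Matrix.mulVec_zero, add_zero, add_sub_cancel_left] at h1
    exact h1
  have hd : ∀ i, i ≠ 0 → τ ⬝ᵥ τ + 2 * (τ ⬝ᵥ (R *ᵥ (v i - v 0))) ≤ 0 := by
    intro i hi
    have h1 := hball _ (hpos i)
    rw [add_sub_cancel_left, dot_add_self, dot_mulVec hR, ht.2 i 0 hi] at h1
    linarith
  have hd2 := hd 2 (by decide)
  have hd3 := hd 3 (by decide)
  have hsum : τ ⬝ᵥ (R *ᵥ (v 2 - v 0)) + τ ⬝ᵥ (R *ᵥ (v 3 - v 0)) =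
      a * (f ⬝ᵥ τ) + ν * (y ⬝ᵥ τ) := by
    rw [← dotProduct_add, hR23, dotProduct_add, dotProduct_smul, dotProduct_smul, smul_eq_mul,
      smul_eq_mul, dotProduct_comm τ f, dotProduct_comm τ y]
  have hnτ' : n ⬝ᵥ τ = γ * (f ⬝ᵥ τ) + σ * (y ⬝ᵥ τ) := by
    rw [hnf, add_dotProduct, smul_dotProduct, smul_dotProduct, smul_eq_mul, smul_eq_mul]
  -- the reflected point
  have hnf' : n ⬝ᵥ f = γ := by
    rw [hnf, add_dotProduct, smul_dotProduct, smul_dotProduct, hff, hyf, smul_eq_mul, smul_eq_mul]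
    ring
  obtain ⟨g, hg⟩ : ∃ g, g = (2 * γ) • n - f := ⟨_, rfl⟩
  have hgs : g ∈ sph := by
    show g ⬝ᵥ g = 1
    rw [hg, sub_dotProduct, dotProduct_sub, dotProduct_sub, smul_dotProduct, smul_dotProduct,
      dotProduct_smul, dotProduct_smul, hnn, dotProduct_comm f n, hnf', hff]
    simp only [smul_eq_mul]
    ring
  have hng : n ⬝ᵥ g = γ := by
    rw [hg, dotProduct_sub, dotProduct_smul, hnn, hnf', smul_eq_mul]; ring
  have hgf : g - f = (2 * σ) • (γ • y - σ • f) := by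
    have e1 : g - f = (2 * γ * γ - 2) • f + (2 * γ * σ) • y := by
      rw [hg, hnf]; module
    rw [e1]
    have e2 : 2 * γ * γ - 2 = -(2 * σ * σ) := by linarith [hσγ]
    rw [e2]
    module
  have hgK := hcK _ (hcap g hgs hng.ge)
  have e3 : z + a • g - c = (2 * a * σ) • (γ • y - σ • f) + -τ := by
    have e4 : z + a • g - c = a • (g - f) + -τ := by rw [hτ]; module
    rw [e4, hgf, smul_smul]
    congr 2
    ring
  have e5 : (γ • y - σ • f) ⬝ᵥ (γ • y - σ • f) = 1 := by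
    rw [sub_dotProduct, dotProduct_sub, dotProduct_sub, smul_dotProduct, smul_dotProduct,
      smul_dotProduct, smul_dotProduct, dotProduct_smul, dotProduct_smul, dotProduct_smul,
      dotProduct_smul, hyy, hff, hyf, hfy]
    simp only [smul_eq_mul]
    linarith [hσγ]
  have e6 : (γ • y - σ • f) ⬝ᵥ τ = γ * (y ⬝ᵥ τ) - σ * (f ⬝ᵥ τ) := by
    rw [sub_dotProduct, smul_dotProduct, smul_dotProduct, smul_eq_mul, smul_eq_mul]
  rw [e3, dot_add_self, smul_dotProduct, smul_dotProduct, dotProduct_smul, dotProduct_neg,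
    neg_dotProduct, dotProduct_neg, neg_neg, e5, e6] at hgK
  simp only [smul_eq_mul] at hgK
  -- Bessel
  have hQ : (f ⬝ᵥ τ) ^ 2 + (y ⬝ᵥ τ) ^ 2 ≤ τ ⬝ᵥ τ := by
    have h1 := dot_self_nonneg (τ - (f ⬝ᵥ τ) • f - (y ⬝ᵥ τ) • y)
    have e7 : (τ - (f ⬝ᵥ τ) • f - (y ⬝ᵥ τ) • y) ⬝ᵥ (τ - (f ⬝ᵥ τ) • f - (y ⬝ᵥ τ) • y) =
        τ ⬝ᵥ τ - (f ⬝ᵥ τ) ^ 2 - (y ⬝ᵥ τ) ^ 2 := by
      simp only [sub_dotProduct, dotProduct_sub, smul_dotProduct, dotProduct_smul, smul_eq_mul,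
        hff, hyy, hfy, hyf, dotProduct_comm τ f, dotProduct_comm τ y]
      ring
    rw [e7] at h1
    linarith
  rw [hnτ'] at hnτ
  refine num_mode1 ha hγ hγ2 hσ hσγ hν hν2 hQ hnτ (by linarith) ?_
  nlinarith [hgK]

/-- On the boundary of the cap there is no mode at the vertices `2`, `3`. -/
theorem no_mode2 {v : Fin 4 → V} {a : ℝ} (ht : Tet v a) {K : Set V} {z n f y : V}
    (hn : n ∈ sph) (hf : f ∈ sph) (hy : y ∈ sph) (hfy : f ⬝ᵥ y = 0) {γ σ ν : ℝ} (hγ : 0 < γ)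
    (hγ2 : γ ≤ 1 / 2) (hσ : 0 < σ) (hσγ : σ ^ 2 = 1 - γ ^ 2) (hnf : n = γ • f + σ • y)
    (hν : 0 < ν) (hν2 : ν ^ 2 = 2 * a ^ 2)
    (hnK : ∀ x ∈ K, 0 ≤ n ⬝ᵥ (x - z)) (hball : ∀ x ∈ K, (x - z) ⬝ᵥ (x - z) ≤ a ^ 2)
    (hcap : ∀ u ∈ sph, γ ≤ n ⬝ᵥ u → z + a • u ∈ K) {R : M3} (hR : R ∈ SO3)
    (hR1 : R *ᵥ (v 1 - v 0) = a • f)
    (hR23 : R *ᵥ (v 2 - v 0) + R *ᵥ (v 3 - v 0) = a • f + ν • y) {j k : Fin 4}
    (hjk : j = 2 ∧ k = 3 ∨ j = 3 ∧ k = 2) : R ∉ Emode v a K j := by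
  intro hE
  obtain ⟨-, c, -, hcK, hc⟩ := mem_Emode.1 hE
  have ha : 0 < a := ht.1
  have hff : f ⬝ᵥ f = 1 := hf
  have hyy : y ⬝ᵥ y = 1 := hy
  have hnn : n ⬝ᵥ n = 1 := hn
  have hyf : y ⬝ᵥ f = 0 := by rw [dotProduct_comm]; exact hfy
  have hj0 : j ≠ 0 := by rcases hjk with h | h <;> rw [h.1] <;> decide
  have hk0 : k ≠ 0 := by rcases hjk with h | h <;> rw [h.2] <;> decide
  have hj1 : j ≠ 1 := by rcases hjk with h | h <;> rw [h.1] <;> decide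
  have hjk' : j ≠ k := by rcases hjk with h | h <;> rw [h.1, h.2] <;> decide
  -- the edges
  obtain ⟨E, hEd⟩ : ∃ E, E = R *ᵥ (v j - v 0) := ⟨_, rfl⟩
  obtain ⟨E', hEd'⟩ : ∃ E', E' = R *ᵥ (v k - v 0) := ⟨_, rfl⟩
  have hsumE : E + E' = a • f + ν • y := by
    rw [hEd, hEd', ← hR23]
    rcases hjk with h | h
    · rw [h.1, h.2]
    · rw [h.1, h.2, add_comm]
  have hEE : E ⬝ᵥ E = a ^ 2 := by rw [hEd, dot_mulVec hR]; exact ht.2 j 0 hj0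
  have hEE' : E ⬝ᵥ E' = a ^ 2 / 2 := by
    rw [hEd, hEd', dot_mulVec hR]; exact edge_dot ht hj0 hk0 hjk'
  have hEf : E ⬝ᵥ (a • f) = a ^ 2 / 2 := by
    rw [hEd, ← hR1, dot_mulVec hR]; exact edge_dot ht hj0 (by decide) hj1
  have hEf' : E ⬝ᵥ f = a / 2 := by
    rw [dotProduct_smul, smul_eq_mul] at hEf
    have : a * (E ⬝ᵥ f) = a * (a / 2) := by rw [hEf]; ring
    exact mul_left_cancel₀ ha.ne' this
  have hEy : E ⬝ᵥ y = ν / 2 := by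
    have h1 : E ⬝ᵥ (E + E') = E ⬝ᵥ (a • f + ν • y) := by rw [hsumE]
    rw [dotProduct_add, dotProduct_add, hEE, hEE', hEf, dotProduct_smul, smul_eq_mul] at h1
    have h2 : ν * (E ⬝ᵥ y) = ν * (ν / 2) := by
      have : ν * (ν / 2) = a ^ 2 := by
        have : ν * (ν / 2) = ν ^ 2 / 2 := by ring
        rw [this, hν2]; ring
      rw [this]; linarith
    exact mul_left_cancel₀ hν.ne' h2
  obtain ⟨τ, hτ⟩ : ∃ τ, τ = c - E - z := ⟨_, rfl⟩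
  have hpos : ∀ i, z + (τ + R *ᵥ (v i - v 0)) ∈ K := by
    intro i
    have h1 := hc i
    have e : c + R *ᵥ (v i - v j) = z + (τ + R *ᵥ (v i - v 0)) := by
      rw [hτ, hEd, Matrix.mulVec_sub, Matrix.mulVec_sub, Matrix.mulVec_sub]
      abel
    rw [e] at h1
    exact h1
  have hnτ : 0 ≤ n ⬝ᵥ τ := by
    have h1 := hnK _ (hpos 0)
    rw [sub_self, Matrix.mulVec_zero, add_zero, add_sub_cancel_left] at h1
    exact h1
  have hd : ∀ i, i ≠ 0 → τ ⬝ᵥ τ + 2 * (τ ⬝ᵥ (R *ᵥ (v i - v 0))) ≤ 0 := by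
    intro i hi
    have h1 := hball _ (hpos i)
    rw [add_sub_cancel_left, dot_add_self, dot_mulVec hR, ht.2 i 0 hi] at h1
    linarith
  have hd1 := hd 1 (by decide)
  rw [hR1, dotProduct_smul, smul_eq_mul] at hd1
  have hdk := hd k hk0
  rw [← hEd'] at hdk
  have hnf' : n ⬝ᵥ f = γ := by
    rw [hnf, add_dotProduct, smul_dotProduct, smul_dotProduct, hff, hyf, smul_eq_mul, smul_eq_mul]
    ring
  -- the ball about `c` contains `z + a • f`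
  have hfK := hcK _ (hcap f hf hnf'.ge)
  have e1 : z + a • f - c = (a • f + -E) + -τ := by rw [hτ]; abel
  have e2 : (a • f + -E) ⬝ᵥ (a • f + -E) = a ^ 2 := by
    rw [dot_add_self, dotProduct_neg, neg_dotProduct, dotProduct_neg, neg_neg, hEE,
      dotProduct_comm (a • f) E, hEf, smul_dotProduct, dotProduct_smul, hff]
    simp only [smul_eq_mul]
    ring
  rw [e1, dot_add_self, e2, dotProduct_neg, neg_dotProduct, dotProduct_neg, neg_neg,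
    add_dotProduct, neg_dotProduct, smul_dotProduct, smul_eq_mul] at hfK
  -- the displacement is zero
  have hsumτ : τ ⬝ᵥ E + τ ⬝ᵥ E' = a * (τ ⬝ᵥ f) + ν * (τ ⬝ᵥ y) := by
    rw [← dotProduct_add, hsumE, dotProduct_add, dotProduct_smul, dotProduct_smul, smul_eq_mul,
      smul_eq_mul]
  have hnτ' : n ⬝ᵥ τ = γ * (τ ⬝ᵥ f) + σ * (τ ⬝ᵥ y) := by
    rw [hnf, add_dotProduct, smul_dotProduct, smul_dotProduct, smul_eq_mul, smul_eq_mul,
      dotProduct_comm f τ, dotProduct_comm y τ]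
  rw [hnτ'] at hnτ
  rw [dotProduct_comm f τ, dotProduct_comm E τ] at hfK
  have hQ0 := dot_self_nonneg τ
  have hQ : τ ⬝ᵥ τ ≤ 0 := by
    have h1 : a * (τ ⬝ᵥ f) ≤ -(τ ⬝ᵥ τ) / 2 := by linarith
    have h2 : ν * (τ ⬝ᵥ y) ≤ -(τ ⬝ᵥ τ) := by linarith
    have h3 : 0 ≤ a * ν * (γ * (τ ⬝ᵥ f) + σ * (τ ⬝ᵥ y)) := by positivity
    have h4 : a * ν * (γ * (τ ⬝ᵥ f) + σ * (τ ⬝ᵥ y)) =
        (ν * γ) * (a * (τ ⬝ᵥ f)) + (a * σ) * (ν * (τ ⬝ᵥ y)) := by ring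
    have h5 : (ν * γ) * (a * (τ ⬝ᵥ f)) ≤ (ν * γ) * (-(τ ⬝ᵥ τ) / 2) :=
      mul_le_mul_of_nonneg_left h1 (by positivity)
    have h6 : (a * σ) * (ν * (τ ⬝ᵥ y)) ≤ (a * σ) * (-(τ ⬝ᵥ τ)) :=
      mul_le_mul_of_nonneg_left h2 (by positivity)
    have h7 : 0 < ν * γ / 2 + a * σ := by positivity
    by_contra hcon
    push Not at hcon
    have h8 : 0 < (τ ⬝ᵥ τ) * (ν * γ / 2 + a * σ) := mul_pos hcon h7
    have h9 : (ν * γ) * (-(τ ⬝ᵥ τ) / 2) + (a * σ) * (-(τ ⬝ᵥ τ)) =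
        -((τ ⬝ᵥ τ) * (ν * γ / 2 + a * σ)) := by ring
    linarith
  have hτ0 := eq_zero_of_dot hQ
  have hcE : c = z + E := by
    rw [hτ0] at hτ
    have : c - E - z = 0 := hτ.symm
    have h2 : c = (c - E - z) + z + E := by abel
    rw [this, zero_add] at h2
    exact h2
  -- the reflected point is too far from `c`
  obtain ⟨g, hg⟩ : ∃ g, g = (2 * γ) • n - f := ⟨_, rfl⟩
  have hgs : g ∈ sph := by
    show g ⬝ᵥ g = 1
    rw [hg, sub_dotProduct, dotProduct_sub, dotProduct_sub, smul_dotProduct, smul_dotProduct,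
      dotProduct_smul, dotProduct_smul, hnn, dotProduct_comm f n, hnf', hff]
    simp only [smul_eq_mul]
    ring
  have hng : n ⬝ᵥ g = γ := by
    rw [hg, dotProduct_sub, dotProduct_smul, hnn, hnf', smul_eq_mul]; ring
  have hgK := hcK _ (hcap g hgs hng.ge)
  have hgg : g ⬝ᵥ g = 1 := hgs
  have e3 : z + a • g - c = a • g + -E := by rw [hcE]; abel
  have hgE : g ⬝ᵥ E = 2 * γ * ((γ * a + σ * ν) / 2) - a / 2 := by
    rw [hg, sub_dotProduct, smul_dotProduct, hnf, add_dotProduct, smul_dotProduct,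
      smul_dotProduct, dotProduct_comm f E, dotProduct_comm y E, hEf', hEy]
    simp only [smul_eq_mul]
    ring
  rw [e3, dot_add_self, dotProduct_neg, neg_dotProduct, dotProduct_neg, neg_neg, hEE,
    smul_dotProduct, dotProduct_smul, smul_dotProduct, hgg, hgE] at hgK
  simp only [smul_eq_mul] at hgK
  apply num_mode2 ha hγ hγ2 hσ hσγ hν hν2
  have h1 : a * (a / 2) ≤ a * (2 * γ * ((γ * a + σ * ν) / 2) - a / 2) := by nlinarith
  exact le_of_mul_le_mul_left h1 ha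

end Pool.Agent.Helper82.SP
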