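import Pool.Agent.Helper82.SP.OS6

/-!
# Project SP: vertex pivots with `K` in the balls force a half ball; the classification
-/

set_option autoImplicit false

namespace Pool.Agent.Helper82.SP

open Matrix Real
open Pool.Agent.Helper26.LU (V M3 SO3 nrm sph proj Bm Rot crossM nrm_sq nrm_nonneg nrm_sph
  nrm_pos proj_sph proj_self nrm_proj nrm_add_le nrm_smul nrm_neg nrm_sub_comm abs_nrm_sub
  nrm_continuous dot_le norm_le_nrm nrm_le_norm sph_norm_le mem_SO3 SO3_left SO3_transpose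
  SO3_mul SO3_one dot_mulVec mulVec_sph exists_rot isClosed_SO3 isCompact_SO3 Bm_SO3 Bm_mulVec
  Bm_self proj_continuousOn sph_ne)

/-- Vertex pivots at centres whose balls contain `K`. -/
theorem half_of_ball_pivots {v : Fin 4 → V} {a : ℝ} (ht : Tet v a) {K : Set V} (hK : Body K)
    (hV : ∀ R ∈ SO3, ∃ c ∈ frontier K, (∀ x ∈ K, (x - c) ⬝ᵥ (x - c) ≤ a ^ 2) ∧
      ∃ i0, ∀ i, c + R *ᵥ (v i - v i0) ∈ K) :
    ∃ c m : V, m ≠ 0 ∧ K = {x | (x - c) ⬝ᵥ (x - c) ≤ a ^ 2 ∧ 0 ≤ m ⬝ᵥ (x - c)} := by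
  have ha : 0 < a := ht.1
  have hcl : IsClosed K := hK.2.1.isClosed
  obtain ⟨z, hz, hball, -⟩ := hV 1 SO3_one
  have hzK : z ∈ K := frontier_sub hK hz
  obtain ⟨n', hn'0, hn'⟩ := support hK hz
  obtain ⟨n, hnd⟩ : ∃ n : V, n = proj (-n') := ⟨_, rfl⟩
  have hn : n ∈ sph := by rw [hnd]; exact proj_sph (neg_ne_zero.2 hn'0)
  have hnK : ∀ x ∈ K, 0 ≤ n ⬝ᵥ (x - z) := by
    intro x hx
    have := hn' x hx
    rw [hnd]
    simp only [proj, smul_dotProduct, smul_eq_mul]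
    apply mul_nonneg (inv_nonneg.2 (nrm_nonneg _))
    rw [neg_dotProduct, dotProduct_sub]
    linarith
  have h60 : ∀ u ∈ sph, 1 / 2 ≤ n ⬝ᵥ u → z + a • u ∈ K := fun u hu hnu =>
    cap60 ht hn hnK hball (fun R hR => by
      obtain ⟨c, -, -, i0, h⟩ := hV R hR
      exact ⟨c, i0, h⟩) hu hnu
  have hhem : ∀ u ∈ sph, 0 < n ⬝ᵥ u → z + a • u ∈ K := by
    by_contra hcon
    push Not at hcon
    obtain ⟨u0, hu0, hnu0, hu0K⟩ := hcon
    let S : Set V := {u | u ∈ sph ∧ z + a • u ∉ K}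
    have hSs : closure S ⊆ sph := closure_minimal (fun u hu => hu.1) isCompact_sph.isClosed
    have hScomp : IsCompact (closure S) := isCompact_sph.of_isClosed_subset isClosed_closure hSs
    have hcontn : Continuous fun u : V => n ⬝ᵥ u := by fun_prop
    obtain ⟨f, hfS, hfmax⟩ := hScomp.exists_isMaxOn ⟨u0, subset_closure ⟨hu0, hu0K⟩⟩
      hcontn.continuousOn
    have hf : f ∈ sph := hSs hfS
    have hmax : ∀ u ∈ S, n ⬝ᵥ u ≤ n ⬝ᵥ f := fun u hu => hfmax (subset_closure hu)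
    obtain ⟨γ, hγd⟩ : ∃ γ, γ = n ⬝ᵥ f := ⟨_, rfl⟩
    have hγ : 0 < γ := by
      rw [hγd]
      exact lt_of_lt_of_le hnu0 (hmax u0 ⟨hu0, hu0K⟩)
    have hγ2 : γ ≤ 1 / 2 := by
      have h1 : closure S ⊆ {u | n ⬝ᵥ u ≤ 1 / 2} := by
        refine closure_minimal ?_ (isClosed_le hcontn continuous_const)
        intro u hu
        by_contra hcon
        have hcon' : 1 / 2 < n ⬝ᵥ u := not_le.1 hcon
        exact hu.2 (h60 u hu.1 hcon'.le)
      rw [hγd]
      exact h1 hfS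
    have hopen : ∀ u ∈ sph, γ < n ⬝ᵥ u → z + a • u ∈ K := by
      intro u hu hnu
      by_contra hcon
      have := hmax u ⟨hu, hcon⟩
      rw [← hγd] at this
      linarith
    have hcap : ∀ u ∈ sph, γ ≤ n ⬝ᵥ u → z + a • u ∈ K := fun u hu hnu =>
      closed_cap hcl hn hγ.le (by linarith) hopen hu hnu
    obtain ⟨y, hy, hfy, σ, hσ0, hnf, hσ2⟩ := split_unit hn hf
    rw [← hγd] at hnf hσ2
    have hσ : 0 < σ := by
      rcases eq_or_lt_of_le hσ0 with h | h
      · exfalso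
        rw [← h] at hσ2
        nlinarith
      · exact h
    -- the edges at `v 0`
    obtain ⟨e1, he1⟩ : ∃ e, e = v 1 - v 0 := ⟨_, rfl⟩
    obtain ⟨e2, he2⟩ : ∃ e, e = v 2 - v 0 := ⟨_, rfl⟩
    obtain ⟨e3, he3⟩ : ∃ e, e = v 3 - v 0 := ⟨_, rfl⟩
    have h11 : e1 ⬝ᵥ e1 = a ^ 2 := by rw [he1]; exact ht.2 1 0 (by decide)
    have h22 : e2 ⬝ᵥ e2 = a ^ 2 := by rw [he2]; exact ht.2 2 0 (by decide)
    have h33 : e3 ⬝ᵥ e3 = a ^ 2 := by rw [he3]; exact ht.2 3 0 (by decide)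
    have h12 : e1 ⬝ᵥ e2 = a ^ 2 / 2 := by
      rw [he1, he2]; exact edge_dot ht (by decide) (by decide) (by decide)
    have h13 : e1 ⬝ᵥ e3 = a ^ 2 / 2 := by
      rw [he1, he3]; exact edge_dot ht (by decide) (by decide) (by decide)
    have h23 : e2 ⬝ᵥ e3 = a ^ 2 / 2 := by
      rw [he2, he3]; exact edge_dot ht (by decide) (by decide) (by decide)
    obtain ⟨s, hs⟩ : ∃ s, s = e2 + e3 - e1 := ⟨_, rfl⟩
    have hs1 : e1 ⬝ᵥ s = 0 := by
      rw [hs, dotProduct_sub, dotProduct_add, h12, h13, h11]; ring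
    have hss : s ⬝ᵥ s = 2 * a ^ 2 := by
      rw [hs]
      simp only [sub_dotProduct, add_dotProduct, dotProduct_sub, dotProduct_add]
      rw [dotProduct_comm e2 e1, dotProduct_comm e3 e1, dotProduct_comm e3 e2, h11, h22, h33, h12,
        h13, h23]
      ring
    have ha2 : 0 < a ^ 2 := by positivity
    have he10 : e1 ≠ 0 := by
      intro h
      rw [h, zero_dotProduct] at h11
      linarith
    have hs0 : s ≠ 0 := by
      intro h
      rw [h, zero_dotProduct] at hss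
      linarith
    have hne1 : nrm e1 = a := by
      have h := nrm_sq e1
      rw [h11] at h
      exact (pow_left_inj₀ (nrm_nonneg _) ha.le (by norm_num)).1 h
    have hpe : a • proj e1 = e1 := by
      have := nrm_proj e1 he10
      rw [hne1] at this
      exact this
    have hps : nrm s • proj s = s := nrm_proj s hs0
    have hν := nrm_pos hs0
    have hν2 : nrm s ^ 2 = 2 * a ^ 2 := by rw [nrm_sq, hss]
    have hperp : proj e1 ⬝ᵥ proj s = 0 := by
      simp only [proj, smul_dotProduct, dotProduct_smul]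
      rw [hs1, smul_zero, smul_zero]
    obtain ⟨R, hR, hRp, hRq⟩ := exists_rot2 (proj_sph he10) (proj_sph hs0) hf hy hperp hfy
    have hR1 : R *ᵥ e1 = a • f := by rw [← hpe, Matrix.mulVec_smul, hRp]
    have hRs : R *ᵥ s = nrm s • y := by
      conv_lhs => rw [← hps]
      rw [Matrix.mulVec_smul, hRq]
    have hR23 : R *ᵥ e2 + R *ᵥ e3 = a • f + nrm s • y := by
      rw [← hR1, ← hRs, hs, Matrix.mulVec_sub, Matrix.mulVec_add]
      abel
    -- the heights of the other two vertices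
    have hff : f ⬝ᵥ f = 1 := hf
    have hyy : y ⬝ᵥ y = 1 := hy
    have hyf : y ⬝ᵥ f = 0 := by rw [dotProduct_comm]; exact hfy
    have hn2 : a * γ < n ⬝ᵥ (R *ᵥ e2) := by
      have h1 : f ⬝ᵥ (R *ᵥ e2) = a / 2 := by
        have h2 : (a • f) ⬝ᵥ (R *ᵥ e2) = a ^ 2 / 2 := by rw [← hR1, dot_mulVec hR, h12]
        rw [smul_dotProduct, smul_eq_mul] at h2
        have : a * (f ⬝ᵥ (R *ᵥ e2)) = a * (a / 2) := by rw [h2]; ring
        exact mul_left_cancel₀ ha.ne' this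
      have h3 : nrm s * (y ⬝ᵥ (R *ᵥ e2)) = a ^ 2 := by
        have h4 : (nrm s • y) ⬝ᵥ (R *ᵥ e2) = a ^ 2 := by
          rw [← hRs, dot_mulVec hR, hs, sub_dotProduct, add_dotProduct, h22, h12,
            dotProduct_comm e3 e2, h23]
          ring
        rw [smul_dotProduct, smul_eq_mul] at h4
        exact h4
      have h5 : n ⬝ᵥ (R *ᵥ e2) = γ * (a / 2) + σ * (y ⬝ᵥ (R *ᵥ e2)) := by
        rw [hnf, add_dotProduct, smul_dotProduct, smul_dotProduct, h1, smul_eq_mul, smul_eq_mul]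
      rw [h5]
      -- `y ⬝ᵥ (R *ᵥ e2) = ν / 2`
      have h6 : y ⬝ᵥ (R *ᵥ e2) = nrm s / 2 := by
        have : nrm s * (y ⬝ᵥ (R *ᵥ e2)) = nrm s * (nrm s / 2) := by
          rw [h3]
          have : nrm s * (nrm s / 2) = nrm s ^ 2 / 2 := by ring
          rw [this, hν2]; ring
        exact mul_left_cancel₀ hν.ne' this
      rw [h6]
      have h7 : a * γ < σ * nrm s := by
        have h8 : (a * γ) ^ 2 < (σ * nrm s) ^ 2 := by
          rw [mul_pow, mul_pow, hν2, hσ2]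
          have h9 : 0 < 2 * (1 - γ ^ 2) - γ ^ 2 := by nlinarith
          have := mul_pos ha2 h9
          linarith
        exact lt_of_pow_lt_pow_left₀ 2 (by positivity) h8
      linarith
    -- no mode at the other vertices
    rw [he1] at hR1
    rw [he2, he3] at hR23
    have hno1 : R ∉ Emode v a K 1 :=
      no_mode1 ht hn hf hy hfy hγ hγ2 hσ hσ2 hnf hν hν2 hnK hball hcap hR hR1 hR23
    have hno2 : R ∉ Emode v a K 2 :=
      no_mode2 ht hn hf hy hfy hγ hγ2 hσ hσ2 hnf hν hν2 hnK hball hcap hR hR1 hR23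
        (Or.inl ⟨rfl, rfl⟩)
    have hno3 : R ∉ Emode v a K 3 :=
      no_mode2 ht hn hf hy hfy hγ hγ2 hσ hσ2 hnf hν hν2 hnK hball hcap hR hR1 hR23
        (Or.inr ⟨rfl, rfl⟩)
    -- a neighbourhood of `R`
    have hcomp := hK.2.1
    let W : Set M3 := ((Emode v a K 1)ᶜ ∩ ((Emode v a K 2)ᶜ ∩ (Emode v a K 3)ᶜ)) ∩
      {M : M3 | a * γ < n ⬝ᵥ (M *ᵥ e2)}
    have hW : IsOpen W := by
      refine IsOpen.inter ?_ ?_
      · exact (Emode_closed v a hcomp 1).isOpen_compl.inter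
          ((Emode_closed v a hcomp 2).isOpen_compl.inter (Emode_closed v a hcomp 3).isOpen_compl)
      · have hc : Continuous fun M : M3 => n ⬝ᵥ (M *ᵥ e2) := by fun_prop
        exact isOpen_lt continuous_const hc
    have hRW : R ∈ W := ⟨⟨hno1, hno2, hno3⟩, hn2⟩
    have hcontB : ContinuousAt (fun u : V => Bm f u * R) f := by
      have h1 : Continuous fun M : M3 => M * R := continuous_id.matrix_mul continuous_const
      exact ContinuousAt.comp (g := fun M : M3 => M * R) (f := fun u : V => Bm f u) (x := f)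
        h1.continuousAt (Bm_cont hf)
    have hnh : {u : V | Bm f u * R ∈ W} ∈ nhds f := by
      apply hcontB
      show W ∈ nhds (Bm f f * R)
      rw [Bm_self, Matrix.one_mul]
      exact hW.mem_nhds hRW
    have hnh2 : {u : V | (0 : ℝ) < 1 + f ⬝ᵥ u} ∈ nhds f := by
      have hc : Continuous fun u : V => 1 + f ⬝ᵥ u := by fun_prop
      apply (isOpen_lt continuous_const hc).mem_nhds
      show (0 : ℝ) < 1 + f ⬝ᵥ f
      rw [hff]; norm_num
    obtain ⟨u, ⟨huW, hu1⟩, hus, huK⟩ := mem_closure_iff_nhds.1 hfS _ (Filter.inter_mem hnh hnh2)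
    have hu1' : 1 + f ⬝ᵥ u ≠ 0 := ne_of_gt hu1
    have hRu : Bm f u * R ∈ SO3 := SO3_mul (Bm_SO3 hf hus hu1') hR
    have hRu1 : (Bm f u * R) *ᵥ (v 1 - v 0) = a • u := by
      rw [← Matrix.mulVec_mulVec, hR1, Matrix.mulVec_smul, Bm_mulVec hf hus hu1']
    -- the mode at `v 0` has the centre `z`
    obtain ⟨c, hcf, hcK, i0, hc⟩ := hV _ hRu
    have hi0 : i0 = 0 := by
      have hmem : Bm f u * R ∈ Emode v a K i0 := mem_Emode.2 ⟨hRu, c, hcf, hcK, hc⟩
      obtain ⟨⟨h1, h2, h3⟩, -⟩ := huW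
      fin_cases i0
      · rfl
      · exact absurd hmem h1
      · exact absurd hmem h2
      · exact absurd hmem h3
    rw [hi0] at hc
    have hlen : ((Bm f u * R) *ᵥ e2) ⬝ᵥ ((Bm f u * R) *ᵥ e2) = a ^ 2 := by
      rw [dot_mulVec hRu, h22]
    have hzE : z + (Bm f u * R) *ᵥ e2 ∈ K := by
      obtain ⟨-, h2⟩ := huW
      have h2' : a * γ < n ⬝ᵥ ((Bm f u * R) *ᵥ e2) := h2
      have hu2 : (a⁻¹ : ℝ) • ((Bm f u * R) *ᵥ e2) ∈ sph := by
        show ((a⁻¹ : ℝ) • ((Bm f u * R) *ᵥ e2)) ⬝ᵥ ((a⁻¹ : ℝ) • ((Bm f u * R) *ᵥ e2)) = 1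
        rw [smul_dotProduct, dotProduct_smul, hlen]
        simp only [smul_eq_mul]
        field_simp
      have h3 := hcap _ hu2 (by
        rw [dotProduct_smul, smul_eq_mul]
        rw [le_inv_mul_iff₀ ha]
        exact h2'.le)
      rw [smul_smul, mul_inv_cancel₀ ha.ne', one_smul] at h3
      exact h3
    have hδ : c = z := by
      have h1 := hball _ (hc 2)
      have h2 := hcK _ hzE
      rw [← he2] at h1
      have e4 : c + (Bm f u * R) *ᵥ e2 - z = (c - z) + (Bm f u * R) *ᵥ e2 := by abel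
      have e5 : z + (Bm f u * R) *ᵥ e2 - c = -(c - z) + (Bm f u * R) *ᵥ e2 := by abel
      rw [e4, dot_add_self, hlen] at h1
      rw [e5, dot_add_self, hlen, neg_dotProduct, dotProduct_neg, neg_dotProduct] at h2
      have h3 : (c - z) ⬝ᵥ (c - z) ≤ 0 := by linarith
      exact sub_eq_zero.1 (eq_zero_of_dot h3)
    have h1 := hc 1
    rw [hRu1, hδ] at h1
    exact huK h1
  have hn0 : n ≠ 0 := sph_ne hn
  refine ⟨z, n, hn0, Set.Subset.antisymm ?_ ?_⟩
  · exact fun x hx => ⟨hball x hx, hnK x hx⟩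
  · exact half_subset ha hcl hK.1 hn0 hzK hhem

end Pool.Agent.Helper82.SP
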