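import Pool.Agent.Helper82.SP.OS7

/-!
# Project SP: classification for planar and spherical pieces
-/

set_option autoImplicit false

namespace Pool.Agent.Helper82.SP

open Matrix Real
open Pool.Agent.Helper26.LU (V M3 SO3 nrm sph proj Bm Rot crossM nrm_sq nrm_nonneg nrm_sph
  nrm_pos proj_sph proj_self nrm_proj nrm_add_le nrm_smul nrm_neg nrm_sub_comm abs_nrm_sub
  nrm_continuous dot_le norm_le_nrm nrm_le_norm sph_norm_le mem_SO3 SO3_left SO3_transpose
  SO3_mul SO3_one dot_mulVec mulVec_sph exists_rot isClosed_SO3 isCompact_SO3)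

/-- Planes and spheres: the static property. -/
theorem piecewise2 {v : Fin 4 → V} {a : ℝ} {K : Set V} (ht : Tet v a) (hc : Convex ℝ K)
    (hcomp : IsCompact K) (hadm : Adm v K) (n : ℕ → V) (k : ℕ → ℝ) (z : ℕ → V) (r : ℕ → ℝ)
    (hn : ∀ j, n j ≠ 0)
    (hcov : frontier K ⊆ (⋃ j, {x | n j ⬝ᵥ x = k j}) ∪ ⋃ j, {x | (x - z j) ⬝ᵥ (x - z j) = r j})
    (h1 : ∀ i j, z i = z j → r i < r j →
      r j ≤ 2 * a ^ 2 / 3 ∨ ∀ x ∈ K, (x - z i) ⬝ᵥ (x - z i) ≤ r i)
    (h2 : ∀ i j, r i = a ^ 2 → r j = a ^ 2 → z i ≠ z j →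
      ∀ x ∈ K, (x - z i) ⬝ᵥ (x - z i) ≤ a ^ 2) :
    (∃ c, frontier K = {x | (x - c) ⬝ᵥ (x - c) = 3 * a ^ 2 / 8}) ∨
      ∃ c m : V, m ≠ 0 ∧ K = {x | (x - c) ⬝ᵥ (x - c) ≤ a ^ 2 ∧ 0 ≤ m ⬝ᵥ (x - c)} := by
  have ha : 0 < a := ht.1
  have ha2 : 0 < a ^ 2 := by positivity
  have hK : Body K := ⟨hc, hcomp, goalINT factTB v a K ht hc hcomp hadm⟩
  by_cases hball : ∃ c, frontier K = {x | (x - c) ⬝ᵥ (x - c) = 3 * a ^ 2 / 8}
  · exact Or.inl hball
  right
  -- vertex pivots are dense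
  have hdense : ∀ U0 : Set M3, IsOpen U0 → (U0 ∩ (SO3 : Set M3)).Nonempty →
      ∃ j, r j = a ^ 2 ∧ ∃ R ∈ U0, R ∈ SO3 ∧ ∃ i0, ∀ i, z j + R *ᵥ (v i - v i0) ∈ frontier K := by
    intro U0 hU0 hne0
    obtain ⟨i0, c, w, U, hU, hUU0, hne, hp, hs1, hs2⟩ := localStructure factB8 factB10 factB11a
      factB11d factLIN factTB v a K ht hcomp U0 hU0 hne0 n k z r hn (by
        intro R _ hR
        obtain ⟨t, h⟩ := hadm R hR
        refine ⟨t, fun i => ⟨h i, ?_⟩⟩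
        rcases hcov (h i) with h' | h'
        · left
          exact Set.mem_iUnion.1 h'
        · right
          exact Set.mem_iUnion.1 h')
    -- small radii are impossible
    have hsmall : ∃ i, 2 * a ^ 2 / 3 < (v i - w) ⬝ᵥ (v i - w) := by
      by_contra hcon
      push Not at hcon
      obtain ⟨hw1, hw2⟩ := factB14 v a w ht hcon
      exact hball ⟨c, pivotRigid factB17 factPR v a K ht hc hcomp hadm c w U hU hne hw1 hw2 hp⟩
    obtain ⟨R₁, hR₁U, hR₁⟩ := hne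
    have hdist : ∀ i, (c + R₁ *ᵥ (v i - w) - c) ⬝ᵥ (c + R₁ *ᵥ (v i - w) - c) =
        (v i - w) ⬝ᵥ (v i - w) := by
      intro i
      rw [add_sub_cancel_left, dot_mulVec hR₁]
    have hpK : ∀ i, c + R₁ *ᵥ (v i - w) ∈ K := fun i => frontier_sub hK (hp R₁ hR₁U hR₁ i)
    obtain ⟨iS, hiS⟩ := hsmall
    obtain ⟨jS, hzS, hrS⟩ : ∃ j, z j = c ∧ (v iS - w) ⬝ᵥ (v iS - w) = r j := by
      by_cases hi : iS = i0
      · rcases hs2 with h | h
        · exfalso
          rw [hi, h, sub_self, zero_dotProduct] at hiS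
          linarith
        · rw [hi]; exact h
      · exact hs1 iS hi
    rw [hrS] at hiS
    -- all radii in use are equal
    have heq : ∀ i j, z j = c → (v i - w) ⬝ᵥ (v i - w) = r j → r j = r jS := by
      intro i j hj hrj
      rcases lt_trichotomy (r j) (r jS) with hlt | heq | hgt
      · exfalso
        rcases h1 j jS (hj.trans hzS.symm) hlt with h | h
        · linarith
        · have h3 := h _ (hpK iS)
          rw [hj, hdist iS, hrS] at h3
          linarith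
      · exact heq
      · exfalso
        rcases h1 jS j (hzS.trans hj.symm) hgt with h | h
        · linarith
        · have h3 := h _ (hpK i)
          rw [hzS, hdist i, hrj] at h3
          linarith
    rcases hs2 with h3 | ⟨j', hj', h3⟩
    · obtain ⟨i1, hi1, -⟩ := exists_ne_ne i0 i0
      obtain ⟨j1, hz1, hr1⟩ := hs1 i1 hi1
      refine ⟨j1, ?_, R₁, hUU0 hR₁U, hR₁, i0, fun i => ?_⟩
      · rw [← hr1, ← h3]
        exact ht.2 i1 i0 hi1
      · rw [h3, hz1]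
        exact hp R₁ hR₁U hR₁ i
    · exfalso
      have hall : ∀ i, (v i - w) ⬝ᵥ (v i - w) = r jS := by
        intro i
        by_cases hi : i = i0
        · rw [hi, h3]
          exact heq i0 j' hj' h3
        · obtain ⟨j, hj, h⟩ := hs1 i hi
          rw [h]
          exact heq i j hj h
      obtain ⟨-, hr⟩ := circumcentre ht hall
      rw [hr] at hiS
      linarith
  by_cases hone : ∀ i j, r i = a ^ 2 → r j = a ^ 2 → z i = z j
  · -- one centre
    obtain ⟨j0, hj0, -⟩ := hdense Set.univ isOpen_univ ⟨1, Set.mem_univ _, SO3_one⟩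
    refine ⟨z j0, ?_⟩
    have hdense' : ∀ U0 : Set M3, IsOpen U0 → (U0 ∩ (SO3 : Set M3)).Nonempty →
        ∃ R ∈ U0, R ∈ SO3 ∧ ∃ i0, ∀ i, z j0 + R *ᵥ (v i - v i0) ∈ frontier K := by
      intro U0 hU0 hne0
      obtain ⟨j, hj, h⟩ := hdense U0 hU0 hne0
      rw [hone j j0 hj hj0] at h
      exact h
    -- the set of these rotations is closed
    have hcl : IsClosed {R : M3 | ∃ i0, ∀ i, z j0 + R *ᵥ (v i - v i0) ∈ frontier K} := by
      have e : {R : M3 | ∃ i0, ∀ i, z j0 + R *ᵥ (v i - v i0) ∈ frontier K} =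
          ⋃ i0 : Fin 4, ⋂ i, (fun R : M3 => z j0 + R *ᵥ (v i - v i0)) ⁻¹' frontier K := by
        ext R
        simp
      rw [e]
      refine isClosed_iUnion_of_finite fun i0 => isClosed_iInter fun i => ?_
      have hc : Continuous fun R : M3 => z j0 + R *ᵥ (v i - v i0) := by fun_prop
      exact isClosed_frontier.preimage hc
    have hall : ∀ R ∈ SO3, ∃ i0, ∀ i, z j0 + R *ᵥ (v i - v i0) ∈ frontier K := by
      intro R hR
      by_contra hcon
      obtain ⟨R', hR'U, -, hR'⟩ := hdense' _ hcl.isOpen_compl ⟨R, hcon, hR⟩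
      exact hR'U hR'
    exact half_of_pivots ht hK (z j0) hall
  · -- several centres, `K` is contained in the balls
    push Not at hone
    obtain ⟨p, q, hp, hq, hpq⟩ := hone
    have hin : ∀ j, r j = a ^ 2 → ∀ x ∈ K, (x - z j) ⬝ᵥ (x - z j) ≤ a ^ 2 := by
      intro j hj
      by_cases hjp : z j = z p
      · rw [hjp]
        exact h2 p q hp hq hpq
      · exact h2 j p hj hp hjp
    apply half_of_ball_pivots ht hK
    have hcl : IsClosed (⋃ i0 : Fin 4, Emode v a K i0) :=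
      isClosed_iUnion_of_finite fun i0 => Emode_closed v a hcomp i0
    intro R hR
    have hmem : R ∈ ⋃ i0 : Fin 4, Emode v a K i0 := by
      by_contra hcon
      obtain ⟨j, hj, R', hR'U, hR', i0, h⟩ := hdense _ hcl.isOpen_compl ⟨R, hcon, hR⟩
      apply hR'U
      refine Set.mem_iUnion.2 ⟨i0, mem_Emode.2 ⟨hR', z j, ?_, hin j hj, fun i =>
        frontier_sub hK (h i)⟩⟩
      have h0 := h i0
      rw [sub_self, Matrix.mulVec_zero, add_zero] at h0
      exact h0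
    obtain ⟨i0, hi0⟩ := Set.mem_iUnion.1 hmem
    obtain ⟨-, c, hcf, hcK, hcc⟩ := mem_Emode.1 hi0
    exact ⟨c, hcf, hcK, i0, hcc⟩

/-- Classification for planar and spherical pieces. -/
theorem classification2 {v : Fin 4 → V} {a : ℝ} {K : Set V} (ht : Tet v a) (hc : Convex ℝ K)
    (hcomp : IsCompact K) (n : ℕ → V) (k : ℕ → ℝ) (z : ℕ → V) (r : ℕ → ℝ) (hn : ∀ j, n j ≠ 0)
    (hcov : frontier K ⊆ (⋃ j, {x | n j ⬝ᵥ x = k j}) ∪ ⋃ j, {x | (x - z j) ⬝ᵥ (x - z j) = r j})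
    (h1 : ∀ i j, z i = z j → r i < r j →
      r j ≤ 2 * a ^ 2 / 3 ∨ ∀ x ∈ K, (x - z i) ⬝ᵥ (x - z i) ≤ r i)
    (h2 : ∀ i j, r i = a ^ 2 → r j = a ^ 2 → z i ≠ z j →
      ∀ x ∈ K, (x - z i) ⬝ᵥ (x - z i) ≤ a ^ 2) :
    (Adm v K ↔ ((∃ c, frontier K = {x | (x - c) ⬝ᵥ (x - c) = 3 * a ^ 2 / 8}) ∨
      ∃ c m : V, m ≠ 0 ∧ K = {x | (x - c) ⬝ᵥ (x - c) ≤ a ^ 2 ∧ 0 ≤ m ⬝ᵥ (x - c)})) ∧
    (Mot v K ↔ ∃ c, frontier K = {x | (x - c) ⬝ᵥ (x - c) = 3 * a ^ 2 / 8}) := by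
  refine ⟨⟨fun h => piecewise2 ht hc hcomp h n k z r hn hcov h1 h2, ?_⟩, ?_,
    fun ⟨c, h⟩ => mot_sphere ht h⟩
  · rintro (⟨c, h⟩ | ⟨c, m, hm, h⟩)
    · exact fun R hR => ⟨_, fun i => adm_sphere ht h hR i⟩
    · exact adm_half ht hm h
  · intro h
    rcases piecewise2 ht hc hcomp h.adm n k z r hn hcov h1 h2 with h' | ⟨c, m, hm, h'⟩
    · exact h'
    · exact absurd h (not_mot_half ht hm h')

end Pool.Agent.Helper82.SP
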