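import Pool.Agent.Helper82.SP.LB

/-!
# Project SP: local structure of the placements on planes and spheres
-/

set_option autoImplicit false

namespace Pool.Agent.Helper82.SP

open Matrix Real
open Pool.Agent.Helper26.LU (V M3 SO3 nrm sph proj Bm Rot crossM mem_SO3 isCompact_SO3)
open Pool.Agent.Helper44.SP (key_line dot_mulVec_SO3 Qd_center)

/-- A bilinear expression as a linear function of the matrix. -/
theorem dot_mulVec_sum (x y : V) (R : M3) :
    x ⬝ᵥ (R *ᵥ y) = ∑ p, ∑ m, (x p * y m) * R p m := by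
  simp only [dotProduct, Matrix.mulVec, Finset.mul_sum]
  refine Finset.sum_congr rfl fun p _ => Finset.sum_congr rfl fun m _ => ?_
  ring

/-- `x ⬝ᵥ (R *ᵥ y)` is constant on an open set of rotations only if `x` or `y` is zero. -/
theorem const_dot (hLIN : G_LIN) {x y : V} {k : ℝ} {U : Set M3} (hU : IsOpen U)
    (hne : (U ∩ (SO3 : Set M3)).Nonempty)
    (h : ∀ R ∈ U, R ∈ SO3 → x ⬝ᵥ (R *ᵥ y) = k) : x = 0 ∨ y = 0 := by
  have h0 := hLIN (fun p m => x p * y m) k U hU hne fun R hR hRS => by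
    rw [← dot_mulVec_sum]
    exact h R hR hRS
  by_contra hcon
  push Not at hcon
  obtain ⟨hx, hy⟩ := hcon
  obtain ⟨p, hp⟩ := Function.ne_iff.1 hx
  obtain ⟨m, hm⟩ := Function.ne_iff.1 hy
  have h1 : x p * y m = 0 := congrFun (congrFun h0 p) m
  rcases mul_eq_zero.1 h1 with h | h
  · exact hp h
  · exact hm h

/-- Placements on countably many planes and spheres over an open set of rotations pivot about a
point over a smaller open set. -/
theorem localStructure (hB8 : G_B8) (hB10 : G_B10) (hB11a : G_B11a) (hB11d : G_B11d)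
    (hLIN : G_LIN) (hTB : G_TB) (v : Fin 4 → V) (a : ℝ) (K : Set V) (ht : Tet v a)
    (hcomp : IsCompact K) (U0 : Set M3) (hU0 : IsOpen U0) (hne0 : (U0 ∩ (SO3 : Set M3)).Nonempty)
    (n : ℕ → V) (k : ℕ → ℝ) (z : ℕ → V) (r : ℕ → ℝ) (hn : ∀ j, n j ≠ 0)
    (hloc : ∀ R ∈ U0, R ∈ SO3 → ∃ t, ∀ i, R *ᵥ v i + t ∈ frontier K ∧
      ((∃ j, n j ⬝ᵥ (R *ᵥ v i + t) = k j) ∨
        ∃ j, (R *ᵥ v i + t - z j) ⬝ᵥ (R *ᵥ v i + t - z j) = r j)) :
    ∃ (i0 : Fin 4) (c w : V) (U : Set M3), IsOpen U ∧ U ⊆ U0 ∧ (U ∩ (SO3 : Set M3)).Nonempty ∧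
      (∀ R ∈ U, R ∈ SO3 → ∀ i, c + R *ᵥ (v i - w) ∈ frontier K) ∧
      (∀ i, i ≠ i0 → ∃ j, z j = c ∧ (v i - w) ⬝ᵥ (v i - w) = r j) ∧
      (v i0 = w ∨ ∃ j, z j = c ∧ (v i0 - w) ⬝ᵥ (v i0 - w) = r j) := by
  let κ : ℕ ⊕ ℕ → ℝ := Sum.elim (fun _ => 0) (fun _ => 1)
  let b : ℕ ⊕ ℕ → V := Sum.elim (fun j => (-(1 / 2) : ℝ) • n j) z
  let g : ℕ ⊕ ℕ → ℝ := Sum.elim (fun j => -k j) (fun j => z j ⬝ᵥ z j - r j)
  have hloc' : ∀ R ∈ U0, R ∈ SO3 → ∃ t, ∀ i, R *ᵥ v i + t ∈ frontier K ∧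
      ∃ j, Qd (κ j) (b j) (g j) (R *ᵥ v i + t) = 0 := by
    intro R hR hRS
    obtain ⟨t, h⟩ := hloc R hR hRS
    refine ⟨t, fun i => ⟨(h i).1, ?_⟩⟩
    rcases (h i).2 with ⟨j, hj⟩ | ⟨j, hj⟩
    · refine ⟨Sum.inl j, ?_⟩
      simp only [κ, b, g, Sum.elim_inl, Qd, smul_dotProduct, smul_eq_mul]
      rw [hj]; ring
    · refine ⟨Sum.inr j, ?_⟩
      simp only [κ, b, g, Sum.elim_inr, Qd]
      generalize R *ᵥ v i + t = x at hj ⊢
      rw [sub_dotProduct, dotProduct_sub, dotProduct_sub, dotProduct_comm x (z j)] at hj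
      linarith
  have hQpl : ∀ j x, Qd (κ (Sum.inl j)) (b (Sum.inl j)) (g (Sum.inl j)) x = 0 →
      n j ⬝ᵥ x = k j := by
    intro j x hx
    simp only [κ, b, g, Sum.elim_inl, Qd, smul_dotProduct, smul_eq_mul] at hx
    linarith
  have hQsp : ∀ j x, Qd (κ (Sum.inr j)) (b (Sum.inr j)) (g (Sum.inr j)) x = 0 →
      (x - z j) ⬝ᵥ (x - z j) = r j := by
    intro j x hx
    simp only [κ, b, g, Sum.elim_inr, Qd] at hx
    rw [sub_dotProduct, dotProduct_sub, dotProduct_sub, dotProduct_comm x (z j)]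
    linarith
  have htype : ∀ j, κ j = 0 ∧ b j ≠ 0 ∨ κ j = 1 := by
    rintro (j | j)
    · left
      refine ⟨rfl, ?_⟩
      show (-(1 / 2) : ℝ) • n j ≠ 0
      exact smul_ne_zero (by norm_num) (hn j)
    · right
      rfl
  obtain ⟨J, U, hU, hUU0, hUne, hfull⟩ := localB15 v K (ℕ ⊕ ℕ) κ b g hcomp U0 hU0 hne0 hloc'
  have hκ1 : ∀ i, κ (J i) = 0 ∧ b (J i) ≠ 0 ∨ κ (J i) = 1 := fun i => htype (J i)
  have hQ : ∀ R ∈ U, R ∈ SO3 → ∃ t, ∀ i, Qd (κ (J i)) (b (J i)) (g (J i)) (R *ᵥ v i + t) = 0 := by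
    intro R hR hRS
    obtain ⟨t, h⟩ := hfull R hR hRS
    exact ⟨t, fun i => (h i).2⟩
  have hprod := hB8 v a (fun i => κ (J i)) (fun i => b (J i)) (fun i => g (J i)) U ht hU hUne hQ
  obtain ⟨i0, hcase⟩ := hB10 (fun i => κ (J i)) (fun i => b (J i)) hκ1 hprod
  have hplane : ∀ i, κ (J i) = 0 → ∀ x, Qd (κ (J i)) (b (J i)) (g (J i)) x = 0 →
      b (J i) ⬝ᵥ x = g (J i) / 2 := by
    intro i hi x hx
    rw [hi] at hx
    simp only [Qd] at hx
    linarith
  have hbne : ∀ i, κ (J i) = 0 → b (J i) ≠ 0 := by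
    intro i hi
    rcases hκ1 i with h | h
    · exact h.2
    · rw [hi] at h; norm_num at h
  rcases hcase with hpl | ⟨c, hconc⟩
  · exfalso
    -- a relation supported on planes is trivial
    have hrel : ∀ μ : Fin 4 → ℝ, (∀ i, μ i ≠ 0 → κ (J i) = 0) → ∑ i, μ i • b (J i) = 0 → μ = 0 := by
      intro μ hμ hsum
      apply hB11a v a (fun i => b (J i)) (fun i => g (J i) / 2) μ U ht hU hUne
      · intro R hR hRS
        obtain ⟨t, h⟩ := hQ R hR hRS
        exact ⟨t, fun i hi => hplane i (hμ i hi) _ (h i)⟩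
      · exact hsum
      · exact fun i hi => hbne i (hμ i hi)
    rcases hκ1 i0 with h0 | h1
    · obtain ⟨μ, hμ0, hμ⟩ := Pool.Agent.Helper71.Tet.exists_rel fun i => b (J i)
      apply hμ0
      apply hrel μ
      · intro i _
        by_cases hi : i = i0
        · rw [hi]; exact h0.1
        · exact hpl i hi
      · ext m
        simpa [Finset.sum_apply] using hμ m
    · apply hB11d v a (fun i => b (J i)) (fun i => g (J i) / 2) (b (J i0))
        (b (J i0) ⬝ᵥ b (J i0) - g (J i0)) i0 U ht hU hUne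
      · intro μ hμ0 hsum
        apply hrel μ _ hsum
        intro i hi
        have : i ≠ i0 := by
          rintro rfl
          exact hi hμ0
        exact hpl i this
      · intro R hR hRS
        obtain ⟨t, h⟩ := hQ R hR hRS
        refine ⟨t, fun i hi => hplane i (hpl i hi) _ (h i), ?_⟩
        have h2 := h i0
        rw [h1] at h2
        simp only [Qd] at h2
        rw [sub_dotProduct, dotProduct_sub, dotProduct_sub,
          dotProduct_comm (R *ᵥ v i0 + t) (b (J i0))]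
        linarith
  · obtain ⟨w, U', hU', hU'U, hU'ne, hU'full⟩ := localB12 hTB v a K (fun i => κ (J i))
      (fun i => b (J i)) (fun i => g (J i)) U i0 c ht hconc hU hUne hfull
    obtain ⟨R₀, hR₀, hR₀S⟩ := hU'ne
    refine ⟨i0, c, w, U', hU', hU'U.trans hUU0, ⟨R₀, hR₀, hR₀S⟩,
      fun R hR hRS i => (hU'full R hR hRS i).1, ?_, ?_⟩
    · intro i hi
      have h1 := (hU'full R₀ hR₀ hR₀S i).2
      have h2 := hconc i hi
      rcases hJ : J i with j | j
      · rw [hJ] at h2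
        exact absurd h2.1 (by simp [κ])
      · rw [hJ] at h1 h2
        have h3 : z j = c := h2.2
        refine ⟨j, h3, ?_⟩
        have h4 := hQsp j _ h1
        rw [h3, add_sub_cancel_left, dot_mulVec_SO3 hR₀S] at h4
        exact h4
    · rcases hJ : J i0 with j | j
      · left
        have h1 : ∀ R ∈ U', R ∈ SO3 → n j ⬝ᵥ (R *ᵥ (v i0 - w)) = k j - n j ⬝ᵥ c := by
          intro R hR hRS
          have h2 := (hU'full R hR hRS i0).2
          rw [hJ] at h2
          have h3 := hQpl j _ h2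
          rw [dotProduct_add] at h3
          linarith
        rcases const_dot hLIN hU' ⟨R₀, hR₀, hR₀S⟩ h1 with h | h
        · exact absurd h (hn j)
        · exact sub_eq_zero.1 h
      · have h1 : ∀ R ∈ U', R ∈ SO3 → (c - z j) ⬝ᵥ (R *ᵥ (v i0 - w)) =
            (r j - (v i0 - w) ⬝ᵥ (v i0 - w) - (c - z j) ⬝ᵥ (c - z j)) / 2 := by
          intro R hR hRS
          have h2 := (hU'full R hR hRS i0).2
          rw [hJ] at h2
          have h3 := hQsp j _ h2
          have h4 : c + R *ᵥ (v i0 - w) - z j = (c - z j) + R *ᵥ (v i0 - w) := by abel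
          rw [h4, add_dotProduct, dotProduct_add, dotProduct_add, dot_mulVec_SO3 hRS,
            dotProduct_comm (R *ᵥ (v i0 - w)) (c - z j)] at h3
          linarith
        rcases const_dot hLIN hU' ⟨R₀, hR₀, hR₀S⟩ h1 with h | h
        · right
          have h5 : z j = c := (sub_eq_zero.1 h).symm
          refine ⟨j, h5, ?_⟩
          have h2 := h1 R₀ hR₀ hR₀S
          rw [h, zero_dotProduct, zero_dotProduct] at h2
          linarith
        · left
          exact sub_eq_zero.1 h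

end Pool.Agent.Helper82.SP
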